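import Pool.Agent.H.MP_cba12a_lc.Defs
import Pool.Agent.H.MP_5be563_lc.PT.Main
import Pool.Agent.H.MP_5be563_lc.PT.Arith
import Pool.Agent.H.MP_5be563_lc.PT.Tree

/-!
The learning algorithm, as a function on lists, and its polynomial-time computability.
-/

namespace Pool.Agent.H.MP_cba12a_lc

open Pool.Agent.H.MP_5be563_lc.PT

/-- Number of samples with label `v` which satisfy `C` and do not satisfy `h`. -/
def cnt (S : Samples) (v : Bool) (C : List Lit) (h : List (List Lit)) : ℕ :=
  (S.filter fun p => (p.2 == v) && (sat p.1 C && !(satD p.1 h))).length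

/-- One step of the enumeration of short conjunctions. -/
def grow (N : ℕ) (V : List Lit) (L : List (List Lit)) : List (List Lit) :=
  if ([] :: L.flatMap fun S => V.map fun l => l :: S).length ≤ N then
    ([] :: L.flatMap fun S => V.map fun l => l :: S) else L

/-- The seeds: short conjunctions over `V`, found in `k` steps, at most `N` of them. -/
def seeds (N k : ℕ) (V : List Lit) : List (List Lit) := (grow N V)^[k] [[]]

/-- One step of the enumeration of subsets. -/
def subStep (N : ℕ) (acc : List (List Lit)) (l : Lit) : List (List Lit) :=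
  if (acc ++ acc.map (fun W => l :: W)).length ≤ N then acc ++ acc.map (fun W => l :: W) else acc

/-- Subsets of `C`, at most `N` of them. -/
def subs (N : ℕ) (C : List Lit) : List (List Lit) := C.foldl (subStep N) [[]]

/-- Literals that are frequent among the positive samples not yet covered which satisfy `Z`. -/
def freq (V : List Lit) (S : Samples) (h : List (List Lit)) (Z : List Lit) : List Lit :=
  V.filter fun l => decide (23 * cnt S true Z h ≤ 32 * cnt S true (l :: Z) h)

/-- candidate conjunctions built from the seed `Z` -/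
def cands (N : ℕ) (V : List Lit) (S : Samples) (h : List (List Lit)) (Z : List Lit) :
    List (List Lit) :=
  (subs N (freq V S h Z)).map fun W => W ++ Z

/-- acceptance test -/
def acc (s a : ℕ) (S : Samples) (h : List (List Lit)) (C : List Lit) : Bool :=
  decide (cnt S false C [] * (128 * s * a * a) ≤ S.length) &&
    decide (S.length ≤ cnt S true C h * (8 * s * a))

/-- The candidates that pass the test. -/
def good (s a N k : ℕ) (V : List Lit) (S : Samples) (h : List (List Lit)) : List (List Lit) :=
  ((seeds N k V).flatMap fun Z => cands N V S h Z).filter fun C => acc s a S h C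

/-- One round: add the first acceptable candidate. -/
def step (s a N k : ℕ) (V : List Lit) (S : Samples) (h : List (List Lit)) : List (List Lit) :=
  (good s a N k V S h).take 1 ++ h

/-- The core of the learner. -/
def core (s a N k : ℕ) (V : List Lit) (S : Samples) : List (List Lit) :=
  (step s a N k V S)^[16 * s * a] []

/-- All literals over `n` variables. -/
def allLits (n : ℕ) : List Lit := (List.range n).flatMap fun i => [(i, false), (i, true)]

/-! ### Size invariants -/

/-- `L` has at most `m` entries, each of length at most `k` with literals in `V`. -/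
def Bd (m k : ℕ) (V : List Lit) (L : List (List Lit)) : Prop :=
  L.length ≤ m ∧ ∀ C ∈ L, C.length ≤ k ∧ ∀ l ∈ C, l ∈ V

theorem Bd.sz_le {m k : ℕ} {V : List Lit} {L : List (List Lit)} (h : Bd m k V L) :
    sz L ≤ m * (k * (sz V + 1) + 2) + 1 := by
  refine (sz_le_of_forall L (k * (sz V + 1) + 1) ?_).trans ?_
  · intro C hC
    refine (sz_le_of_forall C (sz V) ?_).trans ?_
    · intro l hl
      exact (sz_mem_lt ((h.2 C hC).2 l hl)).le
    · have := Nat.mul_le_mul_right (sz V + 1) (h.2 C hC).1
      omega
  · have := Nat.mul_le_mul_right (k * (sz V + 1) + 2) h.1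
    simpa using this

theorem Bd.mono {m m' k k' : ℕ} {V : List Lit} {L : List (List Lit)} (h : Bd m k V L)
    (hm : m ≤ m') (hk : k ≤ k') : Bd m' k' V L :=
  ⟨h.1.trans hm, fun C hC => ⟨(h.2 C hC).1.trans hk, (h.2 C hC).2⟩⟩

theorem bd_grow {N k : ℕ} {V : List Lit} {L : List (List Lit)} (h : Bd (N + 1) k V L) :
    Bd (N + 1) (k + 1) V (grow N V L) := by
  unfold grow
  split_ifs with hN
  · refine ⟨by omega, ?_⟩
    intro C hC
    rcases List.mem_cons.1 hC with rfl | hC
    · simp
    · obtain ⟨S, hS, hC⟩ := List.mem_flatMap.1 hC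
      obtain ⟨l, hl, rfl⟩ := List.mem_map.1 hC
      have := h.2 S hS
      refine ⟨by simpa using this.1, ?_⟩
      intro l' hl'
      rcases List.mem_cons.1 hl' with rfl | hl'
      · exact hl
      · exact this.2 l' hl'
  · exact h.mono le_rfl (by omega)

theorem bd_seeds (N k : ℕ) (V : List Lit) : Bd (N + 1) k V (seeds N k V) := by
  unfold seeds
  induction k with
  | zero => exact ⟨by simp, by simp⟩
  | succ k ih => rw [Function.iterate_succ_apply']; exact bd_grow ih

theorem bd_subs_aux (N : ℕ) (V : List Lit) : ∀ (C : List Lit) (k : ℕ) (L : List (List Lit)),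
    (∀ l ∈ C, l ∈ V) → Bd (N + 1) k V L → Bd (N + 1) (k + C.length) V (C.foldl (subStep N) L) := by
  intro C
  induction C with
  | nil => intro k L _ h; simpa using h
  | cons l C ih =>
    intro k L hC h
    have h1 : Bd (N + 1) (k + 1) V (subStep N L l) := by
      unfold subStep
      split_ifs with hN
      · refine ⟨by omega, ?_⟩
        intro W hW
        rcases List.mem_append.1 hW with hW | hW
        · exact ⟨by have := (h.2 W hW).1; omega, (h.2 W hW).2⟩
        · obtain ⟨W', hW', rfl⟩ := List.mem_map.1 hW
          refine ⟨by simpa using (h.2 W' hW').1, ?_⟩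
          intro l' hl'
          rcases List.mem_cons.1 hl' with rfl | hl'
          · exact hC _ (by simp)
          · exact (h.2 W' hW').2 l' hl'
      · exact h.mono le_rfl (by omega)
    have := ih (k + 1) _ (fun l' hl' => hC l' (by simp [hl'])) h1
    rw [List.length_cons, show k + (C.length + 1) = k + 1 + C.length by ring]
    exact this

theorem bd_subs (N : ℕ) (V C : List Lit) (hC : ∀ l ∈ C, l ∈ V) :
    Bd (N + 1) C.length V (subs N C) := by
  have := bd_subs_aux N V C 0 [[]] hC ⟨by simp, by simp⟩
  simpa [subs] using this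

theorem length_freq_le (V : List Lit) (S : Samples) (h : List (List Lit)) (Z : List Lit) :
    (freq V S h Z).length ≤ V.length := List.length_filter_le _ _

theorem mem_good {s a N k : ℕ} {V : List Lit} {S : Samples} {h : List (List Lit)} {C : List Lit}
    (hC : C ∈ good s a N k V S h) :
    (C.length ≤ V.length + k ∧ ∀ l ∈ C, l ∈ V) ∧ acc s a S h C = true := by
  unfold good at hC
  obtain ⟨h1, h2⟩ := List.mem_filter.1 hC
  refine ⟨?_, h2⟩
  obtain ⟨Z, hZ, h1⟩ := List.mem_flatMap.1 h1
  obtain ⟨W, hW, rfl⟩ := List.mem_map.1 h1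
  have hZ' := (bd_seeds N k V).2 Z hZ
  have hW' := (bd_subs N V (freq V S h Z) (fun l hl => (List.mem_filter.1 hl).1)).2 W hW
  have := length_freq_le V S h Z
  refine ⟨by rw [List.length_append]; omega, ?_⟩
  intro l hl
  rcases List.mem_append.1 hl with hl | hl
  · exact hW'.2 l hl
  · exact hZ'.2 l hl

theorem bd_step {s a N k m : ℕ} {V : List Lit} {S : Samples} {h : List (List Lit)}
    (hh : Bd m (V.length + k) V h) : Bd (m + 1) (V.length + k) V (step s a N k V S h) := by
  unfold step
  refine ⟨?_, ?_⟩
  · have h1 := hh.1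
    have h2 : (List.take 1 (good s a N k V S h)).length ≤ 1 := List.length_take_le _ _
    rw [List.length_append]
    omega
  · intro C hC
    rcases List.mem_append.1 hC with hC | hC
    · exact (mem_good (List.mem_of_mem_take hC)).1
    · exact hh.2 C hC

theorem bd_core (s a N k : ℕ) (V : List Lit) (S : Samples) (j : ℕ) :
    Bd j (V.length + k) V ((step s a N k V S)^[j] []) := by
  induction j with
  | zero => exact ⟨by simp, by simp⟩
  | succ j ih => rw [Function.iterate_succ_apply']; exact bd_step ih

/-! ### Polynomial time -/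

section poly

variable {α : Type} [Enc α]

@[fun_prop]
theorem poly_sat {xs : α → List Bool} {C : α → List Lit} (hx : Poly xs) (hC : Poly C) :
    Poly (fun a => sat (xs a) (C a)) := by
  unfold sat
  fun_prop

@[fun_prop]
theorem poly_satD {xs : α → List Bool} {F : α → List (List Lit)} (hx : Poly xs) (hF : Poly F) :
    Poly (fun a => satD (xs a) (F a)) := by
  unfold satD
  fun_prop

@[fun_prop]
theorem poly_cnt {S : α → Samples} {v : α → Bool} {C : α → List Lit} {h : α → List (List Lit)}
    (hS : Poly S) (hv : Poly v) (hC : Poly C) (hh : Poly h) :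
    Poly (fun a => cnt (S a) (v a) (C a) (h a)) := by
  unfold cnt
  fun_prop

@[fun_prop]
theorem poly_grow {N : α → ℕ} {V : α → List Lit} {L : α → List (List Lit)}
    (hN : Poly N) (hV : Poly V) (hL : Poly L) : Poly (fun a => grow (N a) (V a) (L a)) := by
  unfold grow
  fun_prop

@[fun_prop]
theorem poly_subStep {N : α → ℕ} {l : α → Lit} {L : α → List (List Lit)}
    (hN : Poly N) (hL : Poly L) (hl : Poly l) : Poly (fun a => subStep (N a) (L a) (l a)) := by
  unfold subStep
  fun_prop

@[fun_prop]
theorem poly_seeds {N k : α → ℕ} {V : α → List Lit}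
    (hN : Poly N) (hk : Poly k) (hV : Poly V) : Poly (fun a => seeds (N a) (k a) (V a)) := by
  unfold seeds
  refine Poly.iterate (f := fun a L => grow (N a) (V a) L) (s := fun _ => [[]]) (n := k)
    (B := fun a => (sz (N a) + 1) * (sz (k a) * (sz (V a) + 1) + 2) + 1)
    (by fun_prop) (by fun_prop) hk ?_ ?_
  · exact ((hN.sz_le.add (PBdd.const 1)).mul ((hk.sz_le.mul (hV.sz_le.add (PBdd.const 1))).add
      (PBdd.const 2))).add (PBdd.const 1)
  · intro a j hj
    have h := (bd_seeds (N a) j (V a)).mono (m' := sz (N a) + 1) (k' := sz (k a))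
      (by simp only [sz_nat]; omega) (by simp only [sz_nat]; omega)
    exact h.sz_le

@[fun_prop]
theorem poly_subs {N : α → ℕ} {C : α → List Lit} (hN : Poly N) (hC : Poly C) :
    Poly (fun a => subs (N a) (C a)) := by
  unfold subs
  refine Poly.foldl (f := fun p : α × List (List Lit) × Lit => subStep (N p.1) p.2.1 p.2.2)
    (s0 := fun _ => [[]]) (l := C)
    (B := fun a => (sz (N a) + 1) * (sz (C a) * (sz (C a) + 1) + 2) + 1)
    (by fun_prop) hC (by fun_prop) ?_ ?_
  · exact ((hN.sz_le.add (PBdd.const 1)).mul ((hC.sz_le.mul (hC.sz_le.add (PBdd.const 1))).add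
      (PBdd.const 2))).add (PBdd.const 1)
  · intro a l₁ l₂ h
    have hb := bd_subs_aux (N a) (C a) l₁ 0 [[]] (fun l hl => by rw [h]; simp [hl])
      ⟨by simp, by simp⟩
    have hlen : l₁.length ≤ sz (C a) := by
      have := length_lt_sz (C a)
      rw [h, List.length_append] at this
      rw [h]
      omega
    exact (hb.mono (m' := sz (N a) + 1) (k' := sz (C a)) (by simp only [sz_nat]; omega)
      (by omega)).sz_le

@[fun_prop]
theorem poly_freq {V : α → List Lit} {S : α → Samples} {h : α → List (List Lit)}
    {Z : α → List Lit} (hV : Poly V) (hS : Poly S) (hh : Poly h) (hZ : Poly Z) :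
    Poly (fun a => freq (V a) (S a) (h a) (Z a)) := by
  unfold freq
  fun_prop

@[fun_prop]
theorem poly_cands {N : α → ℕ} {V : α → List Lit} {S : α → Samples} {h : α → List (List Lit)}
    {Z : α → List Lit} (hN : Poly N) (hV : Poly V) (hS : Poly S) (hh : Poly h) (hZ : Poly Z) :
    Poly (fun a => cands (N a) (V a) (S a) (h a) (Z a)) := by
  unfold cands
  fun_prop

@[fun_prop]
theorem poly_acc {s t : α → ℕ} {S : α → Samples} {h : α → List (List Lit)}
    {C : α → List Lit} (hs : Poly s) (ht : Poly t) (hS : Poly S) (hh : Poly h) (hC : Poly C) :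
    Poly (fun a => acc (s a) (t a) (S a) (h a) (C a)) := by
  unfold acc
  fun_prop

@[fun_prop]
theorem poly_good {s t N k : α → ℕ} {V : α → List Lit} {S : α → Samples}
    {h : α → List (List Lit)} (hs : Poly s) (ht : Poly t) (hN : Poly N) (hk : Poly k)
    (hV : Poly V) (hS : Poly S) (hh : Poly h) :
    Poly (fun a => good (s a) (t a) (N a) (k a) (V a) (S a) (h a)) := by
  unfold good
  fun_prop

@[fun_prop]
theorem poly_step {s t N k : α → ℕ} {V : α → List Lit} {S : α → Samples}
    {h : α → List (List Lit)} (hs : Poly s) (ht : Poly t) (hN : Poly N) (hk : Poly k)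
    (hV : Poly V) (hS : Poly S) (hh : Poly h) :
    Poly (fun a => step (s a) (t a) (N a) (k a) (V a) (S a) (h a)) := by
  unfold step
  fun_prop

@[fun_prop]
theorem poly_core {s t N k : α → ℕ} {V : α → List Lit} {S : α → Samples}
    (hs : Poly s) (ht : Poly t) (hN : Poly N) (hk : Poly k)
    (hV : Poly V) (hS : Poly S) :
    Poly (fun a => core (s a) (t a) (N a) (k a) (V a) (S a)) := by
  unfold core
  refine Poly.iterate (f := fun a L => step (s a) (t a) (N a) (k a) (V a) (S a) L)
    (s := fun _ => []) (n := fun a => 16 * s a * t a)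
    (B := fun a => (16 * sz (s a) * sz (t a)) *
      ((sz (V a) + sz (k a)) * (sz (V a) + 1) + 2) + 1)
    (by fun_prop) (by fun_prop) (by fun_prop) ?_ ?_
  · exact ((((PBdd.const 16).mul hs.sz_le).mul ht.sz_le).mul
      (((hV.sz_le.add hk.sz_le).mul (hV.sz_le.add (PBdd.const 1))).add (PBdd.const 2))).add
      (PBdd.const 1)
  · intro a j hj
    have h := (bd_core (s a) (t a) (N a) (k a) (V a) (S a) j).mono
      (m' := 16 * sz (s a) * sz (t a)) (k' := sz (V a) + sz (k a)) ?_ ?_
    · exact h.sz_le
    · refine hj.trans ?_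
      refine Nat.mul_le_mul (Nat.mul_le_mul_left _ ?_) ?_ <;> simp only [sz_nat] <;> omega
    · have := length_lt_sz (V a)
      simp only [sz_nat]
      omega

@[fun_prop]
theorem poly_allLits {n : α → ℕ} (hn : Poly n) : Poly (fun a => allLits (n a)) := by
  unfold allLits
  fun_prop

end poly

end Pool.Agent.H.MP_cba12a_lc
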