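import Pool.Agent.H.MP_cba12a_lc.Clock
import Pool.Agent.H.MP_5be563_lc.PT.Arith

/-!
Computing the rounded-up binary logarithm in polynomial time (unary coding).
-/

namespace Pool.Agent.H.MP_cba12a_lc

open Pool.Agent.H.MP_5be563_lc.PT

/-- one step of the computation of the logarithm -/
def lgStep (s : ℕ) (q : ℕ × ℕ) : ℕ × ℕ := if s ≤ q.2 then q else (q.1 + 1, 2 * q.2)

theorem lgStep_iterate (s j : ℕ) :
    (lgStep s)^[j] (0, 1) = (min j (Nat.clog 2 s), 2 ^ (min j (Nat.clog 2 s))) := by
  induction j with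
  | zero => simp
  | succ j ih =>
    rw [Function.iterate_succ_apply', ih]
    unfold lgStep
    by_cases hs : s ≤ 2 ^ (min j (Nat.clog 2 s))
    · rw [if_pos hs]
      have h1 : Nat.clog 2 s ≤ min j (Nat.clog 2 s) := Nat.clog_le_of_le_pow hs
      have h2 : min (j + 1) (Nat.clog 2 s) = min j (Nat.clog 2 s) := by omega
      rw [h2]
    · rw [if_neg hs]
      have h1 : j < Nat.clog 2 s := by
        by_contra hc
        have : min j (Nat.clog 2 s) = Nat.clog 2 s := by omega
        rw [this] at hs
        exact hs (Nat.le_pow_clog (by norm_num) s)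
      have h2 : min j (Nat.clog 2 s) = j := by omega
      have h3 : min (j + 1) (Nat.clog 2 s) = j + 1 := by omega
      rw [h2, h3]
      refine Prod.ext rfl ?_
      simp [pow_succ, mul_comm]

theorem lg_bd (s j : ℕ) :
    ((lgStep s)^[j] (0, 1)).1 ≤ j ∧ ((lgStep s)^[j] (0, 1)).2 ≤ 2 * s + 1 := by
  induction j with
  | zero => simp
  | succ j ih =>
    rw [Function.iterate_succ_apply']
    generalize (lgStep s)^[j] (0, 1) = q at ih ⊢
    unfold lgStep
    split_ifs with h1
    · omega
    · simp only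
      omega

theorem clog_le_self (s : ℕ) : Nat.clog 2 s ≤ s := Nat.clog_le_of_le_pow Nat.lt_two_pow_self.le

@[fun_prop]
theorem poly_clog {α : Type} [Enc α] {s : α → ℕ} (hs : Poly s) :
    Poly (fun a => Nat.clog 2 (s a)) := by
  have h : Poly (fun a => (lgStep (s a))^[s a] (0, 1)) := by
    refine Poly.iterate (f := fun a q => lgStep (s a) q) (s := fun _ => (0, 1))
      (n := s) (B := fun a => 4 * sz (s a) + 20) ?_ (by fun_prop) hs ?_ ?_
    · unfold lgStep
      fun_prop
    · exact ((PBdd.const 4).mul hs.sz_le).add (PBdd.const 20)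
    · intro a j hj
      have h := lg_bd (s a) j
      have e : (fun q => lgStep (s a) q) = lgStep (s a) := rfl
      rw [sz_prod, e]
      simp only [sz_nat]
      omega
  have h2 : Poly (fun a => ((lgStep (s a))^[s a] (0, 1)).1) := by fun_prop
  refine (show (fun a => Nat.clog 2 (s a)) = _ from ?_) ▸ h2
  funext a
  rw [lgStep_iterate]
  simp only
  have := clog_le_self (s a)
  omega

theorem two_pow_clog_le (s : ℕ) (hs : 1 ≤ s) : 2 ^ Nat.clog 2 s ≤ 2 * s := by
  rcases Nat.eq_or_lt_of_le hs with h | h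
  · rw [← h]
    simp
  · have h1 : 0 < Nat.clog 2 s := Nat.clog_pos (by norm_num) (by omega)
    have h2 : 2 ^ (Nat.clog 2 s - 1) < s := by
      have := Nat.pow_pred_clog_lt_self (b := 2) (by norm_num) (show 1 < s by omega)
      simpa using this
    have h3 : 2 ^ Nat.clog 2 s = 2 * 2 ^ (Nat.clog 2 s - 1) := by
      rw [← pow_succ']
      congr 1
      omega
    omega

end Pool.Agent.H.MP_cba12a_lc
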