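import Pool.Agent.H.MP_cba12a_lc.Algo
import Pool.Agent.H.MP_cba12a_lc.Lg

/-!
The learner for unate DNF formulas in which every variable occurs in few terms.
-/

namespace Pool.Agent.H.MP_cba12a_lc

open Pool.Agent.H.MP_5be563_lc.PT

/-- the opposite literal -/
def neg (l : Lit) : Lit := (l.1, !l.2)

/-- equality of literals -/
def eqL (l l' : Lit) : Bool := (l.1 == l'.1) && (l.2 == l'.2)

/-- remove the literal `l0` from all terms -/
def strip (l0 : Lit) (h : List (List Lit)) : List (List Lit) :=
  h.map fun C => C.filter fun l => !(eqL l l0)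

/-- count of the samples at which `l0` is pivotal (in expectation) -/
def pcnt (S : Samples) (h : List (List Lit)) (l0 : Lit) (Z : List Lit) : ℕ :=
  cnt S true (l0 :: Z) h - cnt S true (neg l0 :: Z) (strip l0 h)

/-- frequent literals among the samples where `l0` is pivotal -/
def freq4 (V : List Lit) (S : Samples) (h : List (List Lit)) (l0 : Lit) (Z : List Lit) :
    List Lit :=
  V.filter fun l => !(l.1 == l0.1) && decide (23 * pcnt S h l0 Z ≤ 32 * pcnt S h l0 (l :: Z))

/-- candidates -/
def cands4 (N : ℕ) (V : List Lit) (S : Samples) (h : List (List Lit)) (l0 : Lit)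
    (Z : List Lit) : List (List Lit) :=
  (subs N (freq4 V S h l0 Z)).map fun W => l0 :: (W ++ Z)

/-- acceptance test -/
def acc4 (A B : ℕ) (S : Samples) (h : List (List Lit)) (C : List Lit) : Bool :=
  decide (cnt S false C [] * A ≤ S.length) && decide (S.length ≤ cnt S true C h * B)

/-- candidates that pass the test -/
def good4 (A B N k : ℕ) (V : List Lit) (S : Samples) (h : List (List Lit)) : List (List Lit) :=
  (V.flatMap fun l0 => (seeds N k V).flatMap fun Z => cands4 N V S h l0 Z).filter
    fun C => acc4 A B S h C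

/-- one round -/
def step4 (A B N k : ℕ) (V : List Lit) (S : Samples) (h : List (List Lit)) : List (List Lit) :=
  (good4 A B N k V S h).take 1 ++ h

/-- all rounds -/
def core4 (A B R N k : ℕ) (V : List Lit) (S : Samples) : List (List Lit) :=
  (step4 A B N k V S)^[R] []

/-- influential variables with their orientation -/
def orient (n Θ : ℕ) (S : Samples) : List Lit :=
  (allLits n).filter fun l => decide (3 * S.length ≤ 4 * Θ *
    (cnt S true [l] [] - cnt S true [neg l] []))

theorem mem_good4 {A B N k : ℕ} {V : List Lit} {S : Samples} {h : List (List Lit)} {C : List Lit}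
    (hC : C ∈ good4 A B N k V S h) :
    (C.length ≤ V.length + k + 1 ∧ ∀ l ∈ C, l ∈ V) ∧ acc4 A B S h C = true := by
  unfold good4 at hC
  obtain ⟨h1, h2⟩ := List.mem_filter.1 hC
  refine ⟨?_, h2⟩
  obtain ⟨l0, hl0, h1⟩ := List.mem_flatMap.1 h1
  obtain ⟨Z, hZ, h1⟩ := List.mem_flatMap.1 h1
  obtain ⟨W, hW, rfl⟩ := List.mem_map.1 h1
  have hZ' := (bd_seeds N k V).2 Z hZ
  have hW' := (bd_subs N V (freq4 V S h l0 Z) (fun l hl => (List.mem_filter.1 hl).1)).2 W hW
  have : (freq4 V S h l0 Z).length ≤ V.length := List.length_filter_le _ _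
  refine ⟨by rw [List.length_cons, List.length_append]; omega, ?_⟩
  intro l hl
  rcases List.mem_cons.1 hl with rfl | hl
  · exact hl0
  · rcases List.mem_append.1 hl with hl | hl
    · exact hW'.2 l hl
    · exact hZ'.2 l hl

theorem bd_step4 {A B N k m : ℕ} {V : List Lit} {S : Samples} {h : List (List Lit)}
    (hh : Bd m (V.length + k + 1) V h) :
    Bd (m + 1) (V.length + k + 1) V (step4 A B N k V S h) := by
  unfold step4
  refine ⟨?_, ?_⟩
  · have h1 := hh.1
    have h2 : (List.take 1 (good4 A B N k V S h)).length ≤ 1 := List.length_take_le _ _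
    rw [List.length_append]
    omega
  · intro C hC
    rcases List.mem_append.1 hC with hC | hC
    · exact (mem_good4 (List.mem_of_mem_take hC)).1
    · exact hh.2 C hC

theorem bd_core4 (A B N k : ℕ) (V : List Lit) (S : Samples) (j : ℕ) :
    Bd j (V.length + k + 1) V ((step4 A B N k V S)^[j] []) := by
  induction j with
  | zero => exact ⟨by simp, by simp⟩
  | succ j ih => rw [Function.iterate_succ_apply']; exact bd_step4 ih

section poly

variable {α : Type} [Enc α]

@[fun_prop]
theorem poly_neg {l : α → Lit} (hl : Poly l) : Poly (fun a => neg (l a)) := by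
  unfold neg
  fun_prop

@[fun_prop]
theorem poly_eqL {l l' : α → Lit} (hl : Poly l) (hl' : Poly l') :
    Poly (fun a => eqL (l a) (l' a)) := by
  unfold eqL
  fun_prop

@[fun_prop]
theorem poly_strip {l : α → Lit} {h : α → List (List Lit)} (hl : Poly l) (hh : Poly h) :
    Poly (fun a => strip (l a) (h a)) := by
  unfold strip
  fun_prop

@[fun_prop]
theorem poly_pcnt {S : α → Samples} {h : α → List (List Lit)} {l : α → Lit} {Z : α → List Lit}
    (hS : Poly S) (hh : Poly h) (hl : Poly l) (hZ : Poly Z) :
    Poly (fun a => pcnt (S a) (h a) (l a) (Z a)) := by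
  unfold pcnt
  fun_prop

@[fun_prop]
theorem poly_freq4 {V : α → List Lit} {S : α → Samples} {h : α → List (List Lit)}
    {l : α → Lit} {Z : α → List Lit} (hV : Poly V) (hS : Poly S) (hh : Poly h) (hl : Poly l)
    (hZ : Poly Z) : Poly (fun a => freq4 (V a) (S a) (h a) (l a) (Z a)) := by
  unfold freq4
  fun_prop

@[fun_prop]
theorem poly_cands4 {N : α → ℕ} {V : α → List Lit} {S : α → Samples} {h : α → List (List Lit)}
    {l : α → Lit} {Z : α → List Lit} (hN : Poly N) (hV : Poly V) (hS : Poly S) (hh : Poly h)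
    (hl : Poly l) (hZ : Poly Z) :
    Poly (fun a => cands4 (N a) (V a) (S a) (h a) (l a) (Z a)) := by
  unfold cands4
  fun_prop

@[fun_prop]
theorem poly_acc4 {A B : α → ℕ} {S : α → Samples} {h : α → List (List Lit)}
    {C : α → List Lit} (hA : Poly A) (hB : Poly B) (hS : Poly S) (hh : Poly h) (hC : Poly C) :
    Poly (fun a => acc4 (A a) (B a) (S a) (h a) (C a)) := by
  unfold acc4
  fun_prop

@[fun_prop]
theorem poly_good4 {A B N k : α → ℕ} {V : α → List Lit} {S : α → Samples}
    {h : α → List (List Lit)} (hA : Poly A) (hB : Poly B) (hN : Poly N) (hk : Poly k)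
    (hV : Poly V) (hS : Poly S) (hh : Poly h) :
    Poly (fun a => good4 (A a) (B a) (N a) (k a) (V a) (S a) (h a)) := by
  unfold good4
  fun_prop

@[fun_prop]
theorem poly_step4 {A B N k : α → ℕ} {V : α → List Lit} {S : α → Samples}
    {h : α → List (List Lit)} (hA : Poly A) (hB : Poly B) (hN : Poly N) (hk : Poly k)
    (hV : Poly V) (hS : Poly S) (hh : Poly h) :
    Poly (fun a => step4 (A a) (B a) (N a) (k a) (V a) (S a) (h a)) := by
  unfold step4
  fun_prop

@[fun_prop]
theorem poly_core4 {A B R N k : α → ℕ} {V : α → List Lit} {S : α → Samples}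
    (hA : Poly A) (hB : Poly B) (hR : Poly R) (hN : Poly N) (hk : Poly k)
    (hV : Poly V) (hS : Poly S) :
    Poly (fun a => core4 (A a) (B a) (R a) (N a) (k a) (V a) (S a)) := by
  unfold core4
  refine Poly.iterate (f := fun a L => step4 (A a) (B a) (N a) (k a) (V a) (S a) L)
    (s := fun _ => []) (n := R)
    (B := fun a => sz (R a) * ((sz (V a) + sz (k a)) * (sz (V a) + 1) + 2) + 1)
    (by fun_prop) (by fun_prop) hR ?_ ?_
  · exact (hR.sz_le.mul
      (((hV.sz_le.add hk.sz_le).mul (hV.sz_le.add (PBdd.const 1))).add (PBdd.const 2))).add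
      (PBdd.const 1)
  · intro a j hj
    have h := (bd_core4 (A a) (B a) (N a) (k a) (V a) (S a) j).mono
      (m' := sz (R a)) (k' := sz (V a) + sz (k a)) ?_ ?_
    · exact h.sz_le
    · refine hj.trans ?_
      simp only [sz_nat]; omega
    · have := length_lt_sz (V a)
      simp only [sz_nat]
      omega

@[fun_prop]
theorem poly_orient {n Θ : α → ℕ} {S : α → Samples} (hn : Poly n) (hΘ : Poly Θ) (hS : Poly S) :
    Poly (fun a => orient (n a) (Θ a) (S a)) := by
  unfold orient
  fun_prop

end poly

end Pool.Agent.H.MP_cba12a_lc
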