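import Pool.Agent.H.MP_cba12a_lc.Algo4

/-!
The learner for (not necessarily unate) DNF formulas in which every variable occurs in few terms:
a decision tree on short implicants, and at every leaf the pivotal test for long terms.
-/

namespace Pool.Agent.H.MP_cba12a_lc

open Pool.Agent.H.MP_5be563_lc.PT

/-- the test: few negative samples satisfy `C` -/
def tst (A : ℕ) (S : Samples) (C : List Lit) : Bool :=
  decide (cnt S false C [] * A ≤ S.length)

/-- the variables of the conjunction are distinct -/
def dist (C : List Lit) : Bool :=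
  C.all fun l => decide ((C.filter fun l' => l'.1 == l.1).length ≤ 1)

/-- short conjunctions whose addition to `α` makes the test succeed -/
def shorts (A N k : ℕ) (V : List Lit) (S : Samples) (α : List Lit) : List (List Lit) :=
  (seeds N k V).filter fun C => dist (C ++ α) && tst A S (C ++ α)

/-- the points of `α` outside `C ++ α`, as a disjoint union of subcubes -/
def negs (α : List Lit) : List Lit → List (List Lit)
  | [] => []
  | l :: D => (neg l :: (D ++ α)) :: negs α D

theorem negs_eq (α C : List Lit) : negs α C = (List.range C.length).flatMap fun i =>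
    ((C.drop i).take 1).map fun l => neg l :: (C.drop (i + 1) ++ α) := by
  induction C with
  | nil => simp [negs]
  | cons l D ih =>
    rw [negs, ih, List.length_cons, List.range_succ_eq_map, List.flatMap_cons]
    simp [List.flatMap_map]

/-- the children of `α` -/
def kids (α C : List Lit) : List (List Lit) := (C ++ α) :: negs α C

/-- `α` is not split -/
def fin (A N k : ℕ) (V : List Lit) (S : Samples) (α : List Lit) : Bool :=
  tst A S α || (shorts A N k V S α).isEmpty

/-- splitting a node -/
def spl (A N k : ℕ) (V : List Lit) (S : Samples) (α : List Lit) : List (List Lit) :=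
  if fin A N k V S α then [α] else ((shorts A N k V S α).take 1).flatMap fun C => kids α C

/-- one round of splitting -/
def treeStep (A N k : ℕ) (V : List Lit) (S : Samples) (L : List (List Lit)) :
    List (List Lit) :=
  if (L.flatMap fun α => spl A N k V S α).length ≤ N then L.flatMap fun α => spl A N k V S α
  else L

/-- the leaves of the tree -/
def tree (A N k : ℕ) (V : List Lit) (S : Samples) (J : ℕ) : List (List Lit) :=
  (treeStep A N k V S)^[J] [[]]

/-- almost all samples in `α` are positive -/
def maj (a : ℕ) (S : Samples) (α : List Lit) : Bool :=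
  decide (cnt S false α [] * (8 * a) ≤ cnt S false α [] + cnt S true α [])

/-- candidates at a leaf -/
def cands5 (N : ℕ) (V : List Lit) (S : Samples) (α : List Lit) (l0 : Lit) (Z : List Lit) :
    List (List Lit) :=
  (subs N (freq4 V S [] l0 (Z ++ α))).map fun W => l0 :: (W ++ α)

/-- accepted candidates at a leaf -/
def good5 (A N k : ℕ) (V : List Lit) (S : Samples) (α : List Lit) : List (List Lit) :=
  (V.flatMap fun l0 => (seeds N k V).flatMap fun Z => cands5 N V S α l0 Z).filter
    fun C => tst A S C

/-- the part of the hypothesis at a leaf -/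
def leafOut (a A N k : ℕ) (V : List Lit) (S : Samples) (α : List Lit) : List (List Lit) :=
  if tst A S α || maj a S α then [α] else good5 A N k V S α

/-- the learner -/
def core5 (a A N k J : ℕ) (V : List Lit) (S : Samples) : List (List Lit) :=
  (tree A N k V S J).flatMap fun α => leafOut a A N k V S α

/-! ### Size invariants -/

theorem neg_mem {n : ℕ} {l : Lit} (h : l ∈ allLits n) : neg l ∈ allLits n := by
  unfold allLits at *
  rw [List.mem_flatMap] at *
  obtain ⟨i, hi, h⟩ := h
  refine ⟨i, hi, ?_⟩
  simp only [List.mem_cons, List.not_mem_nil, or_false] at h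
  rcases h with rfl | rfl <;> simp [neg]

theorem mem_negs {α : List Lit} {C B : List Lit} (h : B ∈ negs α C) :
    ∃ (l : Lit) (D : List Lit), (l :: D) <:+ C ∧ B = neg l :: (D ++ α) := by
  induction C with
  | nil => simp [negs] at h
  | cons l D ih =>
    rw [negs] at h
    rcases List.mem_cons.1 h with rfl | h
    · exact ⟨l, D, List.suffix_refl _, rfl⟩
    · obtain ⟨l', D', h1, h2⟩ := ih h
      exact ⟨l', D', h1.trans (List.suffix_cons _ _), h2⟩

theorem length_negs (α C : List Lit) : (negs α C).length = C.length := by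
  induction C with
  | nil => rfl
  | cons l D ih => rw [negs, List.length_cons, List.length_cons, ih]

theorem bd_kids {n k K : ℕ} {α C : List Lit} (hα : α.length ≤ K ∧ ∀ l ∈ α, l ∈ allLits n)
    (hC : C.length ≤ k ∧ ∀ l ∈ C, l ∈ allLits n) : ∀ B ∈ kids α C,
    B.length ≤ K + k ∧ ∀ l ∈ B, l ∈ allLits n := by
  intro B hB
  unfold kids at hB
  rcases List.mem_cons.1 hB with rfl | hB
  · refine ⟨by rw [List.length_append]; omega, ?_⟩
    intro l hl
    rcases List.mem_append.1 hl with hl | hl
    · exact hC.2 l hl
    · exact hα.2 l hl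
  · obtain ⟨l, D, h1, rfl⟩ := mem_negs hB
    have h2 := h1.length_le
    rw [List.length_cons] at h2
    refine ⟨by rw [List.length_cons, List.length_append]; omega, ?_⟩
    intro l' hl'
    rcases List.mem_cons.1 hl' with rfl | hl'
    · exact neg_mem (hC.2 l (h1.subset (by simp)))
    · rcases List.mem_append.1 hl' with hl' | hl'
      · exact hC.2 l' (h1.subset (by simp [hl']))
      · exact hα.2 l' hl'

theorem mem_shorts {A N k : ℕ} {V : List Lit} {S : Samples} {α C : List Lit}
    (h : C ∈ shorts A N k V S α) :
    (C.length ≤ k ∧ ∀ l ∈ C, l ∈ V) ∧ dist (C ++ α) = true ∧ tst A S (C ++ α) = true := by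
  unfold shorts at h
  obtain ⟨h1, h2⟩ := List.mem_filter.1 h
  rw [Bool.and_eq_true] at h2
  exact ⟨(bd_seeds N k V).2 C h1, h2⟩

theorem bd_spl {A N k n K : ℕ} {S : Samples} {α : List Lit}
    (hα : α.length ≤ K ∧ ∀ l ∈ α, l ∈ allLits n) : ∀ B ∈ spl A N k (allLits n) S α,
    B.length ≤ K + k ∧ ∀ l ∈ B, l ∈ allLits n := by
  intro B hB
  unfold spl at hB
  split_ifs at hB with h
  · rw [List.mem_singleton] at hB
    subst hB
    exact ⟨by omega, hα.2⟩
  · obtain ⟨C, hC, hB⟩ := List.mem_flatMap.1 hB
    exact bd_kids hα (mem_shorts (List.mem_of_mem_take hC)).1 B hB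

theorem bd_tree (A N k n : ℕ) (S : Samples) (j : ℕ) :
    Bd (N + 1) (k * j) (allLits n) (tree A N k (allLits n) S j) := by
  unfold tree
  induction j with
  | zero => exact ⟨by simp, by simp⟩
  | succ j ih =>
    rw [Function.iterate_succ_apply']
    generalize (treeStep A N k (allLits n) S)^[j] [[]] = L at ih ⊢
    unfold treeStep
    split_ifs with h
    · refine ⟨by omega, ?_⟩
      intro B hB
      obtain ⟨α, hα, hB⟩ := List.mem_flatMap.1 hB
      have h1 := bd_spl (ih.2 α hα) B hB
      rw [mul_add, mul_one]
      exact h1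
    · exact ih.mono le_rfl (by rw [mul_add]; omega)

section poly

variable {β : Type} [Enc β]

@[fun_prop]
theorem poly_tst {A : β → ℕ} {S : β → Samples} {C : β → List Lit} (hA : Poly A) (hS : Poly S)
    (hC : Poly C) : Poly (fun p => tst (A p) (S p) (C p)) := by
  unfold tst
  fun_prop

@[fun_prop]
theorem poly_dist {C : β → List Lit} (hC : Poly C) : Poly (fun p => dist (C p)) := by
  unfold dist
  fun_prop

@[fun_prop]
theorem poly_shorts {A N k : β → ℕ} {V : β → List Lit} {S : β → Samples} {α : β → List Lit}
    (hA : Poly A) (hN : Poly N) (hk : Poly k) (hV : Poly V) (hS : Poly S) (hα : Poly α) :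
    Poly (fun p => shorts (A p) (N p) (k p) (V p) (S p) (α p)) := by
  unfold shorts
  fun_prop

@[fun_prop]
theorem poly_kids {α C : β → List Lit} (hα : Poly α) (hC : Poly C) :
    Poly (fun p => kids (α p) (C p)) := by
  unfold kids
  simp only [negs_eq]
  fun_prop

@[fun_prop]
theorem poly_fin {A N k : β → ℕ} {V : β → List Lit} {S : β → Samples} {α : β → List Lit}
    (hA : Poly A) (hN : Poly N) (hk : Poly k) (hV : Poly V) (hS : Poly S) (hα : Poly α) :
    Poly (fun p => fin (A p) (N p) (k p) (V p) (S p) (α p)) := by
  unfold fin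
  fun_prop

@[fun_prop]
theorem poly_spl {A N k : β → ℕ} {V : β → List Lit} {S : β → Samples} {α : β → List Lit}
    (hA : Poly A) (hN : Poly N) (hk : Poly k) (hV : Poly V) (hS : Poly S) (hα : Poly α) :
    Poly (fun p => spl (A p) (N p) (k p) (V p) (S p) (α p)) := by
  unfold spl
  fun_prop

@[fun_prop]
theorem poly_treeStep {A N k : β → ℕ} {V : β → List Lit} {S : β → Samples}
    {L : β → List (List Lit)}
    (hA : Poly A) (hN : Poly N) (hk : Poly k) (hV : Poly V) (hS : Poly S) (hL : Poly L) :
    Poly (fun p => treeStep (A p) (N p) (k p) (V p) (S p) (L p)) := by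
  unfold treeStep
  fun_prop

theorem poly_tree {A N k n J : β → ℕ} {S : β → Samples}
    (hA : Poly A) (hN : Poly N) (hk : Poly k) (hn : Poly n) (hS : Poly S) (hJ : Poly J) :
    Poly (fun p => tree (A p) (N p) (k p) (allLits (n p)) (S p) (J p)) := by
  unfold tree
  have hV : Poly (fun p => allLits (n p)) := by fun_prop
  refine Poly.iterate (f := fun p L => treeStep (A p) (N p) (k p) (allLits (n p)) (S p) L)
    (s := fun _ => [[]]) (n := J)
    (B := fun p => (sz (N p) + 1) * (sz (k p) * sz (J p) * (sz (allLits (n p)) + 1) + 2) + 1)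
    (by fun_prop) (by fun_prop) hJ ?_ ?_
  · exact ((hN.sz_le.add (PBdd.const 1)).mul (((hk.sz_le.mul hJ.sz_le).mul
      (hV.sz_le.add (PBdd.const 1))).add (PBdd.const 2))).add (PBdd.const 1)
  · intro p j hj
    have h := (bd_tree (A p) (N p) (k p) (n p) (S p) j).mono (m' := sz (N p) + 1)
      (k' := sz (k p) * sz (J p)) (by simp only [sz_nat]; omega) (by
        refine Nat.mul_le_mul ?_ (hj.trans ?_) <;> simp only [sz_nat] <;> omega)
    exact h.sz_le

@[fun_prop]
theorem poly_maj {a : β → ℕ} {S : β → Samples} {α : β → List Lit} (ha : Poly a) (hS : Poly S)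
    (hα : Poly α) : Poly (fun p => maj (a p) (S p) (α p)) := by
  unfold maj
  fun_prop

@[fun_prop]
theorem poly_cands5 {N : β → ℕ} {V : β → List Lit} {S : β → Samples} {α : β → List Lit}
    {l : β → Lit} {Z : β → List Lit} (hN : Poly N) (hV : Poly V) (hS : Poly S) (hα : Poly α)
    (hl : Poly l) (hZ : Poly Z) :
    Poly (fun p => cands5 (N p) (V p) (S p) (α p) (l p) (Z p)) := by
  unfold cands5
  fun_prop

@[fun_prop]
theorem poly_good5 {A N k : β → ℕ} {V : β → List Lit} {S : β → Samples} {α : β → List Lit}
    (hA : Poly A) (hN : Poly N) (hk : Poly k) (hV : Poly V) (hS : Poly S) (hα : Poly α) :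
    Poly (fun p => good5 (A p) (N p) (k p) (V p) (S p) (α p)) := by
  unfold good5
  fun_prop

@[fun_prop]
theorem poly_leafOut {a A N k : β → ℕ} {V : β → List Lit} {S : β → Samples}
    {α : β → List Lit} (ha : Poly a) (hA : Poly A) (hN : Poly N) (hk : Poly k) (hV : Poly V)
    (hS : Poly S) (hα : Poly α) :
    Poly (fun p => leafOut (a p) (A p) (N p) (k p) (V p) (S p) (α p)) := by
  unfold leafOut
  fun_prop

theorem poly_core5 {a A N k n J : β → ℕ} {S : β → Samples}
    (ha : Poly a) (hA : Poly A) (hN : Poly N) (hk : Poly k) (hn : Poly n) (hS : Poly S)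
    (hJ : Poly J) :
    Poly (fun p => core5 (a p) (A p) (N p) (k p) (J p) (allLits (n p)) (S p)) := by
  unfold core5
  have h := poly_tree hA hN hk hn hS hJ
  fun_prop

end poly

end Pool.Agent.H.MP_cba12a_lc
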