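import Pool.Agent.H.MP_cba12a_lc.Algo5

/-!
The learner for (not necessarily unate) DNF formulas in which any two terms share few variables:
a decision tree on short conjunctions which almost imply the target, and at every leaf a test with
mixed derivatives for long terms, followed by a greedy cover.
-/

namespace Pool.Agent.H.MP_cba12a_lc

open Pool.Agent.H.MP_5be563_lc.PT

/-- the relative test: at most a `1 / K` fraction of the samples in `C` is negative -/
def rt (K : ℕ) (S : Samples) (C : List Lit) : Bool :=
  decide (cnt S false C [] * K ≤ cnt S false C [] + cnt S true C [])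

/-- short conjunctions whose addition to `α` makes the test succeed -/
def shorts6 (K N k : ℕ) (V : List Lit) (S : Samples) (α : List Lit) : List (List Lit) :=
  (seeds N k V).filter fun C => dist (C ++ α) && rt K S (C ++ α)

/-- `α` is not split -/
def fin6 (K N k : ℕ) (V : List Lit) (S : Samples) (α : List Lit) : Bool :=
  rt K S α || (shorts6 K N k V S α).isEmpty

/-- splitting a node -/
def spl6 (K N k : ℕ) (V : List Lit) (S : Samples) (α : List Lit) : List (List Lit) :=
  if fin6 K N k V S α then [α] else ((shorts6 K N k V S α).take 1).flatMap fun C => kids α C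

/-- one round of splitting -/
def treeStep6 (K N k : ℕ) (V : List Lit) (S : Samples) (L : List (List Lit)) :
    List (List Lit) :=
  if (L.flatMap fun α => spl6 K N k V S α).length ≤ N then L.flatMap fun α => spl6 K N k V S α
  else L

/-- the leaves of the tree -/
def tree6 (K N k : ℕ) (V : List Lit) (S : Samples) (J : ℕ) : List (List Lit) :=
  (treeStep6 K N k V S)^[J] [[]]

/-- the sign patterns on `R`, a list of length `k` -/
def pats : ℕ → List Lit → List (List Lit × Bool)
  | 0, _ => [([], false)]
  | k + 1, R => (R.take 1).flatMap fun l => (pats k (R.drop 1)).flatMap fun p =>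
      [(l :: p.1, p.2), (neg l :: p.1, !p.2)]

/-- number of positive samples with `Z` and a sign pattern on `R` of parity `v` -/
def sgc (k : ℕ) (S : Samples) (R Z : List Lit) (v : Bool) : ℕ :=
  (((pats k R).filter fun p => p.2 == v).flatMap fun p =>
    S.filter fun q => (q.2 == true) && (sat q.1 (p.1 ++ Z) && !(satD q.1 []))).length

/-- the literals which do not decrease the mixed derivative -/
def ext6 (k D : ℕ) (V : List Lit) (S : Samples) (α R : List Lit) : List Lit :=
  V.filter fun l => !((R ++ α).any fun l' => l'.1 == l.1) &&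
    decide ((D - 1) * sgc k S R α false + D * sgc k S R (l :: α) true ≤
      D * sgc k S R (l :: α) false + (D - 1) * sgc k S R α true)

/-- candidates for long terms -/
def longC (N k D : ℕ) (V : List Lit) (S : Samples) (α : List Lit) : List (List Lit) :=
  (seeds N k V).map fun R => R ++ (ext6 k D V S α R ++ α)

/-- candidates for short terms -/
def shortC (N r : ℕ) (V : List Lit) (α : List Lit) : List (List Lit) :=
  (seeds N r V).map fun C => C ++ α

/-- acceptance test -/
def acc6 (K B : ℕ) (S : Samples) (h : List (List Lit)) (C : List Lit) : Bool :=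
  decide (cnt S false C [] * K ≤ cnt S true C h) && decide (S.length ≤ cnt S true C h * B)

/-- one round of the greedy cover -/
def pick (K B : ℕ) (S : Samples) (L h : List (List Lit)) : List (List Lit) :=
  (L.filter fun C => acc6 K B S h C).take 1 ++ h

/-- the greedy cover -/
def greedy6 (K B R : ℕ) (S : Samples) (L : List (List Lit)) : List (List Lit) :=
  (pick K B S L)^[R] []

/-- the learner -/
def core6 (K K' B R N k J r m D n : ℕ) (S : Samples) : List (List Lit) :=
  ((tree6 K N k (allLits n) S J).filter fun α => rt K S α) ++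
    greedy6 K' B R S (((tree6 K N k (allLits n) S J).filter fun α => !(rt K S α)).flatMap
      fun α => shortC N r (allLits n) α ++ longC N m D (allLits n) S α)

/-! ### Size invariants -/

theorem mem_shorts6 {K N k : ℕ} {V : List Lit} {S : Samples} {α C : List Lit}
    (h : C ∈ shorts6 K N k V S α) :
    (C.length ≤ k ∧ ∀ l ∈ C, l ∈ V) ∧ dist (C ++ α) = true ∧ rt K S (C ++ α) = true := by
  unfold shorts6 at h
  obtain ⟨h1, h2⟩ := List.mem_filter.1 h
  rw [Bool.and_eq_true] at h2
  exact ⟨(bd_seeds N k V).2 C h1, h2⟩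

theorem bd_spl6 {K N k n K' : ℕ} {S : Samples} {α : List Lit}
    (hα : α.length ≤ K' ∧ ∀ l ∈ α, l ∈ allLits n) : ∀ B ∈ spl6 K N k (allLits n) S α,
    B.length ≤ K' + k ∧ ∀ l ∈ B, l ∈ allLits n := by
  intro B hB
  unfold spl6 at hB
  split_ifs at hB with h
  · rw [List.mem_singleton] at hB
    subst hB
    exact ⟨by omega, hα.2⟩
  · obtain ⟨C, hC, hB⟩ := List.mem_flatMap.1 hB
    exact bd_kids hα (mem_shorts6 (List.mem_of_mem_take hC)).1 B hB

theorem bd_tree6 (K N k n : ℕ) (S : Samples) (j : ℕ) :
    Bd (N + 1) (k * j) (allLits n) (tree6 K N k (allLits n) S j) := by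
  unfold tree6
  induction j with
  | zero => exact ⟨by simp, by simp⟩
  | succ j ih =>
    rw [Function.iterate_succ_apply']
    generalize (treeStep6 K N k (allLits n) S)^[j] [[]] = L at ih ⊢
    unfold treeStep6
    split_ifs with h
    · refine ⟨by omega, ?_⟩
      intro B hB
      obtain ⟨α, hα, hB⟩ := List.mem_flatMap.1 hB
      have h1 := bd_spl6 (ih.2 α hα) B hB
      rw [mul_add, mul_one]
      exact h1
    · exact ih.mono le_rfl (by rw [mul_add]; omega)

theorem bd_greedy6 (K B : ℕ) (S : Samples) (L : List (List Lit)) (j : ℕ) :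
    ((pick K B S L)^[j] []).length ≤ j ∧ ∀ C ∈ (pick K B S L)^[j] [], C ∈ L := by
  induction j with
  | zero => simp
  | succ j ih =>
    rw [Function.iterate_succ_apply']
    generalize (pick K B S L)^[j] [] = h at ih ⊢
    unfold pick
    constructor
    · have h2 : (List.take 1 (L.filter fun C => acc6 K B S h C)).length ≤ 1 :=
        List.length_take_le _ _
      rw [List.length_append]
      omega
    · intro C hC
      rcases List.mem_append.1 hC with hC | hC
      · exact (List.mem_filter.1 (List.mem_of_mem_take hC)).1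
      · exact ih.2 C hC

section poly

variable {β : Type} [Enc β]

@[fun_prop]
theorem poly_rt {K : β → ℕ} {S : β → Samples} {C : β → List Lit} (hK : Poly K) (hS : Poly S)
    (hC : Poly C) : Poly (fun p => rt (K p) (S p) (C p)) := by
  unfold rt
  fun_prop

@[fun_prop]
theorem poly_shorts6 {A N k : β → ℕ} {V : β → List Lit} {S : β → Samples} {α : β → List Lit}
    (hA : Poly A) (hN : Poly N) (hk : Poly k) (hV : Poly V) (hS : Poly S) (hα : Poly α) :
    Poly (fun p => shorts6 (A p) (N p) (k p) (V p) (S p) (α p)) := by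
  unfold shorts6
  fun_prop

@[fun_prop]
theorem poly_fin6 {A N k : β → ℕ} {V : β → List Lit} {S : β → Samples} {α : β → List Lit}
    (hA : Poly A) (hN : Poly N) (hk : Poly k) (hV : Poly V) (hS : Poly S) (hα : Poly α) :
    Poly (fun p => fin6 (A p) (N p) (k p) (V p) (S p) (α p)) := by
  unfold fin6
  fun_prop

@[fun_prop]
theorem poly_spl6 {A N k : β → ℕ} {V : β → List Lit} {S : β → Samples} {α : β → List Lit}
    (hA : Poly A) (hN : Poly N) (hk : Poly k) (hV : Poly V) (hS : Poly S) (hα : Poly α) :
    Poly (fun p => spl6 (A p) (N p) (k p) (V p) (S p) (α p)) := by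
  unfold spl6
  fun_prop

@[fun_prop]
theorem poly_treeStep6 {A N k : β → ℕ} {V : β → List Lit} {S : β → Samples}
    {L : β → List (List Lit)}
    (hA : Poly A) (hN : Poly N) (hk : Poly k) (hV : Poly V) (hS : Poly S) (hL : Poly L) :
    Poly (fun p => treeStep6 (A p) (N p) (k p) (V p) (S p) (L p)) := by
  unfold treeStep6
  fun_prop

theorem poly_tree6 {A N k n J : β → ℕ} {S : β → Samples}
    (hA : Poly A) (hN : Poly N) (hk : Poly k) (hn : Poly n) (hS : Poly S) (hJ : Poly J) :
    Poly (fun p => tree6 (A p) (N p) (k p) (allLits (n p)) (S p) (J p)) := by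
  unfold tree6
  have hV : Poly (fun p => allLits (n p)) := by fun_prop
  refine Poly.iterate (f := fun p L => treeStep6 (A p) (N p) (k p) (allLits (n p)) (S p) L)
    (s := fun _ => [[]]) (n := J)
    (B := fun p => (sz (N p) + 1) * (sz (k p) * sz (J p) * (sz (allLits (n p)) + 1) + 2) + 1)
    (by fun_prop) (by fun_prop) hJ ?_ ?_
  · exact ((hN.sz_le.add (PBdd.const 1)).mul (((hk.sz_le.mul hJ.sz_le).mul
      (hV.sz_le.add (PBdd.const 1))).add (PBdd.const 2))).add (PBdd.const 1)
  · intro p j hj
    have h := (bd_tree6 (A p) (N p) (k p) (n p) (S p) j).mono (m' := sz (N p) + 1)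
      (k' := sz (k p) * sz (J p)) (by simp only [sz_nat]; omega) (by
        refine Nat.mul_le_mul ?_ (hj.trans ?_) <;> simp only [sz_nat] <;> omega)
    exact h.sz_le

theorem poly_pats (k : ℕ) : ∀ {β : Type} [Enc β] {R : β → List Lit}, Poly R →
    Poly (fun p => pats k (R p)) := by
  induction k with
  | zero =>
    intro β _ R hR
    unfold pats
    fun_prop
  | succ k ih =>
    intro β _ R hR
    unfold pats
    have h1 : Poly (fun p : β × Lit => pats k ((R p.1).drop 1)) := ih (by fun_prop)
    fun_prop

theorem poly_sgc (k : ℕ) {S : β → Samples} {R Z : β → List Lit} {v : β → Bool}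
    (hS : Poly S) (hR : Poly R) (hZ : Poly Z) (hv : Poly v) :
    Poly (fun p => sgc k (S p) (R p) (Z p) (v p)) := by
  unfold sgc
  have h1 := poly_pats k hR
  fun_prop

theorem poly_ineq {a b c d e : β → ℕ} (ha : Poly a) (hb : Poly b) (hc : Poly c) (hd : Poly d)
    (he : Poly e) : Poly (fun p => decide ((e p - 1) * a p + e p * b p ≤
      e p * c p + (e p - 1) * d p)) := by
  fun_prop

theorem poly_varIn {L : β → List Lit} {l : β → Lit} (hL : Poly L) (hl : Poly l) :
    Poly (fun p => !((L p).any fun l' => l'.1 == (l p).1)) := by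
  fun_prop

theorem poly_ext6 (k : ℕ) {D : β → ℕ} {V : β → List Lit} {S : β → Samples}
    {α R : β → List Lit} (hD : Poly D) (hV : Poly V) (hS : Poly S) (hα : Poly α)
    (hR : Poly R) : Poly (fun p => ext6 k (D p) (V p) (S p) (α p) (R p)) := by
  unfold ext6
  have h1 : Poly (fun p : β × Lit => sgc k (S p.1) (R p.1) (α p.1) false) :=
    poly_sgc k (by fun_prop) (by fun_prop) (by fun_prop) (by fun_prop)
  have h2 : Poly (fun p : β × Lit => sgc k (S p.1) (R p.1) (α p.1) true) :=
    poly_sgc k (by fun_prop) (by fun_prop) (by fun_prop) (by fun_prop)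
  have h3 : Poly (fun p : β × Lit => sgc k (S p.1) (R p.1) (p.2 :: α p.1) false) :=
    poly_sgc k (by fun_prop) (by fun_prop) (by fun_prop) (by fun_prop)
  have h4 : Poly (fun p : β × Lit => sgc k (S p.1) (R p.1) (p.2 :: α p.1) true) :=
    poly_sgc k (by fun_prop) (by fun_prop) (by fun_prop) (by fun_prop)
  have h0 : Poly (fun p : β × Lit => D p.1) := by fun_prop
  have h5 := poly_ineq h1 h4 h3 h2 h0
  have h6 : Poly (fun p : β × Lit => !((R p.1 ++ α p.1).any fun l' => l'.1 == p.2.1)) :=
    poly_varIn (L := fun p : β × Lit => R p.1 ++ α p.1) (l := fun p => p.2) (by fun_prop)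
      (by fun_prop)
  have h7 : Poly (fun p : β × Lit => !((R p.1 ++ α p.1).any fun l' => l'.1 == p.2.1) &&
    decide ((D p.1 - 1) * sgc k (S p.1) (R p.1) (α p.1) false +
      D p.1 * sgc k (S p.1) (R p.1) (p.2 :: α p.1) true ≤
      D p.1 * sgc k (S p.1) (R p.1) (p.2 :: α p.1) false +
        (D p.1 - 1) * sgc k (S p.1) (R p.1) (α p.1) true)) := by
    exact Poly.and h6 h5
  exact Poly.filter h7 hV

theorem poly_longC (k : ℕ) {N D : β → ℕ} {V : β → List Lit} {S : β → Samples}
    {α : β → List Lit} (hN : Poly N) (hD : Poly D) (hV : Poly V) (hS : Poly S) (hα : Poly α) :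
    Poly (fun p => longC (N p) k (D p) (V p) (S p) (α p)) := by
  unfold longC
  have h1 : Poly (fun p : β × List Lit => ext6 k (D p.1) (V p.1) (S p.1) (α p.1) p.2) :=
    poly_ext6 k (by fun_prop) (by fun_prop) (by fun_prop) (by fun_prop) (by fun_prop)
  fun_prop

@[fun_prop]
theorem poly_shortC {N r : β → ℕ} {V : β → List Lit} {α : β → List Lit} (hN : Poly N)
    (hr : Poly r) (hV : Poly V) (hα : Poly α) :
    Poly (fun p => shortC (N p) (r p) (V p) (α p)) := by
  unfold shortC
  fun_prop

@[fun_prop]
theorem poly_acc6 {A B : β → ℕ} {S : β → Samples} {h : β → List (List Lit)}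
    {C : β → List Lit} (hA : Poly A) (hB : Poly B) (hS : Poly S) (hh : Poly h) (hC : Poly C) :
    Poly (fun a => acc6 (A a) (B a) (S a) (h a) (C a)) := by
  unfold acc6
  fun_prop

@[fun_prop]
theorem poly_pick {A B : β → ℕ} {S : β → Samples} {L h : β → List (List Lit)}
    (hA : Poly A) (hB : Poly B) (hS : Poly S) (hL : Poly L) (hh : Poly h) :
    Poly (fun a => pick (A a) (B a) (S a) (L a) (h a)) := by
  unfold pick
  fun_prop

@[fun_prop]
theorem poly_greedy6 {A B R : β → ℕ} {S : β → Samples} {L : β → List (List Lit)}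
    (hA : Poly A) (hB : Poly B) (hR : Poly R) (hS : Poly S) (hL : Poly L) :
    Poly (fun a => greedy6 (A a) (B a) (R a) (S a) (L a)) := by
  unfold greedy6
  refine Poly.iterate (f := fun a h => pick (A a) (B a) (S a) (L a) h)
    (s := fun _ => []) (n := R)
    (B := fun a => sz (R a) * (sz (L a) + 1) + 1)
    (by fun_prop) (by fun_prop) hR ?_ ?_
  · exact (hR.sz_le.mul (hL.sz_le.add (PBdd.const 1))).add (PBdd.const 1)
  · intro a j hj
    have h := bd_greedy6 (A a) (B a) (S a) (L a) j
    refine (sz_le_of_forall _ (sz (L a)) ?_).trans ?_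
    · intro C hC
      exact (sz_mem_lt (h.2 C hC)).le
    · have h1 : ((pick (A a) (B a) (S a) (L a))^[j] []).length ≤ sz (R a) := by
        have := h.1
        simp only [sz_nat]
        omega
      have := Nat.mul_le_mul_right (sz (L a) + 1) h1
      have e : (fun h => pick (A a) (B a) (S a) (L a) h) = pick (A a) (B a) (S a) (L a) := rfl
      rw [e]
      omega

theorem poly_core6 (m : ℕ) {K K' B R N k J r D n : β → ℕ} {S : β → Samples}
    (hK : Poly K) (hK' : Poly K') (hB : Poly B) (hR : Poly R) (hN : Poly N) (hk : Poly k)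
    (hJ : Poly J) (hr : Poly r) (hD : Poly D) (hn : Poly n) (hS : Poly S) :
    Poly (fun p => core6 (K p) (K' p) (B p) (R p) (N p) (k p) (J p) (r p) m (D p) (n p)
      (S p)) := by
  unfold core6
  have h := poly_tree6 hK hN hk hn hS hJ
  have h2 : Poly (fun p : β × List Lit => longC (N p.1) m (D p.1) (allLits (n p.1)) (S p.1)
      p.2) := poly_longC m (by fun_prop) (by fun_prop) (by fun_prop) (by fun_prop) (by fun_prop)
  fun_prop

end poly

end Pool.Agent.H.MP_cba12a_lc
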