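import Pool.Agent.H.MP_cba12a_lc.Algo6

/-!
The learner for unate DNF formulas in which any two terms share few variables: a search for large
Fourier coefficients of odd degree followed by a greedy cover.
-/

namespace Pool.Agent.H.MP_cba12a_lc

open Pool.Agent.H.MP_5be563_lc.PT

/-- parity of the number of literals of `R` which fail at `xs` -/
def par (xs : List Bool) (R : List Lit) : Bool :=
  R.foldl (fun b l => xor b (!(xs[l.1]? == some l.2))) false

/-- number of positive samples with parity `v` on `R` -/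
def cntx (S : Samples) (v : Bool) (R : List Lit) : ℕ :=
  (S.filter fun p => (p.2 == true) && (par p.1 R == v)).length

/-- the coefficient on `R` is large on the sample -/
def heavy (Θ : ℕ) (S : Samples) (R : List Lit) : Bool :=
  decide (cntx S true R * Θ + S.length ≤ cntx S false R * Θ)

/-- extensions by two literals with larger variables -/
def ext8 (V : List Lit) (R : List Lit) : List (List Lit) :=
  V.flatMap fun a => (V.filter fun b => (R.all fun l => decide (l.1 < a.1)) &&
    decide (a.1 < b.1)).map fun b => b :: a :: R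

/-- the large sets of the next level -/
def nxt8 (Θ : ℕ) (V : List Lit) (S : Samples) (L : List (List Lit)) : List (List Lit) :=
  (L.flatMap fun R => ext8 V R).filter fun R => heavy Θ S R

/-- one level of the search -/
def lev8 (N Θ : ℕ) (V : List Lit) (S : Samples) (L : List (List Lit)) : List (List Lit) :=
  if (nxt8 Θ V S L).length ≤ N then nxt8 Θ V S L else []

/-- the sets of level `j`, with `2 * j + 1` elements -/
def lvl8 (N Θ : ℕ) (V : List Lit) (S : Samples) (j : ℕ) : List (List Lit) :=
  (lev8 N Θ V S)^[j] (V.map fun l => [l])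

/-- the sets of all levels below `J` -/
def bfs8 (N Θ J : ℕ) (V : List Lit) (S : Samples) : List (List Lit) :=
  (List.range J).flatMap fun j => lvl8 N Θ V S j

/-- all unions of a member of `Zs` and `p` members of `B` -/
def comb : ℕ → List (List Lit) → List (List Lit) → List (List Lit)
  | 0, _, Zs => Zs
  | p + 1, B, Zs => (comb p B Zs).flatMap fun Z => B.map fun R => R ++ Z

/-- the candidates -/
def cand8 (p N Θ J : ℕ) (V : List Lit) (S : Samples) : List (List Lit) :=
  comb p ([] :: bfs8 N Θ J V S) (seeds N p V)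

/-- acceptance test -/
def acc8 (K B : ℕ) (S : Samples) (h : List (List Lit)) (C : List Lit) : Bool :=
  decide (cnt S false C h * K ≤ cnt S true C h) && decide (S.length ≤ cnt S true C h * B)

/-- one round of the greedy cover -/
def pick8 (K B : ℕ) (S : Samples) (L h : List (List Lit)) : List (List Lit) :=
  (L.filter fun C => acc8 K B S h C).take 1 ++ h

/-- the greedy cover -/
def greedy8 (K B R : ℕ) (S : Samples) (L : List (List Lit)) : List (List Lit) :=
  (pick8 K B S L)^[R] []

/-- the learner -/
def core8 (p K B R N Θ J n : ℕ) (S : Samples) : List (List Lit) :=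
  greedy8 K B R S (cand8 p N Θ J (orient n Θ S) S)

/-! ### Size invariants -/

theorem mem_ext8 {V R C : List Lit} (h : C ∈ ext8 V R) : ∃ a ∈ V, ∃ b ∈ V,
    (∀ l ∈ R, l.1 < a.1) ∧ a.1 < b.1 ∧ C = b :: a :: R := by
  unfold ext8 at h
  obtain ⟨a, ha, h⟩ := List.mem_flatMap.1 h
  obtain ⟨b, hb, rfl⟩ := List.mem_map.1 h
  rw [List.mem_filter, Bool.and_eq_true, decide_eq_true_iff, List.all_eq_true] at hb
  exact ⟨a, ha, b, hb.1, fun l hl => of_decide_eq_true (hb.2.1 l hl), hb.2.2, rfl⟩

theorem bd_lvl8 (N Θ : ℕ) (V : List Lit) (S : Samples) (j : ℕ) :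
    Bd (N + V.length) (2 * j + 1) V (lvl8 N Θ V S j) := by
  unfold lvl8
  induction j with
  | zero =>
    refine ⟨by simp, ?_⟩
    intro C hC
    obtain ⟨l, hl, rfl⟩ := List.mem_map.1 hC
    refine ⟨by simp, ?_⟩
    intro l' hl'
    rw [List.mem_singleton] at hl'
    subst hl'
    exact hl
  | succ j ih =>
    rw [Function.iterate_succ_apply']
    generalize (lev8 N Θ V S)^[j] (V.map fun l => [l]) = L at ih ⊢
    unfold lev8
    split_ifs with h
    · refine ⟨by omega, ?_⟩
      intro C hC
      unfold nxt8 at hC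
      obtain ⟨R, hR, hC⟩ := List.mem_flatMap.1 (List.mem_filter.1 hC).1
      obtain ⟨a, ha, b, hb, _, _, rfl⟩ := mem_ext8 hC
      have h1 := ih.2 R hR
      refine ⟨by simp only [List.length_cons]; omega, ?_⟩
      intro l hl
      rcases List.mem_cons.1 hl with rfl | hl
      · exact hb
      · rcases List.mem_cons.1 hl with rfl | hl
        · exact ha
        · exact h1.2 l hl
    · exact ⟨by simp, by simp⟩

theorem bd_greedy8 (K B : ℕ) (S : Samples) (L : List (List Lit)) (j : ℕ) :
    ((pick8 K B S L)^[j] []).length ≤ j ∧ ∀ C ∈ (pick8 K B S L)^[j] [], C ∈ L := by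
  induction j with
  | zero => simp
  | succ j ih =>
    rw [Function.iterate_succ_apply']
    generalize (pick8 K B S L)^[j] [] = h at ih ⊢
    unfold pick8
    constructor
    · have h2 : (List.take 1 (L.filter fun C => acc8 K B S h C)).length ≤ 1 :=
        List.length_take_le _ _
      rw [List.length_append]
      omega
    · intro C hC
      rcases List.mem_append.1 hC with hC | hC
      · exact (List.mem_filter.1 (List.mem_of_mem_take hC)).1
      · exact ih.2 C hC

section poly

variable {β : Type} [Enc β]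

@[fun_prop]
theorem poly_par {xs : β → List Bool} {R : β → List Lit} (hx : Poly xs) (hR : Poly R) :
    Poly (fun p => par (xs p) (R p)) := by
  unfold par
  refine Poly.foldl (f := fun q : β × Bool × Lit =>
      xor q.2.1 (!((xs q.1)[q.2.2.1]? == some q.2.2.2)))
    (s0 := fun _ => false) (l := R) (B := fun _ => 3)
    (by fun_prop) hR (by fun_prop) (PBdd.const 3) (fun _ _ _ _ => sz_bool_le _)

@[fun_prop]
theorem poly_cntx {S : β → Samples} {v : β → Bool} {R : β → List Lit} (hS : Poly S)
    (hv : Poly v) (hR : Poly R) : Poly (fun p => cntx (S p) (v p) (R p)) := by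
  unfold cntx
  fun_prop

@[fun_prop]
theorem poly_heavy {Θ : β → ℕ} {S : β → Samples} {R : β → List Lit} (hΘ : Poly Θ)
    (hS : Poly S) (hR : Poly R) : Poly (fun p => heavy (Θ p) (S p) (R p)) := by
  unfold heavy
  fun_prop

@[fun_prop]
theorem poly_ext8 {V R : β → List Lit} (hV : Poly V) (hR : Poly R) :
    Poly (fun p => ext8 (V p) (R p)) := by
  unfold ext8
  fun_prop

@[fun_prop]
theorem poly_nxt8 {Θ : β → ℕ} {V : β → List Lit} {S : β → Samples} {L : β → List (List Lit)}
    (hΘ : Poly Θ) (hV : Poly V) (hS : Poly S) (hL : Poly L) :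
    Poly (fun p => nxt8 (Θ p) (V p) (S p) (L p)) := by
  unfold nxt8
  fun_prop

@[fun_prop]
theorem poly_lev8 {N Θ : β → ℕ} {V : β → List Lit} {S : β → Samples} {L : β → List (List Lit)}
    (hN : Poly N) (hΘ : Poly Θ) (hV : Poly V) (hS : Poly S) (hL : Poly L) :
    Poly (fun p => lev8 (N p) (Θ p) (V p) (S p) (L p)) := by
  unfold lev8
  fun_prop

@[fun_prop]
theorem poly_lvl8 {N Θ J : β → ℕ} {V : β → List Lit} {S : β → Samples}
    (hN : Poly N) (hΘ : Poly Θ) (hV : Poly V) (hS : Poly S) (hJ : Poly J) :
    Poly (fun p => lvl8 (N p) (Θ p) (V p) (S p) (J p)) := by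
  unfold lvl8
  refine Poly.iterate (f := fun p L => lev8 (N p) (Θ p) (V p) (S p) L)
    (s := fun p => (V p).map fun l => [l]) (n := J)
    (B := fun p => (sz (N p) + sz (V p)) * ((2 * sz (J p) + 1) * (sz (V p) + 1) + 2) + 1)
    (by fun_prop) (by fun_prop) hJ ?_ ?_
  · exact ((hN.sz_le.add hV.sz_le).mul (((((PBdd.const 2).mul hJ.sz_le).add
      (PBdd.const 1)).mul (hV.sz_le.add (PBdd.const 1))).add (PBdd.const 2))).add (PBdd.const 1)
  · intro p j hj
    have h := (bd_lvl8 (N p) (Θ p) (V p) (S p) j).mono (m' := sz (N p) + sz (V p))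
      (k' := 2 * sz (J p) + 1) (by
        have := length_lt_sz (V p)
        simp only [sz_nat]
        omega) (by
        simp only [sz_nat]
        omega)
    exact h.sz_le

@[fun_prop]
theorem poly_bfs8 {N Θ J : β → ℕ} {V : β → List Lit} {S : β → Samples}
    (hN : Poly N) (hΘ : Poly Θ) (hV : Poly V) (hS : Poly S) (hJ : Poly J) :
    Poly (fun p => bfs8 (N p) (Θ p) (J p) (V p) (S p)) := by
  unfold bfs8
  fun_prop

theorem poly_comb (p : ℕ) {B Zs : β → List (List Lit)} (hB : Poly B) (hZ : Poly Zs) :
    Poly (fun a => comb p (B a) (Zs a)) := by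
  induction p with
  | zero => exact hZ
  | succ p ih =>
    unfold comb
    fun_prop

theorem poly_cand8 (p : ℕ) {N Θ J : β → ℕ} {V : β → List Lit} {S : β → Samples}
    (hN : Poly N) (hΘ : Poly Θ) (hV : Poly V) (hS : Poly S) (hJ : Poly J) :
    Poly (fun q => cand8 p (N q) (Θ q) (J q) (V q) (S q)) := by
  unfold cand8
  exact poly_comb p (by fun_prop) (by fun_prop)

@[fun_prop]
theorem poly_acc8 {A B : β → ℕ} {S : β → Samples} {h : β → List (List Lit)}
    {C : β → List Lit} (hA : Poly A) (hB : Poly B) (hS : Poly S) (hh : Poly h) (hC : Poly C) :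
    Poly (fun a => acc8 (A a) (B a) (S a) (h a) (C a)) := by
  unfold acc8
  fun_prop

@[fun_prop]
theorem poly_pick8 {A B : β → ℕ} {S : β → Samples} {L h : β → List (List Lit)}
    (hA : Poly A) (hB : Poly B) (hS : Poly S) (hL : Poly L) (hh : Poly h) :
    Poly (fun a => pick8 (A a) (B a) (S a) (L a) (h a)) := by
  unfold pick8
  fun_prop

@[fun_prop]
theorem poly_greedy8 {A B R : β → ℕ} {S : β → Samples} {L : β → List (List Lit)}
    (hA : Poly A) (hB : Poly B) (hR : Poly R) (hS : Poly S) (hL : Poly L) :
    Poly (fun a => greedy8 (A a) (B a) (R a) (S a) (L a)) := by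
  unfold greedy8
  refine Poly.iterate (f := fun a h => pick8 (A a) (B a) (S a) (L a) h)
    (s := fun _ => []) (n := R)
    (B := fun a => sz (R a) * (sz (L a) + 1) + 1)
    (by fun_prop) (by fun_prop) hR ?_ ?_
  · exact (hR.sz_le.mul (hL.sz_le.add (PBdd.const 1))).add (PBdd.const 1)
  · intro a j hj
    have h := bd_greedy8 (A a) (B a) (S a) (L a) j
    refine (sz_le_of_forall _ (sz (L a)) ?_).trans ?_
    · intro C hC
      exact (sz_mem_lt (h.2 C hC)).le
    · have h1 : ((pick8 (A a) (B a) (S a) (L a))^[j] []).length ≤ sz (R a) := by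
        have := h.1
        simp only [sz_nat]
        omega
      have := Nat.mul_le_mul_right (sz (L a) + 1) h1
      have e : (fun h => pick8 (A a) (B a) (S a) (L a) h) = pick8 (A a) (B a) (S a) (L a) := rfl
      rw [e]
      omega

theorem poly_core8 (p : ℕ) {K B R N Θ J n : β → ℕ} {S : β → Samples}
    (hK : Poly K) (hB : Poly B) (hR : Poly R) (hN : Poly N) (hΘ : Poly Θ)
    (hJ : Poly J) (hn : Poly n) (hS : Poly S) :
    Poly (fun q => core8 p (K q) (B q) (R q) (N q) (Θ q) (J q) (n q) (S q)) := by
  unfold core8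
  have h := poly_orient hn hΘ hS
  have h2 := poly_cand8 p hN hΘ h hS hJ
  fun_prop

end poly

end Pool.Agent.H.MP_cba12a_lc
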