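import Pool.Agent.H.MP_cba12a_lc.Events

/-!
On a representative sample the learner outputs an accurate hypothesis.
-/

namespace Pool.Agent.H.MP_cba12a_lc

open Finset

variable {n m : ℕ} {f : (Fin n → Bool) → Bool}

/-- the error event of a hypothesis -/
def errE (f : (Fin n → Bool) → Bool) (h : List (List Lit)) (x : Fin n → Bool) : Bool :=
  !(f x == satD (List.ofFn x) h)

theorem errE_iff {h : List (List Lit)} {x : Fin n → Bool} :
    errE f h x = true ↔ f x ≠ satD (List.ofFn x) h := by
  unfold errE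
  simp

theorem sat_nil (xs : List Bool) : sat xs [] = true := rfl

theorem sat_cons {xs : List Bool} {l : Lit} {C : List Lit} :
    sat xs (l :: C) = true ↔ xs[l.1]? = some l.2 ∧ sat xs C = true := by
  rw [sat_iff, sat_iff]
  simp

theorem sat_mono {xs : List Bool} {C D : List Lit} (h : ∀ l ∈ C, l ∈ D) (hD : sat xs D = true) :
    sat xs C = true := by
  rw [sat_iff] at *
  exact fun l hl => hD l (h l hl)

theorem greedy (f : (Fin n → Bool) → Bool) (h : List (List Lit)) (T : List Lit) : ∀ j : ℕ,
    (∃ S : List Lit, S.length ≤ j ∧ (∀ l ∈ S, l ∈ T) ∧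
      ∀ l ∈ T, 3 / 4 * mu (ev f true S h) < mu (ev f true (l :: S) h)) ∨
    (∃ S : List Lit, S.length ≤ j ∧ (∀ l ∈ S, l ∈ T) ∧
      mu (ev f true S h) ≤ (3 / 4) ^ j * mu (ev f true [] h)) := by
  intro j
  induction j with
  | zero => right; exact ⟨[], by simp, by simp, by simp⟩
  | succ j ih =>
    rcases ih with ⟨S, h1, h2, h3⟩ | ⟨S, h1, h2, h3⟩
    · left; exact ⟨S, by omega, h2, h3⟩
    · by_cases hc : ∀ l ∈ T, 3 / 4 * mu (ev f true S h) < mu (ev f true (l :: S) h)
      · left; exact ⟨S, by omega, h2, hc⟩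
      · right
        push Not at hc
        obtain ⟨l, hl, hle⟩ := hc
        refine ⟨l :: S, by simpa using h1, ?_, ?_⟩
        · intro l' hl'
          rcases List.mem_cons.1 hl' with rfl | hl'
          · exact hl
          · exact h2 l' hl'
        · rw [pow_succ]
          linarith

/-- Some term of the reference formula covers a fraction `1/(2s)` of the uncovered positives. -/
theorem exists_term {s : ℕ} (hs : 1 ≤ s) {G h : List (List Lit)} (hG : G.length ≤ s)
    (herr : 2 * mu (errE f G) < mu (ev f true [] h)) :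
    ∃ T ∈ G, mu (ev f true [] h) ≤ 2 * s * mu (ev f true T h) := by
  by_contra hcon
  push Not at hcon
  set ρ := mu (ev f true [] h) with hρ
  have hs' : (1 : ℝ) ≤ s := by exact_mod_cast hs
  have h1 : ρ ≤ mu (fun x => G.any fun T => ev f true T h x) + mu (errE f G) := by
    refine mu_le_add ?_
    intro x hx
    rw [ev_iff] at hx
    by_cases hg : satD (List.ofFn x) G = true
    · left
      rw [List.any_eq_true]
      obtain ⟨T, hT, hsT⟩ := satD_iff.1 hg
      exact ⟨T, hT, ev_iff.2 ⟨hx.1, hsT, hx.2.2⟩⟩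
    · right
      rw [errE_iff, hx.1]
      exact fun hc => hg hc.symm
  have h2 := mu_any_le G (fun T => ev f true T h)
  have h3 : (G.map fun T => mu (ev f true T h)).sum ≤
      ((G.map fun T => mu (ev f true T h)).length : ℝ) * (ρ / (2 * s)) := by
    refine sum_le_of_forall _ _ ?_
    intro y hy
    obtain ⟨T, hT, rfl⟩ := List.mem_map.1 hy
    have := hcon T hT
    rw [le_div_iff₀ (by positivity)]
    linarith
  rw [List.length_map] at h3
  have hρ0 : 0 ≤ ρ := mu_nonneg _
  have h4 : (G.length : ℝ) * (ρ / (2 * s)) ≤ ρ / 2 := by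
    have : (G.length : ℝ) ≤ s := by exact_mod_cast hG
    calc (G.length : ℝ) * (ρ / (2 * s)) ≤ s * (ρ / (2 * s)) :=
          mul_le_mul_of_nonneg_right this (by positivity)
      _ = ρ / 2 := by field_simp
  linarith

theorem toF_card_of_nodup {C : List Lit} (hC : C.Nodup) (hn : ∀ l ∈ C, l.1 < n) :
    (toF n C).card = C.length := by
  classical
  rw [← List.toFinset_card_of_nodup hC]
  refine card_bij (fun l _ => ((l.1 : ℕ), l.2)) ?_ ?_ ?_
  · intro l hl
    rw [List.mem_toFinset]
    exact mem_toF.1 hl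
  · rintro ⟨i, v⟩ _ ⟨j, w⟩ _ h
    simp only [Prod.mk.injEq] at h
    exact Prod.ext (Fin.ext h.1) h.2
  · intro l hl
    rw [List.mem_toFinset] at hl
    exact ⟨(⟨l.1, hn l hl⟩, l.2), mem_toF.2 hl, rfl⟩

/-- The main step: while the uncovered positives have density more than `1/(2a)`, some candidate
passes the test. -/
theorem good_ne_nil {s a N k r c : ℕ} {V : List Lit} {ω : Fin m → Fin n → Bool}
    {G h : List (List Lit)} (hm : 0 < m) (hs : 1 ≤ s) (ha : 1 ≤ a)
    (hV : ∀ l ∈ V, l.1 < n) (hVn : V.Nodup)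
    (hG : G.length ≤ s) (hGV : ∀ T ∈ G, ∀ l ∈ T, l ∈ V)
    (herr : mu (errE f G) ≤ 1 / (256 * s * a ^ 2))
    (hrep : Rep f ω r (1 / (256 * s * a ^ 2)))
    (hc : 2 * s ≤ 2 ^ c) (hk : k = 3 * c)
    (hN1 : (V.length + 1) ^ k ≤ N) (hN2 : (4 * s * a) ^ 10 ≤ N)
    (hr : h.length ≤ r) (hh : ∀ D ∈ h, ∀ l ∈ D, l.1 < n)
    (hR : 1 / (2 * a) < mu (ev f true [] h)) : good s a N k V (smp f ω) h ≠ [] := by
  have hs' : (1 : ℝ) ≤ s := by exact_mod_cast hs
  have ha' : (1 : ℝ) ≤ a := by exact_mod_cast ha
  have hm' : (0 : ℝ) < m := by exact_mod_cast hm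
  set τ : ℝ := 1 / (256 * s * a ^ 2) with hτ
  have hτ0 : 0 < τ := by rw [hτ]; positivity
  set ρ := mu (ev f true [] h) with hρ
  -- numeric facts
  have e1 : (1 : ℝ) / (4 * s * a) = 64 * a * τ := by
    rw [hτ]; field_simp; norm_num
  have e1' : 64 * τ ≤ 1 / (4 * s * a) := by
    rw [e1]
    nlinarith
  have e2 : 2 * τ < ρ := by
    refine lt_of_le_of_lt ?_ hR
    rw [hτ, mul_one_div, div_le_div_iff₀ (by positivity) (by positivity)]
    nlinarith [mul_pos (show (0:ℝ) < s by linarith) (show (0:ℝ) < a by linarith)]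
  obtain ⟨T, hT, hTρ⟩ := exists_term (f := f) hs hG (h := h) (by linarith)
  have hTV := hGV T hT
  -- density of the uncovered positives satisfying T
  have hT1 : 1 / (4 * s * a) ≤ mu (ev f true T h) := by
    have h1 : 1 / (2 * a) ≤ 2 * s * mu (ev f true T h) := hR.le.trans hTρ
    rw [div_le_iff₀ (by positivity)] at h1 ⊢
    linarith
  -- the seed
  have hseed : ∃ S : List Lit, S.length ≤ k ∧ (∀ l ∈ S, l ∈ T) ∧
      ∀ l ∈ T, 3 / 4 * mu (ev f true S h) < mu (ev f true (l :: S) h) := by
    rcases greedy f h T k with h1 | ⟨S, -, hST, hSle⟩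
    · exact h1
    · exfalso
      have h1 : mu (ev f true T h) ≤ mu (ev f true S h) := by
        refine mu_mono ?_
        intro x hx
        rw [ev_iff] at *
        exact ⟨hx.1, sat_mono hST hx.2.1, hx.2.2⟩
      have h2 : ((3 : ℝ) / 4) ^ k * (2 * s) < 1 := by
        have h3 : (2 * s : ℝ) ≤ 2 ^ c := by exact_mod_cast hc
        have hc0 : c ≠ 0 := by
          rintro rfl
          simp at hc
          omega
        rw [hk, pow_mul]
        calc (((3 : ℝ) / 4) ^ 3) ^ c * (2 * s) ≤ (((3 : ℝ) / 4) ^ 3) ^ c * 2 ^ c :=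
              mul_le_mul_of_nonneg_left h3 (by positivity)
          _ = (27 / 32) ^ c := by rw [← mul_pow]; norm_num
          _ < 1 := pow_lt_one₀ (by norm_num) (by norm_num) hc0
      have h4 : ρ ≤ (2 * s) * ((3 / 4) ^ k * ρ) := by
        calc ρ ≤ 2 * s * mu (ev f true T h) := hTρ
          _ ≤ 2 * s * ((3 / 4) ^ k * ρ) := by
            refine mul_le_mul_of_nonneg_left (h1.trans hSle) (by positivity)
      have hρ0 : 0 < ρ := by linarith
      nlinarith
  obtain ⟨S, hSk, hST, hSl⟩ := hseed
  have hSV : ∀ l ∈ S, l ∈ V := fun l hl => hTV l (hST l hl)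
  set α := mu (ev f true S h) with hα
  have hTS : mu (ev f true T h) ≤ α := by
    refine mu_mono ?_
    intro x hx
    rw [ev_iff] at *
    exact ⟨hx.1, sat_mono hST hx.2.1, hx.2.2⟩
  have hα1 : 1 / (4 * s * a) ≤ α := hT1.trans hTS
  have hα2 : 64 * τ ≤ α := e1'.trans hα1
  have hSn : ∀ l ∈ S, l.1 < n := fun l hl => hV l (hSV l hl)
  have hrepS := hrep true S h hSn hr hh
  rw [← hα] at hrepS
  have hrepSl : ∀ l ∈ V, |em ω (ev f true (l :: S) h) - mu (ev f true (l :: S) h)| < τ := by
    intro l hl
    refine hrep true (l :: S) h ?_ hr hh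
    intro l' hl'
    rcases List.mem_cons.1 hl' with rfl | hl'
    · exact hV _ hl
    · exact hSn l' hl'
  -- membership in freq in terms of empirical densities
  have hfreq : ∀ l, l ∈ freq V (smp f ω) h S ↔
      l ∈ V ∧ 23 * em ω (ev f true S h) ≤ 32 * em ω (ev f true (l :: S) h) := by
    intro l
    unfold freq
    rw [List.mem_filter, decide_eq_true_iff, cnt_smp, cnt_smp]
    refine and_congr_right fun _ => ?_
    unfold em
    rw [mul_div_assoc', mul_div_assoc', div_le_div_iff_of_pos_right hm']
    norm_cast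
  have hTfreq : ∀ l ∈ T, l ∈ freq V (smp f ω) h S := by
    intro l hl
    rw [hfreq]
    refine ⟨hTV l hl, ?_⟩
    have h1 := hSl l hl
    have h2 := (abs_lt.1 (hrepSl l (hTV l hl))).1
    have h3 := (abs_lt.1 hrepS).2
    linarith
  have hbias : ∀ l ∈ freq V (smp f ω) h S, 11 * α ≤ 16 * mu (ev f true (l :: S) h) := by
    intro l hl
    rw [hfreq] at hl
    have h2 := (abs_lt.1 (hrepSl l hl.1)).2
    have h3 := (abs_lt.1 hrepS).1
    linarith [hl.2]
  -- few frequent literals
  have hFn : ∀ l ∈ freq V (smp f ω) h S, l.1 < n := fun l hl => hV l ((hfreq l).1 hl).1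
  have hFcard : (toF n (freq V (smp f ω) h S)).card = (freq V (smp f ω) h S).length :=
    toF_card_of_nodup (hVn.filter _) hFn
  have hcardΩ : (0 : ℝ) < Fintype.card (Fin n → Bool) := by
    rw [Fintype.card_fun]
    simp
  have hα0 : 0 < α := by linarith
  have hctS : 0 < ct (ev f true S h) := by
    by_contra hcon
    have : ct (ev f true S h) = 0 := by omega
    have : α = 0 := by rw [hα, mu, this]; simp
    linarith
  have hb := bias (ev f true S h) (toF n (freq V (smp f ω) h S)) (by
    intro l hl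
    have hl' := mem_toF.1 hl
    have h1 := hbias _ hl'
    have h2 : mu (fun x => ev f true S h x && (x l.1 == l.2)) =
        mu (ev f true (((l.1 : ℕ), l.2) :: S) h) := by
      refine mu_congr ?_
      intro x
      rw [Bool.and_eq_true, ev_iff, ev_iff, sat_cons, getElem?_ofFn, beq_iff_eq]
      constructor
      · rintro ⟨⟨h1, h2, h3⟩, h4⟩
        exact ⟨h1, ⟨⟨l.1.2, h4⟩, h2⟩, h3⟩
      · rintro ⟨h1, ⟨⟨_, h4⟩, h2⟩, h3⟩
        exact ⟨⟨h1, h2, h3⟩, h4⟩
    rw [← h2, hα] at h1
    unfold mu at h1
    rw [mul_div_assoc', mul_div_assoc', div_le_div_iff_of_pos_right hcardΩ] at h1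
    exact_mod_cast h1) hctS
  rw [hFcard, ← hα] at hb
  have hpowN : 2 ^ (freq V (smp f ω) h S).length ≤ N := by
    have h1 : ((2 : ℝ)) ^ (freq V (smp f ω) h S).length ≤ (4 * s * a) ^ 10 := by
      have h2 : (1 : ℝ) / (4 * s * a) ^ 10 ≤ α ^ 10 := by
        rw [← one_div_pow]
        exact pow_le_pow_left₀ (by positivity) hα1 10
      have h3 : (2 : ℝ) ^ (freq V (smp f ω) h S).length * (1 / (4 * s * a) ^ 10) ≤ 1 :=
        le_trans (mul_le_mul_of_nonneg_left h2 (by positivity)) hb
      rw [mul_one_div, div_le_one (by positivity)] at h3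
      exact h3
    have h2 : 2 ^ (freq V (smp f ω) h S).length ≤ (4 * s * a) ^ 10 := by exact_mod_cast h1
    exact h2.trans hN2
  obtain ⟨W, hW, hWl⟩ := mem_subs hpowN (fun l => l ∈ T)
  have hCT : ∀ l, l ∈ W ++ S ↔ l ∈ T := by
    intro l
    rw [List.mem_append, hWl]
    constructor
    · rintro (h1 | h1)
      · exact h1.2
      · exact hST l h1
    · intro h1
      exact Or.inl ⟨hTfreq l h1, h1⟩
  have hTn : ∀ l ∈ T, l.1 < n := fun l hl => hV l (hTV l hl)
  have hevC : ∀ v h', ev f v (W ++ S) h' = ev f v T h' := by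
    intro v h'
    funext x
    unfold ev
    rw [sat_congr hCT]
  have hacc : acc s a (smp f ω) h (W ++ S) = true := by
    unfold acc
    rw [Bool.and_eq_true, decide_eq_true_iff, decide_eq_true_iff, cnt_smp, cnt_smp, length_smp,
      hevC, hevC]
    constructor
    · have h1 : mu (ev f false T []) ≤ τ := by
        refine le_trans (mu_mono ?_) herr
        intro x hx
        rw [ev_iff] at hx
        rw [errE_iff, hx.1]
        intro hcon
        have := satD_iff.2 ⟨T, hT, hx.2.1⟩
        rw [← hcon] at this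
        exact Bool.noConfusion this
      have h2 := (abs_lt.1 (hrep false T [] hTn (by simp) (by simp))).2
      have h3 : em ω (ev f false T []) ≤ 2 * τ := by linarith
      unfold em at h3
      rw [div_le_iff₀ hm'] at h3
      have h4 : (ec ω (ev f false T []) : ℝ) * (128 * s * a * a) ≤ m := by
        calc (ec ω (ev f false T []) : ℝ) * (128 * s * a * a) ≤
            (2 * τ * m) * (128 * s * a * a) := mul_le_mul_of_nonneg_right h3 (by positivity)
          _ = m := by rw [hτ]; field_simp; norm_num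
      exact_mod_cast h4
    · have h2 := (abs_lt.1 (hrep true T h hTn hr hh)).1
      have h3 : 1 / (8 * s * a) ≤ em ω (ev f true T h) := by
        have h4 : (1 : ℝ) / (8 * s * a) + τ ≤ 1 / (4 * s * a) := by
          have : (1 : ℝ) / (8 * s * a) = 32 * a * τ := by rw [hτ]; field_simp; norm_num
          rw [this, e1]
          nlinarith
        linarith
      unfold em at h3
      rw [div_le_div_iff₀ (by positivity) hm', one_mul] at h3
      exact_mod_cast h3
  refine List.ne_nil_of_mem (a := W ++ S) ?_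
  unfold good
  rw [List.mem_filter]
  refine ⟨?_, hacc⟩
  rw [List.mem_flatMap]
  refine ⟨S, mem_seeds hN1 hSk hSV, ?_⟩
  unfold cands
  rw [List.mem_map]
  exact ⟨W, hW, rfl⟩

/-- consequences of acceptance -/
theorem acc_spec {s a r : ℕ} {ω : Fin m → Fin n → Bool} {h : List (List Lit)} {C : List Lit}
    (hm : 0 < m) (hs : 1 ≤ s) (ha : 1 ≤ a)
    (hrep : Rep f ω r (1 / (256 * s * a ^ 2)))
    (hr : h.length ≤ r) (hh : ∀ D ∈ h, ∀ l ∈ D, l.1 < n) (hC : ∀ l ∈ C, l.1 < n)
    (hacc : acc s a (smp f ω) h C = true) :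
    mu (ev f false C []) ≤ 3 / (256 * s * a ^ 2) ∧
      31 / (256 * s * a) ≤ mu (ev f true C h) := by
  have hs' : (1 : ℝ) ≤ s := by exact_mod_cast hs
  have ha' : (1 : ℝ) ≤ a := by exact_mod_cast ha
  have hm' : (0 : ℝ) < m := by exact_mod_cast hm
  set τ : ℝ := 1 / (256 * s * a ^ 2) with hτ
  have hτ0 : 0 < τ := by rw [hτ]; positivity
  unfold acc at hacc
  rw [Bool.and_eq_true, decide_eq_true_iff, decide_eq_true_iff, cnt_smp, cnt_smp,
    length_smp] at hacc
  obtain ⟨h1, h2⟩ := hacc
  constructor
  · have h3 := (abs_lt.1 (hrep false C [] hC (by simp) (by simp))).1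
    have h4 : em ω (ev f false C []) ≤ 2 * τ := by
      unfold em
      rw [div_le_iff₀ hm']
      have h5 : (ec ω (ev f false C []) : ℝ) * (128 * s * a * a) ≤ m := by exact_mod_cast h1
      have h6 : (2 * τ * m) * (128 * s * a * a) = m := by
        rw [hτ]; field_simp; norm_num
      rw [← h6] at h5
      have h7 : (0 : ℝ) < 128 * s * a * a := by positivity
      have := le_of_mul_le_mul_right h5 h7
      linarith
    have h8 : (3 : ℝ) / (256 * s * a ^ 2) = 3 * τ := by rw [hτ]; ring
    rw [h8]
    linarith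
  · have h3 := (abs_lt.1 (hrep true C h hC hr hh)).2
    have h4 : 1 / (8 * s * a) ≤ em ω (ev f true C h) := by
      unfold em
      rw [div_le_div_iff₀ (by positivity) hm', one_mul]
      exact_mod_cast h2
    have h5 : (1 : ℝ) / (8 * s * a) = 32 * a * τ := by rw [hτ]; field_simp; norm_num
    have h6 : (31 : ℝ) / (256 * s * a) = 31 * a * τ := by rw [hτ]; field_simp
    rw [h6]
    rw [h5] at h4
    nlinarith

theorem ev_nil_cons {h : List (List Lit)} {C : List Lit} :
    mu (ev f true [] h) = mu (ev f true [] (C :: h)) + mu (ev f true C h) := by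
  refine mu_eq_add ?_ ?_
  · intro x
    rw [ev_iff, ev_iff, ev_iff]
    unfold satD
    rw [List.any_cons]
    cases f x <;> cases sat (List.ofFn x) C <;> cases (h.any fun C => sat (List.ofFn x) C) <;>
      simp [sat_nil]
  · intro x
    rw [ev_iff, ev_iff]
    unfold satD
    rw [List.any_cons]
    rintro ⟨⟨_, _, h1⟩, ⟨_, h2, h3⟩⟩
    rw [h2] at h1
    simp at h1

/-- **Accuracy of the learner on representative samples.** -/
theorem core_error {s a N k c : ℕ} {V : List Lit} {ω : Fin m → Fin n → Bool}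
    {G : List (List Lit)} (hm : 0 < m) (hs : 1 ≤ s) (ha : 1 ≤ a)
    (hV : ∀ l ∈ V, l.1 < n) (hVn : V.Nodup)
    (hG : G.length ≤ s) (hGV : ∀ T ∈ G, ∀ l ∈ T, l ∈ V)
    (herr : mu (errE f G) ≤ 1 / (256 * s * a ^ 2))
    (hrep : Rep f ω (16 * s * a) (1 / (256 * s * a ^ 2)))
    (hc : 2 * s ≤ 2 ^ c) (hk : k = 3 * c)
    (hN1 : (V.length + 1) ^ k ≤ N) (hN2 : (4 * s * a) ^ 10 ≤ N) :
    mu (errE f (core s a N k V (smp f ω))) ≤ 1 / a := by
  have hs' : (1 : ℝ) ≤ s := by exact_mod_cast hs
  have ha' : (1 : ℝ) ≤ a := by exact_mod_cast ha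
  set H : ℕ → List (List Lit) := fun j => (step s a N k V (smp f ω))^[j] [] with hH
  have hsucc : ∀ j, H (j + 1) = step s a N k V (smp f ω) (H j) := by
    intro j
    simp only [hH]
    rw [Function.iterate_succ_apply']
  have hbd : ∀ j, Bd j (V.length + k) V (H j) := fun j => bd_core s a N k V (smp f ω) j
  have hlits : ∀ j, ∀ D ∈ H j, ∀ l ∈ D, l.1 < n := fun j D hD l hl =>
    hV l (((hbd j).2 D hD).2 l hl)
  -- every accepted term has a small error
  have hsmall : ∀ j, j ≤ 16 * s * a → ∀ D ∈ H j,
      mu (ev f false D []) ≤ 3 / (256 * s * a ^ 2) := by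
    intro j
    induction j with
    | zero => intro _ D hD; simp [hH] at hD
    | succ j ih =>
      intro hj D hD
      rw [hsucc] at hD
      unfold step at hD
      rcases List.mem_append.1 hD with hD | hD
      · have hD' := mem_good (List.mem_of_mem_take hD)
        exact (acc_spec hm hs ha hrep ((hbd j).1.trans (by omega)) (hlits j)
          (fun l hl => hV l (hD'.1.2 l hl)) hD'.2).1
      · exact ih (by omega) D hD
  -- every step with an accepted term gains
  have hgain : ∀ j, j ≤ 16 * s * a → (∀ i < j, good s a N k V (smp f ω) (H i) ≠ []) →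
      mu (ev f true [] (H j)) ≤ 1 - j * (31 / (256 * s * a)) := by
    intro j
    induction j with
    | zero => intro _ _; simpa using mu_le_one _
    | succ j ih =>
      intro hj hg
      have h1 := ih (by omega) (fun i hi => hg i (by omega))
      have h2 := hg j (by omega)
      cases hgl : good s a N k V (smp f ω) (H j) with
      | nil => exact absurd hgl h2
      | cons C rest =>
        have hC := mem_good (s := s) (a := a) (N := N) (k := k) (V := V) (S := smp f ω)
          (h := H j) (C := C) (by rw [hgl]; simp)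
        have h3 : H (j + 1) = C :: H j := by
          rw [hsucc]
          unfold step
          rw [hgl]
          simp
        have h4 := (acc_spec hm hs ha hrep ((hbd j).1.trans (by omega)) (hlits j)
          (fun l hl => hV l (hC.1.2 l hl)) hC.2).2
        have h5 := ev_nil_cons (f := f) (h := H j) (C := C)
        rw [h3]
        push_cast
        linarith
  -- some round is a fixpoint
  have hfix : ∃ i < 16 * s * a, good s a N k V (smp f ω) (H i) = [] := by
    by_contra hcon
    push Not at hcon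
    have h1 := hgain (16 * s * a) le_rfl (fun i hi => hcon i hi)
    have h2 := mu_nonneg (ev f true [] (H (16 * s * a)))
    have h3 : ((16 * s * a : ℕ) : ℝ) * (31 / (256 * s * a)) = 31 / 16 := by
      push_cast
      field_simp
      norm_num
    rw [h3] at h1
    linarith
  obtain ⟨i, hi, hgi⟩ := hfix
  have hstay : ∀ d, H (i + d) = H i := by
    intro d
    induction d with
    | zero => rfl
    | succ d ih =>
      rw [← add_assoc, hsucc, ih]
      unfold step
      rw [hgi]
      simp
  have hfinal : core s a N k V (smp f ω) = H i := by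
    have := hstay (16 * s * a - i)
    rw [show i + (16 * s * a - i) = 16 * s * a by omega] at this
    exact this
  rw [hfinal]
  have hR : mu (ev f true [] (H i)) ≤ 1 / (2 * a) := by
    by_contra hcon
    exact good_ne_nil hm hs ha hV hVn hG hGV herr hrep hc hk hN1 hN2
      ((hbd i).1.trans (by omega)) (hlits i) (not_le.1 hcon) hgi
  -- total error
  have hFP : mu (fun x => (H i).any fun D => ev f false D [] x) ≤ 3 / (16 * a) := by
    refine (mu_any_le (H i) (fun D => ev f false D [])).trans ?_
    refine (sum_le_of_forall _ (3 / (256 * s * a ^ 2)) ?_).trans ?_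
    · intro y hy
      obtain ⟨D, hD, rfl⟩ := List.mem_map.1 hy
      exact hsmall i (by omega) D hD
    · rw [List.length_map]
      have h1 : ((H i).length : ℝ) ≤ 16 * s * a := by
        have := (hbd i).1.trans hi.le
        exact_mod_cast this
      calc ((H i).length : ℝ) * (3 / (256 * s * a ^ 2)) ≤
          (16 * s * a) * (3 / (256 * s * a ^ 2)) :=
            mul_le_mul_of_nonneg_right h1 (by positivity)
        _ = 3 / (16 * a) := by field_simp; norm_num
  have htot : mu (errE f (H i)) ≤
      mu (fun x => (H i).any fun D => ev f false D [] x) + mu (ev f true [] (H i)) := by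
    refine mu_le_add ?_
    intro x hx
    rw [errE_iff] at hx
    cases hfx : f x with
    | false =>
      left
      rw [hfx] at hx
      have h1 : satD (List.ofFn x) (H i) = true := by
        cases h : satD (List.ofFn x) (H i)
        · exact absurd h.symm hx
        · rfl
      obtain ⟨D, hD, hs⟩ := satD_iff.1 h1
      rw [List.any_eq_true]
      exact ⟨D, hD, ev_iff.2 ⟨hfx, hs, rfl⟩⟩
    | true =>
      right
      rw [hfx] at hx
      refine ev_iff.2 ⟨hfx, rfl, ?_⟩
      cases h : satD (List.ofFn x) (H i)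
      · rfl
      · exact absurd h.symm hx
  have hsum : (3 : ℝ) / (16 * a) + 1 / (2 * a) ≤ 1 / a := by
    have : (3 : ℝ) / (16 * a) + 1 / (2 * a) = (11 / 16) * (1 / a) := by field_simp; norm_num
    rw [this]
    have : (0 : ℝ) < 1 / a := by positivity
    linarith
  linarith

end Pool.Agent.H.MP_cba12a_lc
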