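import Pool.Agent.H.MP_cba12a_lc.Rep8

/-!
The search for large coefficients finds the essential part of every term with a noticeable chance
to be the only satisfied one.
-/

namespace Pool.Agent.H.MP_cba12a_lc

open Finset

variable {n m : ℕ}

/-- all literals of `R` have the right orientation -/
def Ori (o : Fin n → Bool) (R : List Lit) : Prop := ∀ l ∈ R, ∃ i : Fin n, l = ((i : ℕ), o i)

/-- the variables of `R` are decreasing -/
def Dec8 (R : List Lit) : Prop := (R.map Prod.fst).Pairwise (· > ·)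

theorem Dec8.nodup {R : List Lit} (h : Dec8 R) : (R.map Prod.fst).Nodup :=
  (List.sortedGT_iff_pairwise.2 h).nodup

/-- the literal on the variable `a` -/
def lf (o : Fin n → Bool) (a : ℕ) : Lit := (a, if h : a < n then o ⟨a, h⟩ else false)

theorem lf_fin (o : Fin n → Bool) (i : Fin n) : lf o (i : ℕ) = ((i : ℕ), o i) := by
  unfold lf
  rw [dif_pos i.2]

theorem map_lf {o : Fin n → Bool} {R : List Lit} (h : Ori o R) :
    (R.map Prod.fst).map (lf o) = R := by
  rw [List.map_map]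
  have : R.map (lf o ∘ Prod.fst) = R.map id := by
    refine List.map_congr_left fun l hl => ?_
    obtain ⟨i, rfl⟩ := h l hl
    exact lf_fin o i
  rw [this, List.map_id]

theorem fs_inj {o : Fin n → Bool} {R R' : List Lit} (hR : Ori o R) (hR' : Ori o R')
    (hd : Dec8 R) (hd' : Dec8 R') (h : fs n R = fs n R') : R = R' := by
  have key : ∀ {A B : List Lit}, Ori o A → fs n A = fs n B → ∀ a, a ∈ A.map Prod.fst →
      a ∈ B.map Prod.fst := by
    intro A B hA hAB a ha
    obtain ⟨l, hl, rfl⟩ := List.mem_map.1 ha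
    obtain ⟨i, rfl⟩ := hA l hl
    have h1 : i ∈ fs n A := mem_fs.2 ha
    rw [hAB] at h1
    exact mem_fs.1 h1
  have h1 : R.map Prod.fst = R'.map Prod.fst :=
    List.SortedGT.eq_of_mem_iff (List.sortedGT_iff_pairwise.2 hd)
      (List.sortedGT_iff_pairwise.2 hd') fun a => ⟨key hR h a, key hR' h.symm a⟩
  rw [← map_lf hR, ← map_lf hR', h1]

theorem nodup_ext8 {V R : List Lit} (hV : V.Nodup) : (ext8 V R).Nodup := by
  unfold ext8
  rw [List.nodup_flatMap]
  constructor
  · intro a _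
    refine (hV.filter _).map ?_
    intro b b' h
    exact (List.cons.inj h).1
  · refine List.Pairwise.imp ?_ hV
    intro a a' haa'
    change List.Disjoint _ _
    intro C hC hC'
    obtain ⟨b, _, rfl⟩ := List.mem_map.1 hC
    obtain ⟨b', _, h⟩ := List.mem_map.1 hC'
    exact haa' (List.cons.inj (List.cons.inj h).2).1.symm

theorem nodup_nxt8 {Θ : ℕ} {V : List Lit} {S : Samples} {L : List (List Lit)} (hV : V.Nodup)
    (hL : L.Nodup) : (nxt8 Θ V S L).Nodup := by
  unfold nxt8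
  refine List.Nodup.filter _ ?_
  rw [List.nodup_flatMap]
  refine ⟨fun R _ => nodup_ext8 hV, ?_⟩
  refine List.Pairwise.imp ?_ hL
  intro R R' hRR'
  change List.Disjoint _ _
  intro C hC hC'
  obtain ⟨a, _, b, _, _, _, rfl⟩ := mem_ext8 hC
  obtain ⟨a', _, b', _, _, _, h⟩ := mem_ext8 hC'
  exact hRR' (List.cons.inj (List.cons.inj h).2).2

theorem ori_nxt8 {Θ : ℕ} {V : List Lit} {S : Samples} {L : List (List Lit)} {o : Fin n → Bool}
    (hV : Ori o V) (hL : ∀ R ∈ L, Ori o R ∧ Dec8 R) :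
    ∀ R ∈ nxt8 Θ V S L, Ori o R ∧ Dec8 R ∧ heavy Θ S R = true := by
  intro C hC
  unfold nxt8 at hC
  rw [List.mem_filter] at hC
  obtain ⟨hC, hh⟩ := hC
  obtain ⟨R, hR, hC⟩ := List.mem_flatMap.1 hC
  obtain ⟨a, ha, b, hb, h1, h2, rfl⟩ := mem_ext8 hC
  obtain ⟨h3, h4⟩ := hL R hR
  refine ⟨?_, ?_, hh⟩
  · intro l hl
    rcases List.mem_cons.1 hl with rfl | hl
    · exact hV l hb
    · rcases List.mem_cons.1 hl with rfl | hl
      · exact hV l ha
      · exact h3 l hl
  · unfold Dec8 at *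
    have h5 : ∀ c ∈ R.map Prod.fst, a.1 > c := by
      intro c hc
      obtain ⟨l, hl, rfl⟩ := List.mem_map.1 hc
      exact h1 l hl
    rw [List.map_cons, List.map_cons, List.pairwise_cons, List.pairwise_cons]
    refine ⟨?_, h5, h4⟩
    intro c hc
    rcases List.mem_cons.1 hc with rfl | hc
    · exact h2
    · exact lt_trans (h5 c hc) h2

section

variable {N Θ : ℕ} {V : List Lit} {S : Samples} {o : Fin n → Bool} {g : (Fin n → Bool) → Bool}

theorem length_nxt8_le {L : List (List Lit)} (hΘ : 0 < Θ) (hV : Ori o V) (hVn : V.Nodup)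
    (hLn : L.Nodup) (hL : ∀ R ∈ L, Ori o R ∧ Dec8 R)
    (hheavy : ∀ R, Ori o R → (R.map Prod.fst).Nodup → heavy Θ S R = true →
      1 / (2 * (Θ : ℝ)) ≤ co o g (fs n R)) :
    (nxt8 Θ V S L).length ≤ 4 * Θ ^ 2 := by
  classical
  have hΘ' : (0 : ℝ) < Θ := by exact_mod_cast hΘ
  have h1 := ori_nxt8 (Θ := Θ) (S := S) hV hL
  have h2 : ((nxt8 Θ V S L).map (fs n)).Nodup := by
    refine List.Nodup.map_on ?_ (nodup_nxt8 hVn hLn)
    intro R hR R' hR' h
    exact fs_inj (h1 R hR).1 (h1 R' hR').1 (h1 R hR).2.1 (h1 R' hR').2.1 h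
  have h3 := card_large_le (o := o) (g := g) (𝓡 := ((nxt8 Θ V S L).map (fs n)).toFinset)
    (θ := 1 / (2 * (Θ : ℝ))) (by positivity) (by
      intro R hR
      rw [List.mem_toFinset] at hR
      obtain ⟨R', hR', rfl⟩ := List.mem_map.1 hR
      exact hheavy R' (h1 R' hR').1 (h1 R' hR').2.1.nodup (h1 R' hR').2.2)
  rw [List.toFinset_card_of_nodup h2, List.length_map, one_div_pow, mul_one_div,
    div_le_one (by positivity)] at h3
  have h4 : ((nxt8 Θ V S L).length : ℝ) ≤ ((4 * Θ ^ 2 : ℕ) : ℝ) := by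
    push_cast
    linarith [mul_pow (2 : ℝ) Θ 2]
  exact_mod_cast h4

theorem lvl8_spec (hΘ : 0 < Θ) (hV : Ori o V) (hVn : V.Nodup)
    (hheavy : ∀ R, Ori o R → (R.map Prod.fst).Nodup → heavy Θ S R = true →
      1 / (2 * (Θ : ℝ)) ≤ co o g (fs n R)) (hN : 4 * Θ ^ 2 ≤ N) (j : ℕ) :
    (lvl8 N Θ V S j).Nodup ∧ (∀ R ∈ lvl8 N Θ V S j, Ori o R ∧ Dec8 R) ∧
      lvl8 N Θ V S (j + 1) = nxt8 Θ V S (lvl8 N Θ V S j) := by
  have hstep : ∀ j, (lvl8 N Θ V S j).Nodup → (∀ R ∈ lvl8 N Θ V S j, Ori o R ∧ Dec8 R) →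
      lvl8 N Θ V S (j + 1) = nxt8 Θ V S (lvl8 N Θ V S j) := by
    intro j h1 h2
    have h3 := length_nxt8_le hΘ hV hVn h1 h2 hheavy
    have e : lvl8 N Θ V S (j + 1) = lev8 N Θ V S (lvl8 N Θ V S j) := by
      unfold lvl8
      rw [Function.iterate_succ_apply']
    rw [e]
    unfold lev8
    rw [if_pos (h3.trans hN)]
  induction j with
  | zero =>
    have h1 : (lvl8 N Θ V S 0).Nodup := by
      unfold lvl8
      rw [Function.iterate_zero, id]
      refine hVn.map ?_
      intro a b h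
      exact (List.cons.inj h).1
    have h2 : ∀ R ∈ lvl8 N Θ V S 0, Ori o R ∧ Dec8 R := by
      intro R hR
      unfold lvl8 at hR
      rw [Function.iterate_zero, id] at hR
      obtain ⟨l, hl, rfl⟩ := List.mem_map.1 hR
      constructor
      · intro l' hl'
        rw [List.mem_singleton] at hl'
        subst hl'
        exact hV l' hl
      · unfold Dec8
        simp
    exact ⟨h1, h2, hstep 0 h1 h2⟩
  | succ j ih =>
    obtain ⟨h1, h2, h3⟩ := ih
    have h4 : (lvl8 N Θ V S (j + 1)).Nodup := by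
      rw [h3]
      exact nodup_nxt8 hVn h1
    have h5 : ∀ R ∈ lvl8 N Θ V S (j + 1), Ori o R ∧ Dec8 R := by
      rw [h3]
      intro R hR
      have := ori_nxt8 hV h2 R hR
      exact ⟨this.1, this.2.1⟩
    exact ⟨h4, h5, hstep (j + 1) h4 h5⟩

theorem mem_lvl8 (hΘ : 0 < Θ) (hV : Ori o V) (hVn : V.Nodup)
    (hheavy : ∀ R, Ori o R → (R.map Prod.fst).Nodup → heavy Θ S R = true →
      1 / (2 * (Θ : ℝ)) ≤ co o g (fs n R)) (hN : 4 * Θ ^ 2 ≤ N)
    {D : Finset (Fin n)} (hDV : ∀ i ∈ D, ((i : ℕ), o i) ∈ V)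
    (hbig : ∀ R, Ori o R → (R.map Prod.fst).Nodup → fs n R ⊆ D → Odd R.length →
      heavy Θ S R = true) (j : ℕ) :
    ∀ R, Ori o R → Dec8 R → fs n R ⊆ D → R.length = 2 * j + 1 → R ∈ lvl8 N Θ V S j := by
  induction j with
  | zero =>
    intro R hR _ hRD hlen
    obtain ⟨l, rfl⟩ := List.length_eq_one_iff.1 hlen
    obtain ⟨i, rfl⟩ := hR l (by simp)
    unfold lvl8
    rw [Function.iterate_zero, id]
    refine List.mem_map.2 ⟨_, hDV i (hRD (mem_fs.2 (by simp))), rfl⟩
  | succ j ih =>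
    intro R hR hd hRD hlen
    match R, hlen with
    | b :: a :: R', hlen =>
      have hR' : Ori o R' := fun l hl => hR l (by simp [hl])
      have hlen' : R'.length = 2 * j + 1 := by
        simp only [List.length_cons] at hlen
        omega
      have hd' := hd
      unfold Dec8 at hd'
      rw [List.map_cons, List.map_cons, List.pairwise_cons, List.pairwise_cons] at hd'
      obtain ⟨h1, h2, h3⟩ := hd'
      have hsub : fs n R' ⊆ D := by
        intro i hi
        refine hRD ?_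
        rw [mem_fs] at hi ⊢
        simp only [List.map_cons, List.mem_cons]
        exact Or.inr (Or.inr hi)
      have hin := ih R' hR' h3 hsub hlen'
      rw [(lvl8_spec hΘ hV hVn hheavy hN j).2.2]
      unfold nxt8
      rw [List.mem_filter]
      constructor
      · rw [List.mem_flatMap]
        refine ⟨R', hin, ?_⟩
        unfold ext8
        rw [List.mem_flatMap]
        obtain ⟨ia, hia⟩ := hR a (by simp)
        obtain ⟨ib, hib⟩ := hR b (by simp)
        have ha : a ∈ V := by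
          rw [hia]
          exact hDV ia (hRD (mem_fs.2 (by rw [hia]; simp)))
        have hb : b ∈ V := by
          rw [hib]
          exact hDV ib (hRD (mem_fs.2 (by rw [hib]; simp)))
        refine ⟨a, ha, List.mem_map.2 ⟨b, ?_, rfl⟩⟩
        rw [List.mem_filter, Bool.and_eq_true, decide_eq_true_iff, List.all_eq_true]
        refine ⟨hb, fun l hl => decide_eq_true (h2 _ (List.mem_map_of_mem hl)), ?_⟩
        exact h1 _ (by simp)
      · refine hbig _ hR hd.nodup hRD ?_
        rw [hlen]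
        exact ⟨j + 1, by ring⟩

/-- the literals of a set of variables, in decreasing order -/
noncomputable def lst (o : Fin n → Bool) (A : Finset (Fin n)) : List Lit :=
  (A.sort (· ≥ ·)).map fun i : Fin n => (((i : ℕ), o i) : Lit)

theorem mem_lst {A : Finset (Fin n)} {l : Lit} : l ∈ lst o A ↔ ∃ i ∈ A, l = ((i : ℕ), o i) := by
  unfold lst
  rw [List.mem_map]
  constructor
  · rintro ⟨i, hi, rfl⟩
    exact ⟨i, (mem_sort _).1 hi, rfl⟩
  · rintro ⟨i, hi, rfl⟩
    exact ⟨i, (mem_sort _).2 hi, rfl⟩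

theorem ori_lst (A : Finset (Fin n)) : Ori o (lst o A) := by
  intro l hl
  obtain ⟨i, _, rfl⟩ := mem_lst.1 hl
  exact ⟨i, rfl⟩

theorem length_lst (A : Finset (Fin n)) : (lst o A).length = A.card := by
  unfold lst
  rw [List.length_map, length_sort]

theorem dec_lst (A : Finset (Fin n)) : Dec8 (lst o A) := by
  unfold Dec8 lst
  rw [List.map_map]
  have h := (sortedGT_sort A).pairwise
  rw [List.pairwise_map]
  exact h.imp fun {a b} hab => hab

theorem fs_lst (A : Finset (Fin n)) : fs n (lst o A) = A := by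
  ext i
  rw [mem_fs, List.mem_map]
  constructor
  · rintro ⟨l, hl, h⟩
    obtain ⟨j, hj, rfl⟩ := mem_lst.1 hl
    have : j = i := Fin.ext h
    rwa [← this]
  · intro hi
    exact ⟨_, mem_lst.2 ⟨i, hi, rfl⟩, rfl⟩

theorem mem_comb {B Zs : List (List Lit)} {Z : List Lit} (hZ : Z ∈ Zs) (R : ℕ → List Lit) :
    ∀ p : ℕ, (∀ s < p, R s ∈ B) → ∃ C ∈ comb p B Zs, ∀ l, l ∈ C ↔ (l ∈ Z ∨ ∃ s < p, l ∈ R s) := by
  intro p
  induction p with
  | zero => intro _; exact ⟨Z, hZ, fun l => by simp⟩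
  | succ p ih =>
    intro hR
    obtain ⟨C, hC, hCl⟩ := ih (fun s hs => hR s (by omega))
    refine ⟨R p ++ C, ?_, fun l => ?_⟩
    · unfold comb
      rw [List.mem_flatMap]
      exact ⟨C, hC, List.mem_map.2 ⟨R p, hR p (by omega), rfl⟩⟩
    · rw [List.mem_append, hCl]
      constructor
      · rintro (h | h | ⟨s, hs, h⟩)
        · exact Or.inr ⟨p, by omega, h⟩
        · exact Or.inl h
        · exact Or.inr ⟨s, by omega, h⟩
      · rintro (h | ⟨s, hs, h⟩)
        · exact Or.inr (Or.inl h)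
        · rcases Nat.lt_succ_iff_lt_or_eq.1 hs with h1 | rfl
          · exact Or.inr (Or.inr ⟨s, h1, h⟩)
          · exact Or.inl h

theorem lt_comb {B Zs : List (List Lit)} {V : List Lit} (hB : ∀ R ∈ B, ∀ l ∈ R, l ∈ V)
    (hZ : ∀ Z ∈ Zs, ∀ l ∈ Z, l ∈ V) (p : ℕ) : ∀ C ∈ comb p B Zs, ∀ l ∈ C, l ∈ V := by
  induction p with
  | zero => exact hZ
  | succ p ih =>
    intro C hC l hl
    unfold comb at hC
    obtain ⟨Z, hZ', hC⟩ := List.mem_flatMap.1 hC
    obtain ⟨R, hR, rfl⟩ := List.mem_map.1 hC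
    rcases List.mem_append.1 hl with hl | hl
    · exact hB R hR l hl
    · exact ih Z hZ' l hl

/-- A part of a term is found up to one literal. -/
theorem exists_part {J : ℕ} (hΘ : 0 < Θ) (hV : Ori o V) (hVn : V.Nodup)
    (hheavy : ∀ R, Ori o R → (R.map Prod.fst).Nodup → heavy Θ S R = true →
      1 / (2 * (Θ : ℝ)) ≤ co o g (fs n R)) (hN : 4 * Θ ^ 2 ≤ N)
    {D : Finset (Fin n)} (hDV : ∀ i ∈ D, ((i : ℕ), o i) ∈ V)
    (hbig : ∀ R, Ori o R → (R.map Prod.fst).Nodup → fs n R ⊆ D → Odd R.length →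
      heavy Θ S R = true) (hJ : n ≤ J) :
    ∃ (Z R : List Lit), Z.length ≤ 1 ∧ R ∈ [] :: bfs8 N Θ J V S ∧
      ∀ l, (l ∈ Z ∨ l ∈ R) ↔ ∃ i ∈ D, l = ((i : ℕ), o i) := by
  classical
  -- a list of odd length is found
  have hfind : ∀ R, Ori o R → Dec8 R → fs n R ⊆ D → Odd R.length →
      R ∈ bfs8 N Θ J V S := by
    intro R hR hd hRD hodd
    obtain ⟨j, hj⟩ := hodd
    unfold bfs8
    rw [List.mem_flatMap]
    refine ⟨j, ?_, mem_lvl8 hΘ hV hVn hheavy hN hDV hbig j R hR hd hRD hj⟩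
    rw [List.mem_range]
    have h1 : (R.map Prod.fst).length ≤ n := by
      have h2 : (R.map Prod.fst).toFinset ⊆ Finset.range n := by
        intro a ha
        rw [List.mem_toFinset] at ha
        obtain ⟨l, hl, rfl⟩ := List.mem_map.1 ha
        obtain ⟨i, rfl⟩ := hR l hl
        exact mem_range.2 i.2
      have h3 := card_le_card h2
      rwa [List.toFinset_card_of_nodup hd.nodup, card_range] at h3
    rw [List.length_map] at h1
    omega
  rcases Nat.even_or_odd D.card with heven | hodd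
  · cases hlst : lst o D with
    | nil =>
      refine ⟨[], [], by simp, by simp, ?_⟩
      intro l
      rw [← mem_lst, hlst]
      simp
    | cons l0 R =>
      have h1 := ori_lst (o := o) D
      have h2 := dec_lst (o := o) D
      have h3 := length_lst (o := o) D
      have h4 := fs_lst (o := o) D
      rw [hlst] at h1 h2 h3 h4
      have hR1 : Ori o R := fun l hl => h1 l (by simp [hl])
      have hR2 : Dec8 R := by
        unfold Dec8 at h2 ⊢
        rw [List.map_cons, List.pairwise_cons] at h2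
        exact h2.2
      have hR3 : fs n R ⊆ D := by
        rw [← h4]
        intro i hi
        rw [mem_fs] at hi ⊢
        simp only [List.map_cons, List.mem_cons]
        exact Or.inr hi
      have hR4 : Odd R.length := by
        rw [List.length_cons] at h3
        rw [← h3] at heven
        obtain ⟨q, hq⟩ := heven
        exact ⟨q - 1, by omega⟩
      refine ⟨[l0], R, by simp, List.mem_cons_of_mem _ (hfind R hR1 hR2 hR3 hR4), ?_⟩
      intro l
      rw [← mem_lst, hlst]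
      simp
  · refine ⟨[], lst o D, by simp, List.mem_cons_of_mem _
      (hfind _ (ori_lst _) (dec_lst _) (by rw [fs_lst]) (by rw [length_lst]; exact hodd)), ?_⟩
    intro l
    rw [← mem_lst]
    simp

/-- The candidates contain every good term. -/
theorem exists_cand8 {p J : ℕ} (hΘ : 0 < Θ) (hV : Ori o V) (hVn : V.Nodup)
    (hheavy : ∀ R, Ori o R → (R.map Prod.fst).Nodup → heavy Θ S R = true →
      1 / (2 * (Θ : ℝ)) ≤ co o g (fs n R)) (hN : 4 * Θ ^ 2 ≤ N)
    {T : Finset (Fin n)} (hTV : ∀ i ∈ T, ((i : ℕ), o i) ∈ V) (col : Fin n → Fin p)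
    (hbig : ∀ (s : Fin p) (R : List Lit), Ori o R → (R.map Prod.fst).Nodup →
      fs n R ⊆ T.filter (fun i => col i = s) → Odd R.length → heavy Θ S R = true)
    (hNk : (V.length + 1) ^ p ≤ N) (hJ : n ≤ J) :
    ∃ C ∈ cand8 p N Θ J V S, ∀ l, l ∈ C ↔ ∃ i ∈ T, l = ((i : ℕ), o i) := by
  classical
  have key : ∀ s : ℕ, ∃ (Z R : List Lit), Z.length ≤ 1 ∧ R ∈ [] :: bfs8 N Θ J V S ∧
      ∀ l, (l ∈ Z ∨ l ∈ R) ↔ ∃ i ∈ T.filter (fun i => (col i : ℕ) = s), l = ((i : ℕ), o i) := by
    intro s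
    by_cases hs : s < p
    · have h1 : T.filter (fun i => (col i : ℕ) = s) = T.filter (fun i => col i = ⟨s, hs⟩) := by
        refine filter_congr fun i _ => ?_
        rw [Fin.ext_iff]
      rw [h1]
      exact exists_part hΘ hV hVn hheavy hN (fun i hi => hTV i (mem_filter.1 hi).1)
        (hbig ⟨s, hs⟩) hJ
    · refine ⟨[], [], by simp, by simp, fun l => ?_⟩
      simp only [List.not_mem_nil, or_self, false_iff, not_exists, not_and, mem_filter]
      rintro i ⟨_, h⟩
      have := (col i).2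
      omega
  choose Z R hZ hR hZR using key
  have hZs : ∀ q : ℕ, ((List.range q).flatMap Z).length ≤ q := by
    intro q
    induction q with
    | zero => simp
    | succ q ih =>
      rw [List.range_succ, List.flatMap_append, List.length_append]
      have := hZ q
      simp only [List.flatMap_cons, List.flatMap_nil, List.append_nil]
      omega
  have hZV : ∀ l ∈ (List.range p).flatMap Z, l ∈ V := by
    intro l hl
    obtain ⟨s, _, hl⟩ := List.mem_flatMap.1 hl
    obtain ⟨i, hi, rfl⟩ := (hZR s l).1 (Or.inl hl)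
    exact hTV i (mem_filter.1 hi).1
  obtain ⟨C, hC, hCl⟩ := mem_comb (B := [] :: bfs8 N Θ J V S) (mem_seeds hNk (hZs p) hZV) R p
    (fun s _ => hR s)
  refine ⟨C, hC, fun l => ?_⟩
  rw [hCl]
  constructor
  · rintro (h | ⟨s, _, h⟩)
    · obtain ⟨s, _, hl⟩ := List.mem_flatMap.1 h
      obtain ⟨i, hi, rfl⟩ := (hZR s l).1 (Or.inl hl)
      exact ⟨i, (mem_filter.1 hi).1, rfl⟩
    · obtain ⟨i, hi, rfl⟩ := (hZR s l).1 (Or.inr h)
      exact ⟨i, (mem_filter.1 hi).1, rfl⟩
  · rintro ⟨i, hi, rfl⟩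
    rcases (hZR (col i) ((i : ℕ), o i)).2 ⟨i, mem_filter.2 ⟨hi, rfl⟩, rfl⟩ with h | h
    · exact Or.inl (List.mem_flatMap.2 ⟨_, List.mem_range.2 (col i).2, h⟩)
    · exact Or.inr ⟨_, (col i).2, h⟩

/-- Small sets are candidates. -/
theorem small_cand8 {p J : ℕ} {I : Finset (Fin n)} (hI : I.card ≤ p)
    (hIV : ∀ i ∈ I, ((i : ℕ), o i) ∈ V) (hNk : (V.length + 1) ^ p ≤ N) :
    ∃ C ∈ cand8 p N Θ J V S, ∀ l, l ∈ C ↔ ∃ i ∈ I, l = ((i : ℕ), o i) := by
  have h1 : lst o I ∈ seeds N p V := mem_seeds hNk (by rw [length_lst]; exact hI) (by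
    intro l hl
    obtain ⟨i, hi, rfl⟩ := mem_lst.1 hl
    exact hIV i hi)
  obtain ⟨C, hC, hCl⟩ := mem_comb (B := [] :: bfs8 N Θ J V S) h1 (fun _ => []) p
    (fun _ _ => by simp)
  refine ⟨C, hC, fun l => ?_⟩
  rw [hCl, mem_lst]
  simp

/-- All candidates are over `V`. -/
theorem lt_cand8 {p J : ℕ} {C : List Lit} (hC : C ∈ cand8 p N Θ J V S) : ∀ l ∈ C, l ∈ V := by
  refine lt_comb ?_ (fun Z hZ => ((bd_seeds N p V).2 Z hZ).2) p C hC
  intro R hR l hl
  rcases List.mem_cons.1 hR with rfl | hR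
  · simp at hl
  · unfold bfs8 at hR
    obtain ⟨j, _, hR⟩ := List.mem_flatMap.1 hR
    exact ((bd_lvl8 N Θ V S j).2 R hR).2 l hl

end

end Pool.Agent.H.MP_cba12a_lc
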