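import Pool.Agent.H.MP_cba12a_lc.Hoeff

/-!
A dense set of points of the cube has few strongly biased literals.
-/

namespace Pool.Agent.H.MP_cba12a_lc

open Finset

/-- sign of a boolean -/
def sgn (b : Bool) : ℝ := if b then 1 else -1

theorem sum_exp_le {n : ℕ} (w : Fin n → ℝ) (l : ℝ) :
    ∑ x : Fin n → Bool, Real.exp (l * ∑ i, w i * sgn (x i)) ≤
      2 ^ n * Real.exp (l ^ 2 / 2 * ∑ i, w i ^ 2) := by
  have h1 : ∀ x : Fin n → Bool, Real.exp (l * ∑ i, w i * sgn (x i)) =
      ∏ i, Real.exp (l * (w i * sgn (x i))) := by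
    intro x
    rw [mul_sum, Real.exp_sum]
  simp only [h1]
  have h2 := Fintype.prod_sum (fun (i : Fin n) (b : Bool) => Real.exp (l * (w i * sgn b)))
  rw [← h2]
  have h3 : ∀ i : Fin n, ∑ b : Bool, Real.exp (l * (w i * sgn b)) ≤
      2 * Real.exp (l ^ 2 / 2 * w i ^ 2) := by
    intro i
    have : ∑ b : Bool, Real.exp (l * (w i * sgn b)) = 2 * Real.cosh (l * w i) := by
      rw [Real.cosh_eq, Fintype.sum_bool]
      simp only [sgn, if_true, Bool.false_eq_true, if_false]
      rw [mul_one, show l * (w i * -1) = -(l * w i) by ring]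
      ring
    rw [this]
    have := Real.cosh_le_exp_half_sq (l * w i)
    have e : (l * w i) ^ 2 / 2 = l ^ 2 / 2 * w i ^ 2 := by ring
    rw [e] at this
    linarith
  calc ∏ i, ∑ b : Bool, Real.exp (l * (w i * sgn b)) ≤ ∏ i, 2 * Real.exp (l ^ 2 / 2 * w i ^ 2) :=
        prod_le_prod (fun i _ => sum_nonneg fun b _ => (Real.exp_pos _).le) fun i _ => h3 i
    _ = _ := by
      rw [prod_mul_distrib, prod_const, card_univ, Fintype.card_fin, ← Real.exp_sum, mul_sum]

theorem bias_exp {n : ℕ} (A : (Fin n → Bool) → Bool) (C : Finset (Fin n × Bool))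
    (hC : ∀ l ∈ C, 11 * ct A ≤ 16 * ct (fun x => A x && (x l.1 == l.2)))
    (hA : 0 < ct A) :
    (ct A : ℝ) * Real.exp (9 / 128 * C.card) ≤ 2 ^ n := by
  classical
  set As : Finset (Fin n → Bool) := univ.filter fun x => A x = true with hAs
  have hcA : (ct A : ℝ) = As.card := rfl
  -- number of points of A with x i = b
  set q : Fin n → Bool → ℝ := fun i b => (ct (fun x => A x && (x i == b)) : ℝ) with hq
  have hqs : ∀ i, q i true + q i false = ct A := by
    intro i
    simp only [hq, ct_eq_sum, ← sum_add_distrib]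
    refine sum_congr rfl fun x _ => ?_
    cases hx : x i <;> cases hA : A x <;> simp
  have hsg : ∀ i, ∑ x ∈ As, sgn (x i) = q i true - q i false := by
    intro i
    simp only [hq, ct_eq_sum, ← sum_sub_distrib]
    rw [hAs, sum_filter]
    refine sum_congr rfl fun x _ => ?_
    cases hx : x i <;> cases hA : A x <;> simp [sgn]
  have hCq : ∀ i b, (i, b) ∈ C → 11 / 16 * (ct A : ℝ) ≤ q i b := by
    intro i b h
    have := hC (i, b) h
    have h' : (11 : ℝ) * ct A ≤ 16 * q i b := by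
      simp only [hq]
      exact_mod_cast this
    linarith
  have hApos : (0 : ℝ) < ct A := by exact_mod_cast hA
  set w : Fin n → ℝ := fun i => (if (i, true) ∈ C then 1 else 0) - (if (i, false) ∈ C then 1 else 0)
    with hw
  set c : Fin n → ℝ := fun i => (if (i, true) ∈ C then 1 else 0) + (if (i, false) ∈ C then 1 else 0)
    with hc
  have hcard : (C.card : ℝ) = ∑ i, c i := by
    have h1 : (C.card : ℝ) = ∑ p : Fin n × Bool, if p ∈ C then (1 : ℝ) else 0 := by
      rw [Finset.sum_boole]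
      simp
    rw [h1, Fintype.sum_prod_type]
    refine sum_congr rfl fun i _ => ?_
    rw [Fintype.sum_bool]
  have hwc : ∀ i, w i ^ 2 ≤ c i := by
    intro i
    simp only [hw, hc]
    split_ifs <;> norm_num
  have hZi : ∀ i, 3 / 8 * (c i * ct A) ≤ w i * ∑ x ∈ As, sgn (x i) := by
    intro i
    rw [hsg]
    have hs := hqs i
    simp only [hw, hc]
    split_ifs with h1 h2 h2
    · have h3 := hCq i true h1
      have h4 := hCq i false h2
      exfalso
      linarith
    · have h3 := hCq i true h1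
      linarith
    · have h3 := hCq i false h2
      linarith
    · linarith
  have hZ : 3 / 8 * ((C.card : ℝ) * ct A) ≤ ∑ x ∈ As, ∑ i, w i * sgn (x i) := by
    rw [sum_comm, hcard, sum_mul, mul_sum]
    refine sum_le_sum fun i _ => ?_
    rw [← mul_sum]
    exact hZi i
  set y0 : ℝ := 9 / 64 * C.card with hy0
  have hJ : (ct A : ℝ) * Real.exp y0 ≤ ∑ x ∈ As, Real.exp (3 / 8 * ∑ i, w i * sgn (x i)) := by
    have hpt : ∀ x ∈ As, Real.exp y0 * (3 / 8 * ∑ i, w i * sgn (x i) - y0 + 1) ≤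
        Real.exp (3 / 8 * ∑ i, w i * sgn (x i)) := by
      intro x _
      have h1 := Real.add_one_le_exp (3 / 8 * ∑ i, w i * sgn (x i) - y0)
      calc Real.exp y0 * (3 / 8 * ∑ i, w i * sgn (x i) - y0 + 1) ≤
          Real.exp y0 * Real.exp (3 / 8 * ∑ i, w i * sgn (x i) - y0) :=
            mul_le_mul_of_nonneg_left h1 (Real.exp_pos _).le
        _ = _ := by rw [← Real.exp_add]; congr 1; ring
    have h2 := sum_le_sum hpt
    refine le_trans ?_ h2
    rw [← mul_sum, sum_add_distrib, sum_sub_distrib, ← mul_sum]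
    simp only [sum_const, nsmul_eq_mul, ← hcA]
    have h3 : (0 : ℝ) ≤ 3 / 8 * ∑ x ∈ As, ∑ i, w i * sgn (x i) - (ct A : ℝ) * y0 := by
      rw [hy0]
      linarith
    have h4 := Real.exp_pos y0
    nlinarith
  have hB : ∑ x ∈ As, Real.exp (3 / 8 * ∑ i, w i * sgn (x i)) ≤
      2 ^ n * Real.exp ((3 / 8) ^ 2 / 2 * ∑ i, w i ^ 2) := by
    refine le_trans ?_ (sum_exp_le w (3 / 8))
    exact sum_le_sum_of_subset_of_nonneg (subset_univ _) fun x _ _ => (Real.exp_pos _).le
  have hD : Real.exp ((3 / 8) ^ 2 / 2 * ∑ i, w i ^ 2) ≤ Real.exp (9 / 128 * C.card) := by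
    refine Real.exp_le_exp.2 ?_
    have : ∑ i, w i ^ 2 ≤ (C.card : ℝ) := by
      rw [hcard]
      exact sum_le_sum fun i _ => hwc i
    linarith
  have hE : (ct A : ℝ) * Real.exp y0 ≤ 2 ^ n * Real.exp (9 / 128 * C.card) :=
    (hJ.trans hB).trans (mul_le_mul_of_nonneg_left hD (by positivity))
  have hF : Real.exp y0 = Real.exp (9 / 128 * C.card) * Real.exp (9 / 128 * C.card) := by
    rw [← Real.exp_add]
    congr 1
    rw [hy0]
    ring
  rw [hF, ← mul_assoc] at hE
  exact le_of_mul_le_mul_right hE (Real.exp_pos _)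

/-- If all literals of `C` hold on at least `11/16` of `A` then `2 ^ |C| * μ(A) ^ 10 ≤ 1`. -/
theorem bias {n : ℕ} (A : (Fin n → Bool) → Bool) (C : Finset (Fin n × Bool))
    (hC : ∀ l ∈ C, 11 * ct A ≤ 16 * ct (fun x => A x && (x l.1 == l.2)))
    (hA : 0 < ct A) : (2 : ℝ) ^ C.card * mu A ^ 10 ≤ 1 := by
  have h := bias_exp A C hC hA
  have hmu : mu A * Real.exp (9 / 128 * C.card) ≤ 1 := by
    unfold mu
    rw [Fintype.card_fun, Fintype.card_fin, Fintype.card_bool]
    push_cast
    rw [div_mul_eq_mul_div, div_le_one (by positivity)]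
    exact h
  have h2 : (2 : ℝ) ^ C.card ≤ Real.exp (9 / 128 * C.card) ^ 10 := by
    have e : (2 : ℝ) ^ C.card = Real.exp (C.card * Real.log 2) := by
      rw [Real.exp_nat_mul, Real.exp_log (by norm_num)]
    rw [e, ← Real.exp_nat_mul]
    refine Real.exp_le_exp.2 ?_
    have h3 := Real.log_two_lt_d9
    have h4 : (0 : ℝ) ≤ C.card := by positivity
    push_cast
    nlinarith
  calc (2 : ℝ) ^ C.card * mu A ^ 10 ≤ Real.exp (9 / 128 * C.card) ^ 10 * mu A ^ 10 :=
        mul_le_mul_of_nonneg_right h2 (by have := mu_nonneg A; positivity)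
    _ = (mu A * Real.exp (9 / 128 * C.card)) ^ 10 := by rw [← mul_pow, mul_comm]
    _ ≤ 1 := pow_le_one₀ (mul_nonneg (mu_nonneg A) (Real.exp_pos _).le) hmu

end Pool.Agent.H.MP_cba12a_lc
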