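import Mathlib

/-!
An isoperimetric inequality for nested down-sets of the cube.
-/

namespace Pool.Agent.H.MP_cba12a_lc

open Finset

/-- boolean as a real number -/
def bR (b : Bool) : ℝ := if b then 1 else 0

theorem bR_nonneg (b : Bool) : 0 ≤ bR b := by cases b <;> simp [bR]

theorem bR_le_one (b : Bool) : bR b ≤ 1 := by cases b <;> simp [bR]

theorem bool_zero (z c : Bool) : bR (z && !c) * bR c = 0 := by
  cases z <;> cases c <;> simp [bR]

theorem bool_ineq1 (zh zl ch cl : Bool) (h : zh = true → zl = true) :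
    bR (zh && !ch) - bR (zl && !cl) ≤ bR (zh && (!ch && cl)) := by
  cases zh <;> cases zl <;> cases ch <;> cases cl <;> simp_all [bR]

theorem bool_ineq2 (ch cl : Bool) (h : ch = true → cl = true) : bR ch ≤ bR cl := by
  cases ch <;> cases cl <;> simp_all [bR]

theorem sum_cons {n : ℕ} (F : (Fin (n + 1) → Bool) → ℝ) (o : Bool) :
    ∑ x, F x = ∑ y : Fin n → Bool, F (Fin.cons o y) + ∑ y : Fin n → Bool, F (Fin.cons (!o) y) := by
  rw [← (Fin.consEquiv (fun _ : Fin (n + 1) => Bool)).sum_comp, Fintype.sum_prod_type,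
    Fintype.sum_bool]
  cases o
  · rw [add_comm]; rfl
  · rfl

theorem upd_succ {n : ℕ} (b : Bool) (y : Fin n → Bool) (i : Fin n) (v : Bool) :
    Function.update (Fin.cons b y : Fin (n + 1) → Bool) i.succ v =
      Fin.cons b (Function.update y i v) :=
  (Fin.cons_update (α := fun _ => Bool) b y i v).symm

theorem upd_zero {n : ℕ} (b b' : Bool) (y : Fin n → Bool) :
    Function.update (Fin.cons b y : Fin (n + 1) → Bool) 0 b' = Fin.cons b' y :=
  Fin.update_cons_zero (α := fun _ => Bool) b y b'

/-- size of `z` without `c` -/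
noncomputable def sA {n : ℕ} (c z : (Fin n → Bool) → Bool) : ℝ := ∑ x, bR (z x && !(c x))

/-- size of `c` -/
noncomputable def sC {n : ℕ} (c : (Fin n → Bool) → Bool) : ℝ := ∑ x, bR (c x)

/-- size of the boundary in direction `i` -/
noncomputable def sB1 {n : ℕ} (o : Fin n → Bool) (c z : (Fin n → Bool) → Bool) (i : Fin n) : ℝ :=
  ∑ x, bR (decide (x i = o i) && (z x && (!(c x) && c (Function.update x i (!(o i))))))

/-- down-set for the orientation `o` -/
def Dn {n : ℕ} (o : Fin n → Bool) (c : (Fin n → Bool) → Bool) : Prop :=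
  ∀ i x, c (Function.update x i (o i)) = true → c (Function.update x i (!(o i))) = true

theorem arith {aH aL sH sL bH bL v p : ℝ} (hp : 0 < p) (hv0 : 0 ≤ v) (hva : aH - aL ≤ v)
    (hs : sH ≤ sL) (hsL : sL ≤ p) (hsH : 0 ≤ sH)
    (iH : 2 * aH * sH ≤ p * bH) (iL : 2 * aL * sL ≤ p * bL) :
    2 * (aH + aL) * (sH + sL) ≤ p * 2 * (v + (bH + bL)) := by
  rcases le_total aH aL with h | h
  · nlinarith [mul_nonneg (sub_nonneg.2 h) (sub_nonneg.2 hs), mul_nonneg hp.le hv0]
  · have h6 : (aH - aL) * (sL - sH) ≤ v * p := by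
      calc (aH - aL) * (sL - sH) ≤ (aH - aL) * p :=
            mul_le_mul_of_nonneg_left (by linarith) (by linarith)
        _ ≤ v * p := mul_le_mul_of_nonneg_right hva hp.le
    nlinarith

theorem iso_aux : ∀ (n : ℕ) (o : Fin n → Bool) (c z : (Fin n → Bool) → Bool),
    Dn o c → Dn o z → (∀ x, c x = true → z x = true) →
    2 * sA c z * sC c ≤ 2 ^ n * ∑ i, sB1 o c z i := by
  intro n
  induction n with
  | zero =>
    intro o c z _ _ _
    have h : sA c z * sC c = 0 := by
      unfold sA sC
      rw [Fintype.sum_unique, Fintype.sum_unique]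
      exact bool_zero _ _
    rw [mul_assoc, h]
    simp
  | succ n ih =>
    intro o c z hc hz hcz
    have iH := ih (fun i => o i.succ) (fun y => c (Fin.cons (o 0) y))
      (fun y => z (Fin.cons (o 0) y))
      (fun i x h => by
        have := hc i.succ (Fin.cons (o 0) x) (by rw [upd_succ]; exact h)
        rwa [upd_succ] at this)
      (fun i x h => by
        have := hz i.succ (Fin.cons (o 0) x) (by rw [upd_succ]; exact h)
        rwa [upd_succ] at this)
      (fun x h => hcz _ h)
    have iL := ih (fun i => o i.succ) (fun y => c (Fin.cons (!(o 0)) y))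
      (fun y => z (Fin.cons (!(o 0)) y))
      (fun i x h => by
        have := hc i.succ (Fin.cons (!(o 0)) x) (by rw [upd_succ]; exact h)
        rwa [upd_succ] at this)
      (fun i x h => by
        have := hz i.succ (Fin.cons (!(o 0)) x) (by rw [upd_succ]; exact h)
        rwa [upd_succ] at this)
      (fun x h => hcz _ h)
    have hcHL : ∀ y : Fin n → Bool, c (Fin.cons (o 0) y) = true →
        c (Fin.cons (!(o 0)) y) = true := by
      intro y h
      have := hc 0 (Fin.cons (o 0) y) (by rw [upd_zero]; exact h)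
      rwa [upd_zero] at this
    have hzHL : ∀ y : Fin n → Bool, z (Fin.cons (o 0) y) = true →
        z (Fin.cons (!(o 0)) y) = true := by
      intro y h
      have := hz 0 (Fin.cons (o 0) y) (by rw [upd_zero]; exact h)
      rwa [upd_zero] at this
    have e1 : sA c z = sA (fun y => c (Fin.cons (o 0) y)) (fun y => z (Fin.cons (o 0) y)) +
        sA (fun y => c (Fin.cons (!(o 0)) y)) (fun y => z (Fin.cons (!(o 0)) y)) := by
      unfold sA
      rw [sum_cons _ (o 0)]
    have e2 : sC c = sC (fun y => c (Fin.cons (o 0) y)) +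
        sC (fun y => c (Fin.cons (!(o 0)) y)) := by
      unfold sC
      rw [sum_cons _ (o 0)]
    have e3 : ∑ i, sB1 o c z i = ∑ y : Fin n → Bool, bR (z (Fin.cons (o 0) y) &&
        (!(c (Fin.cons (o 0) y)) && c (Fin.cons (!(o 0)) y))) +
        (∑ i, sB1 (fun i => o i.succ) (fun y => c (Fin.cons (o 0) y))
          (fun y => z (Fin.cons (o 0) y)) i +
         ∑ i, sB1 (fun i => o i.succ) (fun y => c (Fin.cons (!(o 0)) y))
          (fun y => z (Fin.cons (!(o 0)) y)) i) := by
      rw [Fin.sum_univ_succ]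
      congr 1
      · unfold sB1
        rw [sum_cons _ (o 0)]
        have h0 : ∑ y : Fin n → Bool, bR (decide ((Fin.cons (!(o 0)) y : Fin (n + 1) → Bool) 0 =
            o 0) && (z (Fin.cons (!(o 0)) y) && (!(c (Fin.cons (!(o 0)) y)) &&
              c (Function.update (Fin.cons (!(o 0)) y) 0 (!(o 0)))))) = 0 := by
          refine sum_eq_zero fun y _ => ?_
          rw [Fin.cons_zero]
          cases o 0 <;> simp [bR]
        rw [h0, add_zero]
        refine sum_congr rfl fun y _ => ?_
        rw [Fin.cons_zero, upd_zero, decide_eq_true rfl, Bool.true_and]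
      · rw [← sum_add_distrib]
        refine sum_congr rfl fun i _ => ?_
        unfold sB1
        rw [sum_cons _ (o 0)]
        simp only [Fin.cons_succ, upd_succ]
    rw [e1, e2, e3, pow_succ]
    refine arith (by positivity) (sum_nonneg fun y _ => bR_nonneg _) ?_ ?_ ?_ ?_ iH iL
    · unfold sA
      rw [← sum_sub_distrib]
      exact sum_le_sum fun y _ => bool_ineq1 _ _ _ _ (hzHL y)
    · exact sum_le_sum fun y _ => bool_ineq2 _ _ (hcHL y)
    · unfold sC
      calc ∑ y : Fin n → Bool, bR (c (Fin.cons (!(o 0)) y)) ≤ ∑ _y : Fin n → Bool, (1 : ℝ) :=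
            sum_le_sum fun y _ => bR_le_one _
        _ = 2 ^ n := by simp
    · exact sum_nonneg fun y _ => bR_nonneg _

end Pool.Agent.H.MP_cba12a_lc
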