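import Mathlib

/-!
DNF formulas in which every variable occurs in few terms.
-/

namespace Pool.Agent.H.MP_cba12a_lc

/-- `g` is computed by a DNF formula (with any number of terms) in which every variable occurs in
at most `k` terms. The literal `(i, v)` holds at `x` when `x i = v`. -/
def ReadK {n : ℕ} (k : ℕ) (g : (Fin n → Bool) → Bool) : Prop :=
  ∃ F : Finset (Finset (Fin n × Bool)), (∀ x, g x = true ↔ ∃ T ∈ F, ∀ l ∈ T, x l.1 = l.2) ∧
    ∀ i, (F.filter fun T => ∃ l ∈ T, l.1 = i).card ≤ k

end Pool.Agent.H.MP_cba12a_lc
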