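import Pool.Agent.H.MP_cba12a_lc.Flip
import Pool.Agent.H.MP_cba12a_lc.Algo4
import Pool.Agent.H.MP_cba12a_lc.Iso
import Pool.Agent.H.MP_cba12a_lc.ReadDefs

/-!
Pivotal events of unate functions, and why they can be estimated from random examples.
-/

namespace Pool.Agent.H.MP_cba12a_lc

open Finset

variable {n m : ℕ}

/-- `q` is non-decreasing when coordinate `i` moves to `o i` -/
def Up (o : Fin n → Bool) (q : (Fin n → Bool) → Bool) : Prop :=
  ∀ i x, q (Function.update x i (!(o i))) = true → q (Function.update x i (o i)) = true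

theorem exists_orient {g : (Fin n → Bool) → Bool} (hg : Unate g) : ∃ o, Up o g := by
  have : ∀ i : Fin n, ∃ v : Bool, ∀ x, g (Function.update x i (!v)) = true →
      g (Function.update x i v) = true := by
    intro i
    rcases hg i with h | h
    · exact ⟨true, fun x => h x⟩
    · exact ⟨false, fun x => h x⟩
  choose o ho using this
  exact ⟨o, ho⟩

theorem upd_self {x : Fin n → Bool} {i : Fin n} {v : Bool} (h : x i = v) :
    Function.update x i v = x := by
  rw [← h]; exact Function.update_eq_self i x

theorem up_flp {o : Fin n → Bool} {q : (Fin n → Bool) → Bool} (hq : Up o q) {i : Fin n}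
    {x : Fin n → Bool} (hx : x i = !(o i)) (h : q x = true) : q (flp i x) = true := by
  have h1 := hq i x
  rw [upd_self hx] at h1
  have h2 := h1 h
  have : flp i x = Function.update x i (o i) := by
    unfold flp
    rw [hx, Bool.not_not]
  rw [this]; exact h2

/-- sign of the degree-one correlation of an oriented function -/
theorem cI_sign {o : Fin n → Bool} {q : (Fin n → Bool) → Bool} (hq : Up o q) (i : Fin n) :
    0 ≤ sgn (o i) * cI q i := by
  have h := sum_sgn_flp q i
  have h2 : 0 ≤ ∑ x : Fin n → Bool, sgn (o i) * (sgn (x i) * (r (q x) - r (q (flp i x)))) := by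
    refine sum_nonneg fun x _ => ?_
    have h3 : x i = !(o i) → q x = true → q (flp i x) = true := fun a b => up_flp hq a b
    have h4 : x i = o i → q (flp i x) = true → q x = true := by
      intro a b
      have := up_flp hq (i := i) (x := flp i x) (by rw [flp_same, a]) b
      rwa [flp_flp] at this
    generalize q x = u at h3 h4 ⊢
    generalize q (flp i x) = w at h3 h4 ⊢
    generalize x i = s at h3 h4 ⊢
    generalize o i = t at h3 h4 ⊢
    cases u <;> cases w <;> cases s <;> cases t <;> simp_all [r, sgn]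
  rw [← mul_sum, h] at h2
  linarith

/-- monotonicity in all coordinates -/
theorem up_le {o : Fin n → Bool} {q : (Fin n → Bool) → Bool} (hq : Up o q)
    {y' y : Fin n → Bool} (hy : q y' = true) (h : ∀ i, y i = y' i ∨ y i = o i) :
    q y = true := by
  classical
  have key : ∀ D : Finset (Fin n), q (mix D y' y) = true := by
    intro D
    induction D using Finset.induction_on with
    | empty =>
      have : mix ∅ y' y = y' := by funext i; simp [mix]
      rw [this]; exact hy
    | insert i D hi ih =>
      rw [mix_insert]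
      have hv : mix D y' y i = y' i := by simp [mix, hi]
      rcases h i with h1 | h1
      · rw [upd_self (by rw [hv, h1])]; exact ih
      · rcases Bool.eq_or_eq_not (y' i) (o i) with h2 | h2
        · rw [upd_self (by rw [hv, h1, h2])]; exact ih
        · rw [h1]
          refine hq i _ ?_
          rw [upd_self (by rw [hv, h2])]
          exact ih
  have := key univ
  have e : mix univ y' y = y := by funext i; simp [mix]
  rwa [e] at this

/-- The event that `(i, v)` is pivotal for `q`, outside `h` and inside `Z`. -/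
def pv (q : (Fin n → Bool) → Bool) (h : List (List Lit)) (i : Fin n) (v : Bool)
    (Z : List Lit) (x : Fin n → Bool) : Bool :=
  (x i == v) && (q x && (!(satD (List.ofFn x) h) && (!(q (flp i x)) && sat (List.ofFn x) Z)))

theorem pv_iff {q : (Fin n → Bool) → Bool} {h : List (List Lit)} {i : Fin n} {v : Bool}
    {Z : List Lit} {x : Fin n → Bool} : pv q h i v Z x = true ↔
      x i = v ∧ q x = true ∧ satD (List.ofFn x) h = false ∧ q (flp i x) = false ∧
        sat (List.ofFn x) Z = true := by
  unfold pv
  simp

theorem ct_flp (i : Fin n) (E : (Fin n → Bool) → Bool) : ct (fun x => E (flp i x)) = ct E := by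
  unfold ct
  refine card_bij (fun x _ => flp i x) ?_ ?_ ?_
  · intro x hx
    rw [mem_filter] at hx ⊢
    exact ⟨mem_univ _, hx.2⟩
  · intro x _ y _ hxy
    exact (flpE i).injective hxy
  · intro y hy
    rw [mem_filter] at hy
    refine ⟨flp i y, ?_, flp_flp i y⟩
    rw [mem_filter]
    refine ⟨mem_univ _, ?_⟩
    dsimp only
    rw [flp_flp]
    exact hy.2

theorem mu_flp (i : Fin n) (E : (Fin n → Bool) → Bool) : mu (fun x => E (flp i x)) = mu E := by
  unfold mu
  rw [ct_flp]

theorem eqL_iff {l l' : Lit} : eqL l l' = true ↔ l = l' := by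
  unfold eqL
  rw [Bool.and_eq_true, beq_iff_eq, beq_iff_eq]
  exact Prod.ext_iff.symm

theorem satD_strip {h : List (List Lit)} {i : Fin n} {v : Bool} {y : Fin n → Bool}
    (hh : ∀ D ∈ h, ∀ l ∈ D, l.1 < n) (hno : ∀ D ∈ h, ((i : ℕ), !v) ∉ D) (hy : y i = !v) :
    satD (List.ofFn (flp i y)) h = satD (List.ofFn y) (strip ((i : ℕ), v) h) := by
  rw [Bool.eq_iff_iff, satD_iff, satD_iff]
  unfold strip
  have key : ∀ C ∈ h, (sat (List.ofFn (flp i y)) C = true ↔
      sat (List.ofFn y) (C.filter fun l => !(eqL l ((i : ℕ), v))) = true) := by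
    intro C hC
    rw [sat_iff, sat_iff]
    constructor
    · intro h1 l hl
      rw [List.mem_filter] at hl
      have h2 := h1 l hl.1
      rw [getElem?_ofFn] at h2 ⊢
      obtain ⟨hl1, h2⟩ := h2
      refine ⟨hl1, ?_⟩
      by_cases he : (⟨l.1, hl1⟩ : Fin n) = i
      · exfalso
        have he' : l.1 = i := by rw [← he]
        rw [he, flp_same, hy, Bool.not_not] at h2
        have : l = ((i : ℕ), v) := Prod.ext he' h2.symm
        have h3 := hl.2
        rw [eqL_iff.2 this] at h3
        simp at h3
      · rw [flp_ne he] at h2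
        exact h2
    · intro h1 l hl
      rw [getElem?_ofFn]
      refine ⟨hh C hC l hl, ?_⟩
      by_cases he : (⟨l.1, hh C hC l hl⟩ : Fin n) = i
      · have he' : l.1 = i := by rw [← he]
        rw [he, flp_same, hy, Bool.not_not]
        by_contra hne
        apply hno C hC
        have : l = ((i : ℕ), !v) := by
          refine Prod.ext he' ?_
          cases h4 : l.2 <;> cases v <;> simp_all
        rwa [← this]
      · rw [flp_ne he]
        have h2 := h1 l (by
          rw [List.mem_filter]
          refine ⟨hl, ?_⟩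
          cases h3 : eqL l ((i : ℕ), v)
          · rfl
          · exfalso
            rw [eqL_iff] at h3
            apply he
            apply Fin.ext
            simp only
            rw [h3])
        rw [getElem?_ofFn] at h2
        exact h2.2
  constructor
  · rintro ⟨C, hC, hs⟩
    exact ⟨_, List.mem_map.2 ⟨C, hC, rfl⟩, (key C hC).1 hs⟩
  · rintro ⟨C', hC', hs⟩
    obtain ⟨C, hC, rfl⟩ := List.mem_map.1 hC'
    exact ⟨C, hC, (key C hC).2 hs⟩

theorem sat_flp {Z : List Lit} {i : Fin n} {y : Fin n → Bool} (hZ : ∀ l ∈ Z, l.1 ≠ i) :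
    sat (List.ofFn (flp i y)) Z = sat (List.ofFn y) Z := by
  rw [Bool.eq_iff_iff, sat_iff, sat_iff]
  have : ∀ l ∈ Z, ((List.ofFn (flp i y))[l.1]? = some l.2 ↔ (List.ofFn y)[l.1]? = some l.2) := by
    intro l hl
    rw [getElem?_ofFn, getElem?_ofFn]
    constructor
    · rintro ⟨h1, h2⟩
      refine ⟨h1, ?_⟩
      rwa [flp_ne (fun hc => hZ l hl (by rw [← hc]))] at h2
    · rintro ⟨h1, h2⟩
      refine ⟨h1, ?_⟩
      rwa [flp_ne (fun hc => hZ l hl (by rw [← hc]))]
  exact ⟨fun h l hl => (this l hl).1 (h l hl), fun h l hl => (this l hl).2 (h l hl)⟩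

/-- **The pivotal measure is a difference of two observable measures.** -/
theorem pivot_identity {o : Fin n → Bool} {q : (Fin n → Bool) → Bool} (hq : Up o q)
    {h : List (List Lit)} {i : Fin n} {Z : List Lit}
    (hh : ∀ D ∈ h, ∀ l ∈ D, l.1 < n) (hno : ∀ D ∈ h, ((i : ℕ), !(o i)) ∉ D)
    (hZ : ∀ l ∈ Z, l.1 ≠ i) :
    mu (ev q true (((i : ℕ), o i) :: Z) h) -
      mu (ev q true (neg ((i : ℕ), o i) :: Z) (strip ((i : ℕ), o i) h)) =
      mu (pv q h i (o i) Z) := by
  set B : (Fin n → Bool) → Bool := fun x => (x i == o i) && (q x && (!(satD (List.ofFn x) h) &&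
    (q (flp i x) && sat (List.ofFn x) Z))) with hB
  have hBiff : ∀ x, B x = true ↔ x i = o i ∧ q x = true ∧ satD (List.ofFn x) h = false ∧
      q (flp i x) = true ∧ sat (List.ofFn x) Z = true := by
    intro x
    simp only [hB]
    simp
  have h1 : mu (ev q true (((i : ℕ), o i) :: Z) h) = mu (pv q h i (o i) Z) + mu B := by
    refine mu_eq_add ?_ ?_
    · intro x
      rw [ev_iff, sat_cons, getElem?_ofFn, pv_iff, hBiff]
      constructor
      · rintro ⟨a, ⟨⟨_, b⟩, c⟩, d⟩
        cases hf : q (flp i x)
        · exact Or.inl ⟨b, a, d, rfl, c⟩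
        · exact Or.inr ⟨b, a, d, rfl, c⟩
      · rintro (⟨b, a, d, _, c⟩ | ⟨b, a, d, _, c⟩)
        · exact ⟨a, ⟨⟨i.2, b⟩, c⟩, d⟩
        · exact ⟨a, ⟨⟨i.2, b⟩, c⟩, d⟩
    · rintro x ⟨h2, h3⟩
      rw [pv_iff] at h2
      rw [hBiff] at h3
      rw [h2.2.2.2.1] at h3
      exact Bool.noConfusion h3.2.2.2.1
  have h2 : mu (ev q true (neg ((i : ℕ), o i) :: Z) (strip ((i : ℕ), o i) h)) = mu B := by
    rw [← mu_flp i B]
    refine mu_congr ?_
    intro y
    rw [hBiff, ev_iff, sat_cons, getElem?_ofFn, flp_flp, flp_same, sat_flp hZ]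
    constructor
    · rintro ⟨a, ⟨⟨_, b⟩, c⟩, d⟩
      have b' : y i = !(o i) := b
      have hs := satD_strip hh hno b'
      refine ⟨by rw [b', Bool.not_not], up_flp hq b' a, by rw [hs]; exact d, a, c⟩
    · rintro ⟨b, _, d, a, c⟩
      have b' : y i = !(o i) := by
        rw [← b, Bool.not_not]
      have hs := satD_strip hh hno b'
      exact ⟨a, ⟨⟨i.2, b'⟩, c⟩, by rw [← hs]; exact d⟩
  rw [h1, h2]
  ring

/-- The isoperimetric inequality in terms of pivotal events. -/
theorem iso_pv {o : Fin n → Bool} {q : (Fin n → Bool) → Bool} (hq : Up o q)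
    {h : List (List Lit)} (hh : ∀ D ∈ h, ∀ l ∈ D, ∃ i : Fin n, l = ((i : ℕ), o i)) :
    2 * mu (ev q true [] h) * mu (ev q false [] h) ≤ ∑ i, mu (pv q h i (o i) []) := by
  have hDz : Dn o (fun x => !(satD (List.ofFn x) h)) := by
    intro i x hx
    simp only [Bool.not_eq_true'] at hx ⊢
    by_contra hcon
    rw [Bool.not_eq_false, satD_iff] at hcon
    obtain ⟨C, hC, hs⟩ := hcon
    have : satD (List.ofFn (Function.update x i (o i))) h = true := by
      rw [satD_iff]
      refine ⟨C, hC, ?_⟩
      rw [sat_iff] at hs ⊢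
      intro l hl
      have h1 := hs l hl
      obtain ⟨j, rfl⟩ := hh C hC l hl
      rw [getElem?_ofFn] at h1 ⊢
      obtain ⟨hj, h1⟩ := h1
      refine ⟨hj, ?_⟩
      simp only at h1 ⊢
      by_cases hji : (⟨(j : ℕ), hj⟩ : Fin n) = i
      · have hji' : j = i := by rw [← hji]
        subst hji'
        simp
      · rw [Function.update_of_ne hji] at h1 ⊢
        exact h1
    rw [hx] at this
    exact Bool.noConfusion this
  have hDc : Dn o (fun x => !(q x) && !(satD (List.ofFn x) h)) := by
    intro i x hx
    simp only [Bool.and_eq_true, Bool.not_eq_true'] at hx ⊢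
    refine ⟨?_, ?_⟩
    · by_contra hcon
      rw [Bool.not_eq_false] at hcon
      rw [hq i x hcon] at hx
      exact Bool.noConfusion hx.1
    · have := hDz i x (by simp only [Bool.not_eq_true']; exact hx.2)
      simpa using this
  have hiso := iso_aux n o (fun x => !(q x) && !(satD (List.ofFn x) h))
    (fun x => !(satD (List.ofFn x) h)) hDc hDz (by
      intro x hx
      simp only [Bool.and_eq_true] at hx
      exact hx.2)
  have hsum : ∀ E : (Fin n → Bool) → Bool, ∑ x, bR (E x) = mu E * 2 ^ n := by
    intro E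
    unfold mu
    rw [Fintype.card_fun, Fintype.card_fin, Fintype.card_bool, ct_eq_sum]
    push_cast
    rw [div_mul_cancel₀ _ (by positivity)]
    rfl
  have e1 : sA (fun x => !(q x) && !(satD (List.ofFn x) h))
      (fun x => !(satD (List.ofFn x) h)) = mu (ev q true [] h) * 2 ^ n := by
    rw [← hsum]
    unfold sA
    refine sum_congr rfl fun x _ => ?_
    unfold ev
    dsimp only
    rw [sat_nil]
    generalize q x = u
    generalize satD (List.ofFn x) h = w
    cases u <;> cases w <;> rfl
  have e2 : sC (fun x => !(q x) && !(satD (List.ofFn x) h)) = mu (ev q false [] h) * 2 ^ n := by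
    rw [← hsum]
    unfold sC
    refine sum_congr rfl fun x _ => ?_
    unfold ev
    dsimp only
    rw [sat_nil]
    generalize q x = u
    generalize satD (List.ofFn x) h = w
    cases u <;> cases w <;> rfl
  have e3 : ∀ i, sB1 o (fun x => !(q x) && !(satD (List.ofFn x) h))
      (fun x => !(satD (List.ofFn x) h)) i ≤ mu (pv q h i (o i) []) * 2 ^ n := by
    intro i
    rw [← hsum]
    unfold sB1
    refine sum_le_sum fun x _ => ?_
    have h1 : x i = o i → Function.update x i (!(o i)) = flp i x := by
      intro hx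
      unfold flp
      rw [hx]
    by_cases hx : x i = o i
    · rw [h1 hx]
      unfold pv
      dsimp only
      rw [sat_nil, hx]
      generalize q x = u
      generalize q (flp i x) = u'
      generalize satD (List.ofFn x) h = w
      generalize satD (List.ofFn (flp i x)) h = w'
      cases u <;> cases u' <;> cases w <;> cases w' <;> simp [bR]
    · rw [decide_eq_false hx, Bool.false_and]
      simp only [bR, Bool.false_eq_true, if_false]
      split_ifs <;> norm_num
  rw [e1, e2] at hiso
  have hp : (0 : ℝ) < 2 ^ n := by positivity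
  have h4 : ∑ i, sB1 o (fun x => !(q x) && !(satD (List.ofFn x) h))
      (fun x => !(satD (List.ofFn x) h)) i ≤ (∑ i, mu (pv q h i (o i) [])) * 2 ^ n := by
    rw [sum_mul]
    exact sum_le_sum fun i _ => e3 i
  have h5 : (2 * mu (ev q true [] h) * mu (ev q false [] h)) * (2 ^ n * 2 ^ n) ≤
      (∑ i, mu (pv q h i (o i) [])) * (2 ^ n * 2 ^ n) := by
    calc (2 * mu (ev q true [] h) * mu (ev q false [] h)) * (2 ^ n * 2 ^ n) =
        2 * (mu (ev q true [] h) * 2 ^ n) * (mu (ev q false [] h) * 2 ^ n) := by ring
      _ ≤ 2 ^ n * ∑ i, sB1 o (fun x => !(q x) && !(satD (List.ofFn x) h))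
          (fun x => !(satD (List.ofFn x) h)) i := hiso
      _ ≤ 2 ^ n * ((∑ i, mu (pv q h i (o i) [])) * 2 ^ n) :=
          mul_le_mul_of_nonneg_left h4 hp.le
      _ = _ := by ring
  exact le_of_mul_le_mul_right h5 (by positivity)

end Pool.Agent.H.MP_cba12a_lc
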