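import Pool.Agent.H.MP_cba12a_lc.Algo5
import Pool.Agent.H.MP_cba12a_lc.Pivot

/-!
The decision tree of the learner: weights, covering, unfinished part.
-/

namespace Pool.Agent.H.MP_cba12a_lc

open Finset

variable {n m : ℕ}

theorem dist_iff {C : List Lit} : dist C = true ↔ (C.map Prod.fst).Nodup := by
  unfold dist
  rw [List.all_eq_true, List.nodup_iff_count_le_one]
  have key : ∀ i : ℕ, (C.map Prod.fst).count i = (C.filter fun l' => l'.1 == i).length := by
    intro i
    rw [List.count_eq_countP, List.countP_map, List.countP_eq_length_filter]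
    rfl
  constructor
  · intro h i
    by_cases hi : i ∈ C.map Prod.fst
    · obtain ⟨l, hl, rfl⟩ := List.mem_map.1 hi
      rw [key]
      exact of_decide_eq_true (h l hl)
    · rw [List.count_eq_zero_of_not_mem hi]
      omega
  · intro h l _
    rw [decide_eq_true_iff, ← key]
    exact h l.1

/-- weight of a node -/
noncomputable def wt (α : List Lit) : ℝ := (1 / 2) ^ α.length

theorem wt_nonneg (α : List Lit) : 0 ≤ wt α := by unfold wt; positivity

/-- total weight -/
noncomputable def tw (L : List (List Lit)) : ℝ := (L.map wt).sum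

theorem tw_nonneg (L : List (List Lit)) : 0 ≤ tw L := by
  unfold tw
  refine List.sum_nonneg ?_
  intro x hx
  obtain ⟨α, _, rfl⟩ := List.mem_map.1 hx
  exact wt_nonneg α

@[simp] theorem tw_nil : tw [] = 0 := rfl

theorem tw_cons (α : List Lit) (L : List (List Lit)) : tw (α :: L) = wt α + tw L := rfl

theorem tw_append (L L' : List (List Lit)) : tw (L ++ L') = tw L + tw L' := by
  unfold tw
  rw [List.map_append, List.sum_append]

theorem tw_filter_le (L : List (List Lit)) (p : List Lit → Bool) : tw (L.filter p) ≤ tw L := by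
  induction L with
  | nil => simp
  | cons α L ih =>
    rw [List.filter_cons]
    split_ifs
    · rw [tw_cons, tw_cons]; linarith
    · rw [tw_cons]; have := wt_nonneg α; linarith

theorem tw_negs (α C : List Lit) : tw (negs α C) + wt (C ++ α) = wt α := by
  induction C with
  | nil => simp [negs]
  | cons l D ih =>
    rw [negs, tw_cons, ← ih]
    have h1 : wt (neg l :: (D ++ α)) = 1 / 2 * wt (D ++ α) := by
      unfold wt
      rw [List.length_cons, pow_succ, mul_comm]
    have h2 : wt (l :: D ++ α) = 1 / 2 * wt (D ++ α) := by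
      unfold wt
      rw [List.cons_append, List.length_cons, pow_succ, mul_comm]
    rw [h1, h2]
    ring

theorem tw_kids (α C : List Lit) : tw (kids α C) = wt α := by
  unfold kids
  rw [tw_cons, ← tw_negs α C]
  ring

theorem cover_kids {x : Fin n → Bool} {α : List Lit} : ∀ {C : List Lit},
    (∀ l ∈ C, l.1 < n) → sat (List.ofFn x) α = true →
    ∃ B ∈ kids α C, sat (List.ofFn x) B = true := by
  intro C
  induction C with
  | nil => intro _ h; exact ⟨α, by simp [kids], h⟩
  | cons l D ih =>
    intro hC h
    by_cases h1 : sat (List.ofFn x) (l :: D ++ α) = true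
    · exact ⟨_, by simp [kids], h1⟩
    · obtain ⟨B, hB, hs⟩ := ih (fun l' hl' => hC l' (by simp [hl'])) h
      unfold kids at hB
      rcases List.mem_cons.1 hB with rfl | hB
      · refine ⟨neg l :: (D ++ α), by simp [kids, negs], ?_⟩
        rw [sat_cons]
        refine ⟨?_, hs⟩
        rw [List.cons_append, sat_cons] at h1
        have hl := hC l (by simp)
        rw [getElem?_ofFn] at h1 ⊢
        refine ⟨hl, ?_⟩
        by_contra hc
        refine h1 ⟨⟨hl, ?_⟩, hs⟩
        unfold neg at hc
        simpa using hc
      · exact ⟨B, by unfold kids negs; simp [hB], hs⟩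

theorem nodup_kids {α C : List Lit} (h : ((C ++ α).map Prod.fst).Nodup) :
    ∀ B ∈ kids α C, (B.map Prod.fst).Nodup := by
  intro B hB
  unfold kids at hB
  rcases List.mem_cons.1 hB with rfl | hB
  · exact h
  · obtain ⟨l, D, h1, rfl⟩ := mem_negs hB
    have h2 : ((l :: D) ++ α).Sublist (C ++ α) := h1.sublist.append (List.Sublist.refl _)
    have h3 := h.sublist (h2.map Prod.fst)
    have e : (neg l :: (D ++ α)).map Prod.fst = ((l :: D) ++ α).map Prod.fst := by
      simp [neg]
    rw [e]
    exact h3

/-- unfinished weight -/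
noncomputable def unf (A N k : ℕ) (V : List Lit) (S : Samples) (L : List (List Lit)) : ℝ :=
  tw (L.filter fun α => !(fin A N k V S α))

section tree

variable {A N k : ℕ} {V : List Lit} {S : Samples}

theorem fin_of_tst {α : List Lit} (h : tst A S α = true) : fin A N k V S α = true := by
  unfold fin; rw [h]; rfl

theorem spl_cases (α : List Lit) : (fin A N k V S α = true ∧ spl A N k V S α = [α]) ∨
    (fin A N k V S α = false ∧ ∃ C ∈ shorts A N k V S α, spl A N k V S α = kids α C) := by
  unfold spl
  by_cases h : fin A N k V S α = true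
  · left
    rw [if_pos h]
    exact ⟨h, rfl⟩
  · right
    rw [if_neg h]
    refine ⟨by simpa using h, ?_⟩
    unfold fin at h
    cases hs : shorts A N k V S α with
    | nil => rw [hs] at h; simp at h
    | cons C L => exact ⟨C, by simp, by simp⟩

theorem unf_spl (α : List Lit) : unf A N k V S (spl A N k V S α) ≤
    (1 - (1 / 2) ^ k) * unf A N k V S [α] := by
  rcases spl_cases (A := A) (N := N) (k := k) (V := V) (S := S) α with ⟨h1, h2⟩ |
    ⟨h1, C, hC, h2⟩
  · rw [h2]
    unfold unf
    simp [h1]
  · rw [h2]
    have hC' := mem_shorts hC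
    have h3 : unf A N k V S (kids α C) ≤ tw (negs α C) := by
      unfold unf kids
      rw [List.filter_cons, fin_of_tst hC'.2.2]
      simp only [Bool.not_true, Bool.false_eq_true, if_false]
      exact tw_filter_le _ _
    have h4 : unf A N k V S [α] = wt α := by
      unfold unf
      simp [h1, tw_cons]
    rw [h4]
    refine h3.trans ?_
    have h5 := tw_negs α C
    have h6 : wt (C ++ α) = (1 / 2) ^ C.length * wt α := by
      unfold wt
      rw [List.length_append, pow_add]
    have h7 : (1 / 2 : ℝ) ^ k ≤ (1 / 2) ^ C.length :=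
      pow_le_pow_of_le_one (by norm_num) (by norm_num) hC'.1.1
    have h8 := mul_le_mul_of_nonneg_right h7 (wt_nonneg α)
    nlinarith

theorem unf_append (L L' : List (List Lit)) :
    unf A N k V S (L ++ L') = unf A N k V S L + unf A N k V S L' := by
  unfold unf
  rw [List.filter_append, tw_append]

theorem unf_flatMap (L : List (List Lit)) : unf A N k V S (L.flatMap fun α => spl A N k V S α) ≤
    (1 - (1 / 2) ^ k) * unf A N k V S L := by
  induction L with
  | nil => simp [unf]
  | cons α L ih =>
    rw [List.flatMap_cons, unf_append]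
    have h := unf_spl (A := A) (N := N) (k := k) (V := V) (S := S) α
    have h2 : unf A N k V S (α :: L) = unf A N k V S [α] + unf A N k V S L := unf_append [α] L
    rw [h2]
    linarith

theorem tw_flatMap (L : List (List Lit)) :
    tw (L.flatMap fun α => spl A N k V S α) = tw L := by
  induction L with
  | nil => simp
  | cons α L ih =>
    rw [List.flatMap_cons, tw_append, ih, tw_cons]
    congr 1
    rcases spl_cases (A := A) (N := N) (k := k) (V := V) (S := S) α with ⟨_, h2⟩ |
      ⟨_, C, _, h2⟩
    · rw [h2, tw_cons]; simp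
    · rw [h2, tw_kids]

theorem length_flatMap_spl (L : List (List Lit)) :
    (L.flatMap fun α => spl A N k V S α).length ≤ (k + 1) * L.length := by
  induction L with
  | nil => simp
  | cons α L ih =>
    rw [List.flatMap_cons, List.length_append, List.length_cons]
    have h : (spl A N k V S α).length ≤ k + 1 := by
      rcases spl_cases (A := A) (N := N) (k := k) (V := V) (S := S) α with ⟨_, h2⟩ |
        ⟨_, C, hC, h2⟩
      · rw [h2]; simp
      · rw [h2]
        unfold kids
        rw [List.length_cons, length_negs]
        have := (mem_shorts hC).1.1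
        omega
    rw [mul_add]
    omega

theorem tree_spec {S : Samples} (J : ℕ) (hJ : (k + 1) ^ J ≤ N) : ∀ j ≤ J,
    (tree A N k (allLits n) S j).length ≤ (k + 1) ^ j ∧ tw (tree A N k (allLits n) S j) = 1 ∧
    unf A N k (allLits n) S (tree A N k (allLits n) S j) ≤ (1 - (1 / 2) ^ k) ^ j ∧
    (∀ α ∈ tree A N k (allLits n) S j, (α.map Prod.fst).Nodup) ∧
    ∀ x : Fin n → Bool, ∃ α ∈ tree A N k (allLits n) S j, sat (List.ofFn x) α = true := by
  intro j
  induction j with
  | zero =>
    intro _
    unfold tree
    rw [Function.iterate_zero, id]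
    refine ⟨by simp, by simp [tw, wt], ?_, by simp, fun x => ⟨[], by simp, rfl⟩⟩
    refine (tw_filter_le _ _).trans ?_
    simp [tw, wt]
  | succ j ih =>
    intro hj
    obtain ⟨h1, h2, h3, h4, h5⟩ := ih (by omega)
    have e : tree A N k (allLits n) S (j + 1) =
        (tree A N k (allLits n) S j).flatMap fun α => spl A N k (allLits n) S α := by
      conv_lhs => unfold tree
      rw [Function.iterate_succ_apply']
      change treeStep A N k (allLits n) S (tree A N k (allLits n) S j) = _
      unfold treeStep
      rw [if_pos]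
      refine (length_flatMap_spl _).trans ?_
      calc (k + 1) * (tree A N k (allLits n) S j).length ≤ (k + 1) * (k + 1) ^ j :=
            Nat.mul_le_mul_left _ h1
        _ = (k + 1) ^ (j + 1) := by ring
        _ ≤ (k + 1) ^ J := Nat.pow_le_pow_right (by omega) hj
        _ ≤ N := hJ
    rw [e]
    refine ⟨?_, ?_, ?_, ?_, ?_⟩
    · refine (length_flatMap_spl _).trans ?_
      calc (k + 1) * (tree A N k (allLits n) S j).length ≤ (k + 1) * (k + 1) ^ j :=
            Nat.mul_le_mul_left _ h1
        _ = (k + 1) ^ (j + 1) := by ring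
    · rw [tw_flatMap, h2]
    · refine (unf_flatMap _).trans ?_
      rw [pow_succ, mul_comm]
      refine mul_le_mul_of_nonneg_right h3 ?_
      have : (1 / 2 : ℝ) ^ k ≤ 1 := pow_le_one₀ (by norm_num) (by norm_num)
      linarith
    · intro B hB
      obtain ⟨α, hα, hB⟩ := List.mem_flatMap.1 hB
      rcases spl_cases (A := A) (N := N) (k := k) (V := allLits n) (S := S) α with ⟨_, h⟩ |
        ⟨_, C, hC, h⟩
      · rw [h, List.mem_singleton] at hB
        rw [hB]
        exact h4 α hα
      · rw [h] at hB
        exact nodup_kids (dist_iff.1 (mem_shorts hC).2.1) B hB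
    · intro x
      obtain ⟨α, hα, hs⟩ := h5 x
      rcases spl_cases (A := A) (N := N) (k := k) (V := allLits n) (S := S) α with ⟨_, h⟩ |
        ⟨_, C, hC, h⟩
      · exact ⟨α, List.mem_flatMap.2 ⟨α, hα, by rw [h]; simp⟩, hs⟩
      · obtain ⟨B, hB, hs'⟩ := cover_kids (C := C) (fun l hl =>
          mem_allLits.1 ((mem_shorts hC).1.2 l hl)) hs
        exact ⟨B, List.mem_flatMap.2 ⟨α, hα, by rw [h]; exact hB⟩, hs'⟩

end tree

end Pool.Agent.H.MP_cba12a_lc
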