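import Pool.Agent.H.MP_cba12a_lc.Algo6
import Pool.Agent.H.MP_cba12a_lc.Tree5

/-!
The decision tree with the relative test: weights, covering, unfinished part.
-/

namespace Pool.Agent.H.MP_cba12a_lc

open Finset

variable {n m : ℕ}

/-- unfinished weight -/
noncomputable def unf6 (A N k : ℕ) (V : List Lit) (S : Samples) (L : List (List Lit)) : ℝ :=
  tw (L.filter fun α => !(fin6 A N k V S α))

section tree

variable {A N k : ℕ} {V : List Lit} {S : Samples}

theorem fin6_of_rt {α : List Lit} (h : rt A S α = true) : fin6 A N k V S α = true := by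
  unfold fin6; rw [h]; rfl

theorem spl6_cases (α : List Lit) : (fin6 A N k V S α = true ∧ spl6 A N k V S α = [α]) ∨
    (fin6 A N k V S α = false ∧ ∃ C ∈ shorts6 A N k V S α, spl6 A N k V S α = kids α C) := by
  unfold spl6
  by_cases h : fin6 A N k V S α = true
  · left
    rw [if_pos h]
    exact ⟨h, rfl⟩
  · right
    rw [if_neg h]
    refine ⟨by simpa using h, ?_⟩
    unfold fin6 at h
    cases hs : shorts6 A N k V S α with
    | nil => rw [hs] at h; simp at h
    | cons C L => exact ⟨C, by simp, by simp⟩

theorem unf6_spl (α : List Lit) : unf6 A N k V S (spl6 A N k V S α) ≤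
    (1 - (1 / 2) ^ k) * unf6 A N k V S [α] := by
  rcases spl6_cases (A := A) (N := N) (k := k) (V := V) (S := S) α with ⟨h1, h2⟩ |
    ⟨h1, C, hC, h2⟩
  · rw [h2]
    unfold unf6
    simp [h1]
  · rw [h2]
    have hC' := mem_shorts6 hC
    have h3 : unf6 A N k V S (kids α C) ≤ tw (negs α C) := by
      unfold unf6 kids
      rw [List.filter_cons, fin6_of_rt hC'.2.2]
      simp only [Bool.not_true, Bool.false_eq_true, if_false]
      exact tw_filter_le _ _
    have h4 : unf6 A N k V S [α] = wt α := by
      unfold unf6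
      simp [h1, tw_cons]
    rw [h4]
    refine h3.trans ?_
    have h5 := tw_negs α C
    have h6 : wt (C ++ α) = (1 / 2) ^ C.length * wt α := by
      unfold wt
      rw [List.length_append, pow_add]
    have h7 : (1 / 2 : ℝ) ^ k ≤ (1 / 2) ^ C.length :=
      pow_le_pow_of_le_one (by norm_num) (by norm_num) hC'.1.1
    have h8 := mul_le_mul_of_nonneg_right h7 (wt_nonneg α)
    nlinarith

theorem unf6_append (L L' : List (List Lit)) :
    unf6 A N k V S (L ++ L') = unf6 A N k V S L + unf6 A N k V S L' := by
  unfold unf6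
  rw [List.filter_append, tw_append]

theorem unf6_flatMap (L : List (List Lit)) : unf6 A N k V S (L.flatMap fun α => spl6 A N k V S α) ≤
    (1 - (1 / 2) ^ k) * unf6 A N k V S L := by
  induction L with
  | nil => simp [unf6]
  | cons α L ih =>
    rw [List.flatMap_cons, unf6_append]
    have h := unf6_spl (A := A) (N := N) (k := k) (V := V) (S := S) α
    have h2 : unf6 A N k V S (α :: L) = unf6 A N k V S [α] + unf6 A N k V S L := unf6_append [α] L
    rw [h2]
    linarith

theorem tw6_flatMap (L : List (List Lit)) :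
    tw (L.flatMap fun α => spl6 A N k V S α) = tw L := by
  induction L with
  | nil => simp
  | cons α L ih =>
    rw [List.flatMap_cons, tw_append, ih, tw_cons]
    congr 1
    rcases spl6_cases (A := A) (N := N) (k := k) (V := V) (S := S) α with ⟨_, h2⟩ |
      ⟨_, C, _, h2⟩
    · rw [h2, tw_cons]; simp
    · rw [h2, tw_kids]

theorem length_flatMap_spl6 (L : List (List Lit)) :
    (L.flatMap fun α => spl6 A N k V S α).length ≤ (k + 1) * L.length := by
  induction L with
  | nil => simp
  | cons α L ih =>
    rw [List.flatMap_cons, List.length_append, List.length_cons]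
    have h : (spl6 A N k V S α).length ≤ k + 1 := by
      rcases spl6_cases (A := A) (N := N) (k := k) (V := V) (S := S) α with ⟨_, h2⟩ |
        ⟨_, C, hC, h2⟩
      · rw [h2]; simp
      · rw [h2]
        unfold kids
        rw [List.length_cons, length_negs]
        have := (mem_shorts6 hC).1.1
        omega
    rw [mul_add]
    omega

theorem tree6_spec {S : Samples} (J : ℕ) (hJ : (k + 1) ^ J ≤ N) : ∀ j ≤ J,
    (tree6 A N k (allLits n) S j).length ≤ (k + 1) ^ j ∧ tw (tree6 A N k (allLits n) S j) = 1 ∧
    unf6 A N k (allLits n) S (tree6 A N k (allLits n) S j) ≤ (1 - (1 / 2) ^ k) ^ j ∧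
    (∀ α ∈ tree6 A N k (allLits n) S j, (α.map Prod.fst).Nodup) ∧
    ∀ x : Fin n → Bool, ∃ α ∈ tree6 A N k (allLits n) S j, sat (List.ofFn x) α = true := by
  intro j
  induction j with
  | zero =>
    intro _
    unfold tree6
    rw [Function.iterate_zero, id]
    refine ⟨by simp, by simp [tw, wt], ?_, by simp, fun x => ⟨[], by simp, rfl⟩⟩
    refine (tw_filter_le _ _).trans ?_
    simp [tw, wt]
  | succ j ih =>
    intro hj
    obtain ⟨h1, h2, h3, h4, h5⟩ := ih (by omega)
    have e : tree6 A N k (allLits n) S (j + 1) =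
        (tree6 A N k (allLits n) S j).flatMap fun α => spl6 A N k (allLits n) S α := by
      conv_lhs => unfold tree6
      rw [Function.iterate_succ_apply']
      change treeStep6 A N k (allLits n) S (tree6 A N k (allLits n) S j) = _
      unfold treeStep6
      rw [if_pos]
      refine (length_flatMap_spl6 _).trans ?_
      calc (k + 1) * (tree6 A N k (allLits n) S j).length ≤ (k + 1) * (k + 1) ^ j :=
            Nat.mul_le_mul_left _ h1
        _ = (k + 1) ^ (j + 1) := by ring
        _ ≤ (k + 1) ^ J := Nat.pow_le_pow_right (by omega) hj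
        _ ≤ N := hJ
    rw [e]
    refine ⟨?_, ?_, ?_, ?_, ?_⟩
    · refine (length_flatMap_spl6 _).trans ?_
      calc (k + 1) * (tree6 A N k (allLits n) S j).length ≤ (k + 1) * (k + 1) ^ j :=
            Nat.mul_le_mul_left _ h1
        _ = (k + 1) ^ (j + 1) := by ring
    · rw [tw6_flatMap, h2]
    · refine (unf6_flatMap _).trans ?_
      rw [pow_succ, mul_comm]
      refine mul_le_mul_of_nonneg_right h3 ?_
      have : (1 / 2 : ℝ) ^ k ≤ 1 := pow_le_one₀ (by norm_num) (by norm_num)
      linarith
    · intro B hB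
      obtain ⟨α, hα, hB⟩ := List.mem_flatMap.1 hB
      rcases spl6_cases (A := A) (N := N) (k := k) (V := allLits n) (S := S) α with ⟨_, h⟩ |
        ⟨_, C, hC, h⟩
      · rw [h, List.mem_singleton] at hB
        rw [hB]
        exact h4 α hα
      · rw [h] at hB
        exact nodup_kids (dist_iff.1 (mem_shorts6 hC).2.1) B hB
    · intro x
      obtain ⟨α, hα, hs⟩ := h5 x
      rcases spl6_cases (A := A) (N := N) (k := k) (V := allLits n) (S := S) α with ⟨_, h⟩ |
        ⟨_, C, hC, h⟩
      · exact ⟨α, List.mem_flatMap.2 ⟨α, hα, by rw [h]; simp⟩, hs⟩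
      · obtain ⟨B, hB, hs'⟩ := cover_kids (C := C) (fun l hl =>
          mem_allLits.1 ((mem_shorts6 hC).1.2 l hl)) hs
        exact ⟨B, List.mem_flatMap.2 ⟨α, hα, by rw [h]; exact hB⟩, hs'⟩

end tree

end Pool.Agent.H.MP_cba12a_lc
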