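import Pool.Agent.H.MP_cba12a_lc.Leaf6
import Pool.Agent.H.MP_cba12a_lc.Tree6

/-!
Candidates at a leaf, and the number of terms.
-/

namespace Pool.Agent.H.MP_cba12a_lc

open Finset

variable {n m : ℕ}

/-- number of terms of which any two share few variables -/
theorem card_share_le {t : ℕ} {H : Finset (Finset (Fin n × Bool))}
    (hshare : ∀ T ∈ H, ∀ T' ∈ H, T ≠ T' → (vs T ∩ vs T').card ≤ t)
    (hlong : ∀ T ∈ H, t + 1 ≤ (vs T).card) : H.card ≤ n ^ (t + 1) := by
  classical
  have hch : ∀ T : Finset (Fin n × Bool), ∃ S : Finset (Fin n), T ∈ H → S ⊆ vs T ∧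
      S.card = t + 1 := by
    intro T
    by_cases hT : T ∈ H
    · obtain ⟨S, hS, hc⟩ := exists_subset_card_eq (hlong T hT)
      exact ⟨S, fun _ => ⟨hS, hc⟩⟩
    · exact ⟨∅, fun h => absurd h hT⟩
  choose S hS using hch
  calc H.card ≤ (powersetCard (t + 1) (univ : Finset (Fin n))).card := by
        refine card_le_card_of_injOn S ?_ ?_
        · intro T hT
          rw [mem_coe, mem_powersetCard]
          exact ⟨subset_univ _, (hS T hT).2⟩
        · intro T hT T' hT' hSS
          by_contra hne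
          have h1 := hshare T hT T' hT' hne
          have h2 : S T ⊆ vs T ∩ vs T' := subset_inter (hS T hT).1 (hSS ▸ (hS T' hT').1)
          have h3 := card_le_card h2
          rw [(hS T hT).2] at h3
          omega
    _ = n.choose (t + 1) := by rw [card_powersetCard, card_univ, Fintype.card_fin]
    _ ≤ n ^ (t + 1) := Nat.choose_le_pow n (t + 1)

/-- the terms at a leaf are long -/
theorem Fam.long {t L : ℕ} {κ : ℝ} {X : Finset (Fin n)} {G : Finset (Finset (Fin n × Bool))}
    (h : Fam t L κ X G) : ∀ T ∈ G, t + 2 ≤ T.card := by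
  intro T hT
  by_contra hcon
  have h1 := h.low T (h.cons T hT) (h.dis T hT) (by omega)
  have h2 : nn G T = 0 := by
    unfold nn mu ct
    rw [filter_false_of_mem]
    · simp
    · intro x _ hx
      rw [decide_eq_true_iff] at hx
      exact hx.2 T hT hx.1
  rw [h2] at h1
  have := mul_pos h.pos (wF_pos T)
  linarith

theorem Fam.card_le {t L : ℕ} {κ : ℝ} {X : Finset (Fin n)} {G : Finset (Finset (Fin n × Bool))}
    (h : Fam t L κ X G) : G.card ≤ n ^ (t + 1) := by
  refine card_share_le h.share fun T hT => ?_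
  rw [h.cons T hT]
  have := h.long T hT
  omega

/-- the candidates at a leaf -/
def cands6 (N r k D n : ℕ) (S : Samples) (α : List Lit) : List (List Lit) :=
  shortC N r (allLits n) α ++ longC N k D (allLits n) S α

theorem lt_cands6 {N r k D : ℕ} {S : Samples} {α C : List Lit} (hα : ∀ l ∈ α, l.1 < n)
    (hC : C ∈ cands6 N r k D n S α) : ∀ l ∈ C, l.1 < n := by
  unfold cands6 at hC
  intro l hl
  rcases List.mem_append.1 hC with hC | hC
  · unfold shortC at hC
    obtain ⟨R, hR, rfl⟩ := List.mem_map.1 hC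
    rcases List.mem_append.1 hl with hl | hl
    · exact mem_allLits.1 (((bd_seeds N r (allLits n)).2 R hR).2 l hl)
    · exact hα l hl
  · unfold longC at hC
    obtain ⟨R, hR, rfl⟩ := List.mem_map.1 hC
    rcases List.mem_append.1 hl with hl | hl
    · exact mem_allLits.1 (((bd_seeds N k (allLits n)).2 R hR).2 l hl)
    · rcases List.mem_append.1 hl with hl | hl
      · unfold ext6 at hl
        exact mem_allLits.1 (List.mem_filter.1 hl).1
      · exact hα l hl

theorem card_outs_add {X : Finset (Fin n)} {T : Finset (Fin n × Bool)}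
    (hT : (vs T).card = T.card) : T.card ≤ (outs X T).card + X.card := by
  classical
  have h1 : (T.filter fun l => l.1 ∈ X).card ≤ X.card := by
    refine card_le_card_of_injOn Prod.fst ?_ ?_
    · intro l hl
      rw [mem_coe, mem_filter] at hl
      exact hl.2
    · intro l hl l' hl' h
      rw [mem_coe, mem_filter] at hl hl'
      exact inj_of_card hT hl.1 hl'.1 h
  have h2 := card_filter_add_card_filter_not (s := T) (fun l => l.1 ∈ X)
  have h3 : outs X T = T.filter fun l => ¬ l.1 ∈ X := rfl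
  rw [h3]
  omega

/-- **Every needed term has a candidate.** -/
theorem cand6 {a r t N D L L1 ℓ0 J k W : ℕ} {τ δ lam ν : ℝ} {f g : (Fin n → Bool) → Bool}
    {ω : Fin m → Fin n → Bool} {α : List Lit} {F : Finset (Finset (Fin n × Bool))}
    (hm : 0 < m) (ha : 1 ≤ a) (hτ : 0 < τ)
    (hαd : (α.map Prod.fst).Nodup) (hαn : ∀ l ∈ α, l.1 < n) (hαl : α.length ≤ (t + 1) * J)
    (hgF : ∀ x, g x = true ↔ ∃ T ∈ F, SatT T x)
    (hfg : dst f g ≤ τ) (hrep : Rep f ω 0 τ)
    (hfam : Fam t L (1 / (2 * (16 * a : ℕ))) (vs (toF n α)) (restr (toF n α) F))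
    (hN2 : (2 * n + 1) ^ k ≤ N) (hN3 : (2 * n + 1) ^ r ≤ N)
    (hW : 2 ^ ((t + 1) * J) ≤ W) (hk : k = t * (t + 1) + 1) (hδ : 0 < δ) (hlam : 0 < lam)
    (hδL : 2 ^ (t + 1) * L * δ ≤ 1 / (64 * a))
    (hν : (k : ℝ) ^ (t + 2) * (2 ^ (t * (t + 2) * (t + 3)) * (δ / lam)) ≤ ν)
    (hD : 256 * a ≤ D) (hDν : 8 * D * ν ≤ 1 / (32 * a))
    (hDτ : 8 * D * (2 ^ k * (2 * τ)) * (W * 2 ^ L1) ≤ 1 / (32 * a))
    (hℓ : (1 / 2 : ℝ) ^ ℓ0 ≤ lam * δ ^ (t + 1)) (hℓk : k ≤ ℓ0)
    (hgap : ∀ T ∈ F, T.card ≤ r ∨ ℓ0 + (t + 1) * J ≤ T.card)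
    {T : Finset (Fin n × Bool)} (hT : T ∈ restr (toF n α) F)
    (hTr : ¬ Rich (restr (toF n α) F) t lam T) (hTL : T.card ≤ L1) :
    ∃ C ∈ cands6 N r k D n (smp f ω) α, ∀ x : Fin n → Bool,
      (sat (List.ofFn x) C = true ↔ sat (List.ofFn x) α = true ∧ SatT T x) := by
  classical
  have ha' : (1 : ℝ) ≤ a := by exact_mod_cast ha
  by_cases hTℓ : ℓ0 ≤ T.card
  · -- a long term
    have hgG : ∀ x, SatT (toF n α) x → (g x = true ↔ ∃ B ∈ restr (toF n α) F, SatT B x) := by
      intro x hx
      rw [hgF x, restr_spec hx]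
    have hκ : (1 : ℝ) / (2 * ((16 * a : ℕ) : ℝ)) = 1 / (32 * a) := by
      push_cast
      ring
    have hwt : (1 : ℝ) ≤ wt α * W := by
      have h1 : (2 : ℝ) ^ ((t + 1) * J) ≤ W := by exact_mod_cast hW
      have h2 : (2 : ℝ) ^ α.length ≤ 2 ^ ((t + 1) * J) := pow_le_pow_right₀ (by norm_num) hαl
      unfold wt
      calc (1 : ℝ) = (1 / 2) ^ α.length * 2 ^ α.length := by rw [← mul_pow]; norm_num
        _ ≤ (1 / 2) ^ α.length * W := mul_le_mul_of_nonneg_left (h2.trans h1) (by positivity)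
    have hwF : (1 : ℝ) ≤ wF T * 2 ^ L1 := by
      unfold wF
      calc (1 : ℝ) = (1 / 2) ^ T.card * 2 ^ T.card := by rw [← mul_pow]; norm_num
        _ ≤ (1 / 2) ^ T.card * 2 ^ L1 :=
          mul_le_mul_of_nonneg_left (pow_le_pow_right₀ (by norm_num) hTL) (by positivity)
    have hwt0 : 0 < wt α := by unfold wt; positivity
    have hwT := wF_pos T
    obtain ⟨C, hC, hCx⟩ := detect6 (N := N) (D := D) (k := k) (ν := ν) hm hfam hαd hαn hgG hT hδ
      hlam hTr
      ((wF_anti (A := T) (B := T) le_rfl).trans ((pow_le_pow_of_le_one (by norm_num)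
        (by norm_num) hTℓ).trans hℓ)) hk (hℓk.trans hTℓ) (by
        rw [hκ]
        refine hδL.trans (le_of_eq ?_)
        field_simp
        norm_num) hν hτ hfg hrep (by
        rw [hκ]
        have h1 : (256 * a : ℝ) ≤ D := by exact_mod_cast hD
        rw [mul_one_div, le_div_iff₀ (by positivity)]
        linarith) (by rw [hκ]; exact hDν) (by
        rw [hκ]
        set q : ℝ := 8 * D * (2 ^ k * (2 * τ)) with hq
        have hq0 : 0 ≤ q := by rw [hq]; positivity
        have h1 : (1 : ℝ) ≤ (wt α * W) * (wF T * 2 ^ L1) := by nlinarith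
        calc q ≤ q * ((wt α * W) * (wF T * 2 ^ L1)) := le_mul_of_one_le_right hq0 h1
          _ = (wt α * wF T) * (q * (W * 2 ^ L1)) := by ring
          _ ≤ (wt α * wF T) * (1 / (32 * a)) :=
            mul_le_mul_of_nonneg_left hDτ (by positivity)) hN2
    exact ⟨C, List.mem_append_right _ hC, hCx⟩
  · -- a short term
    have hTr' : T.card ≤ r := by
      have hT' := hT
      unfold restr at hT'
      obtain ⟨T0, hT0, hT0T⟩ := mem_image.1 hT'
      rw [mem_filter] at hT0
      have h1 := card_outs_add (X := vs (toF n α)) hT0.2.1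
      rw [hT0T] at h1
      have h2 : (vs (toF n α)).card = α.length := vs_toF_card hαd hαn
      have h3 : T.card ≤ T0.card := by
        rw [← hT0T]
        exact card_le_card (outs_sub _ _)
      rcases hgap T0 hT0.1 with h4 | h4
      · omega
      · omega
    refine ⟨lits T ++ α, List.mem_append_left _ ?_, ?_⟩
    · unfold shortC
      refine List.mem_map.2 ⟨lits T, ?_, rfl⟩
      exact mem_seeds (by rw [length_allLits]; exact hN3) (by rw [length_lits]; exact hTr')
        (fun l hl => mem_allLits.2 (lits_lt hl))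
    · intro x
      rw [sat_append, sat_lits, and_comm]

end Pool.Agent.H.MP_cba12a_lc
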