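import Pool.Agent.H.MP_cba12a_lc.Short7

/-!
Candidates at a leaf for unate formulas.
-/

namespace Pool.Agent.H.MP_cba12a_lc

open Finset Pool.Agent.H.MP_5be563_lc.PT

/-- the candidates at a leaf -/
def cands7 (N r k D Θ n : ℕ) (S : Samples) (α : List Lit) : List (List Lit) :=
  shortC N r (infl7 Θ n S α) α ++ longC N k D (allLits n) S α

/-- the learner -/
def core7 (K K' B R N k J r m D Θ n : ℕ) (S : Samples) : List (List Lit) :=
  ((tree6 K N k (allLits n) S J).filter fun α => rt K S α) ++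
    greedy6 K' B R S (((tree6 K N k (allLits n) S J).filter fun α => !(rt K S α)).flatMap
      fun α => shortC N r (infl7 Θ n S α) α ++ longC N m D (allLits n) S α)

theorem poly_core7 {β : Type} [Enc β] (m : ℕ) {K K' B R N k J r D Θ n : β → ℕ}
    {S : β → Samples}
    (hK : Poly K) (hK' : Poly K') (hB : Poly B) (hR : Poly R) (hN : Poly N) (hk : Poly k)
    (hJ : Poly J) (hr : Poly r) (hD : Poly D) (hΘ : Poly Θ) (hn : Poly n) (hS : Poly S) :
    Poly (fun p => core7 (K p) (K' p) (B p) (R p) (N p) (k p) (J p) (r p) m (D p) (Θ p) (n p)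
      (S p)) := by
  unfold core7
  have h := poly_tree6 hK hN hk hn hS hJ
  have h2 : Poly (fun p : β × List Lit => longC (N p.1) m (D p.1) (allLits (n p.1)) (S p.1)
      p.2) := poly_longC m (by fun_prop) (by fun_prop) (by fun_prop) (by fun_prop) (by fun_prop)
  have h3 : Poly (fun p : β × List Lit => shortC (N p.1) (r p.1)
      (infl7 (Θ p.1) (n p.1) (S p.1) p.2) p.2) := by fun_prop
  fun_prop

variable {n m : ℕ}

theorem lt_cands7 {N r k D Θ : ℕ} {S : Samples} {α C : List Lit} (hα : ∀ l ∈ α, l.1 < n)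
    (hC : C ∈ cands7 N r k D Θ n S α) : ∀ l ∈ C, l.1 < n := by
  unfold cands7 at hC
  intro l hl
  rcases List.mem_append.1 hC with hC | hC
  · unfold shortC at hC
    obtain ⟨R, hR, rfl⟩ := List.mem_map.1 hC
    rcases List.mem_append.1 hl with hl | hl
    · have h1 := ((bd_seeds N r (infl7 Θ n S α)).2 R hR).2 l hl
      unfold infl7 at h1
      exact mem_allLits.1 (List.mem_filter.1 h1).1
    · exact hα l hl
  · unfold longC at hC
    obtain ⟨R, hR, rfl⟩ := List.mem_map.1 hC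
    rcases List.mem_append.1 hl with hl | hl
    · exact mem_allLits.1 (((bd_seeds N k (allLits n)).2 R hR).2 l hl)
    · rcases List.mem_append.1 hl with hl | hl
      · unfold ext6 at hl
        exact mem_allLits.1 (List.mem_filter.1 hl).1
      · exact hα l hl

/-- **Every needed long term has a candidate.** -/
theorem cand7_long {a t N D L L1 ℓ0 J k W : ℕ} {τ δ lam ν : ℝ} {f g : (Fin n → Bool) → Bool}
    {ω : Fin m → Fin n → Bool} {α : List Lit} {F : Finset (Finset (Fin n × Bool))}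
    (hm : 0 < m) (ha : 1 ≤ a) (hτ : 0 < τ)
    (hαd : (α.map Prod.fst).Nodup) (hαn : ∀ l ∈ α, l.1 < n) (hαl : α.length ≤ (t + 1) * J)
    (hgF : ∀ x, g x = true ↔ ∃ T ∈ F, SatT T x)
    (hfg : dst f g ≤ τ) (hrep : Rep f ω 0 τ)
    (hfam : Fam t L (1 / (2 * (16 * a : ℕ))) (vs (toF n α)) (restr (toF n α) F))
    (hN2 : (2 * n + 1) ^ k ≤ N)
    (hW : 2 ^ ((t + 1) * J) ≤ W) (hk : k = t * (t + 1) + 1) (hδ : 0 < δ) (hlam : 0 < lam)
    (hδL : 2 ^ (t + 1) * L * δ ≤ 1 / (64 * a))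
    (hν : (k : ℝ) ^ (t + 2) * (2 ^ (t * (t + 2) * (t + 3)) * (δ / lam)) ≤ ν)
    (hD : 256 * a ≤ D) (hDν : 8 * D * ν ≤ 1 / (32 * a))
    (hDτ : 8 * D * (2 ^ k * (2 * τ)) * (W * 2 ^ L1) ≤ 1 / (32 * a))
    (hℓ : (1 / 2 : ℝ) ^ ℓ0 ≤ lam * δ ^ (t + 1)) (hℓk : k ≤ ℓ0)
    {T : Finset (Fin n × Bool)} (hT : T ∈ restr (toF n α) F)
    (hTr : ¬ Rich (restr (toF n α) F) t lam T) (hTL : T.card ≤ L1) (hTℓ : ℓ0 ≤ T.card) :
    ∃ C ∈ longC N k D (allLits n) (smp f ω) α, ∀ x : Fin n → Bool,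
      (sat (List.ofFn x) C = true ↔ sat (List.ofFn x) α = true ∧ SatT T x) := by
  classical
  have ha' : (1 : ℝ) ≤ a := by exact_mod_cast ha
  have hgG : ∀ x, SatT (toF n α) x → (g x = true ↔ ∃ B ∈ restr (toF n α) F, SatT B x) := by
    intro x hx
    rw [hgF x, restr_spec hx]
  have hκ : (1 : ℝ) / (2 * ((16 * a : ℕ) : ℝ)) = 1 / (32 * a) := by
    push_cast
    ring
  have hwt : (1 : ℝ) ≤ wt α * W := by
    have h1 : (2 : ℝ) ^ ((t + 1) * J) ≤ W := by exact_mod_cast hW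
    have h2 : (2 : ℝ) ^ α.length ≤ 2 ^ ((t + 1) * J) := pow_le_pow_right₀ (by norm_num) hαl
    unfold wt
    calc (1 : ℝ) = (1 / 2) ^ α.length * 2 ^ α.length := by rw [← mul_pow]; norm_num
      _ ≤ (1 / 2) ^ α.length * W := mul_le_mul_of_nonneg_left (h2.trans h1) (by positivity)
  have hwF : (1 : ℝ) ≤ wF T * 2 ^ L1 := by
    unfold wF
    calc (1 : ℝ) = (1 / 2) ^ T.card * 2 ^ T.card := by rw [← mul_pow]; norm_num
      _ ≤ (1 / 2) ^ T.card * 2 ^ L1 :=
        mul_le_mul_of_nonneg_left (pow_le_pow_right₀ (by norm_num) hTL) (by positivity)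
  have hwt0 : 0 < wt α := by unfold wt; positivity
  have hwT := wF_pos T
  obtain ⟨C, hC, hCx⟩ := detect6 (N := N) (D := D) (k := k) (ν := ν) hm hfam hαd hαn hgG hT hδ
    hlam hTr
    ((wF_anti (A := T) (B := T) le_rfl).trans ((pow_le_pow_of_le_one (by norm_num)
      (by norm_num) hTℓ).trans hℓ)) hk (hℓk.trans hTℓ) (by
      rw [hκ]
      refine hδL.trans (le_of_eq ?_)
      field_simp
      norm_num) hν hτ hfg hrep (by
      rw [hκ]
      have h1 : (256 * a : ℝ) ≤ D := by exact_mod_cast hD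
      rw [mul_one_div, le_div_iff₀ (by positivity)]
      linarith) (by rw [hκ]; exact hDν) (by
      rw [hκ]
      set q : ℝ := 8 * D * (2 ^ k * (2 * τ)) with hq
      have hq0 : 0 ≤ q := by rw [hq]; positivity
      have h1 : (1 : ℝ) ≤ (wt α * W) * (wF T * 2 ^ L1) := by nlinarith
      calc q ≤ q * ((wt α * W) * (wF T * 2 ^ L1)) := le_mul_of_one_le_right hq0 h1
        _ = (wt α * wF T) * (q * (W * 2 ^ L1)) := by ring
        _ ≤ (wt α * wF T) * (1 / (32 * a)) :=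
          mul_le_mul_of_nonneg_left hDτ (by positivity)) hN2
  exact ⟨C, hC, hCx⟩

/-- **Every short term has a candidate.** -/
theorem cand7_short {N Θ ℓ0 : ℕ} {τ : ℝ} {f g : (Fin n → Bool) → Bool}
    {ω : Fin m → Fin n → Bool} {α : List Lit} {F : Finset (Finset (Fin n × Bool))}
    (hm : 0 < m) (hΘ : 0 < Θ) (hαn : ∀ l ∈ α, l.1 < n)
    (hgF : ∀ x, g x = true ↔ ∃ T ∈ F, SatT T x)
    (hfg : dst f g ≤ τ) (hrep : Rep f ω 0 τ) {o : Fin n → Bool} (hg : Up o g)
    (hτΘ : 4 * Θ * τ ≤ 1) (hN : (8 * Θ ^ 2 + 1) ^ ℓ0 ≤ N)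
    {T : Finset (Fin n × Bool)} (hT : T ∈ restr (toF n α) F) (hTℓ : T.card ≤ ℓ0) :
    ∃ C ∈ shortC N ℓ0 (infl7 Θ n (smp f ω) α) α,
      (∀ x : Fin n → Bool, sat (List.ofFn x) α = true → SatT T x → sat (List.ofFn x) C = true) ∧
      mu (ev g false C []) ≤ 2 ^ ℓ0 * (1 / Θ + 4 * τ) := by
  classical
  have hτ0 : 0 ≤ τ := (dst_nonneg f g).trans hfg
  refine ⟨((lits T).filter fun l => decide (l ∈ infl7 Θ n (smp f ω) α)) ++ α, ?_, ?_, ?_⟩
  · unfold shortC
    refine List.mem_map.2 ⟨(lits T).filter fun l => decide (l ∈ infl7 Θ n (smp f ω) α), ?_, rfl⟩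
    refine mem_seeds ?_ ?_ ?_
    · refine le_trans (Nat.pow_le_pow_left ?_ ℓ0) hN
      have := length_infl7_le hΘ hm hαn hrep hτΘ
      omega
    · refine (List.length_filter_le _ _).trans ?_
      rw [length_lits]
      exact hTℓ
    · intro l hl
      exact of_decide_eq_true (List.mem_filter.1 hl).2
  · intro x hα hTx
    rw [sat_append]
    refine ⟨?_, hα⟩
    exact sat_mono (fun l hl => (List.mem_filter.1 hl).1) (sat_lits.2 hTx)
  · refine (short7 hΘ hm hαn hrep hfg hg hgF hT).trans ?_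
    refine mul_le_mul_of_nonneg_right ?_ (by positivity)
    exact pow_le_pow_right₀ (by norm_num) hTℓ

end Pool.Agent.H.MP_cba12a_lc
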