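import Pool.Agent.H.MP_cba12a_lc.Defs
import Pool.Agent.H.MP_5be563_lc.PT.Main

/-!
Programs whose running time is polynomial in the size of the input plus the value `g a` of a
time-constructible function, and the resulting statement for `Turing.TM2` machines.
-/

namespace Pool.Agent.H.MP_cba12a_lc

open Pool.Agent.H.MP_5be563_lc.PT

section

variable {α β : Type} [Enc α] [Enc β]

/-- one step of the search -/
def srch (g : α → ℕ) (q : α × ℕ) : Bool × (α × ℕ) :=
  if g q.1 ≤ q.2 then (false, q) else (true, (q.1, q.2 + 1))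

theorem run_search {g : α → ℕ} (ht : Poly (fun p : α × ℕ => decide (g p.1 ≤ p.2)))
    {F : α × ℕ → β} (hF : Poly F) :
    ∃ (p : Prog) (P : Polynomial ℕ), ∀ (a : α) (m : List Bool),
      Run p (stk [enc a] m) (stk [enc (F (a, g a))] m) (P.eval (sz a + g a)) := by
  have hG : Poly (srch g) := by
    unfold srch
    exact Poly.ite (c := fun q : α × ℕ => g q.1 ≤ q.2) ht (by fun_prop) (by fun_prop)
  have h0 : Poly (fun a : α => (true, (a, 0))) := by fun_prop
  obtain ⟨pG, PG, hpG⟩ := hG
  obtain ⟨p0, P0, hp0⟩ := h0
  obtain ⟨pF, PF, hpF⟩ := hF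
  have hloop : ∀ (a : α) (m : List Bool) (j t : ℕ), j + t = g a →
      Run (.whileT .M (.seq drop (.seq drop (.seq pG (.pop .M .skip .skip .skip)))))
        (stk [enc true, enc (a, t)] m) (stk [enc (a, g a)] m)
        ((j + 1) * (PG.eval (sz (a, g a)) + 40) + 1) := by
    intro a m j
    induction j with
    | zero =>
      intro t ht
      have hsz : t = g a := by omega
      subst hsz
      have h1 := run_drop .nil [.nil, enc (a, g a)] m
      have h2 := run_drop .nil [enc (a, g a)] m
      have h3 := hpG (a, g a) m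
      have hG : srch g (a, g a) = (false, (a, g a)) := by simp [srch]
      rw [hG] at h3
      have h4 : Run (.pop .M .skip .skip .skip) (stk [enc (false, (a, g a))] m)
          (stk [enc false, enc (a, g a)] m) (1 + 1) := by
        refine run_case_cons (x := enc false) (y := enc (a, g a)) (zs := []) ?_
        exact Run.skip
      have hb := Run.seq h1 (Run.seq h2 (Run.seq h3 h4))
      have h5 : Run (.whileT .M (.seq drop (.seq drop (.seq pG (.pop .M .skip .skip .skip)))))
          (stk [enc false, enc (a, g a)] m) (stk [enc (a, g a)] m) 1 := by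
        have := Run.while_f (k := .M)
          (p := (.seq drop (.seq drop (.seq pG (.pop .M .skip .skip .skip)))))
          (s := stk [enc false, enc (a, g a)] m) (l := lbits [enc (a, g a)] ++ m)
          (by simp [stk, D.bits])
        simpa [stk] using this
      have hw := Run.while_t (k := .M)
        (s := stk [enc true, enc (a, g a)] m) (l := lbits [.nil, .nil, enc (a, g a)] ++ m)
        (by simp [stk, D.bits]) (by simpa [stk] using hb) h5
      refine Run.mono hw ?_
      have e : sz (a, g a) = sz a + (2 * g a + 1) + 1 := by simp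
      rw [e]
      simp only [D.size]
      omega
    | succ j ih =>
      intro t ht
      have hlt : ¬ (g a ≤ t) := by omega
      have h1 := run_drop .nil [.nil, enc (a, t)] m
      have h2 := run_drop .nil [enc (a, t)] m
      have h3 := hpG (a, t) m
      have hG : srch g (a, t) = (true, (a, t + 1)) := by simp [srch, hlt]
      rw [hG] at h3
      have h4 : Run (.pop .M .skip .skip .skip) (stk [enc (true, (a, t + 1))] m)
          (stk [enc true, enc (a, t + 1)] m) (1 + 1) := by
        refine run_case_cons (x := enc true) (y := enc (a, t + 1)) (zs := []) ?_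
        exact Run.skip
      have hb := Run.seq h1 (Run.seq h2 (Run.seq h3 h4))
      have h5 := ih (t + 1) (by omega)
      have hw := Run.while_t (k := .M)
        (s := stk [enc true, enc (a, t)] m) (l := lbits [.nil, .nil, enc (a, t)] ++ m)
        (by simp [stk, D.bits]) (by simpa [stk] using hb) h5
      refine Run.mono hw ?_
      have hm : PG.eval (sz (a, t)) ≤ PG.eval (sz (a, g a)) := by
        apply poly_mono
        simp only [sz_pair, sz_nat]
        omega
      rw [Nat.add_mul (j + 1) 1]
      have e : sz (a, t) = sz a + (2 * t + 1) + 1 := by simp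
      rw [e] at hm
      simp only [D.size]
      omega
  refine ⟨.seq p0 (.seq (.pop .M .skip .skip .skip)
    (.seq (.whileT .M (.seq drop (.seq drop (.seq pG (.pop .M .skip .skip .skip))))) pF)),
    P0 + (Polynomial.X + 1) * (PG.comp (2 * Polynomial.X + 2) + 40) +
      PF.comp (2 * Polynomial.X + 2) + 10, ?_⟩
  intro a m
  have h1 := hp0 a m
  have h2 : Run (.pop .M .skip .skip .skip) (stk [enc (true, (a, 0))] m)
      (stk [enc true, enc (a, 0)] m) (1 + 1) := by
    refine run_case_cons (x := enc true) (y := enc (a, 0)) (zs := []) ?_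
    exact Run.skip
  have h3 := hloop a m (g a) 0 (by omega)
  have h4 := hpF (a, g a) m
  refine Run.mono (Run.seq h1 (Run.seq h2 (Run.seq h3 h4))) ?_
  have hs : sz (a, g a) ≤ 2 * (sz a + g a) + 2 := by
    simp only [sz_pair, sz_nat]
    omega
  have e1 : P0.eval (sz a) ≤ P0.eval (sz a + g a) := poly_mono _ (by omega)
  have e2 : PG.eval (sz (a, g a)) ≤ PG.eval (2 * (sz a + g a) + 2) := poly_mono _ hs
  have e3 : PF.eval (sz (a, g a)) ≤ PF.eval (2 * (sz a + g a) + 2) := poly_mono _ hs
  have e4 : (g a + 1) * (PG.eval (sz (a, g a)) + 40) ≤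
      (sz a + g a + 1) * (PG.eval (2 * (sz a + g a) + 2) + 40) :=
    Nat.mul_le_mul (by omega) (by omega)
  simp only [Polynomial.eval_add, Polynomial.eval_mul, Polynomial.eval_comp,
    Polynomial.eval_X, Polynomial.eval_ofNat, Polynomial.eval_one]
  omega

/-- From a program whose cost is bounded to a machine whose time is bounded. -/
theorem computedInTime_of_run {f : α → β} {g : α → ℕ}
    (h : ∃ (p : Prog) (P : Polynomial ℕ), ∀ (a : α) (m : List Bool),
      Run p (stk [enc a] m) (stk [enc (f a)] m) (P.eval (sz a + g a))) :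
    ∃ P : Polynomial ℕ, ComputedInTime f (fun a => P.eval (g a + (code a).length)) := by
  obtain ⟨p, P, h⟩ := h
  refine ⟨P + 1, ⟨⟨machine p, Equiv.refl _, Equiv.refl _⟩, ?_⟩⟩
  intro a
  obtain ⟨n, hn, hev⟩ := h a []
  have e0 : stk [enc a] [] = mk4 ((enc a).bits) [] [] [] := by simp [stk]
  have e1 : stk [enc (f a)] [] = mk4 ((enc (f a)).bits) [] [] [] := by simp [stk]
  rw [e0, e1] at hev
  obtain ⟨h1⟩ := machine_outputs p _ _ n hev
  have key2 : ∀ (l1 l2 : List Bool), l1 = (enc a).bits → l2 = (enc (f a)).bits →
      Nonempty (Turing.TM2OutputsInTime (machine p) l1 (some l2)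
        ((P + 1).eval (g a + (code a).length))) := by
    rintro _ _ rfl rfl
    refine ⟨⟨h1.toEvalsTo, h1.steps_le_m.trans ?_⟩⟩
    unfold code
    rw [D.bits_length, add_comm (g a)]
    simpa [sz] using hn
  exact key2 _ _ (List.map_id _) (List.map_id _)

end

/-! ### Testing `n ^ Nat.clog 2 s ≤ T` -/

/-- one step of the test -/
def pwStep (n T s : ℕ) (q : ℕ × ℕ) : ℕ × ℕ :=
  if s ≤ q.1 then q else (2 * q.1, if q.2 * n ≤ T then q.2 * n else T + 1)

/-- capped power -/
def pw (n T s : ℕ) : ℕ := ((pwStep n T s)^[s] (1, 1)).2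

/-- truncated value: `x` if `x ≤ T`, else `T + 1` -/
def trunc (T x : ℕ) : ℕ := if x ≤ T then x else T + 1

theorem pwStep_iterate (n T s : ℕ) (hT : 1 ≤ T) (j : ℕ) :
    (pwStep n T s)^[j] (1, 1) =
      (2 ^ (min j (Nat.clog 2 s)), if n = 0 then n ^ (min j (Nat.clog 2 s)) else
        trunc T (n ^ (min j (Nat.clog 2 s)))) := by
  induction j with
  | zero => simp [trunc, hT]
  | succ j ih =>
    rw [Function.iterate_succ_apply', ih]
    unfold pwStep
    by_cases hs : s ≤ 2 ^ (min j (Nat.clog 2 s))
    · rw [if_pos hs]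
      have h1 : Nat.clog 2 s ≤ min j (Nat.clog 2 s) := Nat.clog_le_of_le_pow hs
      have h2 : min (j + 1) (Nat.clog 2 s) = min j (Nat.clog 2 s) := by omega
      rw [h2]
    · rw [if_neg hs]
      have h1 : j < Nat.clog 2 s := by
        by_contra hc
        have : min j (Nat.clog 2 s) = Nat.clog 2 s := by omega
        rw [this] at hs
        exact hs (Nat.le_pow_clog (by norm_num) s)
      have h2 : min j (Nat.clog 2 s) = j := by omega
      have h3 : min (j + 1) (Nat.clog 2 s) = j + 1 := by omega
      rw [h2, h3]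
      refine Prod.ext (by simp [pow_succ, mul_comm]) ?_
      simp only
      by_cases hn : n = 0
      · subst hn
        simp
      · rw [if_neg hn, if_neg hn]
        have hn' : 1 ≤ n := Nat.one_le_iff_ne_zero.2 hn
        unfold trunc
        by_cases hp : n ^ j ≤ T
        · rw [if_pos hp, ← pow_succ]
        · rw [if_neg hp]
          have h4 : ¬ (n ^ (j + 1) ≤ T) := by
            rw [pow_succ]
            intro h
            exact hp ((Nat.le_mul_of_pos_right _ hn').trans h)
          rw [if_neg h4, if_neg]
          intro h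
          have := (Nat.le_mul_of_pos_right (T + 1) hn').trans h
          omega

theorem pw_le_iff (n T s : ℕ) (hT : 1 ≤ T) : pw n T s ≤ T ↔ n ^ Nat.clog 2 s ≤ T := by
  unfold pw
  rw [pwStep_iterate n T s hT s]
  have h1 : min s (Nat.clog 2 s) = Nat.clog 2 s := by
    refine min_eq_right ?_
    exact Nat.clog_le_of_le_pow (Nat.lt_two_pow_self).le
  rw [h1]
  simp only
  by_cases hn : n = 0
  · subst hn; simp
  · rw [if_neg hn]
    unfold trunc
    split_ifs with h
    · exact ⟨fun _ => h, fun _ => h⟩
    · constructor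
      · intro h'; omega
      · intro h'; exact absurd h' h

theorem pw_bd (n T s : ℕ) (j : ℕ) :
    ((pwStep n T s)^[j] (1, 1)).1 ≤ 2 * s + 1 ∧ ((pwStep n T s)^[j] (1, 1)).2 ≤ T + 1 := by
  induction j with
  | zero => simp
  | succ j ih =>
    rw [Function.iterate_succ_apply']
    unfold pwStep
    split_ifs with h1 h2
    · exact ih
    · simp only
      omega
    · simp only
      omega

theorem poly_pw {α : Type} [Enc α] {n T s : α → ℕ} (hn : Poly n) (hT : Poly T) (hs : Poly s) :
    Poly (fun a => pw (n a) (T a) (s a)) := by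
  unfold pw
  refine Poly.comp (f := fun q : ℕ × ℕ => q.2) (by fun_prop) ?_
  refine Poly.iterate (f := fun a q => pwStep (n a) (T a) (s a) q) (s := fun _ => (1, 1))
    (n := s) (B := fun a => 2 * sz (s a) + 2 * sz (T a) + 20) ?_ (by fun_prop) hs ?_ ?_
  · unfold pwStep
    fun_prop
  · exact (((PBdd.const 2).mul hs.sz_le).add ((PBdd.const 2).mul hT.sz_le)).add (PBdd.const 20)
  · intro a j _
    have h := pw_bd (n a) (T a) (s a) j
    have e : (fun q => pwStep (n a) (T a) (s a) q) = pwStep (n a) (T a) (s a) := rfl
    rw [sz_prod, e]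
    simp only [sz_nat]
    omega

/-- The test for `n ^ Nat.clog 2 s ≤ T` in polynomial time in `n`, `s`, `T`. -/
theorem poly_powTest {α : Type} [Enc α] {n T s : α → ℕ} (hn : Poly n) (hT : Poly T)
    (hs : Poly s) : Poly (fun a => decide (n a ^ Nat.clog 2 (s a) ≤ T a)) := by
  have h1 : Poly (fun a => if T a = 0 then (if n a = 0 then decide (2 ≤ s a) else false)
      else decide (pw (n a) (T a) (s a) ≤ T a)) := by
    have := poly_pw hn hT hs
    fun_prop
  refine (show (fun a => decide (n a ^ Nat.clog 2 (s a) ≤ T a)) = _ from ?_) ▸ h1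
  funext a
  by_cases hT0 : T a = 0
  · rw [if_pos hT0, hT0]
    by_cases hn0 : n a = 0
    · rw [if_pos hn0, hn0]
      by_cases h2 : 2 ≤ s a
      · have : Nat.clog 2 (s a) ≠ 0 := by
          have := Nat.clog_pos (b := 2) (by norm_num) h2
          omega
        simp [h2, this]
      · have : Nat.clog 2 (s a) = 0 := by
          exact Nat.clog_of_right_le_one (by omega) 2
        simp [h2, this]
    · rw [if_neg hn0]
      have : 1 ≤ n a ^ Nat.clog 2 (s a) := Nat.one_le_pow _ _ (Nat.pos_of_ne_zero hn0)
      simp
      omega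
  · rw [if_neg hT0]
    have := pw_le_iff (n a) (T a) (s a) (by omega)
    by_cases h : n a ^ Nat.clog 2 (s a) ≤ T a
    · simp [h, this.2 h]
    · simp [h, mt this.1 h]

end Pool.Agent.H.MP_cba12a_lc
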