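import Pool.Agent.H.MP_cba12a_lc.Clock

/-!
Testing `n ^ r ≤ T` in time polynomial in `n`, `r`, `T`.
-/

namespace Pool.Agent.H.MP_cba12a_lc

open Pool.Agent.H.MP_5be563_lc.PT

/-- one step of the test -/
def cpStep (n T v : ℕ) : ℕ := if v * n ≤ T then v * n else T + 1

/-- capped power -/
def cp (n T r : ℕ) : ℕ := (cpStep n T)^[r] 1

theorem cpStep_iterate (n T : ℕ) (hn : 1 ≤ n) (j : ℕ) :
    (cpStep n T)^[j] 1 = trunc T (n ^ j) := by
  induction j with
  | zero =>
    rw [Function.iterate_zero, id, pow_zero]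
    unfold trunc
    split_ifs with h
    · rfl
    · omega
  | succ j ih =>
    rw [Function.iterate_succ_apply', ih]
    unfold cpStep trunc
    by_cases hp : n ^ j ≤ T
    · rw [if_pos hp, ← pow_succ]
    · rw [if_neg hp]
      have h4 : ¬ (n ^ (j + 1) ≤ T) := by
        rw [pow_succ]
        intro h
        exact hp ((Nat.le_mul_of_pos_right _ hn).trans h)
      rw [if_neg h4, if_neg]
      intro h
      have := (Nat.le_mul_of_pos_right (T + 1) hn).trans h
      omega

theorem cp_le_iff (n T r : ℕ) (hn : 1 ≤ n) : cp n T r ≤ T ↔ n ^ r ≤ T := by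
  unfold cp
  rw [cpStep_iterate n T hn]
  unfold trunc
  split_ifs with h
  · exact ⟨fun _ => h, fun _ => h⟩
  · constructor
    · intro h'; omega
    · intro h'; exact absurd h' h

theorem cp_bd (n T j : ℕ) : (cpStep n T)^[j] 1 ≤ T + 1 := by
  induction j with
  | zero => simp
  | succ j ih =>
    rw [Function.iterate_succ_apply']
    unfold cpStep
    split_ifs with h1
    · omega
    · exact le_rfl

theorem poly_cp {α : Type} [Enc α] {n T r : α → ℕ} (hn : Poly n) (hT : Poly T) (hr : Poly r) :
    Poly (fun a => cp (n a) (T a) (r a)) := by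
  unfold cp
  refine Poly.iterate (f := fun a v => cpStep (n a) (T a) v) (s := fun _ => 1)
    (n := r) (B := fun a => 2 * sz (T a) + 20) ?_ (by fun_prop) hr ?_ ?_
  · unfold cpStep
    fun_prop
  · exact ((PBdd.const 2).mul hT.sz_le).add (PBdd.const 20)
  · intro a j _
    have h := cp_bd (n a) (T a) j
    have e : (fun v => cpStep (n a) (T a) v) = cpStep (n a) (T a) := rfl
    rw [e]
    simp only [sz_nat]
    omega

/-- The test for `n ^ r ≤ T`. -/
theorem poly_cpTest {α : Type} [Enc α] {n T r : α → ℕ} (hn : Poly n) (hT : Poly T)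
    (hr : Poly r) (h1 : ∀ a, 1 ≤ n a) : Poly (fun a => decide (n a ^ r a ≤ T a)) := by
  have h2 : Poly (fun a => decide (cp (n a) (T a) (r a) ≤ T a)) := by
    have := poly_cp hn hT hr
    fun_prop
  refine (show (fun a => decide (n a ^ r a ≤ T a)) = _ from ?_) ▸ h2
  funext a
  have := cp_le_iff (n a) (T a) (r a) (h1 a)
  by_cases h : n a ^ r a ≤ T a
  · simp [h, this.2 h]
  · simp [h, mt this.1 h]

end Pool.Agent.H.MP_cba12a_lc
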