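import Pool.Agent.H.MP_cba12a_lc.LLL

/-!
Closed neighbourhoods and isolation of a term in a family of long terms with few occurrences.
-/

namespace Pool.Agent.H.MP_cba12a_lc

open Finset

variable {n : ℕ}

/-- literals of `T` with variable outside `X` -/
def outs (X : Finset (Fin n)) (T : Finset (Fin n × Bool)) : Finset (Fin n × Bool) :=
  T.filter fun l => l.1 ∉ X

theorem outs_sub (X : Finset (Fin n)) (T : Finset (Fin n × Bool)) : outs X T ⊆ T :=
  filter_subset _ _

theorem vs_mono {A B : Finset (Fin n × Bool)} (h : A ⊆ B) : vs A ⊆ vs B := image_subset_image h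

theorem vs_outs (X : Finset (Fin n)) (T : Finset (Fin n × Bool)) : vs (outs X T) = vs T \ X := by
  ext i
  rw [mem_sdiff, mem_vs, mem_vs]
  constructor
  · rintro ⟨l, hl, rfl⟩
    unfold outs at hl
    rw [mem_filter] at hl
    exact ⟨⟨l, hl.1, rfl⟩, hl.2⟩
  · rintro ⟨⟨l, hl, rfl⟩, h⟩
    exact ⟨l, mem_filter.2 ⟨hl, h⟩, rfl⟩

theorem sum_vs_le {k : ℕ} {P : Finset (Finset (Fin n × Bool))} {X : Finset (Fin n)}
    (hX : ∀ A ∈ P, vs A ⊆ X) (hread : ∀ i, (P.filter fun A => i ∈ vs A).card ≤ k) :
    ∑ A ∈ P, (vs A).card ≤ k * X.card := by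
  classical
  calc ∑ A ∈ P, (vs A).card = ∑ A ∈ P, ∑ i ∈ X, (if i ∈ vs A then 1 else 0) := by
        refine sum_congr rfl fun A hA => ?_
        rw [sum_boole, Nat.cast_id]
        congr 1
        ext i
        rw [mem_filter]
        exact ⟨fun h => ⟨hX A hA h, h⟩, fun h => h.2⟩
    _ = ∑ i ∈ X, ∑ A ∈ P, (if i ∈ vs A then 1 else 0) := sum_comm
    _ = ∑ i ∈ X, (P.filter fun A => i ∈ vs A).card := by
        refine sum_congr rfl fun i _ => ?_
        rw [sum_boole, Nat.cast_id]
    _ ≤ ∑ _i ∈ X, k := sum_le_sum fun i _ => hread i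
    _ = k * X.card := by rw [sum_const, smul_eq_mul, mul_comm]

theorem exists_closed {k lam : ℕ} {G : Finset (Finset (Fin n × Bool))} (hk : 1 ≤ k)
    (hlam : 1 ≤ lam) (hcons : ∀ T ∈ G, (vs T).card = T.card)
    (hlen : ∀ T ∈ G, 2 * k * lam ≤ T.card)
    (hread : ∀ i, (G.filter fun A => i ∈ vs A).card ≤ k) {T : Finset (Fin n × Bool)}
    (hT : T ∈ G) :
    ∃ P ⊆ G.erase T, ∃ X : Finset (Fin n), vs T ⊆ X ∧ (∀ A ∈ P, vs A ⊆ X) ∧
      X.card ≤ 2 * T.card ∧ P.card < T.card ∧
      ∀ A ∈ G, A ≠ T → A ∉ P → lam ≤ (outs X A).card := by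
  classical
  set X : Finset (Finset (Fin n × Bool)) → Finset (Fin n) := fun P => vs T ∪ P.biUnion vs with hX
  set S := (G.erase T).powerset.filter fun P => (X P).card ≤ T.card + lam * P.card with hS
  have hne : S.Nonempty := by
    refine ⟨∅, ?_⟩
    rw [hS, mem_filter]
    refine ⟨by simp, ?_⟩
    simp only [hX, biUnion_empty, union_empty, card_empty, mul_zero, add_zero]
    exact vs_card_le T
  obtain ⟨P, hP, hmax⟩ := exists_max_image S card hne
  rw [hS, mem_filter, mem_powerset] at hP
  obtain ⟨hPG, hPX⟩ := hP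
  have hTX : vs T ⊆ X P := subset_union_left
  have hPXs : ∀ A ∈ P, vs A ⊆ X P := fun A hA =>
    (subset_biUnion_of_mem vs hA).trans subset_union_right
  have hTP : T ∉ P := fun h => (mem_erase.1 (hPG h)).1 rfl
  have hsum : T.card + 2 * k * lam * P.card ≤ k * (X P).card := by
    have h1 : ∑ A ∈ insert T P, (vs A).card ≤ k * (X P).card := by
      refine sum_vs_le ?_ ?_
      · intro A hA
        rcases mem_insert.1 hA with rfl | hA
        · exact hTX
        · exact hPXs A hA
      · intro i
        refine (card_le_card (filter_subset_filter _ ?_)).trans (hread i)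
        intro A hA
        rcases mem_insert.1 hA with rfl | hA
        · exact hT
        · exact mem_of_mem_erase (hPG hA)
    rw [sum_insert hTP, hcons T hT] at h1
    have h2 : 2 * k * lam * P.card ≤ ∑ A ∈ P, (vs A).card := by
      calc 2 * k * lam * P.card = ∑ _A ∈ P, 2 * k * lam := by
            rw [sum_const, smul_eq_mul, mul_comm]
        _ ≤ ∑ A ∈ P, (vs A).card := by
            refine sum_le_sum fun A hA => ?_
            have hAG := mem_of_mem_erase (hPG hA)
            rw [hcons A hAG]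
            exact hlen A hAG
    omega
  have hTpos : 0 < T.card := by
    have := hlen T hT
    have h3 : 0 < 2 * k * lam := by positivity
    omega
  have hlamP : lam * P.card < T.card := by
    have h1 : k * (X P).card ≤ k * (T.card + lam * P.card) := Nat.mul_le_mul_left _ hPX
    by_contra hcon
    have hcon := not_lt.1 hcon
    have h2 : k * T.card ≤ k * (lam * P.card) := Nat.mul_le_mul_left _ hcon
    nlinarith
  refine ⟨P, hPG, X P, hTX, hPXs, by omega, ?_, ?_⟩
  · have : P.card ≤ lam * P.card := Nat.le_mul_of_pos_left _ hlam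
    omega
  · intro A hA hAT hAP
    by_contra hcon
    have hcon := not_le.1 hcon
    have hmem : insert A P ∈ S := by
      rw [hS, mem_filter, mem_powerset]
      refine ⟨?_, ?_⟩
      · intro B hB
        rcases mem_insert.1 hB with rfl | hB
        · exact mem_erase.2 ⟨hAT, hA⟩
        · exact hPG hB
      · have e : X (insert A P) = X P ∪ (vs A \ X P) := by
          simp only [hX]
          rw [biUnion_insert]
          ext i
          simp only [mem_union, mem_sdiff]
          tauto
        rw [e]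
        have h1 := card_union_le (X P) (vs A \ X P)
        have h2 : (vs A \ X P).card ≤ (outs (X P) A).card := by
          rw [← vs_outs]
          exact vs_card_le _
        rw [card_insert_of_notMem hAP, mul_add, mul_one]
        omega
    have := hmax _ hmem
    rw [card_insert_of_notMem hAP] at this
    omega

/-- the term which prescribes the values of `z` on `X` -/
def pt (X : Finset (Fin n)) (z : Fin n → Bool) : Finset (Fin n × Bool) :=
  X.image fun j => (j, z j)

theorem pt_card (X : Finset (Fin n)) (z : Fin n → Bool) : (pt X z).card = X.card :=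
  card_image_of_injective _ fun _ _ h => (Prod.mk.inj h).1

theorem vs_pt (X : Finset (Fin n)) (z : Fin n → Bool) : vs (pt X z) = X := by
  unfold vs pt
  rw [image_image]
  exact image_id

theorem satT_pt {X : Finset (Fin n)} {z x : Fin n → Bool} :
    SatT (pt X z) x ↔ ∀ j ∈ X, x j = z j := by
  unfold SatT pt
  simp

/-- the point satisfies the other literals of `T`, and the other terms fail without variable `i` -/
def Iso (G : Finset (Finset (Fin n × Bool))) (T : Finset (Fin n × Bool)) (i : Fin n)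
    (x : Fin n → Bool) : Prop :=
  (∀ l ∈ T, l.1 ≠ i → x l.1 = l.2) ∧ ∀ A ∈ G, A ≠ T → ∃ l ∈ A, l.1 ≠ i ∧ x l.1 ≠ l.2

instance (G : Finset (Finset (Fin n × Bool))) (T : Finset (Fin n × Bool)) (i : Fin n) :
    DecidablePred (Iso G T i) := fun x => by unfold Iso; infer_instance

theorem nu_mono {A B : Finset (Finset (Fin n × Bool))} (h : A ⊆ B) : nu B ≤ nu A := by
  unfold nu
  refine card_le_card ?_
  intro x hx
  rw [mem_filter] at hx ⊢
  exact ⟨hx.1, fun C hC => hx.2 C (h hC)⟩

/-- **Isolation.** -/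
theorem isolation {k lam : ℕ} {G : Finset (Finset (Fin n × Bool))} (hk : 1 ≤ k)
    (hlam1 : 1 ≤ lam) (hlam : (3 : ℝ) * k * (3 / 4) ^ lam ≤ 1)
    (hcons : ∀ T ∈ G, (vs T).card = T.card)
    (hlen : ∀ T ∈ G, 2 * k * lam ≤ T.card)
    (hread : ∀ i, (G.filter fun A => i ∈ vs A).card ≤ k) {T : Finset (Fin n × Bool)}
    (hT : T ∈ G) {z : Fin n → Bool} (hz : SatT T z) (hz' : ∀ A ∈ G, A ≠ T → ¬ SatT A z) :
    ∃ i ∈ vs T, (nu G : ℝ) ≤ 9 ^ T.card * ((univ.filter (Iso G T i)).card : ℝ) := by
  classical
  obtain ⟨P, hPG, X, hTX, hPX, hXc, hPc, hout⟩ := exists_closed hk hlam1 hcons hlen hread hT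
  -- an unblocked variable
  have hblk : ∀ A ∈ P, ∃ l ∈ A, z l.1 ≠ l.2 := by
    intro A hA
    have h1 := mem_erase.1 (hPG hA)
    have := hz' A h1.2 h1.1
    unfold SatT at this
    push Not at this
    exact this
  have : Nonempty (Fin n × Bool) := by
    obtain ⟨l, _⟩ := card_pos.1 (lt_of_le_of_lt (Nat.zero_le _) hPc)
    exact ⟨l⟩
  choose! w hw1 hw2 using hblk
  obtain ⟨i, hiT, hiw⟩ : ∃ i ∈ vs T, i ∉ P.image fun A => (w A).1 := by
    by_contra hcon
    push Not at hcon
    have h1 : vs T ⊆ P.image fun A => (w A).1 := hcon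
    have h2 := card_le_card h1
    rw [hcons T hT] at h2
    have h3 : (P.image fun A => (w A).1).card ≤ P.card := card_image_le
    omega
  refine ⟨i, hiT, ?_⟩
  -- the family outside X
  set G' := G.filter fun A => A ≠ T ∧ A ∉ P with hG'
  set F := G'.image (outs X) with hF
  set O := G.filter fun A => Disjoint (vs A) X with hO
  have hTpos : ∀ A ∈ G, 0 < A.card := by
    intro A hA
    have := hlen A hA
    have h3 : 0 < 2 * k * lam := by positivity
    omega
  have hlenF : ∀ A ∈ F, lam ≤ A.card := by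
    intro A hA
    rw [hF, mem_image] at hA
    obtain ⟨B, hB, rfl⟩ := hA
    rw [hG', mem_filter] at hB
    exact hout B hB.1 hB.2.1 hB.2.2
  have hreadF : ∀ j, (F.filter fun A => j ∈ vs A).card ≤ k := by
    intro j
    calc (F.filter fun A => j ∈ vs A).card ≤
        ((G.filter fun A => j ∈ vs A).image (outs X)).card := by
          refine card_le_card ?_
          intro A hA
          rw [mem_filter, hF, mem_image] at hA
          obtain ⟨⟨B, hB, rfl⟩, hj⟩ := hA
          rw [hG', mem_filter] at hB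
          rw [mem_image]
          exact ⟨B, mem_filter.2 ⟨hB.1, vs_mono (outs_sub X B) hj⟩, rfl⟩
      _ ≤ (G.filter fun A => j ∈ vs A).card := card_image_le
      _ ≤ k := hread j
  have hOF : O ⊆ F := by
    intro A hA
    rw [hO, mem_filter] at hA
    have hne : (vs A).Nonempty := by
      rw [← card_pos, hcons A hA.1]
      exact hTpos A hA.1
    have hnX : ¬ vs A ⊆ X := by
      intro hc
      obtain ⟨j, hj⟩ := hne
      exact (disjoint_left.1 hA.2 hj) (hc hj)
    rw [hF, mem_image]
    refine ⟨A, ?_, ?_⟩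
    · rw [hG', mem_filter]
      exact ⟨hA.1, fun h => hnX (h ▸ hTX), fun h => hnX (hPX A h)⟩
    · unfold outs
      refine filter_true_of_mem ?_
      intro l hl
      exact disjoint_left.1 hA.2 (mem_vs.2 ⟨l, hl, rfl⟩)
  have hFO : (F \ O).card ≤ k * X.card := by
    calc (F \ O).card ≤ ((G.filter fun A => ∃ j ∈ X, j ∈ vs A).image (outs X)).card := by
          refine card_le_card ?_
          intro A hA
          rw [mem_sdiff, hF, mem_image] at hA
          obtain ⟨⟨B, hB, rfl⟩, hj⟩ := hA
          rw [hG', mem_filter] at hB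
          rw [mem_image]
          refine ⟨B, mem_filter.2 ⟨hB.1, ?_⟩, rfl⟩
          by_contra hcon
          push Not at hcon
          apply hj
          have hdis : Disjoint (vs B) X := disjoint_left.2 fun j hj hjX => hcon j hjX hj
          have e : outs X B = B := by
            unfold outs
            refine filter_true_of_mem ?_
            intro l hl
            exact disjoint_left.1 hdis (mem_vs.2 ⟨l, hl, rfl⟩)
          rw [e, hO, mem_filter]
          exact ⟨hB.1, hdis⟩
      _ ≤ (G.filter fun A => ∃ j ∈ X, j ∈ vs A).card := card_image_le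
      _ ≤ k * X.card := card_touch_le X hread
  have h1 := nu_union_ge hlenF hreadF hlam O hOF (F \ O) (subset_refl _)
  rw [union_sdiff_of_subset hOF] at h1
  have h9 : (0 : ℝ) ≤ 1 - (3 / 4) ^ lam := by
    have : (3 / 4 : ℝ) ^ lam ≤ 1 := pow_le_one₀ (by norm_num) (by norm_num)
    linarith
  have h10 : (1 : ℝ) - (3 / 4) ^ lam ≤ 1 := by
    have : (0 : ℝ) ≤ (3 / 4) ^ lam := by positivity
    linarith
  have h2 : (2 / 3 : ℝ) ^ X.card ≤ (1 - (3 / 4) ^ lam) ^ (F \ O).card :=
    (bern hlam X.card).trans (pow_le_pow_of_le_one h9 h10 hFO)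
  have hGO : nu G ≤ nu O := nu_mono (filter_subset _ _)
  have h3 : (2 / 3 : ℝ) ^ X.card * nu G ≤ nu F := by
    calc (2 / 3 : ℝ) ^ X.card * nu G ≤ (2 / 3 : ℝ) ^ X.card * nu O := by
          refine mul_le_mul_of_nonneg_left ?_ (by positivity)
          exact_mod_cast hGO
      _ ≤ (1 - (3 / 4) ^ lam) ^ (F \ O).card * nu O :=
          mul_le_mul_of_nonneg_right h2 (by positivity)
      _ ≤ nu F := h1
  -- independence
  have h4 : nu F ≤ (univ.filter fun x => SatT (pt X z) x ∧ ∀ A ∈ F, ¬ SatT A x).card *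
      2 ^ (pt X z).card := by
    refine indep_ge (pt X z) (by rw [vs_pt, pt_card]) _ ?_
    intro j hj x
    rw [vs_pt] at hj
    have : ∀ A ∈ F, (SatT A (flp j x) ↔ SatT A x) := by
      intro A hA
      refine satT_flp ?_ x
      rw [hF, mem_image] at hA
      obtain ⟨B, _, rfl⟩ := hA
      rw [vs_outs, mem_sdiff]
      exact fun h => h.2 hj
    exact ⟨fun h C hC => fun hs => h C hC ((this C hC).2 hs),
      fun h C hC => fun hs => h C hC ((this C hC).1 hs)⟩
  rw [pt_card] at h4
  have h5 : (univ.filter fun x => SatT (pt X z) x ∧ ∀ A ∈ F, ¬ SatT A x).card ≤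
      (univ.filter (Iso G T i)).card := by
    refine card_le_card ?_
    intro x hx
    rw [mem_filter, satT_pt] at hx
    rw [mem_filter]
    obtain ⟨_, hxX, hxF⟩ := hx
    refine ⟨mem_univ _, ?_, ?_⟩
    · intro l hl _
      rw [hxX l.1 (hTX (mem_vs.2 ⟨l, hl, rfl⟩))]
      exact hz l hl
    · intro A hA hAT
      by_cases hAP : A ∈ P
      · refine ⟨w A, hw1 A hAP, ?_, ?_⟩
        · intro hc
          exact hiw (mem_image.2 ⟨A, hAP, hc⟩)
        · rw [hxX _ (hPX A hAP (mem_vs.2 ⟨_, hw1 A hAP, rfl⟩))]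
          exact hw2 A hAP
      · have := hxF (outs X A) (by
          rw [hF, mem_image]
          exact ⟨A, mem_filter.2 ⟨hA, hAT, hAP⟩, rfl⟩)
        unfold SatT at this
        push Not at this
        obtain ⟨l, hl, hne⟩ := this
        unfold outs at hl
        rw [mem_filter] at hl
        refine ⟨l, hl.1, ?_, hne⟩
        intro hc
        exact hl.2 (hc ▸ hTX hiT)
  have h6 : (nu F : ℝ) ≤ ((univ.filter (Iso G T i)).card : ℝ) * 2 ^ X.card := by
    have : nu F ≤ (univ.filter (Iso G T i)).card * 2 ^ X.card :=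
      h4.trans (Nat.mul_le_mul_right _ h5)
    exact_mod_cast this
  have h7 : (nu G : ℝ) ≤ 3 ^ X.card * ((univ.filter (Iso G T i)).card : ℝ) := by
    have e1 : (3 / 2 : ℝ) ^ X.card * (2 / 3) ^ X.card = 1 := by
      rw [← mul_pow]; norm_num
    have e2 : (3 / 2 : ℝ) ^ X.card * 2 ^ X.card = 3 ^ X.card := by
      rw [← mul_pow]; norm_num
    calc (nu G : ℝ) = (3 / 2 : ℝ) ^ X.card * (2 / 3) ^ X.card * nu G := by rw [e1, one_mul]
      _ = (3 / 2 : ℝ) ^ X.card * ((2 / 3) ^ X.card * nu G) := by ring
      _ ≤ (3 / 2 : ℝ) ^ X.card * (((univ.filter (Iso G T i)).card : ℝ) * 2 ^ X.card) :=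
          mul_le_mul_of_nonneg_left (h3.trans h6) (by positivity)
      _ = (3 / 2 : ℝ) ^ X.card * 2 ^ X.card * ((univ.filter (Iso G T i)).card : ℝ) := by ring
      _ = _ := by rw [e2]
  refine h7.trans ?_
  refine mul_le_mul_of_nonneg_right ?_ (by positivity)
  calc (3 : ℝ) ^ X.card ≤ 3 ^ (2 * T.card) := pow_le_pow_right₀ (by norm_num) hXc
    _ = 9 ^ T.card := by rw [pow_mul]; norm_num

end Pool.Agent.H.MP_cba12a_lc
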