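import Mathlib

/-!
DNF formulas in which any `t + 1` variables occur together in few terms.
-/

namespace Pool.Agent.H.MP_cba12a_lc

/-- `g` is computed by a DNF formula, with any number of terms of any lengths, in which any
`t + 1` different variables occur together in at most `d` terms. The literal `(i, v)` holds at `x`
when `x i = v`. -/
def CodDNF {n : ℕ} (t d : ℕ) (g : (Fin n → Bool) → Bool) : Prop :=
  ∃ F : Finset (Finset (Fin n × Bool)), (∀ x, g x = true ↔ ∃ T ∈ F, ∀ l ∈ T, x l.1 = l.2) ∧
    ∀ S : Finset (Fin n), S.card = t + 1 →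
      (F.filter fun T => S ⊆ T.image Prod.fst).card ≤ d

end Pool.Agent.H.MP_cba12a_lc
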