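import Pool.Agent.H.MP_cba12a_lc.Deg6

/-!
The noise of the mixed derivative along `t (t + 1) + 1` variables of a term.
-/

namespace Pool.Agent.H.MP_cba12a_lc

open Finset

variable {n : ℕ}

/-- some other term which contains `j` holds outside `Y` -/
def Covd (G : Finset (Finset (Fin n × Bool))) (T : Finset (Fin n × Bool)) (Y : Finset (Fin n))
    (j : Fin n) (x : Fin n → Bool) : Prop :=
  ∃ A ∈ G, A ≠ T ∧ j ∈ vs A ∧ SatT (outs Y A) x

instance (G : Finset (Finset (Fin n × Bool))) (T : Finset (Fin n × Bool)) (Y : Finset (Fin n))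
    (j : Fin n) : DecidablePred (Covd G T Y j) := fun x => by
  unfold Covd; infer_instance

variable {t L : ℕ} {κ lam δ : ℝ} {X : Finset (Fin n)} {G : Finset (Finset (Fin n × Bool))}

theorem card_biUnion_ge {ι : Type} [DecidableEq ι] {β : Type} [DecidableEq β] (A : ι → Finset β)
    (s : Finset ι) (hA : ∀ a ∈ s, ∀ b ∈ s, a ≠ b → (A a ∩ A b).card ≤ t) :
    ∑ a ∈ s, (A a).card ≤ (s.biUnion A).card + s.card * (s.card * t) := by
  induction s using Finset.induction_on with
  | empty => simp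
  | insert a s ha ih =>
    have ih' := ih fun b hb c hc => hA b (mem_insert_of_mem hb) c (mem_insert_of_mem hc)
    rw [sum_insert ha, biUnion_insert, card_insert_of_notMem ha]
    have h1 := card_union_add_card_inter (A a) (s.biUnion A)
    have h2 : (A a ∩ s.biUnion A).card ≤ s.card * t := by
      rw [inter_biUnion]
      refine card_biUnion_le.trans ?_
      refine (sum_le_card_nsmul s _ t ?_).trans (by rw [smul_eq_mul])
      intro b hb
      exact hA a (mem_insert_self _ _) b (mem_insert_of_mem hb) (fun hc => ha (hc ▸ hb))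
    have h3 : s.card * t + s.card * (s.card * t) ≤ (s.card + 1) * ((s.card + 1) * t) := by
      nlinarith
    omega

theorem multi_le (h : Fam t L κ X G) {T : Finset (Fin n × Bool)} (hT : T ∈ G)
    {Y : Finset (Fin n)} (hY : Y ⊆ vs T) {p : ℕ} {g : Fin p → Finset (Fin n × Bool)}
    (hg : Function.Injective g) (hgG : ∀ a, g a ∈ G) (hgT : ∀ a, g a ≠ T) :
    mu (fun x => decide (∀ a, SatT (outs Y (g a)) x)) ≤
      2 ^ (t * p * (p + 1)) * ∏ a, wF (g a) := by
  classical
  set U := (univ : Finset (Fin p)).biUnion fun a => outs Y (g a) with hU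
  have h1 : mu (fun x => decide (∀ a, SatT (outs Y (g a)) x)) ≤ wF U := by
    refine le_trans (mu_mono fun x hx => ?_) (mu_sat1_le U)
    rw [decide_eq_true_iff] at hx ⊢
    intro l hl
    rw [hU, mem_biUnion] at hl
    obtain ⟨a, _, hl⟩ := hl
    exact hx a l hl
  refine h1.trans ?_
  have h2 := card_biUnion_ge (t := t) (fun a => outs Y (g a)) (univ : Finset (Fin p)) (by
    intro a _ b _ hab
    have h3 := h.share (g a) (hgG a) (g b) (hgG b) (fun hc => hab (hg hc))
    refine le_trans ?_ h3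
    refine le_trans (card_le_card ?_) (card_lit_inter_le (B := g b) (h.cons _ (hgG a)))
    exact inter_subset_inter (outs_sub _ _) (outs_sub _ _))
  rw [card_univ, Fintype.card_fin] at h2
  have h3 : ∀ a, (g a).card ≤ (outs Y (g a)).card + t := by
    intro a
    have h4 : (g a).card ≤ (outs Y (g a)).card + ((g a).filter fun l => l.1 ∈ Y).card := by
      have h5 : (outs Y (g a)) ∪ ((g a).filter fun l => l.1 ∈ Y) = g a := by
        unfold outs
        rw [union_comm]
        exact filter_union_filter_not_eq _ _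
      have h6 := card_union_le (outs Y (g a)) ((g a).filter fun l => l.1 ∈ Y)
      rw [h5] at h6
      exact h6
    have h5 : ((g a).filter fun l => l.1 ∈ Y).card ≤ t := by
      have h6 := cons_mono (filter_subset (fun l => l.1 ∈ Y) (g a)) (h.cons _ (hgG a))
      rw [← h6]
      refine le_trans (card_le_card ?_) (h.share (g a) (hgG a) T hT (hgT a))
      intro j hj
      obtain ⟨l, hl, rfl⟩ := mem_vs.1 hj
      rw [mem_filter] at hl
      exact mem_inter.2 ⟨mem_vs.2 ⟨l, hl.1, rfl⟩, hY hl.2⟩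
    omega
  have h4 : ∑ a, (g a).card ≤ U.card + t * p * (p + 1) := by
    have h5 : ∑ a, (g a).card ≤ ∑ a, ((outs Y (g a)).card + t) := sum_le_sum fun a _ => h3 a
    rw [sum_add_distrib, sum_const, card_univ, Fintype.card_fin, smul_eq_mul] at h5
    have e : t * p * (p + 1) = p * (p * t) + p * t := by ring
    rw [e]
    have h6 : ∑ a, (outs Y (g a)).card ≤ U.card + p * (p * t) := h2
    calc ∑ a, (g a).card ≤ ∑ a, (outs Y (g a)).card + p * t := h5
      _ ≤ U.card + p * (p * t) + p * t := Nat.add_le_add_right h6 _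
      _ = _ := by ring
  unfold wF
  rw [prod_pow_eq_pow_sum]
  have h5 : (1 / 2 : ℝ) ^ (U.card + t * p * (p + 1)) ≤ (1 / 2) ^ ∑ a, (g a).card :=
    pow_le_pow_of_le_one (by norm_num) (by norm_num) h4
  have h6 : (2 : ℝ) ^ (t * p * (p + 1)) * (1 / 2) ^ (t * p * (p + 1)) = 1 := by
    rw [← mul_pow]; norm_num
  calc (1 / 2 : ℝ) ^ U.card =
        (2 ^ (t * p * (p + 1)) * (1 / 2) ^ (t * p * (p + 1))) * (1 / 2) ^ U.card := by
        rw [h6, one_mul]
    _ = 2 ^ (t * p * (p + 1)) * (1 / 2) ^ (U.card + t * p * (p + 1)) := by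
        rw [pow_add]; ring
    _ ≤ _ := mul_le_mul_of_nonneg_left h5 (by positivity)

/-- **The noise.** -/
theorem cov_le (h : Fam t L κ X G) {T : Finset (Fin n × Bool)} (hT : T ∈ G)
    (hδ : 0 < δ) (hlam : 0 < lam) (hTr : ¬ Rich G t lam T) (hlen : wF T ≤ lam * δ ^ (t + 1))
    {Y : Finset (Fin n)} (hY : Y ⊆ vs T) (hYc : t * (t + 1) < Y.card) :
    mu (fun x => decide (∀ j ∈ Y, Covd G T Y j x)) ≤
      (Y.card : ℝ) ^ (t + 2) * (2 ^ (t * (t + 2) * (t + 3)) * (δ / lam * wF T)) := by
  classical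
  set Fs : Finset (Fin (t + 2) → Fin n) :=
    (Fintype.piFinset fun _ => Y).filter Function.Injective with hFs
  set Gs : (Fin (t + 2) → Fin n) → Finset (Fin (t + 2) → Finset (Fin n × Bool)) := fun f =>
    Fintype.piFinset fun a => (G.erase T).filter fun A => f a ∈ vs A with hGs
  have hpt : ∀ x : Fin n → Bool, (∀ j ∈ Y, Covd G T Y j x) → ∃ f ∈ Fs, ∃ g ∈ Gs f,
      Function.Injective g ∧ ∀ a, SatT (outs Y (g a)) x := by
    intro x hx
    have hne : Y.Nonempty := card_pos.1 (by omega)
    obtain ⟨j0, hj0⟩ := hne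
    choose! c hc1 hc2 hc3 hc4 using hx
    have hfib : ∀ A ∈ Y.image c, (Y.filter fun j => c j = A).card ≤ t := by
      intro A hA
      obtain ⟨j1, hj1, rfl⟩ := mem_image.1 hA
      refine le_trans (card_le_card ?_) (h.share (c j1) (hc1 j1 hj1) T hT (hc2 j1 hj1))
      intro j hj
      rw [mem_filter] at hj
      rw [mem_inter, ← hj.2]
      exact ⟨hc3 j hj.1, hY hj.1⟩
    have hcard := card_le_mul_card_image Y t hfib
    have hge : t + 2 ≤ (Y.image c).card := by
      by_contra hcon
      have h1 : (Y.image c).card ≤ t + 1 := by omega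
      have h2 := Nat.mul_le_mul_left t h1
      omega
    obtain ⟨g, hg, hgm⟩ := exists_inj hge
    have hex : ∀ a, ∃ j ∈ Y, c j = g a := fun a => by
      obtain ⟨j, hj, h1⟩ := mem_image.1 (hgm a)
      exact ⟨j, hj, h1⟩
    choose f hf1 hf2 using hex
    refine ⟨f, ?_, g, ?_, hg, ?_⟩
    · rw [hFs, mem_filter, Fintype.mem_piFinset]
      refine ⟨hf1, fun a b hab => hg ?_⟩
      rw [← hf2 a, ← hf2 b, hab]
    · rw [hGs, Fintype.mem_piFinset]
      intro a
      rw [mem_filter, mem_erase, ← hf2 a]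
      exact ⟨⟨hc2 _ (hf1 a), hc1 _ (hf1 a)⟩, hc3 _ (hf1 a)⟩
    · intro a
      rw [← hf2 a]
      exact hc4 _ (hf1 a)
  set I : Finset (Σ _f : Fin (t + 2) → Fin n, Fin (t + 2) → Finset (Fin n × Bool)) :=
    Fs.sigma fun f => (Gs f).filter Function.Injective with hI
  have h1 : mu (fun x => decide (∀ j ∈ Y, Covd G T Y j x)) ≤
      ∑ q ∈ I, mu (fun x => decide (∀ a, SatT (outs Y (q.2 a)) x)) := by
    refine mu_finset_le I _ (fun q x => decide (∀ a, SatT (outs Y (q.2 a)) x)) ?_
    intro x hx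
    rw [decide_eq_true_iff] at hx
    obtain ⟨f, hf, g, hg, hgi, hs⟩ := hpt x hx
    refine ⟨⟨f, g⟩, ?_, decide_eq_true hs⟩
    rw [hI, mem_sigma]
    exact ⟨hf, mem_filter.2 ⟨hg, hgi⟩⟩
  refine h1.trans ?_
  rw [hI, sum_sigma]
  have hc0 : (0 : ℝ) ≤ 2 ^ (t * (t + 2) * (t + 3)) := by positivity
  have h2 : ∀ f ∈ Fs, ∑ g ∈ (Gs f).filter Function.Injective,
      mu (fun x => decide (∀ a, SatT (outs Y (g a)) x)) ≤
      2 ^ (t * (t + 2) * (t + 3)) * (δ / lam * wF T) := by
    intro f hf
    rw [hFs, mem_filter, Fintype.mem_piFinset] at hf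
    have h3 : ∀ g ∈ (Gs f).filter Function.Injective,
        mu (fun x => decide (∀ a, SatT (outs Y (g a)) x)) ≤
        2 ^ (t * (t + 2) * (t + 3)) * ∏ a, wF (g a) := by
      intro g hg
      rw [mem_filter, hGs, Fintype.mem_piFinset] at hg
      have := multi_le h hT hY hg.2 (fun a => (mem_erase.1 (mem_filter.1 (hg.1 a)).1).2)
        (fun a => (mem_erase.1 (mem_filter.1 (hg.1 a)).1).1)
      rw [show t + 2 + 1 = t + 3 from rfl] at this
      exact this
    refine (sum_le_sum h3).trans ?_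
    rw [← mul_sum]
    refine mul_le_mul_of_nonneg_left ?_ hc0
    calc ∑ g ∈ (Gs f).filter Function.Injective, ∏ a, wF (g a) ≤
        ∑ g ∈ Gs f, ∏ a, wF (g a) :=
          sum_le_sum_of_subset_of_nonneg (filter_subset _ _) fun g _ _ =>
            prod_nonneg fun a _ => (wF_pos _).le
      _ = ∏ a, ∑ A ∈ (G.erase T).filter fun A => f a ∈ vs A, wF A := by
          rw [hGs, prod_univ_sum]
      _ ≤ ∏ a, dg G (f a) := by
          refine prod_le_prod (fun a _ => sum_nonneg fun A _ => (wF_pos _).le) fun a _ => ?_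
          unfold dg
          refine sum_le_sum_of_subset_of_nonneg ?_ fun A _ _ => (wF_pos _).le
          exact filter_subset_filter _ (erase_subset _ _)
      _ ≤ δ / lam * wF T := prod_small hδ hlam hTr hlen hf.2 fun a => hY (hf.1 a)
  refine (sum_le_card_nsmul _ _ _ h2).trans ?_
  rw [nsmul_eq_mul]
  refine mul_le_mul_of_nonneg_right ?_ ?_
  · have h3 : Fs.card ≤ Y.card ^ (t + 2) := by
      refine (card_filter_le _ _).trans (le_of_eq ?_)
      rw [Fintype.card_piFinset, prod_const, card_univ, Fintype.card_fin]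
    exact_mod_cast h3
  · have := wF_pos T
    positivity

end Pool.Agent.H.MP_cba12a_lc
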