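import Pool.Agent.H.MP_5be563_lc.PT.Typed

/-!
Definitions for learning DNF formulas from uniform random examples.
-/

namespace Pool.Agent.H.MP_cba12a_lc

open Pool.Agent.H.MP_5be563_lc.PT

/-- A literal: the index of a variable and the value it asks for. -/
abbrev Lit := ℕ × Bool

/-- The conjunction `C` of literals holds at the point `xs`. -/
def sat (xs : List Bool) (C : List Lit) : Bool := C.all fun l => xs[l.1]? == some l.2

/-- The DNF formula `F`, a list of conjunctions, holds at the point `xs`. -/
def satD (xs : List Bool) (F : List (List Lit)) : Bool := F.any fun C => sat xs C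

/-- A labelled sample: a list of pairs of a point and a label. -/
abbrev Samples := List (List Bool × Bool)

/-- `f` is computed by a DNF formula with at most `s` terms: it is an OR of at most `s` ANDs of
literals. The literal `(i, v)` holds at `x` when `x i = v`. -/
def IsDNF {n : ℕ} (s : ℕ) (f : (Fin n → Bool) → Bool) : Prop :=
  ∃ F : Finset (Finset (Fin n × Bool)), F.card ≤ s ∧
    ∀ x, f x = true ↔ ∃ T ∈ F, ∀ l ∈ T, x l.1 = l.2

/-- The labelled sample `(ω 0, f (ω 0)), …, (ω (m - 1), f (ω (m - 1)))`. -/
def smp {n m : ℕ} (f : (Fin n → Bool) → Bool) (ω : Fin m → Fin n → Bool) : Samples :=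
  List.ofFn fun i => (List.ofFn (ω i), f (ω i))

/-- The error of the DNF hypothesis `H`: the fraction of the cube where it differs from `f`. -/
noncomputable def err {n : ℕ} (f : (Fin n → Bool) → Bool) (H : List (List Lit)) : ℝ :=
  ((Finset.univ.filter fun x : Fin n → Bool => satD (List.ofFn x) H ≠ f x).card : ℝ) / 2 ^ n

/-- The code of an object as a string of bits (numbers are coded in unary). -/
def code {α : Type} [Enc α] (a : α) : List Bool := (enc a).bits

/-- `f` is computed by a Turing machine with stacks over the alphabet `Bool` which, on every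
input `a`, halts after at most `t a` steps with output `f a`. -/
def ComputedInTime {α β : Type} [Enc α] [Enc β] (f : α → β) (t : α → ℕ) : Prop :=
  ∃ M : Turing.TM2ComputableAux Bool Bool, ∀ a : α,
    Nonempty (Turing.TM2OutputsInTime M.tm ((code a).map M.inputAlphabet.invFun)
      (some ((code (f a)).map M.outputAlphabet.invFun)) (t a))

end Pool.Agent.H.MP_cba12a_lc
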