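import Pool.Agent.H.MP_cba12a_lc.Flip
import Pool.Agent.H.MP_cba12a_lc.Lg

/-!
Detection of the influential variables of a unate target.
-/

namespace Pool.Agent.H.MP_cba12a_lc

open Finset Pool.Agent.H.MP_5be563_lc.PT

/-- literals on variables with a large empirical degree-one correlation -/
def infl (n s a : ℕ) (S : Samples) : List Lit :=
  (allLits n).filter fun l => decide (3 * S.length ≤ 4 * (512 * s * a * a * (n + 1)) *
    ((cnt S true [(l.1, true)] [] - cnt S true [(l.1, false)] []) +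
      (cnt S true [(l.1, false)] [] - cnt S true [(l.1, true)] [])))

@[fun_prop]
theorem poly_infl {α : Type} [Enc α] {n s a : α → ℕ} {S : α → Samples} (hn : Poly n)
    (hs : Poly s) (ha : Poly a) (hS : Poly S) :
    Poly (fun p => infl (n p) (s p) (a p) (S p)) := by
  unfold infl
  fun_prop

variable {n m : ℕ}

theorem mu_ev_single (f : (Fin n → Bool) → Bool) (i : Fin n) :
    mu (ev f true [((i : ℕ), true)] []) - mu (ev f true [((i : ℕ), false)] []) =
      cI f i / 2 ^ n := by
  unfold mu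
  rw [← sub_div, Fintype.card_fun, Fintype.card_fin, Fintype.card_bool, ct_eq_sum, ct_eq_sum,
    ← sum_sub_distrib]
  push_cast
  congr 1
  unfold cI
  refine sum_congr rfl fun x _ => ?_
  have h : ∀ v, ev f true [((i : ℕ), v)] [] x = true ↔ f x = true ∧ x i = v := by
    intro v
    rw [ev_iff, sat_cons, getElem?_ofFn]
    constructor
    · rintro ⟨h1, ⟨⟨_, h2⟩, _⟩, _⟩
      exact ⟨h1, h2⟩
    · rintro ⟨h1, h2⟩
      exact ⟨h1, ⟨⟨i.2, h2⟩, rfl⟩, rfl⟩
  simp only [h]
  cases f x <;> cases x i <;> simp [r, sgn]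

theorem abs_cI_sub_le (f g : (Fin n → Bool) → Bool) (i : Fin n) :
    |cI f i - cI g i| ≤ ∑ x, |r (f x) - r (g x)| := by
  unfold cI
  rw [← sum_sub_distrib]
  refine (abs_sum_le_sum_abs _ _).trans (le_of_eq ?_)
  refine sum_congr rfl fun x _ => ?_
  rw [← mul_sub, abs_mul, abs_sgn, one_mul]

theorem sum_abs_r (f g : (Fin n → Bool) → Bool) :
    ∑ x, |r (f x) - r (g x)| = ((univ.filter fun x => f x ≠ g x).card : ℝ) := by
  rw [← Finset.sum_boole]
  refine sum_congr rfl fun x _ => ?_
  cases f x <;> cases g x <;> simp [r]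

theorem mem_infl_iff {s a : ℕ} {f : (Fin n → Bool) → Bool} {ω : Fin m → Fin n → Bool}
    (hm : 0 < m) (hs : 1 ≤ s) (ha : 1 ≤ a) {l : Lit} : l ∈ infl n s a (smp f ω) ↔
      l.1 < n ∧ 3 / 4 * (1 / (512 * s * a ^ 2 * (n + 1))) ≤
        |em ω (ev f true [(l.1, true)] []) - em ω (ev f true [(l.1, false)] [])| := by
  unfold infl
  rw [List.mem_filter, mem_allLits, decide_eq_true_iff, cnt_smp, cnt_smp, length_smp]
  refine and_congr_right fun _ => ?_
  have hm' : (0 : ℝ) < m := by exact_mod_cast hm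
  have hs' : (0 : ℝ) < s := by exact_mod_cast hs
  have ha' : (0 : ℝ) < a := by exact_mod_cast ha
  set c1 := ec ω (ev f true [(l.1, true)] []) with hc1
  set c0 := ec ω (ev f true [(l.1, false)] []) with hc0
  have hsub : (((c1 - c0) + (c0 - c1) : ℕ) : ℝ) = |(c1 : ℝ) - c0| := by
    rcases le_total c0 c1 with h | h
    · have h' : (c0 : ℝ) ≤ c1 := by exact_mod_cast h
      rw [abs_of_nonneg (by linarith), Nat.sub_eq_zero_of_le h, add_zero, Nat.cast_sub h]
    · have h' : (c1 : ℝ) ≤ c0 := by exact_mod_cast h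
      rw [abs_of_nonpos (by linarith), Nat.sub_eq_zero_of_le h, zero_add, Nat.cast_sub h]
      ring
  have e1 : em ω (ev f true [(l.1, true)] []) - em ω (ev f true [(l.1, false)] []) =
      ((c1 : ℝ) - c0) / m := by
    unfold em
    rw [sub_div]
  rw [e1, abs_div, abs_of_pos hm', ← hsub]
  have e2 : (3 * m ≤ 4 * (512 * s * a * a * (n + 1)) * ((c1 - c0) + (c0 - c1))) ↔
      ((3 : ℝ) * m ≤ 4 * (512 * s * a * a * (n + 1)) * (((c1 - c0) + (c0 - c1) : ℕ) : ℝ)) := by
    exact_mod_cast Iff.rfl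
  have e3 : (3 : ℝ) / 4 * (1 / (512 * s * a ^ 2 * (n + 1))) =
      3 / (4 * (512 * s * a ^ 2 * (n + 1))) := by field_simp
  rw [e2, e3, div_le_div_iff₀ (by positivity) hm']
  constructor
  · intro h; nlinarith
  · intro h; nlinarith

theorem length_infl_le {s a ℓ : ℕ} {f g : (Fin n → Bool) → Bool} {ω : Fin m → Fin n → Bool}
    (hm : 0 < m) (hs : 1 ≤ s) (ha : 1 ≤ a) (hg : IsDNF s g)
    (hfg : (8192 * s * a ^ 2 * (n + 1) : ℝ) * (univ.filter fun x => f x ≠ g x).card ≤ 2 ^ n)
    {R : ℕ} (hrep : Rep f ω R (1 / (8192 * s * a ^ 2 * (n + 1))))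
    (hℓ : 2 * (1024 * s * s * a * a * (n + 1)) ≤ 2 ^ ℓ) :
    (infl n s a (smp f ω)).length ≤ 2 * (s * ℓ) := by
  classical
  set V := infl n s a (smp f ω) with hV
  have hs' : (1 : ℝ) ≤ s := by exact_mod_cast hs
  have ha' : (1 : ℝ) ≤ a := by exact_mod_cast ha
  have hVn : ∀ l ∈ V, l.1 < n := fun l hl => ((mem_infl_iff hm hs ha).1 hl).1
  have hcard : (toF n V).card = V.length := toF_card_of_nodup ((nodup_allLits n).filter _) hVn
  set I : Finset (Fin n) := univ.filter fun i => ((i : ℕ), true) ∈ V with hI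
  have hsub : toF n V ⊆ I ×ˢ (univ : Finset Bool) := by
    intro l hl
    rw [mem_toF] at hl
    rw [mem_product]
    refine ⟨?_, mem_univ _⟩
    rw [hI, mem_filter]
    refine ⟨mem_univ _, ?_⟩
    rw [hV, mem_infl_iff hm hs ha] at hl ⊢
    exact hl
  have hIc : I.card ≤ s * ℓ := by
    refine card_big_le hg I ?_
    intro i hi
    rw [hI, mem_filter, hV, mem_infl_iff hm hs ha] at hi
    obtain ⟨_, _, hi⟩ := hi
    set θ : ℝ := 1 / (512 * s * a ^ 2 * (n + 1)) with hθ
    have hθ0 : 0 < θ := by rw [hθ]; positivity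
    have e16 : (1 : ℝ) / (8192 * s * a ^ 2 * (n + 1)) = θ / 16 := by rw [hθ]; field_simp; norm_num
    have h1 := abs_lt.1 (hrep true [((i : ℕ), true)] [] (by simp) (by simp) (by simp))
    have h2 := abs_lt.1 (hrep true [((i : ℕ), false)] [] (by simp) (by simp) (by simp))
    rw [e16] at h1 h2
    have h3 := mu_ev_single f i
    have h4 : |cI f i / 2 ^ n - cI g i / 2 ^ n| ≤ θ / 16 := by
      rw [← sub_div, abs_div, abs_of_pos (show (0 : ℝ) < 2 ^ n by positivity),
        div_le_iff₀ (by positivity)]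
      refine (abs_cI_sub_le f g i).trans ?_
      rw [sum_abs_r, ← e16, one_div, inv_mul_eq_div, le_div_iff₀ (by positivity), mul_comm]
      exact hfg
    have h5 : 9 / 16 * θ ≤ |cI g i / 2 ^ n| := by
      have h6 := abs_le.1 h4
      rcases le_abs.1 hi with h | h
      · refine le_trans ?_ (le_abs_self _)
        linarith
      · refine le_trans ?_ (neg_le_abs _)
        linarith
    rw [abs_div, abs_of_pos (show (0 : ℝ) < 2 ^ n by positivity), le_div_iff₀ (by positivity)] at h5
    have hℓ' : (2 : ℝ) * (1024 * s * s * a * a * (n + 1)) ≤ 2 ^ ℓ := by exact_mod_cast hℓ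
    have h7 : (s : ℝ) < 9 / 16 * θ * 2 ^ ℓ := by
      have h8 : 9 / 16 * θ * (2 * (1024 * s * s * a * a * (n + 1))) = 9 / 4 * s := by
        rw [hθ]; field_simp; norm_num
      have h9 := mul_le_mul_of_nonneg_left hℓ' (show (0 : ℝ) ≤ 9 / 16 * θ by positivity)
      rw [h8] at h9
      linarith
    have hp : (0 : ℝ) < 2 ^ n := by positivity
    calc (s : ℝ) * 2 ^ n < 9 / 16 * θ * 2 ^ ℓ * 2 ^ n := mul_lt_mul_of_pos_right h7 hp
      _ = 9 / 16 * θ * 2 ^ n * 2 ^ ℓ := by ring
      _ ≤ |cI g i| * 2 ^ ℓ := mul_le_mul_of_nonneg_right h5 (by positivity)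
  rw [← hcard]
  refine (card_le_card hsub).trans ?_
  rw [card_product, card_univ, Fintype.card_bool, mul_comm]
  exact Nat.mul_le_mul_left 2 hIc

/-- A reference formula on the influential variables. -/
theorem exists_reference {s a : ℕ} {f g : (Fin n → Bool) → Bool} {ω : Fin m → Fin n → Bool}
    (hm : 0 < m) (hs : 1 ≤ s) (ha : 1 ≤ a) (hg : IsDNF s g) (hu : Unate g)
    (hfg : (8192 * s * a ^ 2 * (n + 1) : ℝ) * (univ.filter fun x => f x ≠ g x).card ≤ 2 ^ n)
    {R : ℕ} (hrep : Rep f ω R (1 / (8192 * s * a ^ 2 * (n + 1)))) :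
    ∃ G : List (List Lit), G.length ≤ s ∧ (∀ T ∈ G, ∀ l ∈ T, l ∈ infl n s a (smp f ω)) ∧
      mu (errE f G) ≤ 1 / (256 * s * a ^ 2) := by
  classical
  have hs' : (1 : ℝ) ≤ s := by exact_mod_cast hs
  have ha' : (1 : ℝ) ≤ a := by exact_mod_cast ha
  set θ : ℝ := 1 / (512 * s * a ^ 2 * (n + 1)) with hθ
  have hθ0 : 0 < θ := by rw [hθ]; positivity
  have e16 : (1 : ℝ) / (8192 * s * a ^ 2 * (n + 1)) = θ / 16 := by rw [hθ]; field_simp; norm_num
  have hp : (0 : ℝ) < 2 ^ n := by positivity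
  obtain ⟨F, hF, hgx⟩ := hg
  set U : Finset (Fin n) := univ.filter fun i => |cI g i| < θ * 2 ^ n with hU
  obtain ⟨z, hz⟩ := exists_restriction g U
  -- error of the restriction
  have hz' : ∑ x, |r (g x) - r (g (mix U x z))| ≤ n * (θ * 2 ^ n) := by
    have h1 : ∑ i ∈ U, fl g i ≤ ∑ _i ∈ U, 2 * (θ * 2 ^ n) := by
      refine sum_le_sum fun i hi => ?_
      rw [fl_eq_of_unate hu]
      rw [hU, mem_filter] at hi
      linarith [hi.2]
    rw [sum_const, nsmul_eq_mul] at h1
    have h2 : (U.card : ℝ) ≤ n := by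
      have := card_le_univ U
      rw [Fintype.card_fin] at this
      exact_mod_cast this
    have h3 : (U.card : ℝ) * (2 * (θ * 2 ^ n)) ≤ n * (2 * (θ * 2 ^ n)) :=
      mul_le_mul_of_nonneg_right h2 (by positivity)
    linarith
  -- the formula
  set F' := F.filter (fun T => ∀ l ∈ T, l.1 ∈ U → z l.1 = l.2) with hF'
  refine ⟨F'.toList.map fun T => (T.filter fun l => l.1 ∉ U).toList.map fun l =>
    ((l.1 : ℕ), l.2), ?_, ?_, ?_⟩
  · rw [List.length_map, length_toList]
    exact (card_filter_le _ _).trans hF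
  · intro T hT l hl
    obtain ⟨T', _, rfl⟩ := List.mem_map.1 hT
    obtain ⟨l', hl', rfl⟩ := List.mem_map.1 hl
    rw [mem_toList, mem_filter] at hl'
    have hnot := hl'.2
    rw [hU, mem_filter] at hnot
    push Not at hnot
    have hbig := hnot (mem_univ _)
    rw [mem_infl_iff hm hs ha]
    refine ⟨l'.1.2, ?_⟩
    simp only
    set i := l'.1 with hi
    have h1 := abs_lt.1 (hrep true [((i : ℕ), true)] [] (by simp) (by simp) (by simp))
    have h2 := abs_lt.1 (hrep true [((i : ℕ), false)] [] (by simp) (by simp) (by simp))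
    rw [e16] at h1 h2
    have h3 := mu_ev_single f i
    have h4 : |cI f i / 2 ^ n - cI g i / 2 ^ n| ≤ θ / 16 := by
      rw [← sub_div, abs_div, abs_of_pos hp, div_le_iff₀ hp]
      refine (abs_cI_sub_le f g i).trans ?_
      rw [sum_abs_r, ← e16, one_div, inv_mul_eq_div, le_div_iff₀ (by positivity), mul_comm]
      exact hfg
    have h5 : θ ≤ |cI g i / 2 ^ n| := by
      rw [abs_div, abs_of_pos hp, le_div_iff₀ hp]
      exact hbig
    have h6 := abs_le.1 h4
    rcases le_abs.1 h5 with h | h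
    · refine le_trans ?_ (le_abs_self _)
      linarith
    · refine le_trans ?_ (neg_le_abs _)
      linarith
  · have hval : ∀ x : Fin n → Bool, satD (List.ofFn x) (F'.toList.map fun T =>
        (T.filter fun l => l.1 ∉ U).toList.map fun l => ((l.1 : ℕ), l.2)) = g (mix U x z) := by
      intro x
      rw [Bool.eq_iff_iff, hgx, satD_iff]
      constructor
      · rintro ⟨C, hC, hsat⟩
        obtain ⟨T, hT, rfl⟩ := List.mem_map.1 hC
        rw [mem_toList, hF', mem_filter] at hT
        refine ⟨T, hT.1, fun l hl => ?_⟩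
        by_cases hlU : l.1 ∈ U
        · simp only [mix, hlU, if_true]
          exact hT.2 l hl hlU
        · simp only [mix, hlU, if_false]
          rw [sat_iff] at hsat
          have h1 := hsat ((l.1 : ℕ), l.2) (List.mem_map.2 ⟨l, mem_toList.2
            (mem_filter.2 ⟨hl, hlU⟩), rfl⟩)
          rw [getElem?_ofFn] at h1
          exact h1.2
      · rintro ⟨T, hT, hsat⟩
        refine ⟨(T.filter fun l => l.1 ∉ U).toList.map fun l => ((l.1 : ℕ), l.2),
          List.mem_map.2 ⟨T, ?_, rfl⟩, ?_⟩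
        · rw [mem_toList, hF', mem_filter]
          refine ⟨hT, fun l hl hlU => ?_⟩
          have := hsat l hl
          simpa [mix, hlU] using this
        · rw [sat_iff]
          intro l hl
          obtain ⟨l', hl', rfl⟩ := List.mem_map.1 hl
          rw [mem_toList, mem_filter] at hl'
          rw [getElem?_ofFn]
          have := hsat l' hl'.1
          exact ⟨l'.1.2, by simpa [mix, hl'.2] using this⟩
    have hmu : mu (errE f (F'.toList.map fun T => (T.filter fun l => l.1 ∉ U).toList.map fun l =>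
        ((l.1 : ℕ), l.2))) = (∑ x, |r (f x) - r (g (mix U x z))|) / 2 ^ n := by
      unfold mu
      rw [Fintype.card_fun, Fintype.card_fin, Fintype.card_bool, ct_eq_sum]
      push_cast
      congr 1
      refine sum_congr rfl fun x _ => ?_
      unfold errE
      rw [hval]
      cases f x <;> cases g (mix U x z) <;> simp [r]
    rw [hmu, div_le_iff₀ hp]
    have htri : ∑ x, |r (f x) - r (g (mix U x z))| ≤
        ∑ x, |r (f x) - r (g x)| + ∑ x, |r (g x) - r (g (mix U x z))| := by
      rw [← sum_add_distrib]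
      exact sum_le_sum fun x _ => abs_sub_le _ _ _
    have h1 : ∑ x, |r (f x) - r (g x)| ≤ θ / 16 * 2 ^ n := by
      rw [sum_abs_r, ← e16, one_div, inv_mul_eq_div, le_div_iff₀ (by positivity), mul_comm]
      exact hfg
    have h2 : (n + 1) * (θ * 2 ^ n) = 1 / (512 * s * a ^ 2) * 2 ^ n := by
      rw [hθ]; field_simp
    have h3 : (1 : ℝ) / (512 * s * a ^ 2) ≤ 1 / (256 * s * a ^ 2) := by
      refine one_div_le_one_div_of_le (by positivity) ?_
      have : (0 : ℝ) < s * a ^ 2 := by positivity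
      linarith
    have h4 := mul_le_mul_of_nonneg_right h3 hp.le
    have h5 : 0 < θ * 2 ^ n := by positivity
    linarith

/-! ### Arithmetic -/

theorem sq_le_three_mul (L : ℕ) : (L + 1) * (L + 1) ≤ 3 * 2 ^ L := by
  induction L with
  | zero => norm_num
  | succ L ih =>
    rcases Nat.lt_or_ge L 2 with h | h
    · interval_cases L <;> norm_num
    · rw [pow_succ]
      nlinarith

theorem pow_bound {s u ℓ D : ℕ} (hs : 1 ≤ s) (hu : u = Nat.clog 2 s) (hℓ1 : 1 ≤ ℓ)
    (hℓ : 2 ^ ℓ ≤ 4 * D) : ℓ ^ u ≤ 2 * s * s ^ u * (4 * D) ^ 3 := by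
  have h4D : 1 ≤ 4 * D := Nat.one_le_two_pow.trans hℓ
  set L := Nat.clog 2 ℓ with hL
  have h1 : ℓ ^ u ≤ 2 ^ (L * u) := by
    rw [pow_mul]
    exact Nat.pow_le_pow_left (Nat.le_pow_clog (by norm_num) ℓ) u
  rcases Nat.lt_or_ge u L with h | h
  · have h2 : 2 ^ (L * u) ≤ (4 * D) ^ 3 := by
      calc 2 ^ (L * u) ≤ 2 ^ (ℓ * 3) := by
            refine Nat.pow_le_pow_right (by norm_num) ?_
            have h3 : 0 < L := by omega
            have h4 : 2 ^ (L - 1) < ℓ := by
              have h5 : 1 < ℓ := by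
                by_contra hc
                have : ℓ = 1 := by omega
                rw [this, Nat.clog_one_right] at hL
                omega
              have := Nat.pow_pred_clog_lt_self (b := 2) (by norm_num) h5
              rwa [← hL, Nat.pred_eq_sub_one] at this
            have h5 := sq_le_three_mul (L - 1)
            rw [show L - 1 + 1 = L by omega] at h5
            calc L * u ≤ L * L := Nat.mul_le_mul_left _ h.le
              _ ≤ 3 * 2 ^ (L - 1) := h5
              _ ≤ 3 * ℓ := Nat.mul_le_mul_left _ h4.le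
              _ = ℓ * 3 := mul_comm _ _
        _ = (2 ^ ℓ) ^ 3 := pow_mul _ _ _
        _ ≤ (4 * D) ^ 3 := Nat.pow_le_pow_left hℓ 3
    refine (h1.trans h2).trans ?_
    refine Nat.le_mul_of_pos_left _ ?_
    positivity
  · have h2 : 2 ^ (L * u) ≤ 2 * s * s ^ u := by
      calc 2 ^ (L * u) ≤ 2 ^ (u * u) :=
            Nat.pow_le_pow_right (by norm_num) (Nat.mul_le_mul_right _ h)
        _ ≤ 2 * s * s ^ u := by
          rcases Nat.eq_zero_or_pos u with h0 | h0
          · rw [h0]; simp; omega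
          · have h3 : 2 ^ (u - 1) ≤ s := by
              have h5 : 1 < s := by
                by_contra hc
                have : s = 1 := by omega
                rw [this, Nat.clog_one_right] at hu
                omega
              have := Nat.pow_pred_clog_lt_self (b := 2) (by norm_num) h5
              rw [← hu, Nat.pred_eq_sub_one] at this
              exact this.le
            have h4 : 2 ^ u = 2 * 2 ^ (u - 1) := by
              rw [← pow_succ']
              congr 1
              omega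
            calc 2 ^ (u * u) = 2 ^ u * (2 ^ (u - 1)) ^ u := by
                  rw [← pow_mul, ← pow_add]
                  congr 1
                  obtain ⟨v, rfl⟩ : ∃ v, u = v + 1 := ⟨u - 1, by omega⟩
                  simp only [Nat.add_sub_cancel]
                  ring
              _ ≤ (2 * s) * s ^ u := by
                refine Nat.mul_le_mul ?_ (Nat.pow_le_pow_left h3 u)
                rw [h4]
                omega
    refine (h1.trans h2).trans ?_
    exact Nat.le_mul_of_pos_right _ (by positivity)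

theorem bound2 {s u ℓ D V : ℕ} (hs : 1 ≤ s) (hu : u = Nat.clog 2 s) (hℓ1 : 1 ≤ ℓ)
    (hℓ : 2 ^ ℓ ≤ 4 * D) (hV : V ≤ 2 * (s * ℓ)) :
    (V + 1) ^ (3 * (u + 1)) ≤
      (4 * s) ^ 6 * ((s ^ u) ^ 3 * s ^ 3) * (2 * s * s ^ u * (4 * D) ^ 4) ^ 3 := by
  have h0 : V + 1 ≤ 4 * (s * ℓ) := by
    have : 1 ≤ s * ℓ := Nat.one_le_iff_ne_zero.2 (by positivity)
    omega
  have h1 := pow_bound hs hu hℓ1 hℓ
  have h2 : ℓ ≤ 4 * D := (Nat.lt_two_pow_self.le).trans hℓ
  have h3 : 2 ^ u ≤ 2 * s := by rw [hu]; exact two_pow_clog_le s hs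
  have h4 : 4 ^ (3 * (u + 1)) ≤ (4 * s) ^ 6 := by
    calc 4 ^ (3 * (u + 1)) = (2 * 2 ^ u) ^ 6 := by
          rw [show (4 : ℕ) = 2 ^ 2 by norm_num, ← pow_mul, ← pow_succ', ← pow_mul]
          congr 1
          ring
      _ ≤ (2 * (2 * s)) ^ 6 := Nat.pow_le_pow_left (Nat.mul_le_mul_left _ h3) 6
      _ = (4 * s) ^ 6 := by ring
  calc (V + 1) ^ (3 * (u + 1)) ≤ (4 * (s * ℓ)) ^ (3 * (u + 1)) := Nat.pow_le_pow_left h0 _
    _ = 4 ^ (3 * (u + 1)) * ((s ^ u) ^ 3 * s ^ 3) * (ℓ ^ u * ℓ) ^ 3 := by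
        rw [mul_pow, mul_pow]
        ring
    _ ≤ (4 * s) ^ 6 * ((s ^ u) ^ 3 * s ^ 3) *
        (2 * s * s ^ u * (4 * D) ^ 3 * (4 * D)) ^ 3 := by
        refine Nat.mul_le_mul (Nat.mul_le_mul_right _ h4) ?_
        exact Nat.pow_le_pow_left (Nat.mul_le_mul h1 h2) 3
    _ = _ := by ring

end Pool.Agent.H.MP_cba12a_lc
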