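import Pool.Agent.H.MP_cba12a_lc.Pivot
import Pool.Agent.H.MP_cba12a_lc.Infl

/-!
A reference formula over the influential variables, with correctly oriented literals.
-/

namespace Pool.Agent.H.MP_cba12a_lc

open Finset

variable {n m : ℕ}

theorem mem_orient_iff {Θ : ℕ} {f : (Fin n → Bool) → Bool} {ω : Fin m → Fin n → Bool}
    (hm : 0 < m) (hΘ : 0 < Θ) {l : Lit} : l ∈ orient n Θ (smp f ω) ↔
      l.1 < n ∧ 3 / 4 * (1 / (Θ : ℝ)) ≤
        em ω (ev f true [l] []) - em ω (ev f true [neg l] []) := by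
  unfold orient
  rw [List.mem_filter, mem_allLits, decide_eq_true_iff, cnt_smp, cnt_smp, length_smp]
  refine and_congr_right fun _ => ?_
  have hm' : (0 : ℝ) < m := by exact_mod_cast hm
  have hΘ' : (0 : ℝ) < Θ := by exact_mod_cast hΘ
  set c1 := ec ω (ev f true [l] []) with hc1
  set c0 := ec ω (ev f true [neg l] []) with hc0
  have e1 : em ω (ev f true [l] []) - em ω (ev f true [neg l] []) = ((c1 : ℝ) - c0) / m := by
    unfold em
    rw [sub_div]
  have e3 : (3 : ℝ) / 4 * (1 / Θ) = 3 / (4 * Θ) := by field_simp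
  rw [e1, e3, div_le_div_iff₀ (by positivity) hm']
  constructor
  · intro h
    rcases le_total c0 c1 with h1 | h1
    · have h2 : (3 : ℝ) * m ≤ 4 * Θ * ((c1 - c0 : ℕ) : ℝ) := by exact_mod_cast h
      rw [Nat.cast_sub h1] at h2
      linarith
    · rw [Nat.sub_eq_zero_of_le h1] at h
      omega
  · intro h
    rcases le_total c0 c1 with h1 | h1
    · have h2 : (3 : ℝ) * m ≤ 4 * Θ * ((c1 - c0 : ℕ) : ℝ) := by
        rw [Nat.cast_sub h1]
        linarith
      exact_mod_cast h2
    · exfalso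
      have h1' : (c1 : ℝ) ≤ c0 := by exact_mod_cast h1
      have h3 : ((c1 : ℝ) - c0) * (4 * Θ) ≤ 0 :=
        mul_nonpos_of_nonpos_of_nonneg (by linarith) (by positivity)
      linarith

theorem mu_ev_lit (f : (Fin n → Bool) → Bool) (i : Fin n) (v : Bool) :
    mu (ev f true [((i : ℕ), v)] []) - mu (ev f true [neg ((i : ℕ), v)] []) =
      sgn v * cI f i / 2 ^ n := by
  have h := mu_ev_single f i
  cases v
  · unfold neg
    simp only [Bool.not_false, sgn, Bool.false_eq_true, if_false]
    rw [neg_one_mul, neg_div, ← h]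
    ring
  · unfold neg
    simp only [Bool.not_true, sgn, if_true]
    rw [one_mul, h]

/-- distance between two functions -/
noncomputable def dst (f g : (Fin n → Bool) → Bool) : ℝ :=
  ((univ.filter fun x => f x ≠ g x).card : ℝ) / 2 ^ n

theorem mu_ev_sub_le (f g : (Fin n → Bool) → Bool) (v : Bool) (C : List Lit)
    (h : List (List Lit)) : mu (ev f v C h) ≤ mu (ev g v C h) + dst f g := by
  have e : dst f g = mu (fun x => !(f x == g x)) := by
    unfold dst mu ct
    rw [Fintype.card_fun, Fintype.card_fin, Fintype.card_bool]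
    push_cast
    congr 2
    refine congrArg card ?_
    ext x
    simp
  rw [e]
  refine mu_le_add ?_
  intro x hx
  rw [ev_iff] at hx
  by_cases hfg : f x = g x
  · left
    rw [ev_iff, ← hfg]
    exact hx
  · right
    simp [hfg]

theorem dst_comm (f g : (Fin n → Bool) → Bool) : dst f g = dst g f := by
  unfold dst
  congr 2
  refine congrArg card ?_
  ext x
  simp [ne_comm]

theorem dst_eq_sum (f g : (Fin n → Bool) → Bool) :
    dst f g = (∑ x, |r (f x) - r (g x)|) / 2 ^ n := by
  unfold dst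
  rw [sum_abs_r]

theorem dst_triangle (f g k : (Fin n → Bool) → Bool) : dst f k ≤ dst f g + dst g k := by
  rw [dst_eq_sum, dst_eq_sum, dst_eq_sum, ← add_div, ← sum_add_distrib]
  refine div_le_div_of_nonneg_right ?_ (by positivity)
  exact sum_le_sum fun x _ => abs_sub_le _ _ _

theorem dst_nonneg (f g : (Fin n → Bool) → Bool) : 0 ≤ dst f g := by
  unfold dst; positivity

theorem Up.mix {o : Fin n → Bool} {g : (Fin n → Bool) → Bool} (hg : Up o g)
    (U : Finset (Fin n)) (z : Fin n → Bool) : Up o (fun x => g (mix U x z)) := by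
  intro i x h
  dsimp only at h ⊢
  by_cases hi : i ∈ U
  · have e : ∀ v : Bool, MP_cba12a_lc.mix U (Function.update x i v) z =
        MP_cba12a_lc.mix U x z := by
      intro v
      funext j
      by_cases hj : j ∈ U
      · simp [MP_cba12a_lc.mix, hj]
      · have hji : j ≠ i := fun hc => hj (hc ▸ hi)
        simp [MP_cba12a_lc.mix, hj, hji]
    rw [e] at h ⊢
    exact h
  · have e : ∀ v : Bool, MP_cba12a_lc.mix U (Function.update x i v) z =
        Function.update (MP_cba12a_lc.mix U x z) i v := by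
      intro v
      funext j
      by_cases hji : j = i
      · subst hji
        simp [MP_cba12a_lc.mix, hi]
      · simp [MP_cba12a_lc.mix, hji]
    rw [e] at h ⊢
    exact hg i _ h

/-- facts about the influential variables -/
theorem orient_facts {Θ : ℕ} {f g : (Fin n → Bool) → Bool} {o : Fin n → Bool}
    {ω : Fin m → Fin n → Bool} (hm : 0 < m) (hΘ : 0 < Θ) (hg : Up o g)
    (hfg : dst f g ≤ 1 / (16 * Θ)) {R : ℕ} (hrep : Rep f ω R (1 / (16 * Θ))) :
    (∀ l ∈ orient n Θ (smp f ω), ∃ i : Fin n, l = ((i : ℕ), o i)) ∧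
    (∀ i : Fin n, 1 / (Θ : ℝ) * 2 ^ n ≤ |cI g i| →
      ((i : ℕ), o i) ∈ orient n Θ (smp f ω)) := by
  have hΘ' : (0 : ℝ) < Θ := by exact_mod_cast hΘ
  set θ : ℝ := 1 / Θ with hθ
  have hθ0 : 0 < θ := by rw [hθ]; positivity
  have e16 : (1 : ℝ) / (16 * Θ) = θ / 16 := by rw [hθ]; field_simp
  rw [e16] at hfg hrep
  have hp : (0 : ℝ) < 2 ^ n := by positivity
  have hcI : ∀ i, |cI f i / 2 ^ n - cI g i / 2 ^ n| ≤ θ / 16 := by
    intro i
    rw [← sub_div, abs_div, abs_of_pos hp, div_le_iff₀ hp]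
    refine (abs_cI_sub_le f g i).trans ?_
    rw [sum_abs_r]
    unfold dst at hfg
    rwa [div_le_iff₀ hp] at hfg
  have hemp : ∀ (i : Fin n) (v : Bool),
      |(em ω (ev f true [((i : ℕ), v)] []) - em ω (ev f true [neg ((i : ℕ), v)] [])) -
        sgn v * cI g i / 2 ^ n| < 3 * (θ / 16) := by
    intro i v
    have h1 := abs_lt.1 (hrep true [((i : ℕ), v)] [] (by simp) (by simp) (by simp))
    have h2 := abs_lt.1 (hrep true [neg ((i : ℕ), v)] [] (by simp [neg]) (by simp) (by simp))
    have h3 := mu_ev_lit f i v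
    have h4 := abs_le.1 (hcI i)
    have h5 : |sgn v * cI f i / 2 ^ n - sgn v * cI g i / 2 ^ n| ≤ θ / 16 := by
      rw [mul_div_assoc, mul_div_assoc, ← mul_sub, abs_mul, abs_sgn, one_mul]
      exact hcI i
    have h6 := abs_le.1 h5
    rw [abs_lt]
    constructor <;> linarith
  constructor
  · intro l hl
    rw [mem_orient_iff hm hΘ] at hl
    obtain ⟨hln, hl⟩ := hl
    refine ⟨⟨l.1, hln⟩, ?_⟩
    obtain ⟨a, v⟩ := l
    simp only [Prod.mk.injEq, true_and]
    by_contra hne
    have hv : sgn v = - sgn (o ⟨a, hln⟩) := by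
      rcases Bool.eq_or_eq_not v (o ⟨a, hln⟩) with h1 | h1
      · exact absurd h1 hne
      · rw [h1, sgn_not]
    have h1 := abs_lt.1 (hemp ⟨a, hln⟩ v)
    have h2 := cI_sign hg ⟨a, hln⟩
    have h3 : sgn v * cI g ⟨a, hln⟩ / 2 ^ n ≤ 0 := by
      rw [hv, neg_mul, neg_div]
      have : 0 ≤ sgn (o ⟨a, hln⟩) * cI g ⟨a, hln⟩ / 2 ^ n := by positivity
      linarith
    simp only at hl h1
    linarith
  · intro i hi
    rw [mem_orient_iff hm hΘ]
    refine ⟨i.2, ?_⟩
    have h1 := abs_lt.1 (hemp i (o i))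
    have h2 := cI_sign hg i
    have h3 : |cI g i| = sgn (o i) * cI g i := by
      rw [← abs_of_nonneg h2, abs_mul, abs_sgn, one_mul]
    have h4 : θ ≤ sgn (o i) * cI g i / 2 ^ n := by
      rw [le_div_iff₀ hp, ← h3]
      exact hi
    linarith

/-- **Reference formula** for a unate function in which every variable occurs in at most `k`
terms. -/
theorem exists_reference4 {Θ k : ℕ} {f g : (Fin n → Bool) → Bool} {o : Fin n → Bool}
    {ω : Fin m → Fin n → Bool} (hm : 0 < m) (hΘ : 0 < Θ) (hu : Unate g) (hg : Up o g)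
    (hk : ReadK k g)
    (hfg : dst f g ≤ 1 / (16 * Θ)) {R : ℕ} (hrep : Rep f ω R (1 / (16 * Θ))) :
    ∃ (q : (Fin n → Bool) → Bool) (G : Finset (Finset (Fin n × Bool))),
      Up o q ∧ dst f q ≤ (n + 1) * (1 / Θ) ∧
      (∀ x, q x = true ↔ ∃ T ∈ G, ∀ l ∈ T, x l.1 = l.2) ∧
      (∀ i, (G.filter fun T => ∃ l ∈ T, l.1 = i).card ≤ k) ∧
      (∀ T ∈ G, ∀ l ∈ T, ((l.1 : ℕ), l.2) ∈ orient n Θ (smp f ω)) ∧
      (∀ T ∈ G, ∀ l ∈ T, l.2 = o l.1) := by
  classical
  have hΘ' : (0 : ℝ) < Θ := by exact_mod_cast hΘ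
  obtain ⟨hf1, hf2⟩ := orient_facts hm hΘ hg hfg hrep
  set θ : ℝ := 1 / Θ with hθ
  have hθ0 : 0 < θ := by rw [hθ]; positivity
  have hp : (0 : ℝ) < 2 ^ n := by positivity
  obtain ⟨F, hgx, hread⟩ := hk
  set U : Finset (Fin n) := univ.filter fun i => |cI g i| < θ * 2 ^ n with hU
  obtain ⟨z, hz⟩ := exists_restriction g U
  have hz' : ∑ x, |r (g x) - r (g (mix U x z))| ≤ n * (θ * 2 ^ n) := by
    have h1 : ∑ i ∈ U, fl g i ≤ ∑ _i ∈ U, 2 * (θ * 2 ^ n) := by
      refine sum_le_sum fun i hi => ?_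
      rw [fl_eq_of_unate hu]
      rw [hU, mem_filter] at hi
      linarith [hi.2]
    rw [sum_const, nsmul_eq_mul] at h1
    have h2 : (U.card : ℝ) ≤ n := by
      have := card_le_univ U
      rw [Fintype.card_fin] at this
      exact_mod_cast this
    have h3 : (U.card : ℝ) * (2 * (θ * 2 ^ n)) ≤ n * (2 * (θ * 2 ^ n)) :=
      mul_le_mul_of_nonneg_right h2 (by positivity)
    linarith
  set q : (Fin n → Bool) → Bool := fun x => g (mix U x z) with hq
  set tr : Finset (Fin n × Bool) → Finset (Fin n × Bool) :=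
    fun T => T.filter (fun l => l.1 ∉ U ∧ l.2 = o l.1) with htr
  set F' := F.filter (fun T => ∃ y : Fin n → Bool, (∀ l ∈ T, y l.1 = l.2) ∧
    ∀ i ∈ U, y i = z i) with hF'
  refine ⟨q, F'.image tr, hg.mix U z, ?_, ?_, ?_, ?_, ?_⟩
  · have h1 : dst g q ≤ n * θ := by
      rw [dst_eq_sum, div_le_iff₀ hp]
      linarith
    have h2 := dst_triangle f g q
    have h3 : (1 : ℝ) / (16 * Θ) ≤ θ := by
      rw [hθ]
      exact one_div_le_one_div_of_le hΘ' (by linarith)
    linarith
  · intro x
    constructor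
    · intro hx
      obtain ⟨T, hT, hs⟩ := (hgx _).1 hx
      refine ⟨tr T, mem_image_of_mem _ (mem_filter.2 ⟨hT, mix U x z, hs, ?_⟩), ?_⟩
      · intro i hi
        simp [mix, hi]
      · intro l hl
        rw [htr, mem_filter] at hl
        have := hs l hl.1
        simpa [mix, hl.2.1] using this
    · rintro ⟨T', hT', hs⟩
      obtain ⟨T, hT, rfl⟩ := mem_image.1 hT'
      rw [hF', mem_filter] at hT
      obtain ⟨hTF, y, hy, hyU⟩ := hT
      -- a point below which satisfies T
      set y' : Fin n → Bool := fun i => if i ∈ U then z i else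
        if (∃ l ∈ T, l.1 = i) then y i else x i with hy'
      have h1 : g y' = true := by
        rw [hgx]
        refine ⟨T, hTF, fun l hl => ?_⟩
        by_cases hlU : l.1 ∈ U
        · simp only [hy', hlU, if_true]
          rw [← hyU _ hlU]
          exact hy l hl
        · have : ∃ l' ∈ T, l'.1 = l.1 := ⟨l, hl, rfl⟩
          simp only [hy', hlU, if_false, this, if_true]
          exact hy l hl
      refine up_le hg h1 ?_
      intro i
      by_cases hiU : i ∈ U
      · left
        simp [mix, hy', hiU]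
      · by_cases hiT : ∃ l ∈ T, l.1 = i
        · obtain ⟨l, hl, rfl⟩ := hiT
          have hex : ∃ l' ∈ T, l'.1 = l.1 := ⟨l, hl, rfl⟩
          have hyl := hy l hl
          by_cases hor : l.2 = o l.1
          · left
            have h2 := hs l (by rw [htr, mem_filter]; exact ⟨hl, hiU, hor⟩)
            simp only [mix, hy', hiU, if_false, hex, if_true]
            rw [h2, hyl]
          · simp only [mix, hy', hiU, if_false, hex, if_true]
            rcases Bool.eq_or_eq_not (x l.1) (o l.1) with h3 | h3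
            · right; exact h3
            · left
              rw [h3, hyl]
              rcases Bool.eq_or_eq_not l.2 (o l.1) with h4 | h4
              · exact absurd h4 hor
              · exact h4.symm
        · left
          simp only [mix, hy', hiU, if_false, hiT]
  · intro i
    refine le_trans (card_le_card ?_) ((card_image_le (f := tr)).trans (hread i))
    intro T' hT'
    rw [mem_filter] at hT'
    obtain ⟨hT', l, hl, hli⟩ := hT'
    obtain ⟨T, hT, rfl⟩ := mem_image.1 hT'
    rw [mem_image]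
    refine ⟨T, ?_, rfl⟩
    rw [mem_filter]
    rw [htr, mem_filter] at hl
    exact ⟨(mem_filter.1 hT).1, l, hl.1, hli⟩
  · intro T' hT' l hl
    obtain ⟨T, _, rfl⟩ := mem_image.1 hT'
    rw [htr, mem_filter] at hl
    have hnot := hl.2.1
    rw [hU, mem_filter] at hnot
    push Not at hnot
    have hbig := hnot (mem_univ _)
    have := hf2 l.1 hbig
    rw [hl.2.2]
    exact this
  · intro T' hT' l hl
    obtain ⟨T, _, rfl⟩ := mem_image.1 hT'
    rw [htr, mem_filter] at hl
    exact hl.2.2

end Pool.Agent.H.MP_cba12a_lc
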