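import Pool.Agent.H.MP_cba12a_lc.Sgn6

/-!
Detection of a long term at a leaf of the tree with the mixed derivative.
-/

namespace Pool.Agent.H.MP_cba12a_lc

open Finset

variable {n m : ℕ}

theorem sgc_eq {ω : Fin m → Fin n → Bool} {f : (Fin n → Bool) → Bool} (k : ℕ)
    (R Z : List Lit) :
    ((sgc k (smp f ω) R Z false : ℝ) - (sgc k (smp f ω) R Z true : ℝ)) / m =
      Sg (fun C => em ω (ev f true (C ++ Z) [])) k R := by
  unfold sgc Sg
  have key : ∀ L : List (List Lit × Bool),
      (((((L.filter fun p => p.2 == false).flatMap fun p =>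
        (smp f ω).filter fun q => (q.2 == true) && (sat q.1 (p.1 ++ Z) &&
          !(satD q.1 []))).length : ℕ) : ℝ) -
      ((((L.filter fun p => p.2 == true).flatMap fun p =>
        (smp f ω).filter fun q => (q.2 == true) && (sat q.1 (p.1 ++ Z) &&
          !(satD q.1 []))).length : ℕ) : ℝ)) / m =
      (L.map fun p => (if p.2 then (-1 : ℝ) else 1) *
        em ω (ev f true (p.1 ++ Z) [])).sum := by
    intro L
    induction L with
    | nil => simp
    | cons p L ih =>
      have hp : ((smp f ω).filter fun q => (q.2 == true) && (sat q.1 (p.1 ++ Z) &&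
          !(satD q.1 []))).length = ec ω (ev f true (p.1 ++ Z) []) :=
        cnt_smp f ω true (p.1 ++ Z) []
      rw [List.map_cons, List.sum_cons, ← ih]
      rcases Bool.eq_false_or_eq_true p.2 with hb | hb
      rotate_left
      · have e1 : ((p :: L).filter fun p => p.2 == false) =
            p :: (L.filter fun p => p.2 == false) := by
          rw [List.filter_cons_of_pos]; simp [hb]
        have e2 : ((p :: L).filter fun p => p.2 == true) =
            (L.filter fun p => p.2 == true) := by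
          rw [List.filter_cons_of_neg]; simp [hb]
        rw [e1, e2, List.flatMap_cons, List.length_append, hp]
        unfold em
        push_cast
        rw [hb, if_neg (by simp)]
        ring
      · have e1 : ((p :: L).filter fun p => p.2 == true) =
            p :: (L.filter fun p => p.2 == true) := by
          rw [List.filter_cons_of_pos]; simp [hb]
        have e2 : ((p :: L).filter fun p => p.2 == false) =
            (L.filter fun p => p.2 == false) := by
          rw [List.filter_cons_of_neg]; simp [hb]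
        rw [e1, e2, List.flatMap_cons, List.length_append, hp]
        unfold em
        push_cast
        rw [hb, if_pos rfl]
        ring
  exact key (pats k R)

theorem mem_ext6 {k D : ℕ} (hD : 1 ≤ D) (hm : 0 < m) {V : List Lit} {ω : Fin m → Fin n → Bool}
    {f : (Fin n → Bool) → Bool} {α R : List Lit} {l : Lit} :
    l ∈ ext6 k D V (smp f ω) α R ↔ l ∈ V ∧ (∀ l' ∈ R ++ α, l'.1 ≠ l.1) ∧
      ((D : ℝ) - 1) * Sg (fun C => em ω (ev f true (C ++ α) [])) k R ≤
        D * Sg (fun C => em ω (ev f true (C ++ (l :: α)) [])) k R := by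
  have hm' : (0 : ℝ) < m := by exact_mod_cast hm
  unfold ext6
  rw [List.mem_filter, Bool.and_eq_true, decide_eq_true_iff]
  refine and_congr_right fun _ => and_congr ?_ ?_
  · simp only [Bool.not_eq_true', List.any_eq_false, beq_iff_eq]
  · rw [← sgc_eq, ← sgc_eq, mul_div_assoc', mul_div_assoc', div_le_div_iff_of_pos_right hm']
    set a := sgc k (smp f ω) R α false
    set b := sgc k (smp f ω) R α true
    set c := sgc k (smp f ω) R (l :: α) false
    set d := sgc k (smp f ω) R (l :: α) true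
    have e : ((D - 1 : ℕ) : ℝ) = (D : ℝ) - 1 := by
      rw [Nat.cast_sub hD]
      simp
    have h1 : ((D - 1) * a + D * d ≤ D * c + (D - 1) * b) ↔
        (((D : ℝ) - 1) * a + D * d ≤ D * c + ((D : ℝ) - 1) * b) := by
      rw [← e]
      exact_mod_cast Iff.rfl
    rw [h1]
    constructor
    · intro h2
      linarith
    · intro h2
      linarith

theorem wF_toF {α : List Lit} (hαd : (α.map Prod.fst).Nodup) (hαn : ∀ l ∈ α, l.1 < n) :
    wF (toF n α) = wt α := by
  unfold wF wt
  rw [toF_card_of_nodup (nodup_of_map hαd) hαn]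

/-- density inside a leaf of an event which depends on the other variables only -/
theorem mu_leaf_and {α : List Lit} (hαd : (α.map Prod.fst).Nodup) (hαn : ∀ l ∈ α, l.1 < n)
    (Q : (Fin n → Bool) → Prop) [DecidablePred Q]
    (hQ : ∀ i ∈ vs (toF n α), ∀ x, Q (flp i x) ↔ Q x) :
    mu (fun x => decide (sat (List.ofFn x) α = true ∧ Q x)) =
      wt α * mu (fun x => decide (Q x)) := by
  rw [← wF_toF hαd hαn, ← mu_satT_eq (A := toF n α) (by
    rw [vs_toF_card hαd hαn, toF_card_of_nodup (nodup_of_map hαd) hαn]) Q hQ]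
  refine mu_congr fun x => ?_
  rw [decide_eq_true_iff, decide_eq_true_iff, satT_toF hαn]

section detect

variable {t L N D k : ℕ} {κ lam δ τ ν : ℝ} {ω : Fin m → Fin n → Bool}
  {f g : (Fin n → Bool) → Bool} {α : List Lit} {G : Finset (Finset (Fin n × Bool))}
  {T : Finset (Fin n × Bool)}

/-- the points of `Z` which satisfy `T` and no other term -/
def ET (G : Finset (Finset (Fin n × Bool))) (T : Finset (Fin n × Bool)) (Z : List Lit)
    (x : Fin n → Bool) : Bool :=
  sat (List.ofFn x) Z && decide (SatT T x ∧ ∀ A ∈ G, A ≠ T → ¬ SatT A x)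

theorem ET_iff {Z : List Lit} {x : Fin n → Bool} : ET G T Z x = true ↔
    sat (List.ofFn x) Z = true ∧ SatT T x ∧ ∀ A ∈ G, A ≠ T → ¬ SatT A x := by
  unfold ET
  rw [Bool.and_eq_true, decide_eq_true_iff]

/-- **The mixed derivative measures `T`.** -/
theorem Sg_approx (h : Fam t L κ (vs (toF n α)) G) (hαd : (α.map Prod.fst).Nodup)
    (hαn : ∀ l ∈ α, l.1 < n)
    (hgG : ∀ x, SatT (toF n α) x → (g x = true ↔ ∃ B ∈ G, SatT B x))
    (hT : T ∈ G) {R0 : Finset (Fin n × Bool)} (hR0 : R0 ⊆ T) (hR0k : R0.card = k)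
    (hnoise : mu (fun x => decide (∀ j ∈ vs R0, Covd G T (vs R0) j x)) ≤ wF T * ν)
    (hτ : 0 < τ) (hfg : dst f g ≤ τ) (hrep : Rep f ω 0 τ)
    {Z : List Lit} (hZn : ∀ l ∈ Z, l.1 < n) (hZR : ∀ l ∈ Z, ∀ j ∈ vs R0, l.1 ≠ (j : ℕ))
    (hZα : ∀ l ∈ α, l ∈ Z) :
    |Sg (fun C => em ω (ev f true (C ++ Z) [])) k (lits R0) - mu (ET G T Z)| ≤
      2 ^ k * (2 * τ) + wt α * (wF T * ν) := by
  classical
  have hRc : (vs R0).card = R0.card := cons_mono hR0 (h.cons T hT)
  have hnd : ((lits R0).map Prod.fst).Nodup := nodup_lits hRc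
  have hlen : (lits R0).length = k := by rw [length_lits, hR0k]
  set E : (Fin n → Bool) → Bool := fun x => g x && sat (List.ofFn x) Z with hE
  -- empirical versus true
  have h1 : |Sg (fun C => em ω (ev f true (C ++ Z) [])) k (lits R0) -
      Sg (nuE E) k (lits R0)| ≤ 2 ^ k * (2 * τ) := by
    refine Sg_sub_le (by linarith) fun C hC => ?_
    have hCn : ∀ l ∈ C ++ Z, l.1 < n := by
      intro l hl
      rcases List.mem_append.1 hl with hl | hl
      · obtain ⟨l', hl', he⟩ := hC l hl
        rw [he]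
        exact lits_lt hl'
      · exact hZn l hl
    have a1 := abs_lt.1 (hrep true (C ++ Z) [] hCn (by simp) (by simp))
    have a2 := mu_ev_sub_le f g true (C ++ Z) []
    have a3 := mu_ev_sub_le g f true (C ++ Z) []
    rw [dst_comm g f] at a3
    have a4 : nuE E C = mu (ev g true (C ++ Z) []) := by
      unfold nuE
      refine mu_congr fun x => ?_
      rw [ev_iff, sat_append, Bool.and_eq_true]
      simp only [hE]
      rw [Bool.and_eq_true]
      constructor
      · rintro ⟨⟨b1, b2⟩, b3⟩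
        exact ⟨b1, ⟨b3, b2⟩, rfl⟩
      · rintro ⟨b1, ⟨b3, b2⟩, _⟩
        exact ⟨⟨b1, b2⟩, b3⟩
    rw [a4, abs_le]
    constructor <;> linarith
  -- decomposition
  set o : (Fin n → Bool) → Bool := fun x => decide (∃ A ∈ G, A ≠ T ∧ SatT A x) with ho
  have hsplit := Sg_split E o k (lits R0)
  have hα_of : ∀ x : Fin n → Bool, sat (List.ofFn x) Z = true → SatT (toF n α) x :=
    fun x hx => (satT_toF hαn).1 (sat_mono hZα hx)
  have hET : Sg (nuE fun x => E x && !(o x)) k (lits R0) = mu (ET G T Z) := by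
    have e : (fun x => E x && !(o x)) = ET G T Z := by
      funext x
      rw [Bool.eq_iff_iff, ET_iff, Bool.and_eq_true, Bool.not_eq_true']
      simp only [hE, ho]
      rw [Bool.and_eq_true, decide_eq_false_iff_not]
      push Not
      constructor
      · rintro ⟨⟨b1, b2⟩, b3⟩
        obtain ⟨A, hA, hAx⟩ := (hgG x (hα_of x b2)).1 b1
        have hAT : A = T := by
          by_contra hne
          exact b3 A hA hne hAx
        rw [hAT] at hAx
        exact ⟨b2, hAx, b3⟩
      · rintro ⟨b2, b1, b3⟩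
        exact ⟨⟨(hgG x (hα_of x b2)).2 ⟨T, hT, b1⟩, b2⟩, b3⟩
    rw [e, ← hlen]
    refine Sg_plus _ _ ?_
    intro x hx
    rw [ET_iff] at hx
    exact sat_lits.2 (satT_mono hR0 hx.2.1)
  have hEo : |Sg (nuE fun x => E x && o x) k (lits R0)| ≤ wt α * (wF T * ν) := by
    have hcov : ∀ j ∈ vs R0, ∀ i ∈ vs R0, ∀ x : Fin n → Bool,
        (Covd G T (vs R0) i (flp j x) ↔ Covd G T (vs R0) i x) := by
      intro j hj i _ x
      unfold Covd
      refine exists_congr fun A => and_congr_right fun _ => and_congr_right fun _ =>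
        and_congr_right fun _ => satT_flp ?_ x
      rw [vs_outs, mem_sdiff]
      exact fun hc => hc.2 hj
    have h2 := Sg_noise (E := fun x => E x && o x) hnd
      (fun j x => decide (Covd G T (vs R0) j x)) (vs R0) (by
        intro j hj
        obtain ⟨l, hl, rfl⟩ := mem_vs.1 hj
        exact List.mem_map.2 ⟨_, mem_lits.2 ⟨l, hl, rfl⟩, rfl⟩) (by
        intro j hj i hi x
        rw [Bool.eq_iff_iff, decide_eq_true_iff, decide_eq_true_iff]
        exact hcov j hj i hi x) (by
        intro j hj x hx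
        rw [decide_eq_false_iff_not] at hx
        have hZf : sat (List.ofFn (flp j x)) Z = sat (List.ofFn x) Z :=
          sat_flp fun l hl => hZR l hl j hj
        have key : ∀ y, ¬ Covd G T (vs R0) j y → ∀ A ∈ G, A ≠ T → SatT A y →
            SatT A (flp j y) := by
          intro y hy A hA hAT hs
          by_cases hjA : j ∈ vs A
          · exact absurd ⟨A, hA, hAT, hjA, satT_mono (outs_sub _ _) hs⟩ hy
          · exact (satT_flp hjA y).2 hs
        have hx' : ¬ Covd G T (vs R0) j (flp j x) := fun hc => hx ((hcov j hj j hj x).1 hc)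
        have key2 : ∀ y, ¬ Covd G T (vs R0) j y → sat (List.ofFn (flp j y)) Z =
            sat (List.ofFn y) Z → (E y && o y) = true → (E (flp j y) && o (flp j y)) = true := by
          intro y hy hyZ hEy
          simp only [hE, ho] at hEy ⊢
          rw [Bool.and_eq_true, Bool.and_eq_true, decide_eq_true_iff] at hEy ⊢
          obtain ⟨⟨b1, b2⟩, A, hA, hAT, hAy⟩ := hEy
          have hA' := key y hy A hA hAT hAy
          rw [hyZ]
          refine ⟨⟨?_, b2⟩, A, hA, hAT, hA'⟩
          rw [hgG]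
          · exact ⟨A, hA, hA'⟩
          · refine hα_of _ ?_
            rw [hyZ]
            exact b2
        rw [Bool.eq_iff_iff]
        constructor
        · intro h3
          have := key2 (flp j x) hx' (by rw [flp_flp, hZf]) h3
          rw [flp_flp] at this
          exact this
        · intro h3
          exact key2 x hx hZf h3)
    rw [hlen] at h2
    refine h2.trans ?_
    have h3 : mu (fun x => (E x && o x) && decide (∀ j ∈ vs R0,
        decide (Covd G T (vs R0) j x) = true)) ≤
        mu (fun x => decide (sat (List.ofFn x) α = true ∧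
          ∀ j ∈ vs R0, Covd G T (vs R0) j x)) := by
      refine mu_mono fun x hx => ?_
      rw [Bool.and_eq_true, Bool.and_eq_true, decide_eq_true_iff] at hx
      rw [decide_eq_true_iff]
      simp only [hE] at hx
      rw [Bool.and_eq_true] at hx
      refine ⟨sat_mono hZα hx.1.1.2, fun j hj => ?_⟩
      exact of_decide_eq_true ((of_decide_eq_true hx.2) j hj)
    refine h3.trans ?_
    rw [mu_leaf_and hαd hαn (fun x => ∀ j ∈ vs R0, Covd G T (vs R0) j x) (by
      intro i hi x
      refine forall₂_congr fun j _ => ?_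
      unfold Covd
      refine exists_congr fun A => and_congr_right fun hA => and_congr_right fun _ =>
        and_congr_right fun _ => satT_flp ?_ x
      rw [vs_outs, mem_sdiff]
      exact fun hc => disjoint_left.1 (h.dis A hA) hc.1 hi)]
    exact mul_le_mul_of_nonneg_left hnoise (wt_nonneg α)
  rw [hET] at hsplit
  rw [hsplit] at h1
  have a1 := abs_le.1 h1
  have a2 := abs_le.1 hEo
  rw [abs_le]
  constructor <;> linarith

/-- **Detection of a long term.** -/
theorem detect6 (hm : 0 < m) (h : Fam t L κ (vs (toF n α)) G)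
    (hαd : (α.map Prod.fst).Nodup) (hαn : ∀ l ∈ α, l.1 < n)
    (hgG : ∀ x, SatT (toF n α) x → (g x = true ↔ ∃ B ∈ G, SatT B x))
    (hT : T ∈ G) (hδ : 0 < δ) (hlam : 0 < lam) (hTr : ¬ Rich G t lam T)
    (hlen : wF T ≤ lam * δ ^ (t + 1)) (hk : k = t * (t + 1) + 1) (hkT : k ≤ T.card)
    (hδL : 2 ^ (t + 1) * L * δ ≤ κ / 2)
    (hν : (k : ℝ) ^ (t + 2) * (2 ^ (t * (t + 2) * (t + 3)) * (δ / lam)) ≤ ν)
    (hτ : 0 < τ) (hfg : dst f g ≤ τ) (hrep : Rep f ω 0 τ)
    (hD : 8 ≤ D * κ) (hDν : 8 * D * ν ≤ κ)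
    (hDτ : 8 * D * (2 ^ k * (2 * τ)) ≤ wt α * wF T * κ)
    (hN : (2 * n + 1) ^ k ≤ N) :
    ∃ C ∈ longC N k D (allLits n) (smp f ω) α, ∀ x : Fin n → Bool,
      (sat (List.ofFn x) C = true ↔ sat (List.ofFn x) α = true ∧ SatT T x) := by
  classical
  have hκ := h.pos
  have hκ1 := h.le_one
  have hD1 : (1 : ℝ) ≤ D := by nlinarith [show (0 : ℝ) ≤ D by positivity]
  have hD1' : 1 ≤ D := by exact_mod_cast hD1
  obtain ⟨R0, hR0, hR0k⟩ := exists_subset_card_eq hkT
  have hTc := h.cons T hT
  have hinj := inj_of_card hTc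
  have hRc : (vs R0).card = R0.card := cons_mono hR0 hTc
  have hTX := h.dis T hT
  have hwt0 : 0 < wt α := by unfold wt; positivity
  have hwT := wF_pos T
  have hW : 0 < wt α * wF T := mul_pos hwt0 hwT
  have hfew := few_big hδ hlam hTr hlen
  -- noise
  have hnoise : mu (fun x => decide (∀ j ∈ vs R0, Covd G T (vs R0) j x)) ≤ wF T * ν := by
    have h1 := cov_le h hT hδ hlam hTr hlen (vs_mono hR0) (by rw [hRc, hR0k, hk]; omega)
    rw [hRc, hR0k] at h1
    refine h1.trans ?_
    have h2 := mul_le_mul_of_nonneg_left hν hwT.le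
    refine le_trans (le_of_eq ?_) h2
    ring
  set e : ℝ := 2 ^ k * (2 * τ) + wt α * (wF T * ν) with he
  have he0 : 0 ≤ e := by
    have h1 : 0 ≤ ν := le_trans (by positivity) hν
    rw [he]
    positivity
  have h4De : 4 * D * e ≤ wt α * wF T * κ := by
    have h1 : 8 * D * (wt α * (wF T * ν)) ≤ wt α * wF T * κ := by
      calc 8 * D * (wt α * (wF T * ν)) = (wt α * wF T) * (8 * D * ν) := by ring
        _ ≤ _ := mul_le_mul_of_nonneg_left hDν hW.le
    rw [he]
    linarith
  have happ : ∀ Z : List Lit, (∀ l ∈ Z, l.1 < n) → (∀ l ∈ Z, ∀ j ∈ vs R0, l.1 ≠ (j : ℕ)) →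
      (∀ l ∈ α, l ∈ Z) →
      |Sg (fun C => em ω (ev f true (C ++ Z) [])) k (lits R0) - mu (ET G T Z)| ≤ e :=
    fun Z h1 h2 h3 => Sg_approx h hαd hαn hgG hT hR0 hR0k hnoise hτ hfg hrep h1 h2 h3
  have hαR : ∀ l ∈ α, ∀ j ∈ vs R0, l.1 ≠ (j : ℕ) := by
    intro l hl j hj hc
    refine disjoint_left.1 hTX (vs_mono hR0 hj) (mem_vs_toF.2 ?_)
    exact List.mem_map.2 ⟨l, hl, hc⟩
  -- the signal
  set s : ℝ := mu (ET G T α) with hs
  have hinvO : ∀ i ∈ vs (toF n α), ∀ x, (∀ A ∈ G, A ≠ T → ¬ SatT A (flp i x)) ↔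
      (∀ A ∈ G, A ≠ T → ¬ SatT A x) := by
    intro i hi x
    refine forall₂_congr fun A hA => forall_congr' fun _ => not_congr (satT_flp ?_ x)
    exact fun hc => disjoint_left.1 (h.dis A hA) hc hi
  have hinvT : ∀ i ∈ vs (toF n α), ∀ x, SatT T (flp i x) ↔ SatT T x := fun i hi x =>
    satT_flp (fun hc => disjoint_left.1 hTX hc hi) x
  have hs_eq : s = wt α * mu (fun x => decide (SatT T x ∧ ∀ A ∈ G, A ≠ T → ¬ SatT A x)) := by
    rw [hs, ← mu_leaf_and hαd hαn (fun x => SatT T x ∧ ∀ A ∈ G, A ≠ T → ¬ SatT A x)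
      (fun i hi x => and_congr (hinvT i hi x) (hinvO i hi x))]
    refine mu_congr fun x => ?_
    rw [ET_iff, decide_eq_true_iff]
  have hs_up : s ≤ wt α * wF T := by
    rw [hs_eq]
    refine mul_le_mul_of_nonneg_left (le_trans (mu_mono fun x hx => ?_) (mu_sat1_le T))
      hwt0.le
    rw [decide_eq_true_iff] at hx ⊢
    exact hx.1
  have hs_lo : wt α * wF T * κ ≤ 2 * s := by
    have h1 := signal_lower h hT (E := ∅) (by simp [vs]) (by simp) (by simp [vs])
      (by simp [vs]) hδ hfew
    have h2 : wF (∅ : Finset (Fin n × Bool)) = 1 := by simp [wF]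
    rw [h2, mul_one] at h1
    have h3 : mu (fun x => decide (SatT T x ∧ SatT (∅ : Finset (Fin n × Bool)) x ∧
        ∀ A ∈ G, A ≠ T → ¬ SatT A x)) =
        mu (fun x => decide (SatT T x ∧ ∀ A ∈ G, A ≠ T → ¬ SatT A x)) := by
      refine mu_congr fun x => ?_
      rw [decide_eq_true_iff, decide_eq_true_iff]
      constructor
      · rintro ⟨a, _, b⟩; exact ⟨a, b⟩
      · rintro ⟨a, b⟩; exact ⟨a, fun l hl => absurd hl (notMem_empty _), b⟩
    rw [h3] at h1
    rw [hs_eq]
    have h4 : wF T * (κ / 2) ≤ wF T * (κ - 2 ^ (t + 1) * L * δ) :=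
      mul_le_mul_of_nonneg_left (by linarith) hwT.le
    have h5 := mul_le_mul_of_nonneg_left (h4.trans h1) hwt0.le
    linarith
  -- a literal off `T`
  have hoff : ∀ l : Fin n × Bool, l ∉ T → l.1 ∉ vs (toF n α) →
      4 * mu (ET G T (((l.1 : ℕ), l.2) :: α)) ≤ 4 * s - wt α * wF T * κ := by
    intro l hlT hlX
    by_cases hlv : l.1 ∈ vs T
    · have h1 : mu (ET G T (((l.1 : ℕ), l.2) :: α)) = 0 := by
        unfold mu ct
        rw [filter_false_of_mem]
        · simp
        · intro x _ hx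
          rw [ET_iff, sat_cons, getElem?_ofFn] at hx
          obtain ⟨l', hl', he'⟩ := mem_vs.1 hlv
          have h2 := hx.2.1 l' hl'
          rw [he'] at h2
          have h3 : x l.1 = l.2 := hx.1.1.2
          exact hlT (by
            have : l = l' := Prod.ext he'.symm (by rw [← h3, ← h2])
            rw [this]; exact hl')
      have h0 : 0 ≤ s := mu_nonneg _
      rw [h1]
      linarith
    · have h1 := signal_lower h hT (E := {(l.1, !l.2)}) (by simp [vs]) (by simp)
        (by simpa [vs] using hlv) (by simpa [vs] using hlX) hδ hfew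
      have h2 : wF ({(l.1, !l.2)} : Finset (Fin n × Bool)) = 1 / 2 := by simp [wF]
      rw [h2] at h1
      have h3 : mu (ET G T α) = mu (ET G T (((l.1 : ℕ), l.2) :: α)) +
          mu (ET G T (((l.1 : ℕ), !l.2) :: α)) := by
        refine mu_eq_add ?_ ?_
        · intro x
          rw [ET_iff, ET_iff, ET_iff, sat_cons, sat_cons, getElem?_ofFn, getElem?_ofFn]
          constructor
          · rintro ⟨a, b⟩
            rcases Bool.eq_or_eq_not (x l.1) l.2 with h4 | h4
            · exact Or.inl ⟨⟨⟨l.1.2, h4⟩, a⟩, b⟩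
            · exact Or.inr ⟨⟨⟨l.1.2, h4⟩, a⟩, b⟩
          · rintro (⟨⟨_, a⟩, b⟩ | ⟨⟨_, a⟩, b⟩) <;> exact ⟨a, b⟩
        · rintro x ⟨h4, h5⟩
          rw [ET_iff, sat_cons, getElem?_ofFn] at h4 h5
          have h6 : x l.1 = l.2 := h4.1.1.2
          have h7 : x l.1 = !l.2 := h5.1.1.2
          rw [h6] at h7
          cases l.2 <;> simp at h7
      have h4 : mu (ET G T (((l.1 : ℕ), !l.2) :: α)) = wt α * mu (fun x =>
          decide (SatT T x ∧ SatT {(l.1, !l.2)} x ∧ ∀ A ∈ G, A ≠ T → ¬ SatT A x)) := by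
        rw [← mu_leaf_and hαd hαn (fun x => SatT T x ∧ SatT {(l.1, !l.2)} x ∧
          ∀ A ∈ G, A ≠ T → ¬ SatT A x) (fun i hi x => and_congr (hinvT i hi x)
            (and_congr (satT_flp (by
              intro hc
              rw [mem_vs] at hc
              obtain ⟨l', hl', he'⟩ := hc
              rw [mem_singleton] at hl'
              rw [hl'] at he'
              exact hlX (he' ▸ hi)) x) (hinvO i hi x)))]
        refine mu_congr fun x => ?_
        rw [ET_iff, decide_eq_true_iff, sat_cons, getElem?_ofFn]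
        unfold SatT
        simp only [mem_singleton, forall_eq]
        constructor
        · rintro ⟨⟨⟨_, a⟩, b⟩, c, d⟩; exact ⟨b, c, a, d⟩
        · rintro ⟨b, c, a, d⟩; exact ⟨⟨⟨l.1.2, a⟩, b⟩, c, d⟩
      have h5 : wF T * (1 / 2) * (κ / 2) ≤ wF T * (1 / 2) * (κ - 2 ^ (t + 1) * L * δ) :=
        mul_le_mul_of_nonneg_left (by linarith) (by positivity)
      have h6 := mul_le_mul_of_nonneg_left (h5.trans h1) hwt0.le
      rw [← h4] at h6
      rw [← hs] at h3
      linarith
  have hMα := abs_le.1 (happ α hαn hαR fun l hl => hl)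
  rw [← hs] at hMα
  have hMl : ∀ l : Lit, l.1 < n → (∀ l' ∈ lits R0 ++ α, l'.1 ≠ l.1) →
      |Sg (fun C => em ω (ev f true (C ++ (l :: α)) [])) k (lits R0) -
        mu (ET G T (l :: α))| ≤ e := by
    intro l hln hl
    refine happ (l :: α) ?_ ?_ ?_
    · intro l' hl'
      rcases List.mem_cons.1 hl' with rfl | hl'
      · exact hln
      · exact hαn l' hl'
    · intro l' hl' j hj
      rcases List.mem_cons.1 hl' with rfl | hl'
      · obtain ⟨l'', hl'', rfl⟩ := mem_vs.1 hj
        exact (hl _ (List.mem_append.2 (Or.inl (mem_lits.2 ⟨l'', hl'', rfl⟩)))).symm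
      · exact hαR l' hl' j hj
    · intro l' hl'
      exact List.mem_cons_of_mem _ hl'
  have hext : ∀ l : Lit, l ∈ ext6 k D (allLits n) (smp f ω) α (lits R0) ↔
      (l ∈ lits T ∧ l ∉ lits R0) := by
    intro l
    rw [mem_ext6 hD1' hm, mem_allLits]
    constructor
    · rintro ⟨hln, hl, htest⟩
      have hM := abs_le.1 (hMl l hln hl)
      have hlX : (⟨l.1, hln⟩ : Fin n) ∉ vs (toF n α) := by
        rw [mem_vs_toF, List.mem_map]
        rintro ⟨l', hl', he'⟩
        exact hl l' (List.mem_append.2 (Or.inr hl')) he'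
      refine ⟨?_, fun hc => hl l (List.mem_append.2 (Or.inl hc)) rfl⟩
      by_contra hcon
      have hlT : ((⟨l.1, hln⟩ : Fin n), l.2) ∉ T := by
        intro hc
        exact hcon (mem_lits.2 ⟨_, hc, rfl⟩)
      have h1 := hoff (⟨l.1, hln⟩, l.2) hlT hlX
      have h1' : 4 * mu (ET G T (l :: α)) ≤ 4 * s - wt α * wF T * κ := h1
      -- D (s - c + e) < (D - 1) (s - e)
      have h2 : D * Sg (fun C => em ω (ev f true (C ++ (l :: α)) [])) k (lits R0) ≤
          D * (s - wt α * wF T * κ / 4 + e) :=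
        mul_le_mul_of_nonneg_left (by linarith [hM.2]) (by linarith)
      have h3 : ((D : ℝ) - 1) * (s - e) ≤
          ((D : ℝ) - 1) * Sg (fun C => em ω (ev f true (C ++ α) [])) k (lits R0) :=
        mul_le_mul_of_nonneg_left (by linarith [hMα.1]) (by linarith)
      have h4 : (wt α * wF T) * 8 ≤ (wt α * wF T) * (D * κ) :=
        mul_le_mul_of_nonneg_left hD hW.le
      have h5 : 0 ≤ e := he0
      have h6 : wt α * wF T * κ ≤ wt α * wF T := mul_le_of_le_one_right hW.le hκ1
      nlinarith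
    · rintro ⟨hlT, hlR⟩
      obtain ⟨l', hl', rfl⟩ := mem_lits.1 hlT
      have hl'R : l' ∉ R0 := fun hc => hlR (mem_lits.2 ⟨l', hc, rfl⟩)
      have hvar : ∀ l'' ∈ lits R0 ++ α, l''.1 ≠ (l'.1 : ℕ) := by
        intro l'' hl'' hc
        rcases List.mem_append.1 hl'' with h1 | h1
        · obtain ⟨l3, hl3, rfl⟩ := mem_lits.1 h1
          have h2 : l3.1 = l'.1 := Fin.ext hc
          have := hinj (by simpa using hR0 hl3) (by simpa using hl') h2
          exact hl'R (this ▸ hl3)
        · refine disjoint_left.1 hTX (mem_vs.2 ⟨l', hl', rfl⟩) (mem_vs_toF.2 ?_)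
          exact List.mem_map.2 ⟨l'', h1, hc⟩
      refine ⟨l'.1.2, hvar, ?_⟩
      have hM := abs_le.1 (hMl ((l'.1 : ℕ), l'.2) l'.1.2 hvar)
      have h1 : mu (ET G T (((l'.1 : ℕ), l'.2) :: α)) = s := by
        rw [hs]
        refine mu_congr fun x => ?_
        rw [ET_iff, ET_iff, sat_cons, getElem?_ofFn]
        constructor
        · rintro ⟨⟨_, a⟩, b⟩; exact ⟨a, b⟩
        · rintro ⟨a, b, c⟩; exact ⟨⟨⟨l'.1.2, b l' hl'⟩, a⟩, b, c⟩
      rw [h1] at hM
      have h2 : D * (s - e) ≤
          D * Sg (fun C => em ω (ev f true (C ++ (((l'.1 : ℕ), l'.2) :: α)) [])) k (lits R0) :=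
        mul_le_mul_of_nonneg_left (by linarith [hM.1]) (by linarith)
      have h3 : ((D : ℝ) - 1) *
          Sg (fun C => em ω (ev f true (C ++ α) [])) k (lits R0) ≤ ((D : ℝ) - 1) * (s + e) :=
        mul_le_mul_of_nonneg_left (by linarith [hMα.2]) (by linarith)
      nlinarith
  refine ⟨lits R0 ++ (ext6 k D (allLits n) (smp f ω) α (lits R0) ++ α), ?_, ?_⟩
  · unfold longC
    rw [List.mem_map]
    refine ⟨lits R0, mem_seeds ?_ ?_ ?_, rfl⟩
    · rw [length_allLits]; exact hN
    · rw [length_lits, hR0k]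
    · exact fun l hl => mem_allLits.2 (lits_lt hl)
  · intro x
    rw [sat_append, sat_append]
    constructor
    · rintro ⟨h1, h2, h3⟩
      refine ⟨h3, ?_⟩
      rw [← sat_lits, sat_iff]
      intro l hl
      by_cases hlR : l ∈ lits R0
      · exact sat_iff.1 h1 l hlR
      · exact sat_iff.1 h2 l ((hext l).2 ⟨hl, hlR⟩)
    · rintro ⟨h3, h1⟩
      refine ⟨sat_lits.2 (satT_mono hR0 h1), ?_, h3⟩
      rw [sat_iff]
      intro l hl
      exact sat_iff.1 (sat_lits.2 h1) l ((hext l).1 hl).1

end detect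

end Pool.Agent.H.MP_cba12a_lc
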