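import Pool.Agent.H.MP_cba12a_lc.Final6

/-!
Dropping the very long terms of a formula in which any two terms share few variables.
-/

namespace Pool.Agent.H.MP_cba12a_lc

theorem mu_errE_eq7 {n : ℕ} (f : (Fin n → Bool) → Bool) (H : List (List Lit)) :
    mu (errE f H) = err f H := by
  unfold mu err ct
  rw [Fintype.card_fun, Fintype.card_fin, Fintype.card_bool]
  push_cast
  congr 2
  refine congrArg Finset.card ?_
  ext x
  simp only [Finset.mem_filter, Finset.mem_univ, true_and, errE_iff]
  exact ne_comm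

theorem half_pow_le7 (M : ℕ) (hM : 1 ≤ M) (c : ℕ) : (1 - 1 / (M : ℝ)) ^ (M * c) ≤ (1 / 2) ^ c := by
  have hM' : (1 : ℝ) ≤ M := by exact_mod_cast hM
  rw [pow_mul]
  have h0 : (0 : ℝ) ≤ 1 - 1 / M := by
    have : 1 / (M : ℝ) ≤ 1 := by
      rw [div_le_one (by positivity)]
      exact hM'
    linarith
  refine pow_le_pow_left₀ (by positivity) ?_ c
  have h1 : 1 - 1 / (M : ℝ) ≤ Real.exp (-(1 / M)) := by
    have := Real.add_one_le_exp (-(1 / (M : ℝ)))
    linarith
  calc (1 - 1 / (M : ℝ)) ^ M ≤ Real.exp (-(1 / M)) ^ M := pow_le_pow_left₀ h0 h1 M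
    _ = Real.exp (-1) := by
        rw [← Real.exp_nat_mul]
        congr 1
        field_simp
    _ ≤ 1 / 2 := by
        rw [Real.exp_neg, ← one_div]
        refine one_div_le_one_div_of_le (by norm_num) ?_
        have := Real.add_one_le_exp (1 : ℝ)
        linarith

/-- dropping the inconsistent and the very long terms -/
theorem drop_long7 {n t L M : ℕ} {g : (Fin n → Bool) → Bool}
    {F : Finset (Finset (Fin n × Bool))} (htL : t ≤ L)
    (hgF : ∀ x, g x = true ↔ ∃ T ∈ F, SatT T x)
    (hshare : ∀ T ∈ F, ∀ T' ∈ F, T ≠ T' → (vs T ∩ vs T').card ≤ t)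
    (hM : M * (n + 1) ^ (t + 1) ≤ 2 ^ L) (hM0 : 0 < M) :
    ∃ (g' : (Fin n → Bool) → Bool) (F' : Finset (Finset (Fin n × Bool))), F' ⊆ F ∧
      (∀ x, g' x = true ↔ ∃ T ∈ F', SatT T x) ∧ (∀ T ∈ F', T.card ≤ L) ∧
      dst g g' ≤ 1 / M := by
  classical
  have hM0' : (0 : ℝ) < M := by exact_mod_cast hM0
  set F' := F.filter fun T => T.card ≤ L with hF'
  set F1 := F.filter fun T => L < T.card ∧ (vs T).card = T.card with hF1
  refine ⟨fun x => decide (∃ T ∈ F', SatT T x), F', Finset.filter_subset _ _,
    fun x => decide_eq_true_iff, fun T hT => (Finset.mem_filter.1 hT).2, ?_⟩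
  rw [← dst_eq_mu]
  have h1 := mu_finset_le F1 (fun x => !(g x == decide (∃ T ∈ F', SatT T x)))
    (fun T x => decide (SatT T x)) (by
      intro x hx
      have hne : g x ≠ decide (∃ T ∈ F', SatT T x) := by
        intro hc
        rw [hc] at hx
        simp at hx
      have hgx : g x = true := by
        by_contra hcon
        rw [Bool.not_eq_true] at hcon
        refine hne ?_
        rw [hcon]
        symm
        rw [decide_eq_false_iff_not]
        rintro ⟨T, hT, hs⟩
        have := (hgF x).2 ⟨T, (Finset.mem_filter.1 hT).1, hs⟩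
        rw [hcon] at this
        exact Bool.noConfusion this
      obtain ⟨T, hT, hs⟩ := (hgF x).1 hgx
      have hTn : T ∉ F' := by
        intro hc
        refine hne ?_
        rw [hgx]
        symm
        rw [decide_eq_true_iff]
        exact ⟨T, hc, hs⟩
      refine ⟨T, ?_, decide_eq_true hs⟩
      rw [Finset.mem_filter]
      refine ⟨hT, ?_, ?_⟩
      · by_contra hcon
        exact hTn (Finset.mem_filter.2 ⟨hT, not_lt.1 hcon⟩)
      · unfold vs
        rw [Finset.card_image_iff]
        intro l hl l' hl' h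
        have h1 := hs l (by simpa using hl)
        have h2 := hs l' (by simpa using hl')
        refine Prod.ext h ?_
        rw [← h1, ← h2, h])
  refine h1.trans ?_
  calc ∑ T ∈ F1, mu (fun x : Fin n → Bool => decide (SatT T x)) ≤
      ∑ _T ∈ F1, (1 / 2 : ℝ) ^ L := by
        refine Finset.sum_le_sum fun T hT => (mu_sat1_le T).trans ?_
        unfold wF
        exact pow_le_pow_of_le_one (by norm_num) (by norm_num) (Finset.mem_filter.1 hT).2.1.le
    _ = (F1.card : ℝ) * (1 / 2) ^ L := by rw [Finset.sum_const, nsmul_eq_mul]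
    _ ≤ ((n : ℝ) + 1) ^ (t + 1) * (1 / 2) ^ L := by
        refine mul_le_mul_of_nonneg_right ?_ (by positivity)
        have h2 : F1.card ≤ n ^ (t + 1) := card_share_le
          (fun T hT T' hT' => hshare T (Finset.mem_filter.1 hT).1 T' (Finset.mem_filter.1 hT').1)
          (fun T hT => by
            have := (Finset.mem_filter.1 hT).2
            omega)
        have h3 : (F1.card : ℝ) ≤ (n : ℝ) ^ (t + 1) := by exact_mod_cast h2
        refine h3.trans ?_
        exact pow_le_pow_left₀ (by positivity) (by linarith) _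
    _ ≤ 1 / M := by
        rw [le_div_iff₀ hM0', one_div_pow, mul_one_div, div_mul_eq_mul_div,
          div_le_one (by positivity)]
        have : (M : ℝ) * ((n : ℝ) + 1) ^ (t + 1) ≤ 2 ^ L := by exact_mod_cast hM
        linarith

theorem two_add_le_pow7 (t : ℕ) : t + 2 ≤ 2 ^ (t + 1) := Nat.lt_two_pow_self

/-- a unate function has a formula in which every variable has the right sign -/
theorem orient7 {n t : ℕ} {g : (Fin n → Bool) → Bool} {o : Fin n → Bool} (hg : Up o g)
    {F : Finset (Finset (Fin n × Bool))} (hgF : ∀ x, g x = true ↔ ∃ T ∈ F, SatT T x)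
    (hshare : ∀ T ∈ F, ∀ T' ∈ F, T ≠ T' → (vs T ∩ vs T').card ≤ t) :
    ∃ F1 : Finset (Finset (Fin n × Bool)), (∀ x, g x = true ↔ ∃ T ∈ F1, SatT T x) ∧
      (∀ T ∈ F1, ∀ T' ∈ F1, T ≠ T' → (vs T ∩ vs T').card ≤ t) ∧
      ∀ T ∈ F1, ∀ l ∈ T, l.2 = o l.1 := by
  classical
  set φ : Finset (Fin n × Bool) → Finset (Fin n × Bool) := fun T => T.filter fun l => l.2 = o l.1
    with hφ
  refine ⟨(F.filter fun T => ∃ y : Fin n → Bool, SatT T y).image φ, ?_, ?_, ?_⟩
  · intro x
    constructor
    · intro hx
      obtain ⟨T, hT, hs⟩ := (hgF x).1 hx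
      refine ⟨φ T, Finset.mem_image_of_mem _ (Finset.mem_filter.2 ⟨hT, x, hs⟩), ?_⟩
      exact satT_mono (Finset.filter_subset _ _) hs
    · rintro ⟨A, hA, hon⟩
      obtain ⟨T, hT, rfl⟩ := Finset.mem_image.1 hA
      obtain ⟨hTF, y, hy⟩ := Finset.mem_filter.1 hT
      set y' : Fin n → Bool := fun i => if (∃ l ∈ T, l.1 = i) then y i else x i with hy'
      have h1 : g y' = true := by
        rw [hgF]
        refine ⟨T, hTF, fun l hl => ?_⟩
        simp only [hy']
        rw [if_pos ⟨l, hl, rfl⟩]
        exact hy l hl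
      refine up_le hg h1 fun i => ?_
      by_cases hi : ∃ l ∈ T, l.1 = i
      · obtain ⟨l, hl, rfl⟩ := hi
        have e : y' l.1 = l.2 := by
          simp only [hy']
          rw [if_pos ⟨l, hl, rfl⟩]
          exact hy l hl
        by_cases hor : l.2 = o l.1
        · right
          rw [← hor]
          exact hon l (Finset.mem_filter.2 ⟨hl, hor⟩)
        · rw [e]
          rcases Bool.eq_or_eq_not (x l.1) (o l.1) with h2 | h2
          · exact Or.inr h2
          · left
            rw [h2]
            rcases Bool.eq_or_eq_not l.2 (o l.1) with h3 | h3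
            · exact absurd h3 hor
            · exact h3.symm
      · left
        simp only [hy']
        rw [if_neg hi]
  · intro A hA A' hA' hne
    obtain ⟨T, hT, rfl⟩ := Finset.mem_image.1 hA
    obtain ⟨T', hT', rfl⟩ := Finset.mem_image.1 hA'
    refine le_trans (Finset.card_le_card ?_) (hshare T (Finset.mem_filter.1 hT).1 T'
      (Finset.mem_filter.1 hT').1 fun h => hne (by rw [h]))
    exact Finset.inter_subset_inter (Finset.image_subset_image (Finset.filter_subset _ _))
      (Finset.image_subset_image (Finset.filter_subset _ _))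
  · intro A hA l hl
    obtain ⟨T, _, rfl⟩ := Finset.mem_image.1 hA
    exact (Finset.mem_filter.1 hl).2

/-- a formula in which every variable has the right sign computes a unate function -/
theorem up7 {n : ℕ} {g : (Fin n → Bool) → Bool} {o : Fin n → Bool}
    {F : Finset (Finset (Fin n × Bool))} (hgF : ∀ x, g x = true ↔ ∃ T ∈ F, SatT T x)
    (ho : ∀ T ∈ F, ∀ l ∈ T, l.2 = o l.1) : Up o g := by
  intro i x hx
  rw [hgF] at hx ⊢
  obtain ⟨T, hT, hs⟩ := hx
  refine ⟨T, hT, fun l hl => ?_⟩
  by_cases h : l.1 = i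
  · rw [h, Function.update_self, ho T hT l hl, h]
  · have := hs l hl
    rw [Function.update_of_ne h] at this ⊢
    exact this

end Pool.Agent.H.MP_cba12a_lc
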