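import Pool.Agent.H.MP_cba12a_lc.Algo

/-!
Completeness of the two enumerations.
-/

namespace Pool.Agent.H.MP_cba12a_lc

theorem length_flatMap_map (V : List Lit) (L : List (List Lit)) :
    (L.flatMap fun S => V.map fun l => l :: S).length = L.length * V.length := by
  induction L with
  | nil => simp
  | cons a L ih =>
    rw [List.flatMap_cons, List.length_append, ih, List.length_map, List.length_cons]
    ring

/-- Up to `k` steps no truncation happens. -/
theorem grow_iterate_length {N k : ℕ} {V : List Lit} (hN : (V.length + 1) ^ k ≤ N) :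
    ∀ j ≤ k, ((grow N V)^[j] [[]]).length ≤ (V.length + 1) ^ j := by
  intro j
  induction j with
  | zero => intro _; simp
  | succ j ih =>
    intro hj
    have h := ih (by omega)
    rw [Function.iterate_succ_apply']
    unfold grow
    have hlen : ([] :: ((grow N V)^[j] [[]]).flatMap fun S => V.map fun l => l :: S).length ≤
        (V.length + 1) ^ (j + 1) := by
      rw [List.length_cons, length_flatMap_map, pow_succ]
      have h1 : 1 ≤ (V.length + 1) ^ j := Nat.one_le_pow _ _ (by omega)
      have h2 := Nat.mul_le_mul_right V.length h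
      calc ((grow N V)^[j] [[]]).length * V.length + 1 ≤
          (V.length + 1) ^ j * V.length + (V.length + 1) ^ j := by omega
        _ = _ := by ring
    unfold grow at hlen
    split_ifs with h3
    · exact hlen
    · exact h.trans (Nat.pow_le_pow_right (by omega) (by omega))

theorem mem_grow_iterate {N k : ℕ} {V : List Lit} (hN : (V.length + 1) ^ k ≤ N) :
    ∀ j ≤ k, ∀ S : List Lit, S.length ≤ j → (∀ l ∈ S, l ∈ V) → S ∈ (grow N V)^[j] [[]] := by
  intro j
  induction j with
  | zero =>
    intro _ S hS _
    have : S = [] := List.length_eq_zero_iff.1 (by omega)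
    simp [this]
  | succ j ih =>
    intro hj S hS hV
    rw [Function.iterate_succ_apply']
    have h := grow_iterate_length hN j (by omega)
    have hlen : ([] :: ((grow N V)^[j] [[]]).flatMap fun S => V.map fun l => l :: S).length ≤
        N := by
      rw [List.length_cons, length_flatMap_map]
      have h1 : 1 ≤ (V.length + 1) ^ j := Nat.one_le_pow _ _ (by omega)
      have h2 := Nat.mul_le_mul_right V.length h
      calc ((grow N V)^[j] [[]]).length * V.length + 1 ≤
          (V.length + 1) ^ j * V.length + (V.length + 1) ^ j := by omega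
        _ = (V.length + 1) ^ (j + 1) := by ring
        _ ≤ (V.length + 1) ^ k := Nat.pow_le_pow_right (by omega) hj
        _ ≤ N := hN
    have e : grow N V ((grow N V)^[j] [[]]) =
        [] :: ((grow N V)^[j] [[]]).flatMap fun S => V.map fun l => l :: S := by
      conv_lhs => unfold grow
      rw [if_pos]
      · rfl
      · exact hlen
    rw [e]
    cases S with
    | nil => simp
    | cons l S =>
      refine List.mem_cons_of_mem _ ?_
      rw [List.mem_flatMap]
      refine ⟨S, ih (by omega) S (by simp at hS; omega) (fun l' hl' => hV l' (by simp [hl'])), ?_⟩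
      rw [List.mem_map]
      exact ⟨l, hV l (by simp), rfl⟩

theorem mem_seeds {N k : ℕ} {V : List Lit} (hN : (V.length + 1) ^ k ≤ N) {S : List Lit}
    (hS : S.length ≤ k) (hV : ∀ l ∈ S, l ∈ V) : S ∈ seeds N k V :=
  mem_grow_iterate hN k le_rfl S hS hV

theorem subs_aux {N : ℕ} (p : Lit → Prop) : ∀ (C : List Lit) (L : List (List Lit)) (W : List Lit),
    L.length * 2 ^ C.length ≤ N → W ∈ L →
    ∃ W' ∈ C.foldl (subStep N) L, ∀ l, l ∈ W' ↔ (l ∈ W ∨ (l ∈ C ∧ p l)) := by
  classical
  intro C
  induction C with
  | nil => intro L W _ hW; exact ⟨W, hW, fun l => by simp⟩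
  | cons c C ih =>
    intro L W hN hW
    have hlen : (L ++ L.map (fun W => c :: W)).length = 2 * L.length := by
      rw [List.length_append, List.length_map]; ring
    have h2 : 1 ≤ 2 ^ C.length := Nat.one_le_two_pow
    have hN' : 2 * L.length * 2 ^ C.length ≤ N := by
      rw [List.length_cons, pow_succ] at hN
      calc 2 * L.length * 2 ^ C.length = L.length * (2 ^ C.length * 2) := by ring
        _ ≤ N := hN
    have hN'' : (L ++ L.map (fun W => c :: W)).length ≤ N := by
      rw [hlen]
      exact (Nat.le_mul_of_pos_right _ h2).trans hN'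
    have e : subStep N L c = L ++ L.map (fun W => c :: W) := by
      unfold subStep
      rw [if_pos hN'']
    by_cases hp : p c
    · obtain ⟨W', hW', h⟩ := ih (L ++ L.map (fun W => c :: W)) (c :: W) (by rw [hlen]; exact hN')
        (by simp [hW])
      refine ⟨W', by rw [List.foldl_cons, e]; exact hW', fun l => ?_⟩
      rw [h l]
      simp only [List.mem_cons]
      constructor
      · rintro ((rfl | h1) | h1)
        · exact Or.inr ⟨Or.inl rfl, hp⟩
        · exact Or.inl h1
        · exact Or.inr ⟨Or.inr h1.1, h1.2⟩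
      · rintro (h1 | ⟨rfl | h1, h2⟩)
        · exact Or.inl (Or.inr h1)
        · exact Or.inl (Or.inl rfl)
        · exact Or.inr ⟨h1, h2⟩
    · obtain ⟨W', hW', h⟩ := ih (L ++ L.map (fun W => c :: W)) W (by rw [hlen]; exact hN')
        (by simp [hW])
      refine ⟨W', by rw [List.foldl_cons, e]; exact hW', fun l => ?_⟩
      rw [h l]
      simp only [List.mem_cons]
      constructor
      · rintro (h1 | h1)
        · exact Or.inl h1
        · exact Or.inr ⟨Or.inr h1.1, h1.2⟩
      · rintro (h1 | ⟨rfl | h1, h2⟩)
        · exact Or.inl h1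
        · exact absurd h2 hp
        · exact Or.inr ⟨h1, h2⟩

theorem mem_subs {N : ℕ} {C : List Lit} (hN : 2 ^ C.length ≤ N) (p : Lit → Prop) :
    ∃ W ∈ subs N C, ∀ l, l ∈ W ↔ (l ∈ C ∧ p l) := by
  obtain ⟨W, hW, h⟩ := subs_aux (N := N) p C [[]] [] (by simpa using hN) (by simp)
  exact ⟨W, hW, fun l => by simpa using h l⟩

theorem sat_iff {xs : List Bool} {C : List Lit} :
    sat xs C = true ↔ ∀ l ∈ C, xs[l.1]? = some l.2 := by
  unfold sat
  rw [List.all_eq_true]
  simp

theorem sat_congr {xs : List Bool} {C C' : List Lit} (h : ∀ l, l ∈ C ↔ l ∈ C') :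
    sat xs C = sat xs C' := by
  rw [Bool.eq_iff_iff, sat_iff, sat_iff]
  simp [h]

theorem satD_iff {xs : List Bool} {F : List (List Lit)} :
    satD xs F = true ↔ ∃ C ∈ F, sat xs C = true := by
  unfold satD
  rw [List.any_eq_true]

theorem getElem?_ofFn {n : ℕ} (x : Fin n → Bool) (i : ℕ) (v : Bool) :
    (List.ofFn x)[i]? = some v ↔ ∃ h : i < n, x ⟨i, h⟩ = v := by
  rw [List.getElem?_eq_some_iff]
  simp

theorem mem_allLits {n : ℕ} {l : Lit} : l ∈ allLits n ↔ l.1 < n := by
  unfold allLits
  rw [List.mem_flatMap]
  constructor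
  · rintro ⟨i, hi, h⟩
    rw [List.mem_range] at hi
    simp only [List.mem_cons, List.not_mem_nil, or_false] at h
    rcases h with rfl | rfl <;> exact hi
  · intro h
    refine ⟨l.1, List.mem_range.2 h, ?_⟩
    obtain ⟨i, v⟩ := l
    cases v <;> simp

theorem length_allLits (n : ℕ) : (allLits n).length = 2 * n := by
  unfold allLits
  rw [List.length_flatMap]
  simp [mul_comm]

theorem nodup_allLits (n : ℕ) : (allLits n).Nodup := by
  unfold allLits
  rw [List.nodup_flatMap]
  refine ⟨fun i _ => by simp, ?_⟩
  refine List.Pairwise.imp ?_ (List.nodup_range (n := n))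
  intro i j hij
  simp [List.disjoint_left]
  omega

end Pool.Agent.H.MP_cba12a_lc
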