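import Pool.Agent.H.MP_cba12a_lc.Enum
import Pool.Agent.H.MP_cba12a_lc.Bias

/-!
Events on the cube, the sample list, and elementary facts on densities.
-/

namespace Pool.Agent.H.MP_cba12a_lc

open Finset

section mu

variable {Ω : Type} [Fintype Ω]

theorem mu_mono {E E' : Ω → Bool} (h : ∀ x, E x = true → E' x = true) : mu E ≤ mu E' := by
  unfold mu ct
  refine div_le_div_of_nonneg_right ?_ (by positivity)
  exact_mod_cast card_le_card (monotone_filter_right _ (fun x _ hx => h x hx))

theorem mu_congr {E E' : Ω → Bool} (h : ∀ x, E x = true ↔ E' x = true) : mu E = mu E' :=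
  le_antisymm (mu_mono fun x => (h x).1) (mu_mono fun x => (h x).2)

theorem mu_le_add {E E1 E2 : Ω → Bool} (h : ∀ x, E x = true → E1 x = true ∨ E2 x = true) :
    mu E ≤ mu E1 + mu E2 := by
  classical
  unfold mu
  rw [← add_div]
  refine div_le_div_of_nonneg_right ?_ (by positivity)
  have h1 : ct E ≤ ct E1 + ct E2 := by
    unfold ct
    refine (card_le_card ?_).trans (card_union_le _ _)
    intro x hx
    rw [mem_filter] at hx
    rw [mem_union, mem_filter, mem_filter]
    rcases h x hx.2 with h | h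
    · exact Or.inl ⟨mem_univ _, h⟩
    · exact Or.inr ⟨mem_univ _, h⟩
  exact_mod_cast h1

theorem mu_eq_add {E E1 E2 : Ω → Bool} (h : ∀ x, E x = true ↔ E1 x = true ∨ E2 x = true)
    (hd : ∀ x, ¬ (E1 x = true ∧ E2 x = true)) : mu E = mu E1 + mu E2 := by
  classical
  unfold mu
  rw [← add_div]
  congr 1
  have h1 : ct E = ct E1 + ct E2 := by
    unfold ct
    rw [← card_union_of_disjoint]
    · congr 1
      ext x
      rw [mem_union, mem_filter, mem_filter, mem_filter]
      simp [h x]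
    · rw [disjoint_left]
      intro x hx hx'
      rw [mem_filter] at hx hx'
      exact hd x ⟨hx.2, hx'.2⟩
  exact_mod_cast h1

theorem mu_any_le {ι : Type} (L : List ι) (E : ι → Ω → Bool) :
    mu (fun x => L.any fun i => E i x) ≤ (L.map fun i => mu (E i)).sum := by
  induction L with
  | nil =>
    simp only [List.any_nil, List.map_nil, List.sum_nil]
    unfold mu ct
    simp
  | cons i L ih =>
    rw [List.map_cons, List.sum_cons]
    refine (mu_le_add (E1 := E i) (E2 := fun x => L.any fun i => E i x) ?_).trans ?_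
    · intro x hx
      simpa using hx
    · linarith

theorem sum_le_of_forall (L : List ℝ) (c : ℝ) (h : ∀ x ∈ L, x ≤ c) : L.sum ≤ L.length * c := by
  have := List.sum_le_card_nsmul L c h
  simpa using this

end mu

/-- the event `f = v`, `C` holds, `h` fails -/
def ev {n : ℕ} (f : (Fin n → Bool) → Bool) (v : Bool) (C : List Lit) (h : List (List Lit))
    (x : Fin n → Bool) : Bool :=
  (f x == v) && (sat (List.ofFn x) C && !(satD (List.ofFn x) h))

theorem ev_iff {n : ℕ} {f : (Fin n → Bool) → Bool} {v : Bool} {C : List Lit}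
    {h : List (List Lit)} {x : Fin n → Bool} : ev f v C h x = true ↔
      f x = v ∧ sat (List.ofFn x) C = true ∧ satD (List.ofFn x) h = false := by
  unfold ev
  simp

theorem length_smp {n m : ℕ} (f : (Fin n → Bool) → Bool) (ω : Fin m → Fin n → Bool) :
    (smp f ω).length = m := by simp [smp]

theorem length_filter_ofFn {α : Type} {m : ℕ} (g : Fin m → α) (p : α → Bool) :
    ((List.ofFn g).filter p).length = (univ.filter fun i => p (g i) = true).card := by
  rw [List.ofFn_eq_map, List.filter_map, List.length_map]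
  have : (univ.filter fun i => p (g i) = true).card =
      ((List.finRange m).filter fun i => p (g i)).toFinset.card := by
    congr 1
    ext i
    simp
  rw [this, List.toFinset_card_of_nodup ((List.nodup_finRange m).filter _)]
  rfl

theorem cnt_smp {n m : ℕ} (f : (Fin n → Bool) → Bool) (ω : Fin m → Fin n → Bool) (v : Bool)
    (C : List Lit) (h : List (List Lit)) : cnt (smp f ω) v C h = ec ω (ev f v C h) := by
  unfold cnt smp
  rw [length_filter_ofFn]
  rfl

/-- The sample is representative: all relevant events have empirical density within `τ`. -/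
def Rep {n m : ℕ} (f : (Fin n → Bool) → Bool) (ω : Fin m → Fin n → Bool) (r : ℕ) (τ : ℝ) : Prop :=
  ∀ (v : Bool) (C : List Lit) (h : List (List Lit)), (∀ l ∈ C, l.1 < n) → h.length ≤ r →
    (∀ D ∈ h, ∀ l ∈ D, l.1 < n) → |em ω (ev f v C h) - mu (ev f v C h)| < τ

/-- literals as a finite set -/
def toF (n : ℕ) (C : List Lit) : Finset (Fin n × Bool) :=
  univ.filter fun l => ((l.1 : ℕ), l.2) ∈ C

theorem mem_toF {n : ℕ} {C : List Lit} {l : Fin n × Bool} :
    l ∈ toF n C ↔ ((l.1 : ℕ), l.2) ∈ C := by simp [toF]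

theorem sat_ofFn_iff {n : ℕ} {C : List Lit} (hC : ∀ l ∈ C, l.1 < n) {x : Fin n → Bool} :
    sat (List.ofFn x) C = true ↔ ∀ l ∈ toF n C, x l.1 = l.2 := by
  rw [sat_iff]
  constructor
  · intro h l hl
    have h1 := h _ (mem_toF.1 hl)
    rw [getElem?_ofFn] at h1
    obtain ⟨_, h1⟩ := h1
    exact h1
  · intro h l hl
    rw [getElem?_ofFn]
    exact ⟨hC l hl, h (⟨l.1, hC l hl⟩, l.2) (mem_toF.2 (by simpa using hl))⟩

/-- index type of the events -/
abbrev Ix (n r : ℕ) : Type :=
  Bool × Finset (Fin n × Bool) × (Fin r → Option (Finset (Fin n × Bool)))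

/-- event of an index -/
def evI {n r : ℕ} (f : (Fin n → Bool) → Bool) (i : Ix n r) (x : Fin n → Bool) : Bool :=
  (f x == i.1) && (decide (∀ l ∈ i.2.1, x l.1 = l.2) &&
    !(decide (∃ j, ∃ D, i.2.2 j = some D ∧ ∀ l ∈ D, x l.1 = l.2)))

theorem ev_eq_evI {n r : ℕ} (f : (Fin n → Bool) → Bool) (v : Bool) (C : List Lit)
    (h : List (List Lit)) (hC : ∀ l ∈ C, l.1 < n) (hr : h.length ≤ r)
    (hh : ∀ D ∈ h, ∀ l ∈ D, l.1 < n) :
    ev f v C h = evI f (v, toF n C, fun j : Fin r => (h[(j : ℕ)]?).map (toF n)) := by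
  funext x
  unfold ev evI
  have e1 : sat (List.ofFn x) C = decide (∀ l ∈ toF n C, x l.1 = l.2) := by
    rw [Bool.eq_iff_iff, decide_eq_true_iff, sat_ofFn_iff hC]
  have e2 : satD (List.ofFn x) h = decide (∃ j : Fin r, ∃ D,
      (h[(j : ℕ)]?).map (toF n) = some D ∧ ∀ l ∈ D, x l.1 = l.2) := by
    rw [Bool.eq_iff_iff, decide_eq_true_iff, satD_iff]
    constructor
    · rintro ⟨D, hD, hs⟩
      obtain ⟨j, hj, rfl⟩ := List.mem_iff_getElem.1 hD
      refine ⟨⟨j, by omega⟩, toF n h[j], ?_, ?_⟩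
      · simp [hj]
      · exact (sat_ofFn_iff (hh _ hD)).1 hs
    · rintro ⟨j, D, hD, hs⟩
      rw [Option.map_eq_some_iff] at hD
      obtain ⟨D', hD', rfl⟩ := hD
      have hm := List.mem_of_getElem? hD'
      exact ⟨D', hm, (sat_ofFn_iff (hh _ hm)).2 hs⟩
  rw [e1, e2]

theorem card_Ix (n r : ℕ) : Fintype.card (Ix n r) ≤ 2 ^ ((2 * n + 1) * (r + 1)) := by
  unfold Ix
  rw [Fintype.card_prod, Fintype.card_prod, Fintype.card_bool, Fintype.card_finset,
    Fintype.card_prod, Fintype.card_bool, Fintype.card_fin, Fintype.card_fun,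
    Fintype.card_option, Fintype.card_finset, Fintype.card_prod, Fintype.card_bool,
    Fintype.card_fin, Fintype.card_fin]
  have h1 : 2 ^ (n * 2) + 1 ≤ 2 ^ (2 * n + 1) := by
    rw [pow_succ, mul_comm 2 n]
    have : 1 ≤ 2 ^ (n * 2) := Nat.one_le_two_pow
    omega
  calc 2 * (2 ^ (n * 2) * (2 ^ (n * 2) + 1) ^ r) ≤
      2 * (2 ^ (n * 2) * (2 ^ (2 * n + 1)) ^ r) := by gcongr
    _ = 2 ^ ((2 * n + 1) * (r + 1)) := by
      rw [← pow_mul, ← pow_add, ← pow_succ']
      congr 1
      ring

/-- Most samples are representative. -/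
theorem rep_of_large {n m : ℕ} (f : (Fin n → Bool) → Bool) (r b : ℕ) (hb : 0 < b)
    (τ : ℝ) (hτ : 0 < τ) (hτ1 : τ ≤ 1)
    (hm : (4 : ℝ) * ((2 * n + 1) * (r + 1) + 1 + Nat.clog 2 b) ≤ m * τ ^ 2)
    (P : (Fin m → Fin n → Bool) → Prop) [DecidablePred P] (hP : ∀ ω, Rep f ω r τ → P ω) :
    (1 - 1 / (b : ℝ)) * ((2 : ℝ) ^ n) ^ m ≤
      ((univ.filter fun ω : Fin m → Fin n → Bool => P ω).card : ℝ) := by
  classical
  have h := uniform_conv (Ω := Fin n → Bool) (ι := Ix n r) (evI f) (m := m)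
    (D := (2 * n + 1) * (r + 1)) hb (by simp) (card_Ix n r) τ hτ hτ1 (by
      push_cast
      exact hm)
  rw [Fintype.card_fun, Fintype.card_fin, Fintype.card_bool] at h
  push_cast at h
  refine h.trans ?_
  have hsub : (univ.filter fun ω : Fin m → Fin n → Bool =>
      ∀ i : Ix n r, |em ω (evI f i) - mu (evI f i)| < τ) ⊆
      (univ.filter fun ω : Fin m → Fin n → Bool => P ω) := by
    intro ω hω
    rw [mem_filter] at hω ⊢
    refine ⟨mem_univ _, hP ω ?_⟩
    intro v C h hC hr hh
    rw [ev_eq_evI f v C h hC hr hh]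
    exact hω.2 _
  exact_mod_cast card_le_card hsub

end Pool.Agent.H.MP_cba12a_lc
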