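import Pool.Agent.H.MP_cba12a_lc.Final5

/-!
Families of terms of which any two share at most `t` variables: a bound on the total weight by
second moments.
-/

namespace Pool.Agent.H.MP_cba12a_lc

open Finset

variable {n : ℕ}

/-- weight of a term -/
noncomputable def wF (T : Finset (Fin n × Bool)) : ℝ := (1 / 2) ^ T.card

theorem wF_pos (T : Finset (Fin n × Bool)) : 0 < wF T := by unfold wF; positivity

theorem wF_le_one (T : Finset (Fin n × Bool)) : wF T ≤ 1 :=
  pow_le_one₀ (by norm_num) (by norm_num)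

theorem wF_anti {A B : Finset (Fin n × Bool)} (h : A.card ≤ B.card) : wF B ≤ wF A :=
  pow_le_pow_of_le_one (by norm_num) (by norm_num) h

theorem wF_union (A B : Finset (Fin n × Bool)) : wF (A ∪ B) = wF A * wF (B \ A) := by
  unfold wF
  rw [← pow_add]
  congr 1
  rw [← card_union_of_disjoint disjoint_sdiff, union_sdiff_self_eq_union]

theorem wF_sub {A B : Finset (Fin n × Bool)} (h : A ⊆ B) : wF B = wF A * wF (B \ A) := by
  rw [← wF_union, union_eq_right.2 h]

theorem mu_satT_le (A : Finset (Fin n × Bool)) (Q : (Fin n → Bool) → Prop) [DecidablePred Q]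
    (hQ : ∀ i ∈ vs A, ∀ x, Q (flp i x) ↔ Q x) :
    mu (fun x => decide (SatT A x ∧ Q x)) ≤ wF A * mu (fun x => decide (Q x)) := by
  have h := indep_le A Q hQ
  have h' : ((univ.filter fun x => SatT A x ∧ Q x).card : ℝ) * 2 ^ A.card ≤
      ((univ.filter Q).card : ℝ) := by exact_mod_cast h
  rw [mu_eq_div, mu_eq_div]
  simp only [decide_eq_true_eq]
  unfold wF
  rw [one_div_pow, ← mul_div_assoc]
  refine div_le_div_of_nonneg_right ?_ (by positivity)
  rw [one_div_mul_eq_div, le_div_iff₀ (by positivity)]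
  exact h'

theorem mu_satT_eq {A : Finset (Fin n × Bool)} (hA : (vs A).card = A.card)
    (Q : (Fin n → Bool) → Prop) [DecidablePred Q]
    (hQ : ∀ i ∈ vs A, ∀ x, Q (flp i x) ↔ Q x) :
    mu (fun x => decide (SatT A x ∧ Q x)) = wF A * mu (fun x => decide (Q x)) := by
  refine le_antisymm (mu_satT_le A Q hQ) ?_
  have h := indep_ge A hA Q hQ
  have h' : ((univ.filter Q).card : ℝ) ≤
      ((univ.filter fun x => SatT A x ∧ Q x).card : ℝ) * 2 ^ A.card := by exact_mod_cast h
  rw [mu_eq_div, mu_eq_div]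
  simp only [decide_eq_true_eq]
  unfold wF
  rw [one_div_pow, ← mul_div_assoc]
  refine div_le_div_of_nonneg_right ?_ (by positivity)
  rw [one_div_mul_eq_div, div_le_iff₀ (by positivity)]
  exact h'

theorem mu_true : mu (fun _ : Fin n → Bool => true) = 1 := by
  rw [mu_eq_div]
  rw [filter_true_of_mem (fun _ _ => rfl), card_univ, Fintype.card_fun, Fintype.card_fin,
    Fintype.card_bool]
  push_cast
  exact div_self (by positivity)

theorem mu_sat1_le (A : Finset (Fin n × Bool)) :
    mu (fun x : Fin n → Bool => decide (SatT A x)) ≤ wF A := by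
  have h := mu_satT_le A (fun _ : Fin n → Bool => True) (fun _ _ _ => Iff.rfl)
  have e : mu (fun x : Fin n → Bool => decide (SatT A x)) =
      mu (fun x => decide (SatT A x ∧ True)) := by
    refine mu_congr fun x => ?_
    simp
  rw [e]
  refine h.trans (le_of_eq ?_)
  have e2 : mu (fun _ : Fin n → Bool => decide True) = 1 := by
    rw [← mu_true (n := n)]
    rfl
  rw [e2, mul_one]

theorem mu_sat1_eq {A : Finset (Fin n × Bool)} (hA : (vs A).card = A.card) :
    mu (fun x : Fin n → Bool => decide (SatT A x)) = wF A := by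
  have h := mu_satT_eq hA (fun _ : Fin n → Bool => True) (fun _ _ _ => Iff.rfl)
  have e : mu (fun x : Fin n → Bool => decide (SatT A x)) =
      mu (fun x => decide (SatT A x ∧ True)) := by
    refine mu_congr fun x => ?_
    simp
  rw [e]
  refine h.trans ?_
  have e2 : mu (fun _ : Fin n → Bool => decide True) = 1 := by
    rw [← mu_true (n := n)]
    rfl
  rw [e2, mul_one]

theorem satT_union {A B : Finset (Fin n × Bool)} {x : Fin n → Bool} :
    SatT (A ∪ B) x ↔ SatT A x ∧ SatT B x := by
  unfold SatT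
  simp only [mem_union]
  constructor
  · intro h
    exact ⟨fun l hl => h l (Or.inl hl), fun l hl => h l (Or.inr hl)⟩
  · rintro ⟨h1, h2⟩ l (hl | hl)
    · exact h1 l hl
    · exact h2 l hl

theorem satT_mono {A B : Finset (Fin n × Bool)} (h : A ⊆ B) {x : Fin n → Bool}
    (hB : SatT B x) : SatT A x := fun l hl => hB l (h hl)

theorem inj_of_card {T : Finset (Fin n × Bool)} (h : (vs T).card = T.card) :
    Set.InjOn Prod.fst (T : Set (Fin n × Bool)) := card_image_iff.1 h

theorem cons_mono {A B : Finset (Fin n × Bool)} (h : A ⊆ B) (hB : (vs B).card = B.card) :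
    (vs A).card = A.card :=
  card_image_iff.2 ((inj_of_card hB).mono (by exact_mod_cast h))

/-- density of the points of `C` at which no term of `G` holds -/
noncomputable def nn (G : Finset (Finset (Fin n × Bool))) (C : Finset (Fin n × Bool)) : ℝ :=
  mu (fun x => decide (SatT C x ∧ ∀ A ∈ G, ¬ SatT A x))

/-- the situation at a leaf -/
structure Fam (t L : ℕ) (κ : ℝ) (X : Finset (Fin n)) (G : Finset (Finset (Fin n × Bool))) :
    Prop where
  cons : ∀ T ∈ G, (vs T).card = T.card
  dis : ∀ T ∈ G, Disjoint (vs T) X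
  len : ∀ T ∈ G, T.card ≤ L
  share : ∀ T ∈ G, ∀ T' ∈ G, T ≠ T' → (vs T ∩ vs T').card ≤ t
  low : ∀ C : Finset (Fin n × Bool), (vs C).card = C.card → Disjoint (vs C) X →
    C.card ≤ t + 1 → κ * wF C ≤ nn G C
  pos : 0 < κ
  le_one : κ ≤ 1
  one_le : 1 ≤ L

/-- expected number of terms above `S` that hold, given `S` -/
noncomputable def wS (G : Finset (Finset (Fin n × Bool))) (S : Finset (Fin n × Bool)) : ℝ :=
  ∑ T ∈ G.filter fun T => S ⊆ T, wF (T \ S)

/-- the same, given `T`, for the terms different from `T` -/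
noncomputable def zS (G : Finset (Finset (Fin n × Bool))) (S T : Finset (Fin n × Bool)) : ℝ :=
  ∑ T' ∈ (G.filter fun T => S ⊆ T).erase T, wF (T' \ T)

theorem wS_nonneg (G : Finset (Finset (Fin n × Bool))) (S : Finset (Fin n × Bool)) :
    0 ≤ wS G S := sum_nonneg fun T _ => (wF_pos _).le

variable {t L : ℕ} {κ : ℝ} {X : Finset (Fin n)} {G : Finset (Finset (Fin n × Bool))}

theorem zS_top (h : Fam t L κ X G) {S T : Finset (Fin n × Bool)} (hS : S.card = t + 1)
    (hT : T ∈ G) (hST : S ⊆ T) : zS G S T = 0 := by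
  unfold zS
  have : (G.filter fun T => S ⊆ T).erase T = ∅ := by
    rw [eq_empty_iff_forall_notMem]
    intro T' hT'
    rw [mem_erase, mem_filter] at hT'
    have h1 := h.share T hT T' hT'.2.1 (Ne.symm hT'.1)
    have h2 : vs S ⊆ vs T ∩ vs T' := subset_inter (vs_mono hST) (vs_mono hT'.2.2)
    have h3 := card_le_card h2
    rw [cons_mono hST (h.cons T hT), hS] at h3
    omega
  rw [this, sum_empty]

theorem zS_step {S T : Finset (Fin n × Bool)} (hST : S ⊆ T) :
    zS G S T ≤ wS G S + ∑ l ∈ T \ S, zS G (insert l S) T := by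
  classical
  have key : ∀ T' ∈ (G.filter fun T => S ⊆ T).erase T, wF (T' \ T) ≤ wF (T' \ S) +
      ∑ l ∈ T \ S, if l ∈ T' then wF (T' \ T) else 0 := by
    intro T' hT'
    rw [mem_erase, mem_filter] at hT'
    have hnn : ∀ l ∈ T \ S, (0 : ℝ) ≤ if l ∈ T' then wF (T' \ T) else 0 := by
      intro l _
      split_ifs
      · exact (wF_pos _).le
      · exact le_rfl
    by_cases hex : ∃ l ∈ T \ S, l ∈ T'
    · obtain ⟨l, hl, hlT'⟩ := hex
      have h1 := single_le_sum (f := fun l => if l ∈ T' then wF (T' \ T) else 0) hnn hl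
      simp only [hlT', if_true] at h1
      have := (wF_pos (T' \ S)).le
      linarith
    · push Not at hex
      have e : T' \ T = T' \ S := by
        ext l
        rw [mem_sdiff, mem_sdiff]
        constructor
        · rintro ⟨h1, h2⟩
          exact ⟨h1, fun hc => h2 (hST hc)⟩
        · rintro ⟨h1, h2⟩
          exact ⟨h1, fun hc => hex l (mem_sdiff.2 ⟨hc, h2⟩) h1⟩
      rw [e]
      have := sum_nonneg (s := T \ S) (f := fun l => if l ∈ T' then wF (T' \ S) else 0)
        (by
          intro l _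
          split_ifs
          · exact (wF_pos _).le
          · exact le_rfl)
      linarith
  unfold zS
  refine (sum_le_sum key).trans ?_
  rw [sum_add_distrib]
  refine add_le_add ?_ ?_
  · exact sum_le_sum_of_subset_of_nonneg (erase_subset _ _) fun T' _ _ => (wF_pos _).le
  · rw [sum_comm]
    refine sum_le_sum fun l hl => ?_
    rw [← sum_filter]
    refine le_of_eq (sum_congr ?_ fun _ _ => rfl)
    ext T'
    rw [mem_filter, mem_erase, mem_filter, mem_erase, mem_filter, insert_subset_iff]
    tauto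

theorem sum_ite_mu (E : (Fin n → Bool) → Prop) [DecidablePred E] :
    ∑ x : Fin n → Bool, (if E x then (1 : ℝ) else 0) = 2 ^ n * mu (fun x => decide (E x)) := by
  rw [mu_eq_div]
  simp only [decide_eq_true_eq]
  rw [sum_boole]
  field_simp

/-- **Second moment bound.** -/
theorem wS_le (h : Fam t L κ X G) {S : Finset (Fin n × Bool)} {c : ℝ} (hc : 0 ≤ c)
    (hS : S.card ≤ t + 1) (hz : ∀ T ∈ G, S ⊆ T → zS G S T ≤ wS G S + c) :
    wS G S ≤ (1 + c) / κ := by
  classical
  rw [le_div_iff₀ h.pos]
  set w := wS G S with hw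
  have hw0 : 0 ≤ w := wS_nonneg G S
  rcases (G.filter fun T => S ⊆ T).eq_empty_or_nonempty with hemp | ⟨T0, hT0⟩
  · have : w = 0 := by
      rw [hw]
      unfold wS
      rw [hemp, sum_empty]
    rw [this]
    linarith
  rw [mem_filter] at hT0
  have hScons : (vs S).card = S.card := cons_mono hT0.2 (h.cons T0 hT0.1)
  have hSX : Disjoint (vs S) X := (h.dis T0 hT0.1).mono_left (vs_mono hT0.2)
  set GS := G.filter fun T => S ⊆ T with hGS
  set N : (Fin n → Bool) → ℝ := fun x => ∑ T ∈ GS, if SatT T x then (1 : ℝ) else 0 with hN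
  set s : (Fin n → Bool) → ℝ := fun x => if SatT S x then (1 : ℝ) else 0 with hs
  have hsN : ∀ x, s x * N x = N x := by
    intro x
    simp only [hs, hN]
    split_ifs with h1
    · rw [one_mul]
    · rw [zero_mul]
      symm
      refine sum_eq_zero fun T hT => ?_
      rw [if_neg]
      intro hc
      exact h1 (satT_mono (mem_filter.1 hT).2 hc)
  -- first moment
  have hm1 : ∑ x, N x = 2 ^ n * (wF S * w) := by
    simp only [hN]
    rw [sum_comm]
    have : ∀ T ∈ GS, ∑ x : Fin n → Bool, (if SatT T x then (1 : ℝ) else 0) =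
        2 ^ n * (wF S * wF (T \ S)) := by
      intro T hT
      rw [sum_ite_mu, mu_sat1_eq (h.cons T (mem_filter.1 hT).1), wF_sub (mem_filter.1 hT).2]
    rw [sum_congr rfl this, ← mul_sum, ← mul_sum]
    rfl
  -- second moment
  have hm2 : ∑ x, N x ^ 2 ≤ 2 ^ n * (wF S * w * (1 + w + c)) := by
    have e1 : ∀ x, N x ^ 2 = ∑ T ∈ GS, ∑ T' ∈ GS,
        (if SatT (T ∪ T') x then (1 : ℝ) else 0) := by
      intro x
      rw [sq]
      simp only [hN]
      rw [sum_mul_sum]
      refine sum_congr rfl fun T _ => sum_congr rfl fun T' _ => ?_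
      by_cases h1 : SatT T x <;> by_cases h2 : SatT T' x <;> simp [satT_union, h1, h2]
    simp only [e1]
    rw [sum_comm]
    have e2 : ∀ T ∈ GS, ∑ x : Fin n → Bool, ∑ T' ∈ GS,
        (if SatT (T ∪ T') x then (1 : ℝ) else 0) ≤ 2 ^ n * (wF T * (1 + w + c)) := by
      intro T hT
      have hT' := mem_filter.1 hT
      rw [sum_comm]
      have e3 : ∀ T' ∈ GS, ∑ x : Fin n → Bool, (if SatT (T ∪ T') x then (1 : ℝ) else 0) ≤
          2 ^ n * (wF T * wF (T' \ T)) := by
        intro T' _
        rw [sum_ite_mu, ← wF_union]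
        exact mul_le_mul_of_nonneg_left (mu_sat1_le _) (by positivity)
      refine (sum_le_sum e3).trans ?_
      rw [← mul_sum, ← mul_sum]
      refine mul_le_mul_of_nonneg_left (mul_le_mul_of_nonneg_left ?_ (wF_pos _).le)
        (by positivity)
      rw [← add_sum_erase GS (fun T' => wF (T' \ T)) hT]
      have e4 : wF (T \ T) = 1 := by
        rw [sdiff_self]
        simp [wF]
      rw [e4]
      have := hz T hT'.1 hT'.2
      unfold zS at this
      linarith
    refine (sum_le_sum e2).trans ?_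
    rw [← mul_sum]
    refine mul_le_mul_of_nonneg_left ?_ (by positivity)
    rw [← sum_mul]
    refine le_of_eq ?_
    congr 1
    rw [hw]
    unfold wS
    rw [mul_sum]
    exact sum_congr rfl fun T hT => wF_sub (mem_filter.1 hT).2
  have hm0 : ∑ x, s x ≤ 2 ^ n * wF S := by
    simp only [hs]
    rw [sum_ite_mu]
    exact mul_le_mul_of_nonneg_left (mu_sat1_le _) (by positivity)
  -- lower bound
  have hlow : 2 ^ n * (κ * wF S) * w ^ 2 ≤ ∑ x, s x * (N x - w) ^ 2 := by
    have h1 := h.low S hScons hSX hS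
    have h2 : ∀ x, (if (SatT S x ∧ ∀ A ∈ G, ¬ SatT A x) then (1 : ℝ) else 0) * w ^ 2 ≤
        s x * (N x - w) ^ 2 := by
      intro x
      split_ifs with h3
      · have h4 : N x = 0 := by
          simp only [hN]
          refine sum_eq_zero fun T hT => ?_
          rw [if_neg (h3.2 T (mem_filter.1 hT).1)]
        simp only [hs]
        rw [if_pos h3.1, h4]
        exact le_of_eq (by ring)
      · rw [zero_mul]
        simp only [hs]
        split_ifs
        · positivity
        · simp
    have h5 := sum_le_sum fun x (_ : x ∈ (univ : Finset (Fin n → Bool))) => h2 x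
    rw [← sum_mul, sum_ite_mu] at h5
    refine le_trans ?_ h5
    refine mul_le_mul_of_nonneg_right ?_ (by positivity)
    exact mul_le_mul_of_nonneg_left h1 (by positivity)
  have hexp : ∑ x, s x * (N x - w) ^ 2 = ∑ x, N x ^ 2 - 2 * w * ∑ x, N x + w ^ 2 * ∑ x, s x := by
    rw [mul_sum, mul_sum, ← sum_sub_distrib, ← sum_add_distrib]
    refine sum_congr rfl fun x _ => ?_
    have h1 := hsN x
    have h2 : s x * N x ^ 2 = N x ^ 2 := by rw [sq, ← mul_assoc, h1]
    calc s x * (N x - w) ^ 2 = s x * N x ^ 2 - 2 * w * (s x * N x) + w ^ 2 * s x := by ring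
      _ = _ := by rw [h1, h2]
  rw [hexp, hm1] at hlow
  have hp : (0 : ℝ) < 2 ^ n := by positivity
  have hwS := wF_pos S
  have h6 : w ^ 2 * ∑ x, s x ≤ w ^ 2 * (2 ^ n * wF S) :=
    mul_le_mul_of_nonneg_left hm0 (by positivity)
  have h7 : (2 ^ n * wF S) * (κ * w ^ 2) ≤ (2 ^ n * wF S) * (w * (1 + c)) := by
    have e : (2 ^ n * wF S) * (w * (1 + c)) = 2 ^ n * (wF S * w * (1 + w + c)) -
        2 * w * (2 ^ n * (wF S * w)) + w ^ 2 * (2 ^ n * wF S) := by ring
    rw [e]
    have e2 : (2 ^ n * wF S) * (κ * w ^ 2) = 2 ^ n * (κ * wF S) * w ^ 2 := by ring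
    rw [e2]
    linarith
  have h8 : κ * w ^ 2 ≤ w * (1 + c) := le_of_mul_le_mul_left h7 (by positivity)
  rcases hw0.eq_or_lt with h0 | h0
  · rw [← h0]
    linarith
  · have h9 : w * (w * κ) ≤ w * (1 + c) := by
      refine le_trans (le_of_eq (by ring)) h8
    exact le_of_mul_le_mul_left h9 h0

theorem mlemma (h : Fam t L κ X G) : ∀ (i : ℕ) (S : Finset (Fin n × Bool)),
    S.card + i = t + 1 → (∀ T ∈ G, S ⊆ T → zS G S T ≤ (3 * L / κ) ^ i) ∧
      (1 ≤ i → wS G S ≤ (3 * L / κ) ^ i) := by
  have hκ := h.pos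
  have hκ1 := h.le_one
  have hL : (1 : ℝ) ≤ L := by exact_mod_cast h.one_le
  have hb1 : (1 : ℝ) ≤ 3 * L / κ := by
    rw [le_div_iff₀ hκ]
    linarith
  intro i
  induction i with
  | zero =>
    intro S hS
    refine ⟨fun T hT hST => ?_, fun h => absurd h (by norm_num)⟩
    rw [zS_top h (by omega) hT hST]
    simp
  | succ i ih =>
    intro S hS
    set b := (3 * (L : ℝ) / κ) ^ i with hb
    have hb0 : 1 ≤ b := one_le_pow₀ hb1
    have hstep : ∀ T ∈ G, S ⊆ T → zS G S T ≤ wS G S + L * b := by
      intro T hT hST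
      refine (zS_step hST).trans ?_
      have h1 : ∑ l ∈ T \ S, zS G (insert l S) T ≤ ∑ _l ∈ T \ S, b := by
        refine sum_le_sum fun l hl => ?_
        rw [mem_sdiff] at hl
        refine (ih (insert l S) ?_).1 T hT (insert_subset hl.1 hST)
        rw [card_insert_of_notMem hl.2]
        omega
      rw [sum_const, nsmul_eq_mul] at h1
      have h2 : ((T \ S).card : ℝ) ≤ L := by
        have := (card_le_card (sdiff_subset (s := T) (t := S))).trans (h.len T hT)
        exact_mod_cast this
      have h3 : ((T \ S).card : ℝ) * b ≤ L * b :=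
        mul_le_mul_of_nonneg_right h2 (by linarith)
      linarith
    have hw := wS_le h (S := S) (c := L * b) (by positivity) (by omega) hstep
    have hLb : 1 ≤ L * b := by nlinarith
    have hw2 : wS G S ≤ 2 * L * b / κ := by
      refine hw.trans (div_le_div_of_nonneg_right ?_ hκ.le)
      linarith
    have e : (3 * (L : ℝ) / κ) ^ (i + 1) = 3 * L * b / κ := by
      rw [pow_succ, ← hb]
      ring
    rw [e]
    have h3 : 3 * (L : ℝ) * b / κ = 2 * L * b / κ + L * b / κ := by ring
    have h4 : L * b ≤ L * b / κ := by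
      rw [le_div_iff₀ hκ]
      nlinarith
    refine ⟨fun T hT hST => ?_, fun _ => ?_⟩
    · have := hstep T hT hST
      linarith
    · have : 0 ≤ L * b / κ := by positivity
      linarith

theorem total_weight_le (h : Fam t L κ X G) : ∑ T ∈ G, wF T ≤ (3 * L / κ) ^ (t + 1) := by
  have h1 := (mlemma h (t + 1) ∅ (by simp)).2 (by omega)
  refine le_trans (le_of_eq ?_) h1
  unfold wS
  rw [filter_true_of_mem (fun T _ => empty_subset T)]
  simp

end Pool.Agent.H.MP_cba12a_lc
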