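import Pool.Agent.H.MP_cba12a_lc.Main4

/-!
Error of the final hypothesis of the learner for unate formulas with few occurrences.
-/

namespace Pool.Agent.H.MP_cba12a_lc

open Finset

variable {n m : ℕ}

/-- consequences of acceptance -/
theorem acc4_spec {A B R : ℕ} {τ : ℝ} {f : (Fin n → Bool) → Bool} {ω : Fin m → Fin n → Bool}
    {h : List (List Lit)} {C : List Lit} (hm : 0 < m) (hA : 0 < A) (hB : 0 < B)
    (hrep : Rep f ω R τ) (hr : h.length ≤ R) (hh : ∀ D ∈ h, ∀ l ∈ D, l.1 < n)
    (hC : ∀ l ∈ C, l.1 < n) (hacc : acc4 A B (smp f ω) h C = true) :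
    mu (ev f false C []) ≤ 1 / A + τ ∧ 1 / B - τ ≤ mu (ev f true C h) := by
  have hm' : (0 : ℝ) < m := by exact_mod_cast hm
  have hA' : (0 : ℝ) < A := by exact_mod_cast hA
  have hB' : (0 : ℝ) < B := by exact_mod_cast hB
  unfold acc4 at hacc
  rw [Bool.and_eq_true, decide_eq_true_iff, decide_eq_true_iff, cnt_smp, cnt_smp,
    length_smp] at hacc
  obtain ⟨h1, h2⟩ := hacc
  constructor
  · have h3 := (abs_lt.1 (hrep false C [] hC (by simp) (by simp))).1
    have h4 : em ω (ev f false C []) ≤ 1 / A := by
      unfold em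
      rw [div_le_div_iff₀ hm' hA', one_mul]
      exact_mod_cast h1
    linarith
  · have h3 := (abs_lt.1 (hrep true C h hC hr hh)).2
    have h4 : 1 / B ≤ em ω (ev f true C h) := by
      unfold em
      rw [div_le_div_iff₀ hB' hm', one_mul]
      exact_mod_cast h2
    linarith

theorem core4_spec {A B N R c k : ℕ} {V : List Lit} {ω : Fin m → Fin n → Bool}
    {f q : (Fin n → Bool) → Bool} {o : Fin n → Bool} {G : Finset (Finset (Fin n × Bool))}
    {τ ρ : ℝ} (hm : 0 < m) (hτ : 0 < τ) (hρτ : 256 * τ ≤ ρ) (hk : 1 ≤ k)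
    (hV : ∀ l ∈ V, ∃ i : Fin n, l = ((i : ℕ), o i)) (hVn : V.Nodup)
    (hq : Up o q) (hqG : ∀ x, q x = true ↔ ∃ T ∈ G, ∀ l ∈ T, x l.1 = l.2)
    (hread : ∀ i, (G.filter fun T => ∃ l ∈ T, l.1 = i).card ≤ k)
    (hGV : ∀ T ∈ G, ∀ l ∈ T, ((l.1 : ℕ), l.2) ∈ V)
    (hfq : dst f q ≤ τ) (hrep : Rep f ω R τ)
    (hc : (27 / 64 : ℝ) ^ c * k < 1)
    (hN1 : (V.length + 1) ^ (3 * c) ≤ N) (hN2 : (1 / ρ) ^ 10 ≤ (N : ℝ))
    (hA0 : 0 < A) (hB0 : 0 < B)
    (hA : 2 * τ * A ≤ 1) (hB : 1 ≤ ρ / 2 * B) (hR : 1 < R * (1 / B - τ)) :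
    mu (fun x => (core4 A B R N (3 * c) V (smp f ω)).any fun D => ev f false D [] x) ≤
        R * (1 / A + τ) ∧
      2 * mu (ev q true [] (core4 A B R N (3 * c) V (smp f ω))) *
        mu (ev q false [] (core4 A B R N (3 * c) V (smp f ω))) ≤ n * (k * ρ) := by
  have hVr : ∀ l ∈ V, l.1 < n := by
    intro l hl
    obtain ⟨j, rfl⟩ := hV l hl
    exact j.2
  set H : ℕ → List (List Lit) := fun j => (step4 A B N (3 * c) V (smp f ω))^[j] [] with hH
  have hsucc : ∀ j, H (j + 1) = step4 A B N (3 * c) V (smp f ω) (H j) := by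
    intro j
    simp only [hH]
    rw [Function.iterate_succ_apply']
  have hbd : ∀ j, Bd j (V.length + 3 * c + 1) V (H j) := fun j =>
    bd_core4 A B N (3 * c) V (smp f ω) j
  have hlits : ∀ j, ∀ D ∈ H j, ∀ l ∈ D, l.1 < n := fun j D hD l hl =>
    hVr l (((hbd j).2 D hD).2 l hl)
  have hsmall : ∀ j, j ≤ R → ∀ D ∈ H j, mu (ev f false D []) ≤ 1 / A + τ := by
    intro j
    induction j with
    | zero => intro _ D hD; simp [hH] at hD
    | succ j ih =>
      intro hj D hD
      rw [hsucc] at hD
      unfold step4 at hD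
      rcases List.mem_append.1 hD with hD | hD
      · have hD' := mem_good4 (List.mem_of_mem_take hD)
        exact (acc4_spec hm hA0 hB0 hrep ((hbd j).1.trans (by omega)) (hlits j)
          (fun l hl => hVr l (hD'.1.2 l hl)) hD'.2).1
      · exact ih (by omega) D hD
  have hgain : ∀ j, j ≤ R → (∀ i < j, good4 A B N (3 * c) V (smp f ω) (H i) ≠ []) →
      mu (ev f true [] (H j)) ≤ 1 - j * (1 / B - τ) := by
    intro j
    induction j with
    | zero => intro _ _; simpa using mu_le_one _
    | succ j ih =>
      intro hj hg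
      have h1 := ih (by omega) (fun i hi => hg i (by omega))
      have h2 := hg j (by omega)
      cases hgl : good4 A B N (3 * c) V (smp f ω) (H j) with
      | nil => exact absurd hgl h2
      | cons C rest =>
        have hC := mem_good4 (A := A) (B := B) (N := N) (k := 3 * c) (V := V) (S := smp f ω)
          (h := H j) (C := C) (by rw [hgl]; simp)
        have h3 : H (j + 1) = C :: H j := by
          rw [hsucc]
          unfold step4
          rw [hgl]
          simp
        have h4 := (acc4_spec hm hA0 hB0 hrep ((hbd j).1.trans (by omega)) (hlits j)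
          (fun l hl => hVr l (hC.1.2 l hl)) hC.2).2
        have h5 := ev_nil_cons (f := f) (h := H j) (C := C)
        rw [h3]
        push_cast
        linarith
  have hfix : ∃ i < R, good4 A B N (3 * c) V (smp f ω) (H i) = [] := by
    by_contra hcon
    push Not at hcon
    have h1 := hgain R le_rfl (fun i hi => hcon i hi)
    have h2 := mu_nonneg (ev f true [] (H R))
    linarith
  obtain ⟨i, hi, hgi⟩ := hfix
  have hstay : ∀ d, H (i + d) = H i := by
    intro d
    induction d with
    | zero => rfl
    | succ d ih =>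
      rw [← add_assoc, hsucc, ih]
      unfold step4
      rw [hgi]
      simp
  have hfinal : core4 A B R N (3 * c) V (smp f ω) = H i := by
    have := hstay (R - i)
    rw [show i + (R - i) = R by omega] at this
    exact this
  rw [hfinal]
  constructor
  · refine (mu_any_le (H i) (fun D => ev f false D [])).trans ?_
    refine (sum_le_of_forall _ (1 / A + τ) ?_).trans ?_
    · intro y hy
      obtain ⟨D, hD, rfl⟩ := List.mem_map.1 hy
      exact hsmall i (by omega) D hD
    · rw [List.length_map]
      have h1 : ((H i).length : ℝ) ≤ R := by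
        have := (hbd i).1.trans hi.le
        exact_mod_cast this
      exact mul_le_mul_of_nonneg_right h1 (by positivity)
  · have hk' : (0 : ℝ) < k := by exact_mod_cast hk
    have hρ0 : 0 < ρ := by linarith
    have hpv : ∀ j : Fin n, mu (pv q (H i) j (o j) []) ≤ k * ρ := by
      intro j
      by_contra hcon
      have h1 := not_le.1 hcon
      exact good4_ne_nil hm hτ hρτ hV hVn hq hqG hread hGV hfq hrep hc hN1 hN2 hA hB
        ((hbd i).1.trans (by omega)) (fun D hD l hl => ((hbd i).2 D hD).2 l hl)
        (i := j) h1.le (lt_trans (by positivity) h1) hgi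
    have h2 := iso_pv hq (h := H i) (fun D hD l hl => hV l (((hbd i).2 D hD).2 l hl))
    refine h2.trans ?_
    calc ∑ j, mu (pv q (H i) j (o j) []) ≤ ∑ _j : Fin n, (k * ρ) := sum_le_sum fun j _ => hpv j
      _ = n * (k * ρ) := by simp

/-- the final hypothesis: the constant `true` if there are few negative samples -/
def fin4 (a : ℕ) (S : Samples) (H : List (List Lit)) : List (List Lit) :=
  if cnt S false [] [] * (2 * a) ≤ S.length then [[]] else H

theorem fin4_error {a R : ℕ} {τ : ℝ} {f q : (Fin n → Bool) → Bool} {ω : Fin m → Fin n → Bool}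
    {H : List (List Lit)} (hm : 0 < m) (ha : 1 ≤ a) (hτ : 0 < τ) (hτa : 32 * a * τ ≤ 1)
    (hrep : Rep f ω R τ) (hfq : dst f q ≤ τ)
    (hFP : mu (fun x => H.any fun D => ev f false D [] x) ≤ 1 / (16 * a))
    (hiso : 2 * mu (ev q true [] H) * mu (ev q false [] H) ≤ 1 / (8 * a ^ 2)) :
    mu (errE f (fin4 a (smp f ω) H)) ≤ 1 / a := by
  have hm' : (0 : ℝ) < m := by exact_mod_cast hm
  have ha' : (1 : ℝ) ≤ a := by exact_mod_cast ha
  have ha0 : (0 : ℝ) < a := by linarith
  have hτa' : τ ≤ 1 / (32 * a) := by
    rw [le_div_iff₀ (by positivity)]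
    linarith
  have h0 := abs_lt.1 (hrep false [] [] (by simp) (by simp) (by simp))
  have e32 : (1 : ℝ) / (32 * a) = (1 / 32) * (1 / a) := by field_simp
  have e16 : (1 : ℝ) / (16 * a) = (1 / 16) * (1 / a) := by field_simp
  have e2 : (1 : ℝ) / (2 * a) = (1 / 2) * (1 / a) := by field_simp
  have hinv : (0 : ℝ) < 1 / a := by positivity
  rw [e32] at hτa'
  rw [e16] at hFP
  unfold fin4
  split_ifs with hcase
  · -- few negative samples
    have h1 : em ω (ev f false [] []) ≤ 1 / (2 * a) := by
      rw [cnt_smp, length_smp] at hcase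
      unfold em
      rw [div_le_div_iff₀ hm' (by positivity), one_mul]
      exact_mod_cast hcase
    rw [e2] at h1
    have h2 : mu (errE f [[]]) ≤ mu (ev f false [] []) := by
      refine mu_mono ?_
      intro x hx
      rw [errE_iff] at hx
      rw [ev_iff]
      have h3 : satD (List.ofFn x) [[]] = true := rfl
      rw [h3] at hx
      refine ⟨?_, rfl, rfl⟩
      cases hf : f x
      · rfl
      · exact absurd hf hx
    linarith
  · -- many negative samples
    have h1 : 1 / (2 * a) ≤ em ω (ev f false [] []) := by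
      rw [cnt_smp, length_smp] at hcase
      have h2 := (not_le.1 hcase).le
      unfold em
      rw [div_le_div_iff₀ (by positivity) hm', one_mul]
      exact_mod_cast h2
    rw [e2] at h1
    -- decomposition of the negatives
    have h2 : mu (ev f false [] []) ≤ mu (ev f false [] H) +
        mu (fun x => H.any fun D => ev f false D [] x) := by
      refine mu_le_add ?_
      intro x hx
      rw [ev_iff] at hx
      cases hH : satD (List.ofFn x) H with
      | false => left; exact ev_iff.2 ⟨hx.1, rfl, hH⟩
      | true =>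
        right
        obtain ⟨D, hD, hs⟩ := satD_iff.1 hH
        rw [List.any_eq_true]
        exact ⟨D, hD, ev_iff.2 ⟨hx.1, hs, rfl⟩⟩
    have h3 := mu_ev_sub_le f q false [] H
    have h4 : 1 / 4 * (1 / a) ≤ mu (ev q false [] H) := by linarith
    have h5 : mu (ev q true [] H) ≤ 1 / 4 * (1 / a) := by
      by_contra hcon
      have h6 := not_le.1 hcon
      have h7 : (1 : ℝ) / (8 * a ^ 2) = 2 * (1 / 4 * (1 / a)) * (1 / 4 * (1 / a)) := by
        field_simp; norm_num
      rw [h7] at hiso
      have h8 : 2 * (1 / 4 * (1 / (a : ℝ))) * (1 / 4 * (1 / a)) <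
          2 * mu (ev q true [] H) * mu (ev q false [] H) := by
        have h9 : (0 : ℝ) < 1 / 4 * (1 / a) := by positivity
        calc 2 * (1 / 4 * (1 / (a : ℝ))) * (1 / 4 * (1 / a)) <
            2 * mu (ev q true [] H) * (1 / 4 * (1 / a)) := by nlinarith
          _ ≤ 2 * mu (ev q true [] H) * mu (ev q false [] H) :=
              mul_le_mul_of_nonneg_left h4 (by have := mu_nonneg (ev q true [] H); linarith)
      linarith
    have h6 := mu_ev_sub_le f q true [] H
    have htot : mu (errE f H) ≤
        mu (fun x => H.any fun D => ev f false D [] x) + mu (ev f true [] H) := by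
      refine mu_le_add ?_
      intro x hx
      rw [errE_iff] at hx
      cases hfx : f x with
      | false =>
        left
        rw [hfx] at hx
        have h1 : satD (List.ofFn x) H = true := by
          cases h : satD (List.ofFn x) H
          · exact absurd h.symm hx
          · rfl
        obtain ⟨D, hD, hs⟩ := satD_iff.1 h1
        rw [List.any_eq_true]
        exact ⟨D, hD, ev_iff.2 ⟨hfx, hs, rfl⟩⟩
      | true =>
        right
        rw [hfx] at hx
        refine ev_iff.2 ⟨hfx, rfl, ?_⟩
        cases h : satD (List.ofFn x) H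
        · rfl
        · exact absurd h.symm hx
    linarith

end Pool.Agent.H.MP_cba12a_lc
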