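import Pool.Agent.H.MP_cba12a_lc.Ref4

/-!
Accuracy of the learner for unate formulas in which every variable occurs in few terms.
-/

namespace Pool.Agent.H.MP_cba12a_lc

open Finset

variable {n m : ℕ}

theorem greedy4 (q : (Fin n → Bool) → Bool) (h : List (List Lit)) (i : Fin n) (v : Bool)
    (T : List Lit) : ∀ j : ℕ,
    (∃ S : List Lit, S.length ≤ j ∧ (∀ l ∈ S, l ∈ T) ∧
      ∀ l ∈ T, 3 / 4 * mu (pv q h i v S) < mu (pv q h i v (l :: S))) ∨
    (∃ S : List Lit, S.length ≤ j ∧ (∀ l ∈ S, l ∈ T) ∧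
      mu (pv q h i v S) ≤ (3 / 4) ^ j * mu (pv q h i v [])) := by
  intro j
  induction j with
  | zero => right; exact ⟨[], by simp, by simp, by simp⟩
  | succ j ih =>
    rcases ih with ⟨S, h1, h2, h3⟩ | ⟨S, h1, h2, h3⟩
    · left; exact ⟨S, by omega, h2, h3⟩
    · by_cases hc : ∀ l ∈ T, 3 / 4 * mu (pv q h i v S) < mu (pv q h i v (l :: S))
      · left; exact ⟨S, by omega, h2, hc⟩
      · right
        push Not at hc
        obtain ⟨l, hl, hle⟩ := hc
        refine ⟨l :: S, by simpa using h1, ?_, ?_⟩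
        · intro l' hl'
          rcases List.mem_cons.1 hl' with rfl | hl'
          · exact hl
          · exact h2 l' hl'
        · rw [pow_succ]
          linarith

theorem mu_finset_le {ι : Type} [DecidableEq ι] {Ω : Type} [Fintype Ω] (L : Finset ι)
    (E : Ω → Bool) (F : ι → Ω → Bool) (h : ∀ x, E x = true → ∃ i ∈ L, F i x = true) :
    mu E ≤ ∑ i ∈ L, mu (F i) := by
  classical
  unfold mu
  rw [← sum_div]
  refine div_le_div_of_nonneg_right ?_ (by positivity)
  have h1 : ct E ≤ ∑ i ∈ L, ct (F i) := by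
    unfold ct
    refine (card_le_card ?_).trans card_biUnion_le
    intro x hx
    rw [mem_filter] at hx
    obtain ⟨i, hi, hF⟩ := h x hx.2
    rw [mem_biUnion]
    exact ⟨i, hi, mem_filter.2 ⟨mem_univ _, hF⟩⟩
  exact_mod_cast h1

/-- The main step. -/
theorem good4_ne_nil {A B N R c k : ℕ} {V : List Lit} {ω : Fin m → Fin n → Bool}
    {f q : (Fin n → Bool) → Bool} {o : Fin n → Bool} {G : Finset (Finset (Fin n × Bool))}
    {h : List (List Lit)} {τ ρ : ℝ} (hm : 0 < m) (hτ : 0 < τ) (hρτ : 256 * τ ≤ ρ)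
    (hV : ∀ l ∈ V, ∃ i : Fin n, l = ((i : ℕ), o i)) (hVn : V.Nodup)
    (hq : Up o q) (hqG : ∀ x, q x = true ↔ ∃ T ∈ G, ∀ l ∈ T, x l.1 = l.2)
    (hread : ∀ i, (G.filter fun T => ∃ l ∈ T, l.1 = i).card ≤ k)
    (hGV : ∀ T ∈ G, ∀ l ∈ T, ((l.1 : ℕ), l.2) ∈ V)
    (hfq : dst f q ≤ τ) (hrep : Rep f ω R τ)
    (hc : (27 / 64 : ℝ) ^ c * k < 1)
    (hN1 : (V.length + 1) ^ (3 * c) ≤ N) (hN2 : (1 / ρ) ^ 10 ≤ (N : ℝ))
    (hA : 2 * τ * A ≤ 1) (hB : 1 ≤ ρ / 2 * B)
    (hr : h.length ≤ R) (hh : ∀ D ∈ h, ∀ l ∈ D, l ∈ V)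
    {i : Fin n} (hπ : k * ρ ≤ mu (pv q h i (o i) [])) (hπ0 : 0 < mu (pv q h i (o i) [])) :
    good4 A B N (3 * c) V (smp f ω) h ≠ [] := by
  classical
  have hm' : (0 : ℝ) < m := by exact_mod_cast hm
  have hρ0 : 0 < ρ := by linarith
  have hVr : ∀ l ∈ V, l.1 < n := by
    intro l hl
    obtain ⟨j, rfl⟩ := hV l hl
    exact j.2
  have hhn : ∀ D ∈ h, ∀ l ∈ D, l.1 < n := fun D hD l hl => hVr l (hh D hD l hl)
  have hno : ∀ D ∈ h, ((i : ℕ), !(o i)) ∉ D := by
    intro D hD hc
    obtain ⟨j, hj⟩ := hV _ (hh D hD _ hc)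
    simp only [Prod.mk.injEq] at hj
    have : i = j := Fin.ext hj.1
    subst this
    have h2 := hj.2
    cases ho : o i <;> simp [ho] at h2
  -- satisfied terms at pivotal points contain i
  have hpiv : ∀ x, pv q h i (o i) [] x = true → ∃ T ∈ G.filter (fun T => ∃ l ∈ T, l.1 = i),
      pv q h i (o i) ((T.filter fun l => l.1 ≠ i).toList.map fun l => ((l.1 : ℕ), l.2)) x =
        true := by
    intro x hx
    rw [pv_iff] at hx
    obtain ⟨hxi, hqx, hhx, hqf, _⟩ := hx
    obtain ⟨T, hT, hs⟩ := (hqG x).1 hqx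
    refine ⟨T, ?_, ?_⟩
    · rw [mem_filter]
      refine ⟨hT, ?_⟩
      by_contra hcon
      push Not at hcon
      have : q (flp i x) = true := (hqG _).2 ⟨T, hT, fun l hl => by
        rw [flp_ne (hcon l hl)]; exact hs l hl⟩
      rw [this] at hqf
      exact Bool.noConfusion hqf
    · rw [pv_iff]
      refine ⟨hxi, hqx, hhx, hqf, ?_⟩
      rw [sat_iff]
      intro l hl
      obtain ⟨l', hl', rfl⟩ := List.mem_map.1 hl
      rw [mem_toList, mem_filter] at hl'
      rw [getElem?_ofFn]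
      exact ⟨l'.1.2, hs l' hl'.1⟩
  have hex : ∃ T ∈ G.filter (fun T => ∃ l ∈ T, l.1 = i), mu (pv q h i (o i) []) ≤
      k * mu (pv q h i (o i) ((T.filter fun l => l.1 ≠ i).toList.map
        fun l => ((l.1 : ℕ), l.2))) := by
    by_contra hcon
    push Not at hcon
    have h1 := mu_finset_le (G.filter (fun T => ∃ l ∈ T, l.1 = i)) (pv q h i (o i) [])
      (fun T => pv q h i (o i) ((T.filter fun l => l.1 ≠ i).toList.map
        fun l => ((l.1 : ℕ), l.2))) hpiv
    set L := G.filter (fun T => ∃ l ∈ T, l.1 = i) with hL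
    have hLk : (L.card : ℝ) ≤ k := by exact_mod_cast hread i
    rcases L.eq_empty_or_nonempty with hemp | hne
    · rw [hemp, sum_empty] at h1
      linarith
    · have h2 : (k : ℝ) * ∑ T ∈ L, mu (pv q h i (o i) ((T.filter fun l => l.1 ≠ i).toList.map
          fun l => ((l.1 : ℕ), l.2))) < ∑ _T ∈ L, mu (pv q h i (o i) []) := by
        rw [mul_sum]
        exact sum_lt_sum_of_nonempty hne fun T hT => hcon T hT
      rw [sum_const, nsmul_eq_mul] at h2
      have h3 : (k : ℝ) * mu (pv q h i (o i) []) ≤ k * ∑ T ∈ L, mu (pv q h i (o i)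
          ((T.filter fun l => l.1 ≠ i).toList.map fun l => ((l.1 : ℕ), l.2))) :=
        mul_le_mul_of_nonneg_left h1 (by positivity)
      have h4 : (L.card : ℝ) * mu (pv q h i (o i) []) ≤ k * mu (pv q h i (o i) []) :=
        mul_le_mul_of_nonneg_right hLk hπ0.le
      linarith
  obtain ⟨T, hT, hTk⟩ := hex
  rw [mem_filter] at hT
  obtain ⟨hTG, l1, hl1, hl1i⟩ := hT
  set Tr : List Lit := (T.filter fun l => l.1 ≠ i).toList.map fun l => ((l.1 : ℕ), l.2) with hTr
  have hTrV : ∀ l ∈ Tr, l ∈ V := by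
    intro l hl
    obtain ⟨l', hl', rfl⟩ := List.mem_map.1 hl
    rw [mem_toList, mem_filter] at hl'
    exact hGV T hTG l' hl'.1
  have hTri : ∀ l ∈ Tr, l.1 ≠ i := by
    intro l hl
    obtain ⟨l', hl', rfl⟩ := List.mem_map.1 hl
    rw [mem_toList, mem_filter] at hl'
    intro hc
    exact hl'.2 (Fin.ext hc)
  -- the literal on i in T is (i, o i)
  have hl0V : ((i : ℕ), o i) ∈ V := by
    have h1 := hGV T hTG l1 hl1
    obtain ⟨j, hj⟩ := hV _ h1
    rw [hl1i] at hj h1
    simp only [Prod.mk.injEq] at hj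
    have : i = j := Fin.ext hj.1
    subst this
    rw [← hj.2]
    exact h1
  have hTo : ∀ l ∈ T, l.1 = i → l.2 = o i := by
    intro l hl hli
    obtain ⟨j, hj⟩ := hV _ (hGV T hTG l hl)
    simp only [Prod.mk.injEq] at hj
    have : l.1 = j := Fin.ext hj.1
    rw [hj.2, ← this, hli]
  set πT := mu (pv q h i (o i) Tr) with hπT
  have hk0 : (0 : ℝ) < k := by
    rcases Nat.eq_zero_or_pos k with h0 | h0
    · subst h0
      simp at hTk
      linarith
    · exact_mod_cast h0
  have hπTρ : ρ ≤ πT := by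
    have h1 : (k : ℝ) * ρ ≤ k * πT := hπ.trans hTk
    exact le_of_mul_le_mul_left h1 hk0
  -- the seed
  have hseed : ∃ S : List Lit, S.length ≤ 3 * c ∧ (∀ l ∈ S, l ∈ Tr) ∧
      ∀ l ∈ Tr, 3 / 4 * mu (pv q h i (o i) S) < mu (pv q h i (o i) (l :: S)) := by
    rcases greedy4 q h i (o i) Tr (3 * c) with h1 | ⟨S, -, hST, hSle⟩
    · exact h1
    · exfalso
      have h1 : πT ≤ mu (pv q h i (o i) S) := by
        refine mu_mono ?_
        intro x hx
        rw [pv_iff] at *
        exact ⟨hx.1, hx.2.1, hx.2.2.1, hx.2.2.2.1, sat_mono hST hx.2.2.2.2⟩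
      have h2 : ((3 : ℝ) / 4) ^ (3 * c) = (27 / 64) ^ c := by
        rw [pow_mul]; norm_num
      rw [h2] at hSle
      have h3 : (27 / 64 : ℝ) ^ c * mu (pv q h i (o i) []) ≤ (27 / 64 : ℝ) ^ c * (k * πT) :=
        mul_le_mul_of_nonneg_left hTk (by positivity)
      have h4 : (27 / 64 : ℝ) ^ c * (k * πT) < πT := by
        have : 0 < πT := by linarith
        calc (27 / 64 : ℝ) ^ c * (k * πT) = ((27 / 64 : ℝ) ^ c * k) * πT := by ring
          _ < 1 * πT := mul_lt_mul_of_pos_right hc this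
          _ = πT := one_mul _
      linarith
  obtain ⟨S, hSk, hST, hSl⟩ := hseed
  have hSV : ∀ l ∈ S, l ∈ V := fun l hl => hTrV l (hST l hl)
  have hSi : ∀ l ∈ S, l.1 ≠ i := fun l hl => hTri l (hST l hl)
  set α := mu (pv q h i (o i) S) with hα
  have hTS : πT ≤ α := by
    refine mu_mono ?_
    intro x hx
    rw [pv_iff] at *
    exact ⟨hx.1, hx.2.1, hx.2.2.1, hx.2.2.2.1, sat_mono hST hx.2.2.2.2⟩
  have hαρ : ρ ≤ α := hπTρ.trans hTS
  -- estimates
  set pe : List Lit → ℝ := fun Z => em ω (ev f true (((i : ℕ), o i) :: Z) h) -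
    em ω (ev f true (neg ((i : ℕ), o i) :: Z) (strip ((i : ℕ), o i) h)) with hpe
  have hstripr : (strip ((i : ℕ), o i) h).length ≤ R := by
    unfold strip
    rw [List.length_map]; exact hr
  have hstripn : ∀ D ∈ strip ((i : ℕ), o i) h, ∀ l ∈ D, l.1 < n := by
    intro D hD l hl
    unfold strip at hD
    obtain ⟨D', hD', rfl⟩ := List.mem_map.1 hD
    exact hhn D' hD' l (List.mem_filter.1 hl).1
  have hest : ∀ Z : List Lit, (∀ l ∈ Z, l ∈ V) → (∀ l ∈ Z, l.1 ≠ i) →
      |pe Z - mu (pv q h i (o i) Z)| < 4 * τ := by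
    intro Z hZV hZi
    have hZn : ∀ l ∈ Z, l.1 < n := fun l hl => hVr l (hZV l hl)
    have h1 := abs_lt.1 (hrep true (((i : ℕ), o i) :: Z) h (by
      intro l hl
      rcases List.mem_cons.1 hl with rfl | hl
      · exact i.2
      · exact hZn l hl) hr hhn)
    have h2 := abs_lt.1 (hrep true (neg ((i : ℕ), o i) :: Z) (strip ((i : ℕ), o i) h) (by
      intro l hl
      rcases List.mem_cons.1 hl with rfl | hl
      · exact i.2
      · exact hZn l hl) hstripr hstripn)
    have h3 := pivot_identity hq (h := h) (i := i) (Z := Z) hhn hno hZi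
    have h4 := mu_ev_sub_le f q true (((i : ℕ), o i) :: Z) h
    have h5 := mu_ev_sub_le q f true (((i : ℕ), o i) :: Z) h
    have h6 := mu_ev_sub_le f q true (neg ((i : ℕ), o i) :: Z) (strip ((i : ℕ), o i) h)
    have h7 := mu_ev_sub_le q f true (neg ((i : ℕ), o i) :: Z) (strip ((i : ℕ), o i) h)
    rw [dst_comm q f] at h5 h7
    simp only [hpe]
    rw [abs_lt]
    constructor <;> linarith
  have hpcnt : ∀ Z : List Lit, (pcnt (smp f ω) h ((i : ℕ), o i) Z : ℝ) = max (pe Z * m) 0 := by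
    intro Z
    unfold pcnt
    rw [cnt_smp, cnt_smp]
    simp only [hpe]
    unfold em
    rw [← sub_div, div_mul_cancel₀ _ hm'.ne']
    set c1 := ec ω (ev f true (((i : ℕ), o i) :: Z) h)
    set c0 := ec ω (ev f true (neg ((i : ℕ), o i) :: Z) (strip ((i : ℕ), o i) h))
    rcases le_total c0 c1 with h1 | h1
    · have h1' : (c0 : ℝ) ≤ c1 := by exact_mod_cast h1
      rw [Nat.cast_sub h1, max_eq_left (by linarith)]
    · have h1' : (c1 : ℝ) ≤ c0 := by exact_mod_cast h1
      rw [Nat.sub_eq_zero_of_le h1, max_eq_right (by linarith)]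
      simp
  have hpeS := abs_lt.1 (hest S hSV hSi)
  rw [← hα] at hpeS
  have hpeS0 : 0 < pe S := by linarith
  have hpcS : (pcnt (smp f ω) h ((i : ℕ), o i) S : ℝ) = pe S * m := by
    rw [hpcnt, max_eq_left (by positivity)]
  -- membership in freq4
  have hfreq : ∀ l, l ∈ freq4 V (smp f ω) h ((i : ℕ), o i) S ↔
      l ∈ V ∧ l.1 ≠ i ∧ 23 * pe S ≤ 32 * pe (l :: S) := by
    intro l
    unfold freq4
    rw [List.mem_filter, Bool.and_eq_true, decide_eq_true_iff]
    refine and_congr_right fun _ => ?_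
    refine and_congr (by simp) ?_
    have e : (23 * pcnt (smp f ω) h ((i : ℕ), o i) S ≤
        32 * pcnt (smp f ω) h ((i : ℕ), o i) (l :: S)) ↔
        (23 * (pcnt (smp f ω) h ((i : ℕ), o i) S : ℝ) ≤
        32 * (pcnt (smp f ω) h ((i : ℕ), o i) (l :: S) : ℝ)) := by exact_mod_cast Iff.rfl
    rw [e, hpcS, hpcnt]
    constructor
    · intro h1
      rcases le_total (pe (l :: S) * m) 0 with h2 | h2
      · rw [max_eq_right h2] at h1
        have : 0 < pe S * m := by positivity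
        linarith
      · rw [max_eq_left h2] at h1
        have h3 : (23 * pe S) * m ≤ (32 * pe (l :: S)) * m := by linarith
        exact le_of_mul_le_mul_right h3 hm'
    · intro h1
      have h3 : (23 * pe S) * m ≤ (32 * pe (l :: S)) * m :=
        mul_le_mul_of_nonneg_right h1 hm'.le
      have h4 := le_max_left (pe (l :: S) * m) 0
      linarith
  have hconsV : ∀ l ∈ V, ∀ l' ∈ l :: S, l' ∈ V := by
    intro l hl l' hl'
    rcases List.mem_cons.1 hl' with rfl | hl'
    · exact hl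
    · exact hSV l' hl'
  have hconsi : ∀ l : Lit, l.1 ≠ i → ∀ l' ∈ l :: S, l'.1 ≠ i := by
    intro l hl l' hl'
    rcases List.mem_cons.1 hl' with rfl | hl'
    · exact hl
    · exact hSi l' hl'
  have hTfreq : ∀ l ∈ Tr, l ∈ freq4 V (smp f ω) h ((i : ℕ), o i) S := by
    intro l hl
    rw [hfreq]
    refine ⟨hTrV l hl, hTri l hl, ?_⟩
    have h1 := hSl l hl
    have h2 := abs_lt.1 (hest (l :: S) (hconsV l (hTrV l hl)) (hconsi l (hTri l hl)))
    linarith
  have hbias : ∀ l ∈ freq4 V (smp f ω) h ((i : ℕ), o i) S,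
      11 * α ≤ 16 * mu (pv q h i (o i) (l :: S)) := by
    intro l hl
    rw [hfreq] at hl
    have h2 := abs_lt.1 (hest (l :: S) (hconsV l hl.1) (hconsi l hl.2.1))
    linarith [hl.2.2]
  have hFn : ∀ l ∈ freq4 V (smp f ω) h ((i : ℕ), o i) S, l.1 < n :=
    fun l hl => hVr l ((hfreq l).1 hl).1
  have hFcard : (toF n (freq4 V (smp f ω) h ((i : ℕ), o i) S)).card =
      (freq4 V (smp f ω) h ((i : ℕ), o i) S).length :=
    toF_card_of_nodup (hVn.filter _) hFn
  have hcardΩ : (0 : ℝ) < Fintype.card (Fin n → Bool) := by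
    rw [Fintype.card_fun]
    simp
  have hα0 : 0 < α := by linarith
  have hctS : 0 < ct (pv q h i (o i) S) := by
    by_contra hcon
    have : ct (pv q h i (o i) S) = 0 := by omega
    have : α = 0 := by rw [hα, mu, this]; simp
    linarith
  have hb := bias (pv q h i (o i) S) (toF n (freq4 V (smp f ω) h ((i : ℕ), o i) S)) (by
    intro l hl
    have hl' := mem_toF.1 hl
    have h1 := hbias _ hl'
    have hli := ((hfreq _).1 hl').2.1
    have h2 : mu (fun x => pv q h i (o i) S x && (x l.1 == l.2)) =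
        mu (pv q h i (o i) (((l.1 : ℕ), l.2) :: S)) := by
      refine mu_congr ?_
      intro x
      rw [Bool.and_eq_true, pv_iff, pv_iff, sat_cons, getElem?_ofFn, beq_iff_eq]
      constructor
      · rintro ⟨⟨a1, a2, a3, a4, a5⟩, a6⟩
        exact ⟨a1, a2, a3, a4, ⟨l.1.2, a6⟩, a5⟩
      · rintro ⟨a1, a2, a3, a4, ⟨_, a6⟩, a5⟩
        exact ⟨⟨a1, a2, a3, a4, a5⟩, a6⟩
    rw [← h2, hα] at h1
    unfold mu at h1
    rw [mul_div_assoc', mul_div_assoc', div_le_div_iff_of_pos_right hcardΩ] at h1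
    exact_mod_cast h1) hctS
  rw [hFcard, ← hα] at hb
  have hpowN : 2 ^ (freq4 V (smp f ω) h ((i : ℕ), o i) S).length ≤ N := by
    have h2 : ρ ^ 10 ≤ α ^ 10 := pow_le_pow_left₀ hρ0.le hαρ 10
    have h3 : (2 : ℝ) ^ (freq4 V (smp f ω) h ((i : ℕ), o i) S).length * ρ ^ 10 ≤ 1 :=
      le_trans (mul_le_mul_of_nonneg_left h2 (by positivity)) hb
    have h4 : (2 : ℝ) ^ (freq4 V (smp f ω) h ((i : ℕ), o i) S).length ≤ (1 / ρ) ^ 10 := by
      rw [one_div_pow, le_div_iff₀ (by positivity)]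
      exact h3
    have h5 : (2 : ℝ) ^ (freq4 V (smp f ω) h ((i : ℕ), o i) S).length ≤ N := h4.trans hN2
    exact_mod_cast h5
  obtain ⟨W, hW, hWl⟩ := mem_subs hpowN (fun l => l ∈ Tr)
  set Cd : List Lit := ((i : ℕ), o i) :: (W ++ S) with hCd
  have hCT : ∀ l, l ∈ W ++ S ↔ l ∈ Tr := by
    intro l
    rw [List.mem_append, hWl]
    constructor
    · rintro (h1 | h1)
      · exact h1.2
      · exact hST l h1
    · intro h1
      exact Or.inl ⟨hTfreq l h1, h1⟩
  have hsatC : ∀ x : Fin n → Bool, sat (List.ofFn x) Cd = true ↔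
      x i = o i ∧ sat (List.ofFn x) Tr = true := by
    intro x
    rw [hCd, sat_cons, getElem?_ofFn, sat_congr hCT]
    constructor
    · rintro ⟨⟨_, h1⟩, h2⟩; exact ⟨h1, h2⟩
    · rintro ⟨h1, h2⟩; exact ⟨⟨i.2, h1⟩, h2⟩
  have hsatT : ∀ x : Fin n → Bool, sat (List.ofFn x) Cd = true → q x = true := by
    intro x hx
    rw [hsatC] at hx
    rw [hqG]
    refine ⟨T, hTG, fun l hl => ?_⟩
    by_cases hli : l.1 = i
    · rw [hli, hx.1, hTo l hl hli]
    · have h1 := sat_iff.1 hx.2 ((l.1 : ℕ), l.2) (List.mem_map.2 ⟨l, mem_toList.2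
        (mem_filter.2 ⟨hl, hli⟩), rfl⟩)
      rw [getElem?_ofFn] at h1
      exact h1.2
  have hCn : ∀ l ∈ Cd, l.1 < n := by
    intro l hl
    rcases List.mem_cons.1 hl with rfl | hl
    · exact i.2
    · exact hVr l (hTrV l ((hCT l).1 hl))
  have hacc : acc4 A B (smp f ω) h Cd = true := by
    unfold acc4
    rw [Bool.and_eq_true, decide_eq_true_iff, decide_eq_true_iff, cnt_smp, cnt_smp, length_smp]
    constructor
    · have h1 : mu (ev f false Cd []) ≤ τ := by
        have h2 := mu_ev_sub_le f q false Cd []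
        have h3 : mu (ev q false Cd []) = 0 := by
          unfold mu ct
          rw [filter_false_of_mem]
          · simp
          · intro x _ hx
            rw [ev_iff] at hx
            rw [hsatT x hx.2.1] at hx
            exact Bool.noConfusion hx.1
        linarith
      have h2 := (abs_lt.1 (hrep false Cd [] hCn (by simp) (by simp))).2
      have h3 : em ω (ev f false Cd []) ≤ 2 * τ := by linarith
      unfold em at h3
      rw [div_le_iff₀ hm'] at h3
      have h4 : (ec ω (ev f false Cd []) : ℝ) * A ≤ m := by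
        calc (ec ω (ev f false Cd []) : ℝ) * A ≤ (2 * τ * m) * A :=
              mul_le_mul_of_nonneg_right h3 (by positivity)
          _ = (2 * τ * A) * m := by ring
          _ ≤ 1 * m := mul_le_mul_of_nonneg_right hA hm'.le
          _ = m := one_mul _
      exact_mod_cast h4
    · have h2 := (abs_lt.1 (hrep true Cd h hCn hr hhn)).1
      have h3 := mu_ev_sub_le q f true Cd h
      rw [dst_comm] at h3
      have h4 : πT ≤ mu (ev q true Cd h) := by
        refine mu_mono ?_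
        intro x hx
        rw [pv_iff] at hx
        rw [ev_iff, hsatC]
        exact ⟨hx.2.1, ⟨hx.1, hx.2.2.2.2⟩, hx.2.2.1⟩
      have h5 : ρ / 2 ≤ em ω (ev f true Cd h) := by linarith
      have h6 : 1 ≤ em ω (ev f true Cd h) * B :=
        hB.trans (mul_le_mul_of_nonneg_right h5 (by positivity))
      unfold em at h6
      rw [div_mul_eq_mul_div, le_div_iff₀ hm', one_mul] at h6
      exact_mod_cast h6
  refine List.ne_nil_of_mem (a := Cd) ?_
  unfold good4
  rw [List.mem_filter]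
  refine ⟨?_, hacc⟩
  rw [List.mem_flatMap]
  refine ⟨((i : ℕ), o i), hl0V, ?_⟩
  rw [List.mem_flatMap]
  refine ⟨S, mem_seeds hN1 hSk hSV, ?_⟩
  unfold cands4
  rw [List.mem_map]
  exact ⟨W, hW, rfl⟩

end Pool.Agent.H.MP_cba12a_lc
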