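import Pool.Agent.H.MP_cba12a_lc.Leaf5
import Pool.Agent.H.MP_cba12a_lc.Main4

/-!
Error of the hypothesis of the learner for formulas with few occurrences of every variable.
-/

namespace Pool.Agent.H.MP_cba12a_lc

open Finset

variable {n m : ℕ}

theorem length_flatMap_le {α β : Type} (L : List α) (f : α → List β) (K : ℕ)
    (h : ∀ x ∈ L, (f x).length ≤ K) : (L.flatMap f).length ≤ L.length * K := by
  induction L with
  | nil => simp
  | cons x L ih =>
    rw [List.flatMap_cons, List.length_append, List.length_cons, add_mul, one_mul]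
    have h1 := h x (by simp)
    have h2 := ih fun y hy => h y (by simp [hy])
    omega

theorem length_good5_le {A N k : ℕ} {S : Samples} {α : List Lit} :
    (good5 A N k (allLits n) S α).length ≤ 2 * n * (N + 1) ^ 2 := by
  unfold good5
  refine (List.length_filter_le _ _).trans ?_
  refine (length_flatMap_le _ _ ((N + 1) * (N + 1)) ?_).trans ?_
  · intro l _
    refine (length_flatMap_le _ _ (N + 1) ?_).trans ?_
    · intro Z _
      unfold cands5
      rw [List.length_map]
      exact (bd_subs N (allLits n) _ (fun l' hl' => (List.mem_filter.1 hl').1)).1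
    · exact Nat.mul_le_mul_right _ (bd_seeds N k (allLits n)).1
  · rw [length_allLits]
    exact le_of_eq (by ring)

theorem mem_good5 {A N k : ℕ} {S : Samples} {α D : List Lit} (hα : ∀ l ∈ α, l.1 < n)
    (hD : D ∈ good5 A N k (allLits n) S α) : tst A S D = true ∧ ∀ l ∈ D, l.1 < n := by
  unfold good5 at hD
  obtain ⟨h1, h2⟩ := List.mem_filter.1 hD
  refine ⟨h2, ?_⟩
  obtain ⟨l0, hl0, h1⟩ := List.mem_flatMap.1 h1
  obtain ⟨Z, hZ, h1⟩ := List.mem_flatMap.1 h1
  obtain ⟨W, hW, rfl⟩ := List.mem_map.1 h1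
  have hW' := (bd_subs N (allLits n) _ (fun l hl => (List.mem_filter.1 hl).1)).2 W hW
  intro l hl
  rcases List.mem_cons.1 hl with rfl | hl
  · exact mem_allLits.1 hl0
  · rcases List.mem_append.1 hl with hl | hl
    · exact mem_allLits.1 (hW'.2 l hl)
    · exact hα l hl

theorem tst_spec {A : ℕ} {τ : ℝ} {f : (Fin n → Bool) → Bool} {ω : Fin m → Fin n → Bool}
    {C : List Lit} (hm : 0 < m) (hA : 0 < A) (hrep : Rep f ω 0 τ)
    (hC : ∀ l ∈ C, l.1 < n) (h : tst A (smp f ω) C = true) :
    mu (ev f false C []) ≤ 1 / A + τ := by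
  have hm' : (0 : ℝ) < m := by exact_mod_cast hm
  have hA' : (0 : ℝ) < A := by exact_mod_cast hA
  unfold tst at h
  rw [decide_eq_true_iff, cnt_smp, length_smp] at h
  have h3 := (abs_lt.1 (hrep false C [] hC (by simp) (by simp))).1
  have h4 : em ω (ev f false C []) ≤ 1 / A := by
    unfold em
    rw [div_le_div_iff₀ hm' hA', one_mul]
    exact_mod_cast h
  linarith

theorem maj_spec {a : ℕ} {τ : ℝ} {f : (Fin n → Bool) → Bool} {ω : Fin m → Fin n → Bool}
    {α : List Lit} (hm : 0 < m) (ha : 1 ≤ a) (hτ : 0 < τ) (hrep : Rep f ω 0 τ)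
    (hαd : (α.map Prod.fst).Nodup) (hαn : ∀ l ∈ α, l.1 < n)
    (h : maj a (smp f ω) α = true) :
    mu (ev f false α []) ≤ wt α * (1 / (8 * a)) + 2 * τ := by
  have hm' : (0 : ℝ) < m := by exact_mod_cast hm
  have ha' : (1 : ℝ) ≤ a := by exact_mod_cast ha
  have h1 := (abs_lt.1 (hrep false α [] hαn (by simp) (by simp)))
  have h2 := (abs_lt.1 (hrep true α [] hαn (by simp) (by simp)))
  have h3 := mu_leaf (f := f) hαd hαn
  have h4 : em ω (ev f false α []) * (8 * a) ≤
      em ω (ev f false α []) + em ω (ev f true α []) := by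
    unfold maj at h
    rw [decide_eq_true_iff, cnt_smp, cnt_smp] at h
    unfold em
    rw [← add_div, div_mul_eq_mul_div, div_le_div_iff_of_pos_right hm']
    exact_mod_cast h
  have h5 : em ω (ev f false α []) * (8 * a) ≤ wt α + 2 * τ := by linarith [h1.2, h2.2]
  have h6 : em ω (ev f false α []) ≤ (wt α + 2 * τ) * (1 / (8 * a)) := by
    rw [mul_one_div, le_div_iff₀ (by positivity)]
    exact h5
  have h7 : (1 : ℝ) / (8 * a) ≤ 1 / 8 := one_div_le_one_div_of_le (by norm_num) (by linarith)
  have h8 : 2 * τ * (1 / (8 * (a : ℝ))) ≤ 2 * τ * (1 / 8) :=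
    mul_le_mul_of_nonneg_left h7 (by positivity)
  nlinarith [h1.1]

theorem sum_map_le_tw (L : List (List Lit)) (F : List Lit → ℝ) (c d : ℝ)
    (h : ∀ α ∈ L, F α ≤ wt α * c + d) : (L.map F).sum ≤ tw L * c + L.length * d := by
  induction L with
  | nil => simp
  | cons α L ih =>
    rw [List.map_cons, List.sum_cons, tw_cons, List.length_cons]
    have h1 := h α (by simp)
    have h2 := ih fun β hβ => h β (by simp [hβ])
    push_cast
    linarith

theorem dst_eq_mu (f g : (Fin n → Bool) → Bool) : mu (fun x => !(f x == g x)) = dst f g := by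
  rw [mu_eq_div]
  unfold dst
  congr 2
  refine congrArg card ?_
  ext x
  simp

/-- density of a long term inside a leaf -/
theorem mu_leaf_term {α : List Lit} {C : Finset (Fin n × Bool)} {ℓ : ℕ}
    (hαd : (α.map Prod.fst).Nodup) (hαn : ∀ l ∈ α, l.1 < n)
    (hC : Disjoint (vs C) (vs (toF n α))) (hℓ : ℓ < C.card) :
    mu (fun x : Fin n → Bool => sat (List.ofFn x) α && decide (SatT C x)) ≤
      wt α * (1 / 2) ^ ℓ := by
  have hcard : (toF n α).card = α.length := toF_card_of_nodup (nodup_of_map hαd) hαn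
  have h1 := indep_le (toF n α) (fun y : Fin n → Bool => SatT C y) (by
    intro j hj y
    exact satT_flp (fun h => disjoint_left.1 hC h hj) y)
  have h2 := indep_le C (fun _ : Fin n → Bool => True) (fun _ _ _ => Iff.rfl)
  have e2 : (univ.filter fun _ : Fin n → Bool => True).card = 2 ^ n := by
    rw [filter_true_of_mem (fun _ _ => trivial), card_univ, Fintype.card_fun, Fintype.card_fin,
      Fintype.card_bool]
  simp only [and_true] at h2
  rw [e2] at h2
  rw [hcard] at h1
  rw [mu_eq_div]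
  have e : (univ.filter fun x : Fin n → Bool =>
      (sat (List.ofFn x) α && decide (SatT C x)) = true) =
      (univ.filter fun x : Fin n → Bool => SatT (toF n α) x ∧ SatT C x) := by
    ext x
    rw [mem_filter, mem_filter, Bool.and_eq_true, decide_eq_true_iff, satT_toF hαn]
  rw [e]
  have h3 : ((univ.filter fun x : Fin n → Bool => SatT (toF n α) x ∧ SatT C x).card : ℝ) *
      2 ^ α.length * 2 ^ C.card ≤ 2 ^ n := by
    have := (Nat.mul_le_mul_right (2 ^ C.card) h1).trans h2
    exact_mod_cast this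
  have h4 : (2 : ℝ) ^ ℓ ≤ 2 ^ C.card := pow_le_pow_right₀ (by norm_num) hℓ.le
  have h5 : ((univ.filter fun x : Fin n → Bool => SatT (toF n α) x ∧ SatT C x).card : ℝ) *
      2 ^ α.length * 2 ^ ℓ ≤ 2 ^ n := by
    refine le_trans ?_ h3
    exact mul_le_mul_of_nonneg_left h4 (by positivity)
  unfold wt
  rw [div_le_iff₀ (by positivity), one_div_pow, one_div_pow]
  have h6 : 1 / (2 : ℝ) ^ α.length * (1 / 2 ^ ℓ) * 2 ^ n = 2 ^ n / (2 ^ α.length * 2 ^ ℓ) := by
    field_simp
  rw [h6, le_div_iff₀ (by positivity)]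
  linarith

theorem core5_error {a A N k ℓ J : ℕ} {ω : Fin m → Fin n → Bool}
    {f g : (Fin n → Bool) → Bool} {F : Finset (Finset (Fin n × Bool))} {τ ρ : ℝ} (hm : 0 < m)
    (ha : 1 ≤ a) (hk : 1 ≤ k) (hA0 : 0 < A) (hτ : 0 < τ) (hρτ : 256 * τ ≤ ρ)
    (hlam : (3 : ℝ) * k * (3 / 4) ^ (4 * k) ≤ 1)
    (hgF : ∀ x, g x = true ↔ ∃ T ∈ F, SatT T x)
    (hread : ∀ j, (F.filter fun T => j ∈ vs T).card ≤ k)
    (hfg : dst f g ≤ τ) (hrep : Rep f ω 0 τ)
    (hρ : ρ * (64 * a * (2 * n + 1) ^ k * 2 ^ (8 * k ^ 2 * J) * 9 ^ ℓ) ≤ 1)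
    (hN0 : (8 * k ^ 2 + 1) ^ J ≤ N)
    (hN1 : (2 * n + 1) ^ (8 * k ^ 2) ≤ N) (hN2 : (1 / ρ) ^ 10 ≤ (N : ℝ))
    (hA : 2 * τ * A ≤ 1)
    (hJ : (1 - (1 / 2 : ℝ) ^ (8 * k ^ 2)) ^ J ≤ 1 / (8 * a))
    (hℓ : ((k * n + 1 : ℕ) : ℝ) * (1 / 2) ^ ℓ ≤ 1 / (8 * a))
    (hFP : (2 * n + 1) * ((N : ℝ) + 1) ^ 3 * (1 / A + 2 * τ) ≤ 1 / (8 * a))
    (hτa : τ ≤ 1 / (2 * a)) :
    mu (errE f (core5 a A N (8 * k ^ 2) J (allLits n) (smp f ω))) ≤ 1 / a := by
  classical
  have ha' : (1 : ℝ) ≤ a := by exact_mod_cast ha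
  have hA' : (0 : ℝ) < A := by exact_mod_cast hA0
  have hρ0 : 0 < ρ := by linarith
  obtain ⟨hLlen, hLtw, hLunf, hLd, hLcov⟩ :=
    tree_spec (A := A) (N := N) (k := 8 * k ^ 2) (n := n) (S := smp f ω) J hN0 J le_rfl
  have hLbd := bd_tree A N (8 * k ^ 2) n (smp f ω) J
  set L := tree A N (8 * k ^ 2) (allLits n) (smp f ω) J with hL
  have hLn : ∀ α ∈ L, ∀ l ∈ α, l.1 < n := fun α hα l hl =>
    mem_allLits.1 ((hLbd.2 α hα).2 l hl)
  have hLleaf : ∀ α ∈ L, ρ * (64 * a * (2 * n + 1) ^ k * 2 ^ α.length * 9 ^ ℓ) ≤ 1 := by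
    intro α hα
    refine le_trans ?_ hρ
    refine mul_le_mul_of_nonneg_left ?_ hρ0.le
    have h1 : (2 : ℝ) ^ α.length ≤ 2 ^ (8 * k ^ 2 * J) :=
      pow_le_pow_right₀ (by norm_num) (hLbd.2 α hα).1
    gcongr
  -- false positives at a leaf
  have hMτ : (2 : ℝ) * τ ≤ (2 * n + 1) * ((N : ℝ) + 1) ^ 2 * (1 / A + 2 * τ) := by
    have h1 : (1 : ℝ) ≤ (2 * n + 1) * ((N : ℝ) + 1) ^ 2 := by
      have h2 : (1 : ℝ) ≤ 2 * (n : ℝ) + 1 := by
        have : (0 : ℝ) ≤ n := by positivity
        linarith
      have h3 : (1 : ℝ) ≤ ((N : ℝ) + 1) ^ 2 := one_le_pow₀ (by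
        have : (0 : ℝ) ≤ N := by positivity
        linarith)
      nlinarith
    have h2 : (0 : ℝ) < 1 / A := by positivity
    nlinarith
  have hMA : (1 / (A : ℝ) + τ) ≤ (2 * n + 1) * ((N : ℝ) + 1) ^ 2 * (1 / A + 2 * τ) := by
    have h1 : (1 : ℝ) ≤ (2 * n + 1) * ((N : ℝ) + 1) ^ 2 := by
      have h2 : (1 : ℝ) ≤ 2 * (n : ℝ) + 1 := by
        have : (0 : ℝ) ≤ n := by positivity
        linarith
      have h3 : (1 : ℝ) ≤ ((N : ℝ) + 1) ^ 2 := one_le_pow₀ (by
        have : (0 : ℝ) ≤ N := by positivity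
        linarith)
      nlinarith
    have h2 : (0 : ℝ) < 1 / A := by positivity
    nlinarith
  have hleafFP : ∀ α ∈ L, mu (fun x : Fin n → Bool =>
      (leafOut a A N (8 * k ^ 2) (allLits n) (smp f ω) α).any fun D => ev f false D [] x) ≤
      wt α * (1 / (8 * a)) + (2 * n + 1) * ((N : ℝ) + 1) ^ 2 * (1 / A + 2 * τ) := by
    intro α hα
    have hw := mul_nonneg (wt_nonneg α) (show (0 : ℝ) ≤ 1 / (8 * a) by positivity)
    unfold leafOut
    split_ifs with hcase
    · have h1 : mu (fun x : Fin n → Bool => ([α] : List (List Lit)).any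
          fun D => ev f false D [] x) = mu (ev f false α []) := by
        refine mu_congr fun x => ?_
        simp
      rw [h1]
      rw [Bool.or_eq_true] at hcase
      rcases hcase with h | h
      · have h2 := tst_spec hm hA0 hrep (hLn α hα) h
        linarith
      · have h2 := maj_spec hm ha hτ hrep (hLd α hα) (hLn α hα) h
        linarith
    · refine (mu_any_le _ (fun D => ev f false D [])).trans ?_
      refine (sum_le_of_forall _ (1 / A + τ) ?_).trans ?_
      · intro y hy
        obtain ⟨D, hD, rfl⟩ := List.mem_map.1 hy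
        have h2 := mem_good5 (hLn α hα) hD
        exact tst_spec hm hA0 hrep h2.2 h2.1
      · rw [List.length_map]
        have h1 : ((good5 A N (8 * k ^ 2) (allLits n) (smp f ω) α).length : ℝ) ≤
            2 * n * ((N : ℝ) + 1) ^ 2 := by
          have := length_good5_le (n := n) (A := A) (N := N) (k := 8 * k ^ 2) (S := smp f ω)
            (α := α)
          exact_mod_cast this
        have h2 : (0 : ℝ) < 1 / A := by positivity
        have h3 : ((good5 A N (8 * k ^ 2) (allLits n) (smp f ω) α).length : ℝ) * (1 / A + τ) ≤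
            2 * n * ((N : ℝ) + 1) ^ 2 * (1 / A + τ) :=
          mul_le_mul_of_nonneg_right h1 (by positivity)
        have h4 : 2 * (n : ℝ) * ((N : ℝ) + 1) ^ 2 * (1 / A + τ) ≤
            (2 * n + 1) * ((N : ℝ) + 1) ^ 2 * (1 / A + 2 * τ) := by
          gcongr <;> linarith
        linarith
  have hFPall : mu (fun x : Fin n → Bool => L.any fun α =>
      (leafOut a A N (8 * k ^ 2) (allLits n) (smp f ω) α).any fun D => ev f false D [] x) ≤
      1 / (8 * a) + 1 / (8 * a) := by
    refine (mu_any_le L (fun α (x : Fin n → Bool) =>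
      (leafOut a A N (8 * k ^ 2) (allLits n) (smp f ω) α).any
        fun D => ev f false D [] x)).trans ?_
    refine (sum_map_le_tw L _ _ _ hleafFP).trans ?_
    rw [hLtw, one_mul]
    have h1 : (L.length : ℝ) ≤ (N : ℝ) + 1 := by
      have := hLbd.1
      exact_mod_cast this
    have h2 : (L.length : ℝ) * ((2 * n + 1) * ((N : ℝ) + 1) ^ 2 * (1 / A + 2 * τ)) ≤
        ((N : ℝ) + 1) * ((2 * n + 1) * ((N : ℝ) + 1) ^ 2 * (1 / A + 2 * τ)) :=
      mul_le_mul_of_nonneg_right h1 (by positivity)
    have h3 : ((N : ℝ) + 1) * ((2 * n + 1) * ((N : ℝ) + 1) ^ 2 * (1 / A + 2 * τ)) =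
        (2 * n + 1) * ((N : ℝ) + 1) ^ 3 * (1 / A + 2 * τ) := by ring
    linarith
  -- unfinished leaves
  have hunf : mu (fun x : Fin n → Bool => (L.filter fun α =>
      !(fin A N (8 * k ^ 2) (allLits n) (smp f ω) α)).any fun α => sat (List.ofFn x) α) ≤
      1 / (8 * a) := by
    refine (mu_any_le _ (fun α (x : Fin n → Bool) => sat (List.ofFn x) α)).trans ?_
    refine (sum_map_le_tw _ _ 1 0 ?_).trans ?_
    · intro α hα
      have hα' := (List.mem_filter.1 hα).1
      have h1 := mu_leaf (f := fun _ => true) (hLd α hα') (hLn α hα')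
      have h2 : mu (fun x : Fin n → Bool => sat (List.ofFn x) α) ≤
          mu (ev (fun _ : Fin n → Bool => true) true α []) :=
        mu_mono fun x hx => ev_iff.2 ⟨rfl, hx, rfl⟩
      have h3 := mu_nonneg (ev (fun _ : Fin n → Bool => true) false α [])
      linarith
    · rw [mul_one, mul_zero, add_zero]
      exact hLunf.trans hJ
  -- long terms
  have hlong : mu (fun x : Fin n → Bool => L.any fun α => decide (sat (List.ofFn x) α = true ∧
      ∃ C ∈ restr (toF n α) F, ℓ < C.card ∧ SatT C x)) ≤ 1 / (8 * a) := by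
    refine (mu_any_le L (fun α (x : Fin n → Bool) => decide (sat (List.ofFn x) α = true ∧
      ∃ C ∈ restr (toF n α) F, ℓ < C.card ∧ SatT C x))).trans ?_
    refine (sum_map_le_tw L _ (((k * n + 1 : ℕ) : ℝ) * (1 / 2) ^ ℓ) 0 ?_).trans ?_
    · intro α hα
      have h1 := mu_finset_le ((restr (toF n α) F).filter fun C => ℓ < C.card)
        (fun x : Fin n → Bool => decide (sat (List.ofFn x) α = true ∧
          ∃ C ∈ restr (toF n α) F, ℓ < C.card ∧ SatT C x))
        (fun C x => sat (List.ofFn x) α && decide (SatT C x)) (by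
          intro x hx
          rw [decide_eq_true_iff] at hx
          obtain ⟨h1, C, hC, h2, h3⟩ := hx
          refine ⟨C, mem_filter.2 ⟨hC, h2⟩, ?_⟩
          rw [Bool.and_eq_true, decide_eq_true_iff]
          exact ⟨h1, h3⟩)
      refine h1.trans ?_
      calc ∑ C ∈ (restr (toF n α) F).filter fun C => ℓ < C.card,
          mu (fun x : Fin n → Bool => sat (List.ofFn x) α && decide (SatT C x)) ≤
          ∑ _C ∈ (restr (toF n α) F).filter fun C => ℓ < C.card, wt α * (1 / 2) ^ ℓ := by
            refine sum_le_sum fun C hC => ?_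
            rw [mem_filter] at hC
            exact mu_leaf_term (hLd α hα) (hLn α hα) (restr_cons hC.1).2 hC.2
        _ = (((restr (toF n α) F).filter fun C => ℓ < C.card).card : ℝ) *
            (wt α * (1 / 2) ^ ℓ) := by rw [sum_const, nsmul_eq_mul]
        _ ≤ ((k * n + 1 : ℕ) : ℝ) * (wt α * (1 / 2) ^ ℓ) := by
            refine mul_le_mul_of_nonneg_right ?_ (mul_nonneg (wt_nonneg α) (by positivity))
            have h2 := ((card_filter_le (restr (toF n α) F) (fun C => ℓ < C.card)).trans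
              (restr_card _ _)).trans (card_le_of_read hread)
            exact_mod_cast h2
        _ = _ := by ring
    · rw [hLtw, mul_zero, add_zero, one_mul]
      exact hℓ
  -- the errors
  have htot : mu (errE f (core5 a A N (8 * k ^ 2) J (allLits n) (smp f ω))) ≤
      mu (fun x : Fin n → Bool => L.any fun α =>
        (leafOut a A N (8 * k ^ 2) (allLits n) (smp f ω) α).any fun D => ev f false D [] x) +
      (mu (fun x => !(f x == g x)) +
      (mu (fun x : Fin n → Bool => (L.filter fun α =>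
        !(fin A N (8 * k ^ 2) (allLits n) (smp f ω) α)).any fun α => sat (List.ofFn x) α) +
      mu (fun x : Fin n → Bool => L.any fun α => decide (sat (List.ofFn x) α = true ∧
        ∃ C ∈ restr (toF n α) F, ℓ < C.card ∧ SatT C x)))) := by
    refine (mu_le_add (E1 := fun x : Fin n → Bool => L.any fun α =>
        (leafOut a A N (8 * k ^ 2) (allLits n) (smp f ω) α).any fun D => ev f false D [] x)
      (E2 := fun x => (!(f x == g x)) || ((L.filter fun α =>
        !(fin A N (8 * k ^ 2) (allLits n) (smp f ω) α)).any (fun α => sat (List.ofFn x) α) ||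
        L.any fun α => decide (sat (List.ofFn x) α = true ∧
        ∃ C ∈ restr (toF n α) F, ℓ < C.card ∧ SatT C x))) ?_).trans ?_
    · intro x hx
      rw [errE_iff] at hx
      unfold core5 at hx
      rw [← hL] at hx
      cases hfx : f x with
      | false =>
        left
        rw [hfx] at hx
        have h1 : satD (List.ofFn x) (L.flatMap fun α =>
            leafOut a A N (8 * k ^ 2) (allLits n) (smp f ω) α) = true := by
          cases h : satD (List.ofFn x) (L.flatMap fun α =>
            leafOut a A N (8 * k ^ 2) (allLits n) (smp f ω) α)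
          · exact absurd h.symm hx
          · rfl
        obtain ⟨D, hD, hs⟩ := satD_iff.1 h1
        obtain ⟨α, hα, hD⟩ := List.mem_flatMap.1 hD
        rw [List.any_eq_true]
        refine ⟨α, hα, ?_⟩
        rw [List.any_eq_true]
        exact ⟨D, hD, ev_iff.2 ⟨hfx, hs, rfl⟩⟩
      | true =>
        right
        rw [hfx] at hx
        rw [Bool.or_eq_true, Bool.or_eq_true]
        cases hgx : g x with
        | false => left; rfl
        | true =>
          right
          obtain ⟨α, hα, hs⟩ := hLcov x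
          by_cases hfn : fin A N (8 * k ^ 2) (allLits n) (smp f ω) α = true
          · right
            rcases leaf5 (ℓ := ℓ) hm ha hk hτ hρτ hlam (hLd α hα) (hLn α hα) hgF hread hfn hfg
              hrep (hLleaf α hα) hN1 hN2 hA x hs hgx with ⟨D, hD, hsD⟩ | ⟨C, hC, h1, h2⟩
            · exfalso
              have h1 : satD (List.ofFn x) (L.flatMap fun α =>
                  leafOut a A N (8 * k ^ 2) (allLits n) (smp f ω) α) = true :=
                satD_iff.2 ⟨D, List.mem_flatMap.2 ⟨α, hα, hD⟩, hsD⟩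
              exact hx h1.symm
            · rw [List.any_eq_true]
              refine ⟨α, hα, ?_⟩
              rw [decide_eq_true_iff]
              exact ⟨hs, C, hC, h1, h2⟩
          · left
            rw [List.any_eq_true]
            refine ⟨α, ?_, hs⟩
            rw [List.mem_filter]
            exact ⟨hα, by simpa using hfn⟩
    · refine add_le_add_right ?_ _
      refine (mu_le_add (E1 := fun x => !(f x == g x)) (E2 := fun x : Fin n → Bool =>
        ((L.filter fun α =>
        !(fin A N (8 * k ^ 2) (allLits n) (smp f ω) α)).any (fun α => sat (List.ofFn x) α) ||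
        L.any fun α => decide (sat (List.ofFn x) α = true ∧
        ∃ C ∈ restr (toF n α) F, ℓ < C.card ∧ SatT C x))) ?_).trans ?_
      · intro x hx
        rwa [Bool.or_eq_true] at hx
      · refine add_le_add_right ?_ _
        refine mu_le_add ?_
        intro x hx
        rwa [Bool.or_eq_true] at hx
  rw [dst_eq_mu] at htot
  have e8 : (1 : ℝ) / (8 * a) = 1 / 8 * (1 / a) := by field_simp
  have e2 : (1 : ℝ) / (2 * a) = 1 / 2 * (1 / a) := by field_simp
  rw [e8] at hFPall hunf hlong
  rw [e2] at hτa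
  have : (0 : ℝ) < 1 / a := by positivity
  linarith

end Pool.Agent.H.MP_cba12a_lc
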