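import Pool.Agent.H.MP_cba12a_lc.Cand7

/-!
Error of the hypothesis of the learner for unate formulas in which any two terms share few
variables.
-/

namespace Pool.Agent.H.MP_cba12a_lc

open Finset

variable {n m : ℕ}

/-- the needed terms at all leaves, with a bound for the number of terms with the property -/
theorem leaves_need_le' {Ls : List (List Lit)} {E : (Fin n → Bool) → Bool}
    {F : Finset (Finset (Fin n × Bool))} {P : List Lit → Finset (Fin n × Bool) → Prop}
    [∀ α, DecidablePred (P α)]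
    {E' : List Lit → Finset (Fin n × Bool) → (Fin n → Bool) → Bool}
    {c M : ℝ} (hc : 0 ≤ c)
    (hE : ∀ x, E x = true → ∃ α ∈ Ls, ∃ T ∈ restr (toF n α) F, P α T ∧ E' α T x = true)
    (hM : ∀ α ∈ Ls, (((restr (toF n α) F).filter (P α)).card : ℝ) ≤ M)
    (h : ∀ α ∈ Ls, ∀ T ∈ restr (toF n α) F, P α T → mu (E' α T) ≤ c) :
    mu E ≤ Ls.length * (M * c) := by
  classical
  have h1 := leaves_le (Ls := Ls) (E := E) (E' := fun α x =>
    decide (∃ T ∈ (restr (toF n α) F).filter (P α), E' α T x = true)) (by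
      intro x hx
      obtain ⟨α, hα, T, hT, h2, h3⟩ := hE x hx
      exact ⟨α, hα, by rw [decide_eq_true_iff]; exact ⟨T, mem_filter.2 ⟨hT, h2⟩, h3⟩⟩) 0 (M * c)
      (by
      intro α hα
      rw [mul_zero, zero_add]
      refine (mu_finset_le ((restr (toF n α) F).filter (P α)) _ (E' α) (by
        intro x hx
        rw [decide_eq_true_iff] at hx
        exact hx)).trans ?_
      calc ∑ T ∈ (restr (toF n α) F).filter (P α), mu (E' α T) ≤
          ∑ _T ∈ (restr (toF n α) F).filter (P α), c := by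
            refine sum_le_sum fun T hT => ?_
            rw [mem_filter] at hT
            exact h α hα T hT.1 hT.2
        _ = (((restr (toF n α) F).filter (P α)).card : ℝ) * c := by
            rw [sum_const, nsmul_eq_mul]
        _ ≤ M * c := mul_le_mul_of_nonneg_right (hM α hα) hc)
  rw [mul_zero, zero_add] at h1
  exact h1

/-- number of short terms at a leaf -/
theorem Fam.card_short {t L ℓ : ℕ} {κ : ℝ} {X : Finset (Fin n)}
    {G : Finset (Finset (Fin n × Bool))} (h : Fam t L κ X G) (P : Finset (Fin n × Bool) → Prop)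
    [DecidablePred P] (hP : ∀ T, P T → T.card ≤ ℓ) :
    ((G.filter P).card : ℝ) ≤ 2 ^ ℓ * (3 * L / κ) ^ (t + 1) := by
  have h1 : ((G.filter P).card : ℝ) * (1 / 2) ^ ℓ ≤ ∑ T ∈ G, wF T := by
    calc ((G.filter P).card : ℝ) * (1 / 2) ^ ℓ = ∑ _T ∈ G.filter P, (1 / 2 : ℝ) ^ ℓ := by
          rw [sum_const, nsmul_eq_mul]
      _ ≤ ∑ T ∈ G.filter P, wF T := by
          refine sum_le_sum fun T hT => ?_
          unfold wF
          exact pow_le_pow_of_le_one (by norm_num) (by norm_num) (hP T (mem_filter.1 hT).2)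
      _ ≤ ∑ T ∈ G, wF T :=
          sum_le_sum_of_subset_of_nonneg (filter_subset _ _) fun T _ _ => (wF_pos T).le
  have h2 := h1.trans (total_weight_le h)
  have h3 : (0 : ℝ) < 2 ^ ℓ := by positivity
  calc ((G.filter P).card : ℝ) = 2 ^ ℓ * (((G.filter P).card : ℝ) * (1 / 2) ^ ℓ) := by
        rw [one_div_pow]
        field_simp
    _ ≤ 2 ^ ℓ * (3 * L / κ) ^ (t + 1) := mul_le_mul_of_nonneg_left h2 h3.le

theorem core7_error {a t N D Θ L L1 ℓ0 J k W B R : ℕ} {τ δ lam ν NS : ℝ}
    {f g : (Fin n → Bool) → Bool} {ω : Fin m → Fin n → Bool}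
    {F : Finset (Finset (Fin n × Bool))} (hm : 0 < m) (ha : 1 ≤ a) (hτ : 0 < τ)
    (hgF : ∀ x, g x = true ↔ ∃ T ∈ F, SatT T x)
    (hlen : ∀ T ∈ F, T.card ≤ L) (hL : 1 ≤ L)
    (hshare : ∀ T ∈ F, ∀ T' ∈ F, T ≠ T' → (vs T ∩ vs T').card ≤ t)
    (hfg : dst f g ≤ τ) (hrep : Rep f ω R τ)
    (hN1 : (2 * n + 1) ^ (t + 1) ≤ N) (hN2 : (2 * n + 1) ^ k ≤ N) (hN3 : (8 * Θ ^ 2 + 1) ^ ℓ0 ≤ N)
    {o : Fin n → Bool} (hg : Up o g) (hΘ : 0 < Θ) (hτΘ : 4 * Θ * τ ≤ 1)
    (hNJ : (t + 2) ^ J ≤ N) (hWJ : (t + 2) ^ J ≤ W) (hW : 2 ^ ((t + 1) * J) ≤ W)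
    (hJ : (1 - (1 / 2 : ℝ) ^ (t + 1)) ^ J ≤ 1 / (16 * a))
    (hB : 0 < B) (hR : 1 < R * (1 / B - τ))
    (hk : k = t * (t + 1) + 1) (hδ : 0 < δ) (hlam : 0 < lam)
    (hδL : 2 ^ (t + 1) * L * δ ≤ 1 / (64 * a))
    (hν : (k : ℝ) ^ (t + 2) * (2 ^ (t * (t + 2) * (t + 3)) * (δ / lam)) ≤ ν)
    (hD : 256 * a ≤ D) (hDν : 8 * D * ν ≤ 1 / (32 * a))
    (hDτ : 8 * D * (2 ^ k * (2 * τ)) * (W * 2 ^ L1) ≤ 1 / (32 * a))
    (hrich : lam * (L * (96 * a * L) ^ (t + 1)) ^ (t + 1) ≤ 1 / (16 * a))
    (hℓ : (1 / 2 : ℝ) ^ ℓ0 ≤ lam * δ ^ (t + 1)) (hℓk : k ≤ ℓ0)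
    (hL1 : (n : ℝ) ^ (t + 1) * (1 / 2) ^ L1 ≤ 1 / (16 * a))
    (hτK : 128 * a * 2 ^ (t + 1) * τ * W ≤ 1)
    (herr : τ + W * (2 * τ) + R * (2 * τ) +
      W * (n ^ (t + 1) * (1 / B + 16 * a * (2 * τ) + τ)) ≤ 1 / (8 * a))
    (hNS : 2 ^ ℓ0 * (96 * a * L) ^ (t + 1) ≤ NS)
    (hsh : W * (NS * (1 / B + 16 * a * (2 ^ ℓ0 * (1 / Θ + 4 * τ) + 2 * τ) + τ)) ≤
      1 / (8 * a)) :
    mu (errE f (core7 (16 * a) (16 * a) B R N (t + 1) J ℓ0 k D Θ n (smp f ω))) ≤ 1 / a := by
  classical
  have ha' : (1 : ℝ) ≤ a := by exact_mod_cast ha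
  have hrep0 : Rep f ω 0 τ := fun v C h hC hr hh => hrep v C h hC (hr.trans (Nat.zero_le _)) hh
  obtain ⟨hLlen, hLtw, hLunf, hLd, hLcov⟩ :=
    tree6_spec (A := 16 * a) (N := N) (k := t + 1) (n := n) (S := smp f ω) J hNJ J le_rfl
  have hLbd := bd_tree6 (16 * a) N (t + 1) n (smp f ω) J
  set Ls := tree6 (16 * a) N (t + 1) (allLits n) (smp f ω) J with hLs
  have hLn : ∀ α ∈ Ls, ∀ l ∈ α, l.1 < n := fun α hα l hl =>
    mem_allLits.1 ((hLbd.2 α hα).2 l hl)
  have hLl : ∀ α ∈ Ls, α.length ≤ (t + 1) * J := fun α hα => (hLbd.2 α hα).1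
  have hLW : (Ls.length : ℝ) ≤ W := by
    have := hLlen.trans hWJ
    exact_mod_cast this
  have hwtW : ∀ α ∈ Ls, (1 : ℝ) ≤ wt α * W := by
    intro α hα
    have h1 : (2 : ℝ) ^ ((t + 1) * J) ≤ W := by exact_mod_cast hW
    have h2 : (2 : ℝ) ^ α.length ≤ 2 ^ ((t + 1) * J) :=
      pow_le_pow_right₀ (by norm_num) (hLl α hα)
    unfold wt
    calc (1 : ℝ) = (1 / 2) ^ α.length * 2 ^ α.length := by rw [← mul_pow]; norm_num
      _ ≤ (1 / 2) ^ α.length * W := mul_le_mul_of_nonneg_left (h2.trans h1) (by positivity)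
  set L0 := Ls.filter fun α => !(rt (16 * a) (smp f ω) α) with hL0
  set Cs := L0.flatMap fun α => cands7 N ℓ0 k D Θ n (smp f ω) α with hCs
  have hcore : core7 (16 * a) (16 * a) B R N (t + 1) J ℓ0 k D Θ n (smp f ω) =
      (Ls.filter fun α => rt (16 * a) (smp f ω) α) ++
        greedy6 (16 * a) B R (smp f ω) Cs := rfl
  set H := greedy6 (16 * a) B R (smp f ω) Cs with hH
  have hCn : ∀ C ∈ Cs, ∀ l ∈ C, l.1 < n := by
    intro C hC
    obtain ⟨α, hα, hC⟩ := List.mem_flatMap.1 hC
    exact lt_cands7 (hLn α (List.mem_filter.1 hα).1) hC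
  obtain ⟨hgFP, hgcov⟩ := greedy6_spec (A := 16 * a) hm (by omega) hB hτ hrep hR hCn
  rw [← hH] at hgFP hgcov
  -- the family at a leaf
  have hfam : ∀ α ∈ Ls, fin6 (16 * a) N (t + 1) (allLits n) (smp f ω) α = true →
      rt (16 * a) (smp f ω) α = false →
      Fam t L (1 / (2 * (16 * a : ℕ))) (vs (toF n α)) (restr (toF n α) F) := by
    intro α hα hfin hrt
    refine leaf_fam hm hτ (hLd α hα) (hLn α hα) hgF hlen hshare hfin hrt hfg hrep0 hN1
      (by omega) hL ?_
    push_cast
    have h1 : 0 < wt α := by unfold wt; positivity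
    calc 8 * (16 * (a : ℝ)) * 2 ^ (t + 1) * τ
        ≤ (8 * (16 * (a : ℝ)) * 2 ^ (t + 1) * τ) * (wt α * W) :=
          le_mul_of_one_le_right (by positivity) (hwtW α hα)
      _ = (128 * a * 2 ^ (t + 1) * τ * W) * wt α := by ring
      _ ≤ 1 * wt α := mul_le_mul_of_nonneg_right hτK h1.le
      _ = wt α := one_mul _
  -- events
  set L1s := Ls.filter fun α => fin6 (16 * a) N (t + 1) (allLits n) (smp f ω) α &&
    !(rt (16 * a) (smp f ω) α) with hL1s
  obtain ⟨Ert, hErt⟩ : ∃ E : (Fin n → Bool) → Bool, ∀ x, E x = true ↔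
      ∃ α ∈ Ls.filter fun α => rt (16 * a) (smp f ω) α, ev f false α [] x = true :=
    ⟨fun x => decide _, fun x => decide_eq_true_iff⟩
  obtain ⟨Egr, hEgr⟩ : ∃ E : (Fin n → Bool) → Bool, ∀ x, E x = true ↔
      ∃ D ∈ H, ev f false D [] x = true :=
    ⟨fun x => decide _, fun x => decide_eq_true_iff⟩
  obtain ⟨Eun, hEun⟩ : ∃ E : (Fin n → Bool) → Bool, ∀ x, E x = true ↔
      ∃ α ∈ Ls.filter fun α => !(fin6 (16 * a) N (t + 1) (allLits n) (smp f ω) α),
        sat (List.ofFn x) α = true :=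
    ⟨fun x => decide _, fun x => decide_eq_true_iff⟩
  obtain ⟨Eri, hEri⟩ : ∃ E : (Fin n → Bool) → Bool, ∀ x, E x = true ↔
      ∃ α ∈ L1s, sat (List.ofFn x) α = true ∧ ∃ T ∈ restr (toF n α) F,
        Rich (restr (toF n α) F) t lam T ∧ SatT T x :=
    ⟨fun x => decide _, fun x => decide_eq_true_iff⟩
  obtain ⟨Elo, hElo⟩ : ∃ E : (Fin n → Bool) → Bool, ∀ x, E x = true ↔
      ∃ α ∈ L1s, sat (List.ofFn x) α = true ∧ ∃ T ∈ restr (toF n α) F,
        L1 < T.card ∧ SatT T x :=
    ⟨fun x => decide _, fun x => decide_eq_true_iff⟩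
  obtain ⟨Ene, hEne⟩ : ∃ E : (Fin n → Bool) → Bool, ∀ x, E x = true ↔
      ∃ α ∈ L1s, ∃ T ∈ restr (toF n α) F,
        (¬ Rich (restr (toF n α) F) t lam T ∧ T.card ≤ L1 ∧ ℓ0 ≤ T.card) ∧
        (f x = true ∧ (sat (List.ofFn x) α = true ∧ SatT T x) ∧
          satD (List.ofFn x) H = false) :=
    ⟨fun x => decide _, fun x => decide_eq_true_iff⟩
  obtain ⟨Ens, hEns⟩ : ∃ E : (Fin n → Bool) → Bool, ∀ x, E x = true ↔
      ∃ α ∈ L1s, ∃ T ∈ restr (toF n α) F, T.card ≤ ℓ0 ∧
        (f x = true ∧ (sat (List.ofFn x) α = true ∧ SatT T x) ∧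
          satD (List.ofFn x) H = false) :=
    ⟨fun x => decide _, fun x => decide_eq_true_iff⟩
  have hL1mem : ∀ α ∈ L1s, α ∈ Ls ∧ fin6 (16 * a) N (t + 1) (allLits n) (smp f ω) α = true ∧
      rt (16 * a) (smp f ω) α = false := by
    intro α hα
    obtain ⟨h1, h2⟩ := List.mem_filter.1 hα
    rw [Bool.and_eq_true, Bool.not_eq_true'] at h2
    exact ⟨h1, h2⟩
  have hLsub : ∀ p : List Lit → Bool, ((Ls.filter p).length : ℝ) ≤ W := by
    intro p
    refine le_trans ?_ hLW
    exact_mod_cast List.length_filter_le _ _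
  have htwf : ∀ p : List Lit → Bool, tw (Ls.filter p) ≤ 1 := by
    intro p
    rw [← hLtw]
    exact tw_filter_le _ _
  have h16 : (0 : ℝ) ≤ 1 / (16 * a) := by positivity
  have b1 : mu Ert ≤ 1 / (16 * a) + W * (2 * τ) := by
    refine (leaves_le (fun x hx => (hErt x).1 hx) (1 / ((16 * a : ℕ) : ℝ)) (2 * τ) ?_).trans ?_
    · intro α hα
      obtain ⟨h1, h2⟩ := List.mem_filter.1 hα
      exact rt_spec hm (by omega) hτ hrep0 (hLd α h1) (hLn α h1) h2
    · push_cast
      refine add_le_add ?_ ?_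
      · have h1 := htwf (fun α => rt (16 * a) (smp f ω) α)
        calc tw (Ls.filter fun α => rt (16 * a) (smp f ω) α) * (1 / (16 * (a : ℝ))) ≤
            1 * (1 / (16 * a)) := mul_le_mul_of_nonneg_right h1 h16
          _ = _ := one_mul _
      · exact mul_le_mul_of_nonneg_right (hLsub _) (by positivity)
  have b2 : mu Egr ≤ 1 / (16 * a) + R * (2 * τ) := by
    refine (mu_mono fun x hx => ?_).trans (hgFP.trans (le_of_eq ?_))
    · exact List.any_eq_true.2 ((hEgr x).1 hx)
    · push_cast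
      ring
  have b3 : mu Eun ≤ 1 / (16 * a) := by
    refine (leaves_le (fun x hx => (hEun x).1 hx) 1 0 ?_).trans ?_
    · intro α hα
      have hα' := (List.mem_filter.1 hα).1
      have := mu_leaf_le (hLd α hα') (hLn α hα')
      linarith
    · rw [mul_one, mul_zero, add_zero]
      exact hLunf.trans hJ
  have hdn : ∀ α ∈ L1s, (α.map Prod.fst).Nodup ∧ ∀ l ∈ α, l.1 < n := fun α hα =>
    ⟨hLd α (hL1mem α hα).1, hLn α (hL1mem α hα).1⟩
  have b4 : mu Eri ≤ 1 / (16 * a) := by
    refine leaves_terms_le h16 (htwf _) hdn (fun x hx => (hEri x).1 hx) ?_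
    intro α hα
    obtain ⟨h1, h2, h3⟩ := hL1mem α hα
    refine (rich_weight_le (hfam α h1 h2 h3) hlam.le).trans (le_trans (le_of_eq ?_) hrich)
    have e : (3 : ℝ) * L / (1 / (2 * ((16 * a : ℕ) : ℝ))) = 96 * a * L := by
      push_cast
      rw [div_div_eq_mul_div, div_one]
      ring
    rw [e]
  have b5 : mu Elo ≤ 1 / (16 * a) := by
    refine leaves_terms_le h16 (htwf _) hdn (fun x hx => (hElo x).1 hx) ?_
    intro α hα
    obtain ⟨h1, h2, h3⟩ := hL1mem α hα
    have hf := hfam α h1 h2 h3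
    calc ∑ T ∈ (restr (toF n α) F).filter fun T => L1 < T.card, wF T ≤
        ∑ _T ∈ (restr (toF n α) F).filter fun T => L1 < T.card, (1 / 2 : ℝ) ^ L1 := by
          refine sum_le_sum fun T hT => ?_
          unfold wF
          exact pow_le_pow_of_le_one (by norm_num) (by norm_num) (mem_filter.1 hT).2.le
      _ = (((restr (toF n α) F).filter fun T => L1 < T.card).card : ℝ) * (1 / 2) ^ L1 := by
          rw [sum_const, nsmul_eq_mul]
      _ ≤ (n : ℝ) ^ (t + 1) * (1 / 2) ^ L1 := by
          refine mul_le_mul_of_nonneg_right ?_ (by positivity)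
          have := (card_filter_le (restr (toF n α) F) (fun T => L1 < T.card)).trans hf.card_le
          exact_mod_cast this
      _ ≤ _ := hL1
  have b6 : mu Ene ≤ W * (n ^ (t + 1) * (1 / B + 16 * a * (2 * τ) + τ)) := by
    have hc0 : (0 : ℝ) ≤ 1 / B + 16 * a * (2 * τ) + τ := by positivity
    have h0 := leaves_need_le (Ls := L1s) (E := Ene) (F := F)
      (P := fun α T => ¬ Rich (restr (toF n α) F) t lam T ∧ T.card ≤ L1 ∧ ℓ0 ≤ T.card)
      (E' := fun α T x => decide (f x = true ∧ (sat (List.ofFn x) α = true ∧ SatT T x) ∧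
          satD (List.ofFn x) H = false)) (M := n ^ (t + 1)) hc0 (by
        intro x hx
        obtain ⟨α, hα, T, hT, h1, h2⟩ := (hEne x).1 hx
        exact ⟨α, hα, T, hT, h1, decide_eq_true h2⟩) (by
        intro α hα
        obtain ⟨h1, h2, h3⟩ := hL1mem α hα
        exact (hfam α h1 h2 h3).card_le) (by
        intro α hα T hT hP
        obtain ⟨h1, h2, h3⟩ := hL1mem α hα
        obtain ⟨C, hC, hCx⟩ := cand7_long hm ha hτ (hLd α h1) (hLn α h1) (hLl α h1) hgF hfg
          hrep0 (hfam α h1 h2 h3) hN2 hW hk hδ hlam hδL hν hD hDν hDτ hℓ hℓk hT hP.1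
          hP.2.1 hP.2.2
        have hCm : C ∈ Cs := List.mem_flatMap.2 ⟨α, List.mem_filter.2 ⟨h1, by
          rw [h3]; rfl⟩, List.mem_append_right _ hC⟩
        have h4 := hgcov C hCm
        have h5 : mu (ev f false C []) ≤ τ := by
          have h6 := mu_ev_sub_le f g false C []
          have h7 : mu (ev g false C []) = 0 := by
            unfold mu ct
            rw [filter_false_of_mem]
            · simp
            · intro x _ hx
              rw [ev_iff, hCx] at hx
              have h8 : g x = true := by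
                rw [hgF, restr_spec ((satT_toF (hLn α h1)).1 hx.2.1.1)]
                exact ⟨T, hT, hx.2.1.2⟩
              rw [h8] at hx
              exact Bool.noConfusion hx.1
          linarith
        have h6 : mu (fun x : Fin n → Bool => decide (f x = true ∧
            (sat (List.ofFn x) α = true ∧ SatT T x) ∧ satD (List.ofFn x) H = false)) =
            mu (ev f true C H) := by
          refine mu_congr fun x => ?_
          rw [decide_eq_true_iff, ev_iff, hCx]
        rw [h6]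
        refine h4.trans ?_
        push_cast
        have h7 : (16 * a : ℝ) * (mu (ev f false C []) + τ) ≤ 16 * a * (2 * τ) :=
          mul_le_mul_of_nonneg_left (by linarith) (by positivity)
        linarith)
    refine h0.trans ?_
    push_cast
    exact mul_le_mul_of_nonneg_right (hLsub _) (by positivity)
  have b7 : mu Ens ≤ W * (NS * (1 / B + 16 * a * (2 ^ ℓ0 * (1 / Θ + 4 * τ) + 2 * τ) + τ)) := by
    have hc0 : (0 : ℝ) ≤ 1 / B + 16 * a * (2 ^ ℓ0 * (1 / Θ + 4 * τ) + 2 * τ) + τ := by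
      positivity
    have hNS0 : 0 ≤ NS := le_trans (by positivity) hNS
    have h0 := leaves_need_le' (Ls := L1s) (E := Ens) (F := F)
      (P := fun _ T => T.card ≤ ℓ0)
      (E' := fun α T x => decide (f x = true ∧ (sat (List.ofFn x) α = true ∧ SatT T x) ∧
          satD (List.ofFn x) H = false)) (M := NS) hc0 (by
        intro x hx
        obtain ⟨α, hα, T, hT, h1, h2⟩ := (hEns x).1 hx
        exact ⟨α, hα, T, hT, h1, decide_eq_true h2⟩) (by
        intro α hα
        obtain ⟨h1, h2, h3⟩ := hL1mem α hα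
        refine ((hfam α h1 h2 h3).card_short (fun T => T.card ≤ ℓ0) (fun T h => h)).trans ?_
        refine le_trans (le_of_eq ?_) hNS
        have e : (3 : ℝ) * L / (1 / (2 * ((16 * a : ℕ) : ℝ))) = 96 * a * L := by
          push_cast
          rw [div_div_eq_mul_div, div_one]
          ring
        rw [e]) (by
        intro α hα T hT hP
        obtain ⟨h1, h2, h3⟩ := hL1mem α hα
        obtain ⟨C, hC, hCx, hCe⟩ := cand7_short hm hΘ (hLn α h1) hgF hfg hrep0 hg hτΘ hN3 hT hP
        have hCm : C ∈ Cs := List.mem_flatMap.2 ⟨α, List.mem_filter.2 ⟨h1, by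
          rw [h3]; rfl⟩, List.mem_append_left _ hC⟩
        have h4 := hgcov C hCm
        have h5 : mu (ev f false C []) ≤ 2 ^ ℓ0 * (1 / Θ + 4 * τ) + τ := by
          have h6 := mu_ev_sub_le f g false C []
          linarith
        have h6 : mu (fun x : Fin n → Bool => decide (f x = true ∧
            (sat (List.ofFn x) α = true ∧ SatT T x) ∧ satD (List.ofFn x) H = false)) ≤
            mu (ev f true C H) := by
          refine mu_mono fun x hx => ?_
          rw [decide_eq_true_iff] at hx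
          rw [ev_iff]
          exact ⟨hx.1, hCx x hx.2.1.1 hx.2.1.2, hx.2.2⟩
        refine h6.trans (h4.trans ?_)
        push_cast
        have h7 : (16 * a : ℝ) * (mu (ev f false C []) + τ) ≤
            16 * a * (2 ^ ℓ0 * (1 / Θ + 4 * τ) + 2 * τ) :=
          mul_le_mul_of_nonneg_left (by linarith) (by positivity)
        linarith)
    refine h0.trans ?_
    exact mul_le_mul_of_nonneg_right (hLsub _) (by positivity)
  -- the errors
  have hcases : ∀ x, errE f (core7 (16 * a) (16 * a) B R N (t + 1) J ℓ0 k D Θ n (smp f ω)) x =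
      true → Ert x = true ∨ Egr x = true ∨ (!(f x == g x)) = true ∨ Eun x = true ∨
      Eri x = true ∨ Elo x = true ∨ Ene x = true ∨ Ens x = true := by
    intro x hx
    rw [errE_iff, hcore] at hx
    cases hfx : f x with
    | false =>
      rw [hfx] at hx
      have h1 : satD (List.ofFn x) ((Ls.filter fun α => rt (16 * a) (smp f ω) α) ++ H) =
          true := by
        cases h : satD (List.ofFn x) ((Ls.filter fun α => rt (16 * a) (smp f ω) α) ++ H)
        · exact absurd h.symm hx
        · rfl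
      obtain ⟨C, hC, hs⟩ := satD_iff.1 h1
      rcases List.mem_append.1 hC with hC | hC
      · left
        exact (hErt x).2 ⟨C, hC, ev_iff.2 ⟨hfx, hs, rfl⟩⟩
      · right; left
        exact (hEgr x).2 ⟨C, hC, ev_iff.2 ⟨hfx, hs, rfl⟩⟩
    | true =>
      right; right
      rw [hfx] at hx
      cases hgx : g x with
      | false => left; rfl
      | true =>
        right
        have hHx : satD (List.ofFn x) ((Ls.filter fun α => rt (16 * a) (smp f ω) α) ++ H) =
            false := by
          cases h : satD (List.ofFn x) ((Ls.filter fun α => rt (16 * a) (smp f ω) α) ++ H)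
          · rfl
          · exact absurd h.symm hx
        obtain ⟨α, hα, hs⟩ := hLcov x
        cases hfn : fin6 (16 * a) N (t + 1) (allLits n) (smp f ω) α with
        | false =>
          left
          exact (hEun x).2 ⟨α, List.mem_filter.2 ⟨hα, by rw [hfn]; rfl⟩, hs⟩
        | true =>
          right
          cases hrt : rt (16 * a) (smp f ω) α with
          | true =>
            exfalso
            have : satD (List.ofFn x) ((Ls.filter fun α => rt (16 * a) (smp f ω) α) ++ H) =
                true := satD_iff.2 ⟨α, List.mem_append_left _ (List.mem_filter.2 ⟨hα, hrt⟩), hs⟩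
            rw [hHx] at this
            exact Bool.noConfusion this
          | false =>
            have hα1 : α ∈ L1s := List.mem_filter.2 ⟨hα, by rw [hfn, hrt]; rfl⟩
            have h1 := (restr_spec (F := F) ((satT_toF (hLn α hα)).1 hs)).1 ((hgF x).1 hgx)
            obtain ⟨T, hT, hTx⟩ := h1
            by_cases hTr : Rich (restr (toF n α) F) t lam T
            · left
              exact (hEri x).2 ⟨α, hα1, hs, T, hT, hTr, hTx⟩
            · right
              by_cases hTl : L1 < T.card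
              · left
                exact (hElo x).2 ⟨α, hα1, hs, T, hT, hTl, hTx⟩
              · right
                have hH0 : satD (List.ofFn x) H = false := by
                  cases h : satD (List.ofFn x) H with
                  | false => rfl
                  | true =>
                    exfalso
                    obtain ⟨C, hC, hCs⟩ := satD_iff.1 h
                    have : satD (List.ofFn x) ((Ls.filter fun α => rt (16 * a) (smp f ω) α) ++
                        H) = true := satD_iff.2 ⟨C, List.mem_append_right _ hC, hCs⟩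
                    rw [hHx] at this
                    exact Bool.noConfusion this
                rcases Nat.le_total ℓ0 T.card with hle | hle
                · left
                  exact (hEne x).2 ⟨α, hα1, T, hT, ⟨hTr, not_lt.1 hTl, hle⟩, hfx, ⟨hs, hTx⟩,
                    hH0⟩
                · right
                  exact (hEns x).2 ⟨α, hα1, T, hT, hle, hfx, ⟨hs, hTx⟩, hH0⟩
  have htot : mu (errE f (core7 (16 * a) (16 * a) B R N (t + 1) J ℓ0 k D Θ n (smp f ω))) ≤
      mu Ert + (mu Egr + (mu (fun x => !(f x == g x)) + (mu Eun + (mu Eri +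
        (mu Elo + (mu Ene + mu Ens)))))) := by
    refine (mu_le_add (E2 := fun x => Egr x || (!(f x == g x) || (Eun x || (Eri x ||
      (Elo x || (Ene x || Ens x)))))) (fun x hx => ?_)).trans (add_le_add_right ((mu_le_add
      (E2 := fun x => !(f x == g x) || (Eun x || (Eri x || (Elo x || (Ene x || Ens x)))))
      (fun x hx => ?_)).trans
      (add_le_add_right ((mu_le_add (E2 := fun x => Eun x || (Eri x || (Elo x ||
      (Ene x || Ens x)))) (fun x hx => ?_)).trans (add_le_add_right ((mu_le_add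
      (E2 := fun x => Eri x || (Elo x || (Ene x || Ens x))) (fun x hx => ?_)).trans
      (add_le_add_right ((mu_le_add
      (E2 := fun x => Elo x || (Ene x || Ens x)) (fun x hx => ?_)).trans
      (add_le_add_right ((mu_le_add (E2 := fun x => Ene x || Ens x) (fun x hx => ?_)).trans
      (add_le_add_right (mu_le_add (fun x hx => ?_)) _)) _)) _)) _)) _)) _)
    · simp only [Bool.or_eq_true]
      exact hcases x hx
    all_goals rwa [Bool.or_eq_true] at hx
  rw [dst_eq_mu] at htot
  have e16 : (1 : ℝ) / (16 * a) = 1 / 16 * (1 / a) := by field_simp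
  have e8 : (1 : ℝ) / (8 * a) = 1 / 8 * (1 / a) := by field_simp
  rw [e16] at b1 b2 b3 b4 b5
  rw [e8] at herr
  have : (0 : ℝ) < 1 / a := by positivity
  linarith

end Pool.Agent.H.MP_cba12a_lc
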