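import Pool.Agent.H.MP_cba12a_lc.Greedy8

/-!
Accuracy of the learner on representative samples.
-/

namespace Pool.Agent.H.MP_cba12a_lc

open Finset

variable {n m : ℕ}

theorem co_single {o : Fin n → Bool} {g : (Fin n → Bool) → Bool} (hg : Up o g) (i : Fin n) :
    co o g {i} = |cI g i| / 2 ^ n := by
  have h1 := cI_sign hg i
  have h2 : |cI g i| = sgn (o i) * cI g i := by
    rw [← abs_of_nonneg h1, abs_mul, abs_sgn, one_mul]
  rw [h2]
  unfold co cI
  congr 1
  rw [mul_sum]
  refine sum_congr rfl fun x _ => ?_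
  unfold chi sg1
  rw [prod_singleton]
  unfold sgn bR r
  cases x i <;> cases o i <;> cases g x <;> simp

theorem piv_le_co {o : Fin n → Bool} {g : (Fin n → Bool) → Bool} (hg : Up o g) (i : Fin n) :
    pr (fun x => x i = o i ∧ g x = true ∧ g (flp i x) = false) ≤ co o g {i} := by
  have hp : (0 : ℝ) < 2 ^ n := by positivity
  unfold co
  rw [le_div_iff₀ hp, ← sum_bR _ (fun x => (x i == o i) && (g x && !(g (flp i x))))
    (fun x => by simp)]
  have h1 : ∑ x, bR (g x) * chi o {i} x = ∑ x, bR (x i == o i) * bR (g x) -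
      ∑ x, bR (!(x i == o i)) * bR (g x) := by
    rw [← sum_sub_distrib]
    refine sum_congr rfl fun x _ => ?_
    unfold chi sg1
    rw [prod_singleton]
    unfold bR
    cases x i <;> cases o i <;> cases g x <;> simp
  have h2 : ∑ x, bR (!(x i == o i)) * bR (g x) = ∑ x, bR (x i == o i) * bR (g (flp i x)) := by
    rw [← sum_flp i]
    refine sum_congr rfl fun x _ => ?_
    rw [flp_same]
    congr 1
    unfold bR
    cases x i <;> cases o i <;> simp
  rw [h1, h2, ← sum_sub_distrib]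
  refine sum_le_sum fun x _ => ?_
  have h3 : x i = o i → g (flp i x) = true → g x = true := by
    intro a b
    have := up_flp hg (i := i) (x := flp i x) (by rw [flp_same, a]) b
    rwa [flp_flp] at this
  generalize g (flp i x) = u at *
  generalize g x = w at *
  generalize x i = p at *
  generalize o i = q at *
  unfold bR
  cases u <;> cases w <;> cases p <;> cases q <;> simp_all

theorem sat_ori {o : Fin n → Bool} {D : List Lit} (hD : Ori o D) {x : Fin n → Bool} :
    sat (List.ofFn x) D = true ↔ On o (fs n D) x := by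
  rw [sat_iff]
  constructor
  · intro h i hi
    rw [mem_fs] at hi
    obtain ⟨l, hl, hli⟩ := List.mem_map.1 hi
    obtain ⟨j, rfl⟩ := hD l hl
    have hji : j = i := Fin.ext hli
    subst hji
    have := h _ hl
    rw [getElem?_ofFn] at this
    exact this.2
  · intro h l hl
    obtain ⟨j, rfl⟩ := hD l hl
    rw [getElem?_ofFn]
    exact ⟨j.2, h j (mem_fs.2 (List.mem_map.2 ⟨_, hl, rfl⟩))⟩

theorem sat_iff_on {o : Fin n → Bool} {I : Finset (Fin n)} {C : List Lit}
    (hC : ∀ l, l ∈ C ↔ ∃ i ∈ I, l = ((i : ℕ), o i)) {x : Fin n → Bool} :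
    sat (List.ofFn x) C = true ↔ On o I x := by
  rw [sat_iff]
  constructor
  · intro h i hi
    have := h _ ((hC _).2 ⟨i, hi, rfl⟩)
    rw [getElem?_ofFn] at this
    exact this.2
  · intro h l hl
    obtain ⟨j, hj, rfl⟩ := (hC l).1 hl
    rw [getElem?_ofFn]
    exact ⟨j.2, h j hj⟩

theorem dnP_satD {o : Fin n → Bool} {H : List (List Lit)} (hH : ∀ D ∈ H, Ori o D) :
    DnP o (fun x => satD (List.ofFn x) H = false) := by
  intro i x h
  by_contra hc
  rw [Bool.not_eq_false, satD_iff] at hc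
  obtain ⟨D, hD, hs⟩ := hc
  rw [sat_ori (hH D hD)] at hs
  have h1 : ¬ On o (fs n D) (Function.update x i (o i)) := by
    intro h2
    have h3 := satD_iff.2 ⟨D, hD, (sat_ori (hH D hD)).2 h2⟩
    rw [h] at h3
    exact Bool.noConfusion h3
  exact dnP_not_on o (fs n D) i x h1 hs

theorem Rep.mono {f : (Fin n → Bool) → Bool} {ω : Fin m → Fin n → Bool} {r : ℕ} {τ τ' : ℝ}
    (h : Rep f ω r τ) (hτ : τ ≤ τ') : Rep f ω r τ' :=
  fun v C h' h1 h2 h3 => lt_of_lt_of_le (h v C h' h1 h2 h3) hτ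

theorem nodup_orient (n Θ : ℕ) (S : Samples) : (orient n Θ S).Nodup :=
  (nodup_allLits n).filter _

theorem length_orient_le (n Θ : ℕ) (S : Samples) : (orient n Θ S).length ≤ 2 * n := by
  have h := List.length_filter_le (fun l => decide (3 * S.length ≤ 4 * Θ *
    (cnt S true [l] [] - cnt S true [neg l] []))) (allLits n)
  rw [length_allLits] at h
  exact h

/-- What the greedy cover leaves uncovered. -/
theorem core8_uncovered {p A B R N J Θ : ℕ} {τ σ : ℝ} {κ : ℕ → ℝ}
    {f g : (Fin n → Bool) → Bool} {o : Fin n → Bool} {ω : Fin m → Fin n → Bool}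
    {F : Finset (Finset (Fin n))} {H : List (List Lit)}
    (hm : 0 < m) (hg : Up o g) (hgF : ∀ x, g x = true ↔ ∃ A ∈ F, On o A x)
    (hF : ∀ T ∈ F, ∃ col : Fin n → Fin p, ∀ A ∈ F, A ≠ T → ∀ i ∈ T ∩ A, ∀ j ∈ T ∩ A,
      col i = col j → i = j)
    (hfg : dst f g ≤ τ) (hτ : 0 < τ) (hrep : Rep f ω R τ) (hrepX : RepX f ω τ)
    (hA : 1 ≤ A) (hΘ : 0 < Θ) (hτΘ : 16 * τ ≤ 1 / Θ)
    (hκ : ∀ s, 0 < κ s) (hκ1 : ∀ s, κ s ≤ 1)
    (hκs : ∀ s, ((n : ℝ) + 1) * κ (s + 1) ≤ κ s ^ 2) (hσκ : σ ≤ κ (p + 1))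
    (hΘκ : 2 / Θ ≤ κ (p + 1)) (hσ1 : 1 / (B : ℝ) + 2 * (A + 1) * τ ≤ σ) (hσ2 : 1 / Θ ≤ σ)
    (hN1 : 4 * Θ ^ 2 ≤ N) (hN2 : (2 * n + 1) ^ p ≤ N) (hJ : n ≤ J)
    (hHV : ∀ C ∈ H, ∀ l ∈ C, l ∈ orient n Θ (smp f ω))
    (hrej : ∀ C ∈ cand8 p N Θ J (orient n Θ (smp f ω)) (smp f ω),
      mu (ev f true C H) ≤ 1 / B + A * (mu (ev f false C H) + τ) + τ) :
    mu (ev g true [] H) ≤ 2 * A * κ 0 := by
  classical
  have hΘ' : (0 : ℝ) < Θ := by exact_mod_cast hΘ
  have hp : (0 : ℝ) < 2 ^ n := by positivity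
  have e16 : τ ≤ 1 / (16 * Θ) := by
    have : (1 : ℝ) / (16 * Θ) = 1 / 16 * (1 / Θ) := by field_simp
    rw [this]
    linarith
  obtain ⟨hV1, hV2⟩ := orient_facts hm hΘ hg (hfg.trans e16) (hrep.mono e16)
  obtain ⟨V, hV⟩ : ∃ V, V = orient n Θ (smp f ω) := ⟨_, rfl⟩
  rw [← hV] at hV1 hV2 hHV hrej
  have hVO : Ori o V := hV1
  have hVn : V.Nodup := by rw [hV]; exact nodup_orient _ _ _
  have hVl : (V.length + 1) ^ p ≤ N := by
    refine le_trans (Nat.pow_le_pow_left ?_ _) hN2
    have := length_orient_le n Θ (smp f ω)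
    rw [← hV] at this
    omega
  have hVin : ∀ i : Fin n, 1 / (Θ : ℝ) ≤ co o g {i} → ((i : ℕ), o i) ∈ V := by
    intro i hi
    refine hV2 i ?_
    rw [co_single hg, le_div_iff₀ hp] at hi
    exact hi
  have hσ0 : 0 ≤ σ := le_trans (by positivity) hσ2
  have hHO : ∀ D ∈ H, Ori o D := fun D hD l hl => hV1 l (hHV D hD l hl)
  have hU := dnP_satD hHO
  have hheavy : ∀ R, Ori o R → (R.map Prod.fst).Nodup → heavy Θ (smp f ω) R = true →
      1 / (2 * (Θ : ℝ)) ≤ co o g (fs n R) := fun R h1 h2 =>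
    (heavy_spec hΘ hm hrepX hfg (by linarith) h1 h2).1
  have hheavy2 : ∀ R, Ori o R → (R.map Prod.fst).Nodup → 2 / (Θ : ℝ) ≤ co o g (fs n R) →
      heavy Θ (smp f ω) R = true := fun R h1 h2 =>
    (heavy_spec hΘ hm hrepX hfg (by linarith) h1 h2).2
  have hA' : (1 : ℝ) ≤ A := by exact_mod_cast hA
  -- rejection in terms of `g`
  have hrejg : ∀ (I : Finset (Fin n)) (C : List Lit),
      C ∈ cand8 p N Θ J V (smp f ω) → (∀ l, l ∈ C ↔ ∃ i ∈ I, l = ((i : ℕ), o i)) →
      pr (fun x => On o I x ∧ (g x = true ∧ satD (List.ofFn x) H = false)) ≤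
        A * pr (fun x => On o I x ∧ (g x = false ∧ satD (List.ofFn x) H = false)) + σ := by
    intro I C hC hCI
    have h1 := hrej C hC
    have h2 := mu_ev_sub_le g f true C H
    have h3 := mu_ev_sub_le f g false C H
    rw [dst_comm g f] at h2
    have e : ∀ v, mu (ev g v C H) =
        pr (fun x => On o I x ∧ (g x = v ∧ satD (List.ofFn x) H = false)) := by
      intro v
      rw [mu_eq_pr]
      refine pr_congr fun x => ?_
      rw [ev_iff, sat_iff_on hCI]
      tauto
    rw [e true] at h2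
    rw [e false] at h3
    have h4 : (A : ℝ) * (mu (ev f false C H) + τ) ≤
        A * (pr (fun x => On o I x ∧ (g x = false ∧ satD (List.ofFn x) H = false)) + τ + τ) :=
      mul_le_mul_of_nonneg_left (by linarith) (by linarith)
    have h5 : (A : ℝ) * (pr (fun x => On o I x ∧ (g x = false ∧ satD (List.ofFn x) H = false)) +
        τ + τ) = A * pr (fun x => On o I x ∧ (g x = false ∧ satD (List.ofFn x) H = false)) +
        2 * A * τ := by ring
    have h6 : 2 * ((A : ℝ) + 1) * τ = 2 * A * τ + 2 * τ := by ring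
    linarith
  have hmain := uncovered_le (t := p) (U := fun x => satD (List.ofFn x) H = false)
    (K := (A : ℝ)) (σ := σ) (κ := κ) hg hU hgF ?_ hA' hκ hκ1 hκs hσ0 hσκ ?_ ?_
  · refine le_trans (le_of_eq ?_) hmain
    rw [mu_eq_pr]
    refine pr_congr fun x => ?_
    rw [ev_iff]
    simp [sat_nil]
  · -- share
    intro T hT T' hT' hne
    obtain ⟨col, h1⟩ := hF T hT
    have h2 := card_le_card_of_injOn (s := T ∩ T') (t := (univ : Finset (Fin p))) col
      (fun _ _ => mem_coe.2 (mem_univ _)) (fun i hi j hj hij =>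
        h1 T' hT' hne.symm i (mem_coe.1 hi) j (mem_coe.1 hj) hij)
    simpa using h2
  · -- rejection of small sets
    intro I hI
    by_cases hIV : ∀ i ∈ I, ((i : ℕ), o i) ∈ V
    · obtain ⟨C, hC, hCI⟩ := small_cand8 (S := smp f ω) (Θ := Θ) (J := J) hI hIV hVl
      refine le_trans (pr_mono ?_) (hrejg I C hC hCI)
      rintro x ⟨h1, h2, h3, _⟩
      exact ⟨h1, h2, h3⟩
    · push Not at hIV
      obtain ⟨i, hi, hiV⟩ := hIV
      have h1 : co o g {i} < 1 / Θ := by
        by_contra hcon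
        exact hiV (hVin i (not_lt.1 hcon))
      have h2 : pr (Pv o g (fun x => satD (List.ofFn x) H = false) I) ≤ co o g {i} := by
        refine le_trans (pr_mono ?_) (piv_le_co hg i)
        rintro x ⟨h3, h4, _, h5⟩
        exact ⟨h3 i hi, h4, h5 i hi⟩
      have h3 := pr_nonneg (fun x => On o I x ∧ (g x = false ∧ satD (List.ofFn x) H = false))
      have h4 : 0 ≤ (A : ℝ) *
          pr (fun x => On o I x ∧ (g x = false ∧ satD (List.ofFn x) H = false)) :=
        mul_nonneg (by linarith) h3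
      linarith
  · -- good terms
    intro T hT
    by_cases hTκ : pr (Uq o F T) ≤ κ (p + 1)
    · exact Or.inr hTκ
    · left
      rw [not_le] at hTκ
      obtain ⟨col, h1⟩ := hF T hT
      have h2Θ : (1 : ℝ) / Θ ≤ 2 / Θ := by
        rw [div_le_div_iff_of_pos_right hΘ']
        norm_num
      have hTV : ∀ i ∈ T, ((i : ℕ), o i) ∈ V := by
        intro i hi
        refine hVin i ?_
        have h2 := uq_le_co hgF hT (R := {i}) (by simpa using hi) (by simp)
          (fun A _ _ => (card_le_card inter_subset_right).trans (by simp))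
        linarith
      obtain ⟨C, hC, hCT⟩ := exists_cand8 (S := smp f ω) (p := p) (J := J)
        (T := T) hΘ hVO hVn hheavy hN1 hTV col (by
          intro s R hR hRn hRT hodd
          refine hheavy2 R hR hRn ?_
          have hcard : (fs n R).card = R.length := by
            have h3 : (fs n R).card = (R.map Prod.fst).toFinset.card := by
              refine card_bij (fun i _ => (i : ℕ)) ?_ ?_ ?_
              · intro i hi
                rw [List.mem_toFinset]
                exact mem_fs.1 hi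
              · intro i _ j _ hij
                exact Fin.ext hij
              · intro a ha
                rw [List.mem_toFinset] at ha
                obtain ⟨l, hl, rfl⟩ := List.mem_map.1 ha
                obtain ⟨i, rfl⟩ := hR l hl
                exact ⟨i, mem_fs.2 ha, rfl⟩
            rw [h3, List.toFinset_card_of_nodup hRn, List.length_map]
          have h2 := uq_le_co hgF hT (R := fs n R) (hRT.trans (filter_subset _ _))
            (by rw [hcard]; exact hodd) (by
              intro A hA hAT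
              rw [card_le_one]
              intro i hi j hj
              rw [mem_inter] at hi hj
              have hi' := mem_filter.1 (hRT hi.2)
              have hj' := mem_filter.1 (hRT hj.2)
              exact h1 A hA hAT i (mem_inter.2 ⟨hi'.1, hi.1⟩) j (mem_inter.2 ⟨hj'.1, hj.1⟩)
                (hi'.2.trans hj'.2.symm))
          linarith) hVl hJ
      have h2 := hrejg T C hC hCT
      have h3 : pr (fun x => On o T x ∧ (g x = false ∧ satD (List.ofFn x) H = false)) = 0 := by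
        refine le_antisymm ?_ (pr_nonneg _)
        rw [pr_def, mu, ct, filter_false_of_mem]
        · simp
        · intro x _ hx
          rw [decide_eq_true_iff] at hx
          have h4 := (hgF x).2 ⟨T, hT, hx.1⟩
          rw [hx.2.1] at h4
          exact Bool.noConfusion h4
      rw [h3, mul_zero, zero_add] at h2
      refine le_trans (pr_mono ?_) h2
      rintro x ⟨h4, h5⟩
      exact ⟨h4, (hgF x).2 ⟨T, hT, h4⟩, h5⟩

/-- **Accuracy of the learner on representative samples.** -/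
theorem core8_error {a p B R N J Θ : ℕ} {τ σ : ℝ} {κ : ℕ → ℝ}
    {f g : (Fin n → Bool) → Bool} {o : Fin n → Bool} {ω : Fin m → Fin n → Bool}
    {F : Finset (Finset (Fin n))}
    (hm : 0 < m) (ha : 1 ≤ a) (hg : Up o g) (hgF : ∀ x, g x = true ↔ ∃ A ∈ F, On o A x)
    (hF : ∀ T ∈ F, ∃ col : Fin n → Fin p, ∀ A ∈ F, A ≠ T → ∀ i ∈ T ∩ A, ∀ j ∈ T ∩ A,
      col i = col j → i = j)
    (hfg : dst f g ≤ τ) (hτ : 0 < τ) (hrep : Rep f ω R τ) (hrepX : RepX f ω τ)
    (hB : 0 < B) (hΘ : 0 < Θ) (hτΘ : 16 * τ ≤ 1 / Θ)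
    (hκ : ∀ s, 0 < κ s) (hκ1 : ∀ s, κ s ≤ 1)
    (hκs : ∀ s, ((n : ℝ) + 1) * κ (s + 1) ≤ κ s ^ 2) (hσκ : σ ≤ κ (p + 1))
    (hΘκ : 2 / Θ ≤ κ (p + 1))
    (hσ1 : 1 / (B : ℝ) + 2 * (((4 * a : ℕ) : ℝ) + 1) * τ ≤ σ) (hσ2 : 1 / Θ ≤ σ)
    (hN1 : 4 * Θ ^ 2 ≤ N) (hN2 : (2 * n + 1) ^ p ≤ N) (hJ : n ≤ J)
    (hR : 1 < R * (1 / (B : ℝ) - τ)) (hκ0 : κ 0 * (32 * a ^ 2) ≤ 1)
    (hRτ : (2 * R + 1) * τ ≤ 1 / (2 * a)) :
    mu (errE f (core8 p (4 * a) B R N Θ J n (smp f ω))) ≤ 1 / a := by
  have ha' : (1 : ℝ) ≤ a := by exact_mod_cast ha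
  obtain ⟨V, hV⟩ : ∃ V, V = orient n Θ (smp f ω) := ⟨_, rfl⟩
  have hVn : ∀ l ∈ V, l.1 < n := by
    intro l hl
    rw [hV] at hl
    unfold orient at hl
    exact mem_allLits.1 (List.mem_filter.1 hl).1
  obtain ⟨H, hHe, hHl, hHc, hfp, hrej⟩ := greedy8_spec (A := 4 * a) (B := B) (R := R) (f := f)
    (ω := ω) (Ls := cand8 p N Θ J V (smp f ω)) hm (by omega) hB hτ hrep hR
    (fun C hC l hl => hVn l (lt_cand8 hC l hl))
  have hcore : core8 p (4 * a) B R N Θ J n (smp f ω) = H := by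
    unfold core8
    rw [← hV, hHe]
  rw [hcore]
  have hun := core8_uncovered (A := 4 * a) (H := H) hm hg hgF hF hfg hτ hrep hrepX (by omega)
    hΘ hτΘ hκ hκ1 hκs hσκ hΘκ hσ1 hσ2 hN1 hN2 hJ
    (fun C hC l hl => by rw [← hV]; exact lt_cand8 (hHc C hC) l hl)
    (by rw [← hV]; exact hrej)
  have h1 : mu (errE f H) ≤ mu (fpE f H) + mu (ev f true [] H) := by
    refine mu_le_add ?_
    intro x hx
    rw [errE_iff] at hx
    cases hfx : f x with
    | false =>
      left
      rw [hfx] at hx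
      unfold fpE
      rw [hfx]
      cases h : satD (List.ofFn x) H
      · exact absurd h.symm hx
      · rfl
    | true =>
      right
      rw [hfx] at hx
      refine ev_iff.2 ⟨hfx, rfl, ?_⟩
      cases h : satD (List.ofFn x) H
      · rfl
      · exact absurd h.symm hx
  have h2 := mu_ev_sub_le f g true [] H
  have h3 : 2 * ((4 * a : ℕ) : ℝ) * κ 0 ≤ 1 / (4 * a) := by
    push_cast
    rw [le_div_iff₀ (by positivity)]
    linarith
  have h4 : 1 / ((4 * a : ℕ) : ℝ) = 1 / 4 * (1 / a) := by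
    push_cast
    field_simp
  have h5 : (1 : ℝ) / (4 * a) = 1 / 4 * (1 / a) := by field_simp
  have h6 : (1 : ℝ) / (2 * a) = 1 / 2 * (1 / a) := by field_simp
  rw [h4] at hfp
  rw [h5] at h3
  rw [h6] at hRτ
  have h7 : (2 * (R : ℝ) + 1) * τ = R * (2 * τ) + τ := by ring
  linarith

end Pool.Agent.H.MP_cba12a_lc
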