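import Mathlib

/-!
Unate functions on the cube.
-/

namespace Pool.Agent.H.MP_cba12a_lc

/-- `g` is unate: in each variable it is non-decreasing or non-increasing. -/
def Unate {n : ℕ} (g : (Fin n → Bool) → Bool) : Prop :=
  ∀ i, (∀ x, g (Function.update x i false) = true → g (Function.update x i true) = true) ∨
    (∀ x, g (Function.update x i true) = true → g (Function.update x i false) = true)

end Pool.Agent.H.MP_cba12a_lc
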