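import Pool.Agent.H.MP_cba12a_lc.Analysis
import Pool.Agent.H.MP_cba12a_lc.UDefs

/-!
Influences, degree-one correlations and restrictions of functions on the cube.
-/

namespace Pool.Agent.H.MP_cba12a_lc

open Finset

variable {n : ℕ}

/-- flip coordinate `i` -/
def flp (i : Fin n) (x : Fin n → Bool) : Fin n → Bool := Function.update x i (!x i)

theorem flp_same (i : Fin n) (x : Fin n → Bool) : flp i x i = !x i := by simp [flp]

theorem flp_ne {i j : Fin n} (h : j ≠ i) (x : Fin n → Bool) : flp i x j = x j := by
  simp [flp, h]

theorem flp_flp (i : Fin n) (x : Fin n → Bool) : flp i (flp i x) = x := by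
  funext j
  by_cases h : j = i
  · subst h; simp [flp_same]
  · simp [flp_ne h]

/-- the flip as a permutation -/
def flpE (i : Fin n) : (Fin n → Bool) ≃ (Fin n → Bool) :=
  ⟨flp i, flp i, flp_flp i, flp_flp i⟩

theorem sum_flp (i : Fin n) (F : (Fin n → Bool) → ℝ) : ∑ x, F (flp i x) = ∑ x, F x :=
  Equiv.sum_comp (flpE i) F

/-- boolean as a real number -/
def r (b : Bool) : ℝ := if b then 1 else 0

/-- number of sensitive points in direction `i` -/
noncomputable def fl (g : (Fin n → Bool) → Bool) (i : Fin n) : ℝ :=
  ∑ x, |r (g x) - r (g (flp i x))|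

/-- degree-one correlation -/
noncomputable def cI (g : (Fin n → Bool) → Bool) (i : Fin n) : ℝ :=
  ∑ x, sgn (x i) * r (g x)

theorem sgn_not (b : Bool) : sgn (!b) = - sgn b := by cases b <;> simp [sgn]

theorem sum_sgn_flp (g : (Fin n → Bool) → Bool) (i : Fin n) :
    ∑ x, sgn (x i) * (r (g x) - r (g (flp i x))) = 2 * cI g i := by
  have h : ∑ x : Fin n → Bool, sgn (x i) * r (g (flp i x)) = - cI g i := by
    have := sum_flp i (fun x => sgn (flp i x i) * r (g x))
    simp only [flp_flp] at this
    rw [this]
    unfold cI
    rw [← sum_neg_distrib]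
    refine sum_congr rfl fun x _ => ?_
    rw [flp_same, sgn_not]
    ring
  have h2 : ∑ x : Fin n → Bool, sgn (x i) * (r (g x) - r (g (flp i x))) =
      ∑ x : Fin n → Bool, sgn (x i) * r (g x) - ∑ x : Fin n → Bool, sgn (x i) * r (g (flp i x)) := by
    rw [← sum_sub_distrib]
    refine sum_congr rfl fun x _ => ?_
    ring
  rw [h2, h]
  unfold cI
  ring

theorem abs_sgn (b : Bool) : |sgn b| = 1 := by cases b <;> simp [sgn]

theorem two_abs_cI_le (g : (Fin n → Bool) → Bool) (i : Fin n) : 2 * |cI g i| ≤ fl g i := by
  have h := sum_sgn_flp g i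
  have : |2 * cI g i| ≤ fl g i := by
    rw [← h]
    refine (abs_sum_le_sum_abs _ _).trans (le_of_eq ?_)
    unfold fl
    refine sum_congr rfl fun x _ => ?_
    rw [abs_mul, abs_sgn, one_mul]
  rwa [abs_mul, abs_two] at this

theorem fl_eq_of_unate {g : (Fin n → Bool) → Bool} (hg : Unate g) (i : Fin n) :
    fl g i = 2 * |cI g i| := by
  have h := sum_sgn_flp g i
  have hx : ∀ x : Fin n → Bool, x = Function.update x i (x i) := fun x =>
    (Function.update_eq_self i x).symm
  rcases hg i with hu | hu
  · have e : fl g i = 2 * cI g i := by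
      rw [← h]
      unfold fl
      refine sum_congr rfl fun x _ => ?_
      cases hxi : x i with
      | true =>
        have h1 := hu x
        have h2 : flp i x = Function.update x i false := by simp [flp, hxi]
        have h3 : x = Function.update x i true := by rw [← hxi]; exact hx x
        rw [h2]
        rw [← h3] at h1
        clear h3 h2 h hxi
        generalize g (Function.update x i false) = u at h1 ⊢
        generalize g x = w at h1 ⊢
        revert h1
        cases u <;> cases w <;> simp [r, sgn]
      | false =>
        have h1 := hu x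
        have h2 : flp i x = Function.update x i true := by simp [flp, hxi]
        have h3 : x = Function.update x i false := by rw [← hxi]; exact hx x
        rw [h2]
        rw [← h3] at h1
        clear h3 h2 h hxi
        generalize g (Function.update x i true) = u at h1 ⊢
        generalize g x = w at h1 ⊢
        revert h1
        cases u <;> cases w <;> simp [r, sgn]
    have h0 : 0 ≤ fl g i := sum_nonneg fun x _ => abs_nonneg _
    rw [e] at h0 ⊢
    rw [abs_of_nonneg (by linarith)]
  · have e : fl g i = - (2 * cI g i) := by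
      rw [← h]
      unfold fl
      rw [← sum_neg_distrib]
      refine sum_congr rfl fun x _ => ?_
      cases hxi : x i with
      | true =>
        have h1 := hu x
        have h2 : flp i x = Function.update x i false := by simp [flp, hxi]
        have h3 : x = Function.update x i true := by rw [← hxi]; exact hx x
        rw [h2]
        rw [← h3] at h1
        clear h3 h2 h hxi
        generalize g (Function.update x i false) = u at h1 ⊢
        generalize g x = w at h1 ⊢
        revert h1
        cases u <;> cases w <;> simp [r, sgn]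
      | false =>
        have h1 := hu x
        have h2 : flp i x = Function.update x i true := by simp [flp, hxi]
        have h3 : x = Function.update x i false := by rw [← hxi]; exact hx x
        rw [h2]
        rw [← h3] at h1
        clear h3 h2 h hxi
        generalize g (Function.update x i true) = u at h1 ⊢
        generalize g x = w at h1 ⊢
        revert h1
        cases u <;> cases w <;> simp [r, sgn]
    have h0 : 0 ≤ fl g i := sum_nonneg fun x _ => abs_nonneg _
    rw [e] at h0 ⊢
    rw [abs_of_nonpos (by linarith)]
    ring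

/-! ### Terms -/

/-- number of points where all literals of `T` hold -/
def sc (T : Finset (Fin n × Bool)) : ℕ := (univ.filter fun x : Fin n → Bool => ∀ l ∈ T, x l.1 = l.2).card

theorem sc_mul_le (T : Finset (Fin n × Bool)) : sc T * 2 ^ T.card ≤ 2 ^ n := by
  classical
  induction T using Finset.induction_on with
  | empty => simp [sc]
  | insert l T hl ih =>
    rw [card_insert_of_notMem hl, pow_succ]
    have key : 2 * sc (insert l T) ≤ sc T := by
      unfold sc
      by_cases hc : (l.1, !l.2) ∈ T
      · have : (univ.filter fun x : Fin n → Bool => ∀ l' ∈ insert l T, x l'.1 = l'.2) = ∅ := by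
          rw [filter_eq_empty_iff]
          intro x _ h
          have h1 := h l (mem_insert_self _ _)
          have h2 := h (l.1, !l.2) (mem_insert_of_mem hc)
          simp only at h2
          rw [h1] at h2
          cases h3 : l.2 <;> simp [h3] at h2
        rw [this]
        simp
      · set A := univ.filter fun x : Fin n → Bool => ∀ l' ∈ insert l T, x l'.1 = l'.2 with hA
        have hdis : Disjoint A (A.image (flp l.1)) := by
          rw [disjoint_left]
          intro x hx hx'
          obtain ⟨y, hy, rfl⟩ := mem_image.1 hx'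
          rw [hA, mem_filter] at hx hy
          have h1 := hx.2 l (mem_insert_self _ _)
          have h2 := hy.2 l (mem_insert_self _ _)
          rw [flp_same, h2] at h1
          cases h3 : l.2 <;> simp [h3] at h1
        have hcard : (A.image (flp l.1)).card = A.card :=
          card_image_of_injective _ (flpE l.1).injective
        have hsub : A ∪ A.image (flp l.1) ⊆
            univ.filter fun x : Fin n → Bool => ∀ l' ∈ T, x l'.1 = l'.2 := by
          intro x hx
          rw [mem_filter]
          refine ⟨mem_univ _, fun l' hl' => ?_⟩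
          rcases mem_union.1 hx with hx | hx
          · rw [hA, mem_filter] at hx
            exact hx.2 l' (mem_insert_of_mem hl')
          · obtain ⟨y, hy, rfl⟩ := mem_image.1 hx
            rw [hA, mem_filter] at hy
            have hne : l'.1 ≠ l.1 := by
              intro he
              obtain ⟨i, v⟩ := l'
              obtain ⟨j, w⟩ := l
              simp only at he
              subst he
              have : v = w ∨ v = !w := by cases v <;> cases w <;> simp
              rcases this with rfl | rfl
              · exact hl hl'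
              · exact hc hl'
            rw [flp_ne hne]
            exact hy.2 l' (mem_insert_of_mem hl')
        have := card_le_card hsub
        rw [card_union_of_disjoint hdis, hcard] at this
        omega
    calc sc (insert l T) * (2 ^ T.card * 2) = (2 * sc (insert l T)) * 2 ^ T.card := by ring
      _ ≤ sc T * 2 ^ T.card := Nat.mul_le_mul_right _ key
      _ ≤ 2 ^ n := ih

theorem fl_le {g : (Fin n → Bool) → Bool} {F : Finset (Finset (Fin n × Bool))}
    (hg : ∀ x, g x = true ↔ ∃ T ∈ F, ∀ l ∈ T, x l.1 = l.2) (i : Fin n) :
    fl g i ≤ 2 * ∑ T ∈ F.filter (fun T => ∃ l ∈ T, l.1 = i), (sc T : ℝ) := by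
  classical
  set F' := F.filter (fun T => ∃ l ∈ T, l.1 = i) with hF'
  set B : (Fin n → Bool) → ℝ := fun x => ∑ T ∈ F', if (∀ l ∈ T, x l.1 = l.2) then (1 : ℝ) else 0
    with hB
  have hB0 : ∀ x, 0 ≤ B x := fun x => sum_nonneg fun T _ => by split_ifs <;> norm_num
  have hpt : ∀ x, |r (g x) - r (g (flp i x))| ≤ B x + B (flp i x) := by
    have key : ∀ x, g x = true → g (flp i x) = false → 1 ≤ B x := by
      intro x h1 h2
      obtain ⟨T, hT, hs⟩ := (hg x).1 h1
      have hT' : T ∈ F' := by
        rw [hF', mem_filter]
        refine ⟨hT, ?_⟩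
        by_contra hcon
        push Not at hcon
        have : g (flp i x) = true := (hg _).2 ⟨T, hT, fun l hl => by
          rw [flp_ne (hcon l hl)]; exact hs l hl⟩
        rw [this] at h2
        exact Bool.noConfusion h2
      have : (if (∀ l ∈ T, x l.1 = l.2) then (1 : ℝ) else 0) ≤ B x :=
        single_le_sum (f := fun T => if (∀ l ∈ T, x l.1 = l.2) then (1 : ℝ) else 0)
          (fun T _ => by split_ifs <;> norm_num) hT'
      rwa [if_pos hs] at this
    intro x
    have h1 := key x
    have h2 := key (flp i x)
    rw [flp_flp] at h2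
    have h3 := hB0 x
    have h4 := hB0 (flp i x)
    cases hg1 : g x <;> cases hg2 : g (flp i x)
    · simp [r]; linarith
    · have := h2 hg2 hg1
      simp [r]; linarith
    · have := h1 hg1 hg2
      simp [r]; linarith
    · simp [r]; linarith
  have hsum : ∑ x, B x = ∑ T ∈ F', (sc T : ℝ) := by
    simp only [hB]
    rw [sum_comm]
    refine sum_congr rfl fun T _ => ?_
    simp [sc, Finset.sum_boole]
  calc fl g i ≤ ∑ x, (B x + B (flp i x)) := sum_le_sum fun x _ => hpt x
    _ = _ := by rw [sum_add_distrib, sum_flp i B, hsum]; ring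

/-- Few variables have a large degree-one correlation. -/
theorem card_big_le {g : (Fin n → Bool) → Bool} {s ℓ : ℕ} (hg : IsDNF s g) (I : Finset (Fin n))
    (hI : ∀ i ∈ I, (s : ℝ) * 2 ^ n < |cI g i| * 2 ^ ℓ) : I.card ≤ s * ℓ := by
  classical
  obtain ⟨F, hF, hgx⟩ := hg
  set Sh := F.filter (fun T => T.card < ℓ) with hSh
  set Vs := Sh.biUnion (fun T => T.image Prod.fst) with hVs
  have hVcard : Vs.card ≤ s * ℓ := by
    calc Vs.card ≤ ∑ T ∈ Sh, (T.image Prod.fst).card := card_biUnion_le
      _ ≤ ∑ _T ∈ Sh, ℓ := by
        refine sum_le_sum fun T hT => ?_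
        have := (mem_filter.1 hT).2
        exact card_image_le.trans this.le
      _ = Sh.card * ℓ := by rw [sum_const, smul_eq_mul]
      _ ≤ s * ℓ := Nat.mul_le_mul_right _ ((card_filter_le _ _).trans hF)
  refine (card_le_card ?_).trans hVcard
  intro i hi
  by_contra hcon
  have h1 := hI i hi
  have h2 := two_abs_cI_le g i
  have h3 := fl_le hgx i
  have h4 : (∑ T ∈ F.filter (fun T => ∃ l ∈ T, l.1 = i), (sc T : ℝ)) * 2 ^ ℓ ≤ s * 2 ^ n := by
    rw [sum_mul]
    calc ∑ T ∈ F.filter (fun T => ∃ l ∈ T, l.1 = i), (sc T : ℝ) * 2 ^ ℓ ≤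
        ∑ _T ∈ F.filter (fun T => ∃ l ∈ T, l.1 = i), (2 : ℝ) ^ n := by
          refine sum_le_sum fun T hT => ?_
          rw [mem_filter] at hT
          have hlong : ℓ ≤ T.card := by
            by_contra hc
            apply hcon
            rw [hVs, mem_biUnion]
            refine ⟨T, ?_, ?_⟩
            · rw [hSh, mem_filter]
              exact ⟨hT.1, by omega⟩
            · rw [mem_image]
              exact hT.2
          have h5 := sc_mul_le T
          have h6 : (sc T : ℝ) * 2 ^ T.card ≤ 2 ^ n := by exact_mod_cast h5
          refine le_trans ?_ h6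
          refine mul_le_mul_of_nonneg_left ?_ (by positivity)
          exact pow_le_pow_right₀ (by norm_num) hlong
      _ = ((F.filter (fun T => ∃ l ∈ T, l.1 = i)).card : ℝ) * 2 ^ n := by
          rw [sum_const, nsmul_eq_mul]
      _ ≤ s * 2 ^ n := by
          refine mul_le_mul_of_nonneg_right ?_ (by positivity)
          exact_mod_cast (card_filter_le _ _).trans hF
  have h5 : |cI g i| ≤ ∑ T ∈ F.filter (fun T => ∃ l ∈ T, l.1 = i), (sc T : ℝ) := by linarith
  have h6 : |cI g i| * 2 ^ ℓ ≤
      (∑ T ∈ F.filter (fun T => ∃ l ∈ T, l.1 = i), (sc T : ℝ)) * 2 ^ ℓ :=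
    mul_le_mul_of_nonneg_right h5 (by positivity)
  linarith

/-! ### Restriction -/

/-- `x` with the coordinates in `U` taken from `z` -/
def mix (U : Finset (Fin n)) (x z : Fin n → Bool) : Fin n → Bool :=
  fun i => if i ∈ U then z i else x i

theorem mix_insert [DecidableEq (Fin n)] (U : Finset (Fin n)) (i : Fin n) (x z : Fin n → Bool) :
    mix (insert i U) x z = Function.update (mix U x z) i (z i) := by
  funext j
  by_cases h : j = i
  · subst h; simp [mix]
  · simp [mix, h]

/-- exchange of the coordinates in `U` -/
def swp (U : Finset (Fin n)) : ((Fin n → Bool) × (Fin n → Bool)) ≃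
    ((Fin n → Bool) × (Fin n → Bool)) where
  toFun p := (mix U p.1 p.2, mix U p.2 p.1)
  invFun p := (mix U p.1 p.2, mix U p.2 p.1)
  left_inv p := by
    refine Prod.ext ?_ ?_ <;> funext i <;> by_cases h : i ∈ U <;> simp [mix, h]
  right_inv p := by
    refine Prod.ext ?_ ?_ <;> funext i <;> by_cases h : i ∈ U <;> simp [mix, h]

/-- one resampled coordinate -/
theorem sum_resample (g : (Fin n → Bool) → Bool) (i : Fin n) :
    ∑ p : (Fin n → Bool) × (Fin n → Bool),
      |r (g p.1) - r (g (Function.update p.1 i (p.2 i)))| = 2 ^ n / 2 * fl g i := by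
  rw [Fintype.sum_prod_type]
  unfold fl
  rw [mul_sum]
  refine sum_congr rfl fun y _ => ?_
  simp only
  set h : Bool → ℝ := fun v => |r (g y) - r (g (Function.update y i v))| with hh
  have h1 : ∑ w : Fin n → Bool, h (w i) = ∑ w : Fin n → Bool, h (!(w i)) := by
    rw [← sum_flp i (fun w => h (w i))]
    simp only [flp_same]
  have h2 : ∑ w : Fin n → Bool, (h (w i) + h (!(w i))) = 2 ^ n * (h true + h false) := by
    have : ∀ w : Fin n → Bool, h (w i) + h (!(w i)) = h true + h false := by
      intro w
      cases w i
      · simp [add_comm]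
      · simp
    simp only [this, sum_const, card_univ, Fintype.card_fun, Fintype.card_bool, Fintype.card_fin,
      nsmul_eq_mul]
    push_cast
    ring
  rw [sum_add_distrib, ← h1] at h2
  have h3 : h true + h false = |r (g y) - r (g (flp i y))| := by
    have e1 : h (y i) = 0 := by simp [hh]
    have e2 : h (!(y i)) = |r (g y) - r (g (flp i y))| := rfl
    cases hy : y i with
    | true => rw [hy] at e1 e2; rw [e1, zero_add]; exact e2
    | false => rw [hy] at e1 e2; rw [e1, add_zero]; exact e2
  rw [h3] at h2
  change ∑ w : Fin n → Bool, h (w i) = _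
  linarith

theorem hybrid (g : (Fin n → Bool) → Bool) (U : Finset (Fin n)) :
    ∑ p : (Fin n → Bool) × (Fin n → Bool), |r (g p.1) - r (g (mix U p.1 p.2))| ≤
      2 ^ n / 2 * ∑ i ∈ U, fl g i := by
  classical
  induction U using Finset.induction_on with
  | empty =>
    have e : ∀ x z : Fin n → Bool, mix ∅ x z = x := fun x z => by funext i; simp [mix]
    simp [e]
  | insert i U hi ih =>
    rw [sum_insert hi]
    have h1 : ∑ p : (Fin n → Bool) × (Fin n → Bool),
        |r (g (mix U p.1 p.2)) - r (g (mix (insert i U) p.1 p.2))| = 2 ^ n / 2 * fl g i := by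
      have h := Equiv.sum_comp (swp U)
        (fun p => |r (g p.1) - r (g (Function.update p.1 i (p.2 i)))|)
      rw [← sum_resample g i, ← h]
      refine sum_congr rfl fun p _ => ?_
      have e : mix U p.2 p.1 i = p.2 i := by simp [mix, hi]
      change _ = |r (g (mix U p.1 p.2)) - r (g (Function.update (mix U p.1 p.2) i
        (mix U p.2 p.1 i)))|
      rw [e, mix_insert]
    have h2 : ∑ p : (Fin n → Bool) × (Fin n → Bool),
        |r (g p.1) - r (g (mix (insert i U) p.1 p.2))| ≤
        ∑ p : (Fin n → Bool) × (Fin n → Bool), |r (g p.1) - r (g (mix U p.1 p.2))| +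
        ∑ p : (Fin n → Bool) × (Fin n → Bool),
          |r (g (mix U p.1 p.2)) - r (g (mix (insert i U) p.1 p.2))| := by
      rw [← sum_add_distrib]
      exact sum_le_sum fun p _ => abs_sub_le _ _ _
    rw [mul_add]
    linarith

theorem exists_restriction (g : (Fin n → Bool) → Bool) (U : Finset (Fin n)) :
    ∃ z : Fin n → Bool, 2 * ∑ x, |r (g x) - r (g (mix U x z))| ≤ ∑ i ∈ U, fl g i := by
  by_contra hcon
  push Not at hcon
  have h := hybrid g U
  rw [Fintype.sum_prod_type_right] at h
  have h1 : ∑ _z : Fin n → Bool, (∑ i ∈ U, fl g i) <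
      ∑ z : Fin n → Bool, 2 * ∑ x, |r (g x) - r (g (mix U x z))| :=
    sum_lt_sum_of_nonempty univ_nonempty fun z _ => hcon z
  rw [← mul_sum] at h1
  simp only [sum_const, card_univ, Fintype.card_fun, Fintype.card_bool, Fintype.card_fin,
    nsmul_eq_mul] at h1
  push_cast at h1
  linarith

end Pool.Agent.H.MP_cba12a_lc
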