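import Pool.Agent.H.MP_cba12a_lc.Lg

/-!
Quantities of which the logarithm is `O (log a + log log n + 1)`.
-/

namespace Pool.Agent.H.MP_cba12a_lc

/-- `log a + log log n + 1`, with rounded-up logarithms -/
def gp (n a : ℕ) : ℕ := Nat.clog 2 a + Nat.clog 2 (Nat.clog 2 n) + 1

/-- `h n a` is at most a constant times `gp n a` -/
def Lin (h : ℕ → ℕ → ℕ) : Prop := ∃ c : ℕ, ∀ n a : ℕ, 1 ≤ a → h n a ≤ c * gp n a

/-- the logarithm of `F n a` is at most a constant times `gp n a` -/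
def LLog (F : ℕ → ℕ → ℕ) : Prop := Lin fun n a => Nat.clog 2 (F n a)

theorem Lin.mono {h h' : ℕ → ℕ → ℕ} (H : Lin h') (hh : ∀ n a, 1 ≤ a → h n a ≤ h' n a) :
    Lin h := by
  obtain ⟨c, hc⟩ := H
  exact ⟨c, fun n a ha => (hh n a ha).trans (hc n a ha)⟩

theorem Lin.const (k : ℕ) : Lin fun _ _ => k := by
  refine ⟨k, fun n a _ => ?_⟩
  unfold gp
  exact Nat.le_mul_of_pos_right _ (by omega)

theorem Lin.add {h h' : ℕ → ℕ → ℕ} (H : Lin h) (H' : Lin h') : Lin fun n a => h n a + h' n a := by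
  obtain ⟨c, hc⟩ := H
  obtain ⟨c', hc'⟩ := H'
  refine ⟨c + c', fun n a ha => ?_⟩
  rw [add_mul]
  exact Nat.add_le_add (hc n a ha) (hc' n a ha)

theorem Lin.smul {h : ℕ → ℕ → ℕ} (k : ℕ) (H : Lin h) : Lin fun n a => k * h n a := by
  obtain ⟨c, hc⟩ := H
  refine ⟨k * c, fun n a ha => ?_⟩
  rw [mul_assoc]
  exact Nat.mul_le_mul_left _ (hc n a ha)

theorem Lin.clogA : Lin fun _ a => Nat.clog 2 a := by
  refine ⟨1, fun n a _ => ?_⟩
  unfold gp
  beta_reduce
  omega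

theorem clog_mul_le (x y : ℕ) : Nat.clog 2 (x * y) ≤ Nat.clog 2 x + Nat.clog 2 y := by
  refine Nat.clog_le_of_le_pow ?_
  rw [pow_add]
  exact Nat.mul_le_mul (Nat.le_pow_clog (by norm_num) x) (Nat.le_pow_clog (by norm_num) y)

theorem clog_pow_le (x k : ℕ) : Nat.clog 2 (x ^ k) ≤ k * Nat.clog 2 x := by
  refine Nat.clog_le_of_le_pow ?_
  rw [mul_comm, pow_mul]
  exact Nat.pow_le_pow_left (Nat.le_pow_clog (by norm_num) x) k

theorem LLog.const (k : ℕ) : LLog fun _ _ => k := Lin.const _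

theorem LLog.mul {F G : ℕ → ℕ → ℕ} (hF : LLog F) (hG : LLog G) :
    LLog fun n a => F n a * G n a :=
  (Lin.add hF hG).mono fun n a _ => clog_mul_le (F n a) (G n a)

theorem LLog.pow {F : ℕ → ℕ → ℕ} (hF : LLog F) (k : ℕ) : LLog fun n a => F n a ^ k :=
  (Lin.smul k hF).mono fun n a _ => clog_pow_le (F n a) k

theorem LLog.A : LLog fun _ a => a := Lin.clogA

theorem clog_succ_le (x : ℕ) : Nat.clog 2 (x + 1) ≤ Nat.clog 2 x + 1 := by
  refine Nat.clog_le_of_le_pow ?_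
  rcases Nat.eq_zero_or_pos x with h | h
  · subst h; simp
  · have := Nat.le_pow_clog (b := 2) (by norm_num) x
    rw [pow_succ]
    omega

/-- a quantity polynomial in `n` and `a` -/
theorem LLog.clogPoly (C k l : ℕ) : LLog fun n a => Nat.clog 2 (C * a ^ k * (n + 1) ^ l) := by
  set D : ℕ := Nat.clog 2 C + k + l with hD
  refine ⟨Nat.clog 2 D + 2, fun n a _ => ?_⟩
  set x := Nat.clog 2 a with hx
  set y := Nat.clog 2 n with hy
  have h1 : Nat.clog 2 (C * a ^ k * (n + 1) ^ l) ≤ D * ((x + 1) * (y + 1)) := by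
    have e1 := clog_mul_le (C * a ^ k) ((n + 1) ^ l)
    have e2 := clog_mul_le C (a ^ k)
    have e3 := clog_pow_le a k
    have e4 := clog_pow_le (n + 1) l
    have e5 := clog_succ_le n
    rw [← hx] at e3
    rw [← hy] at e5
    have e6 : l * Nat.clog 2 (n + 1) ≤ l * (y + 1) := Nat.mul_le_mul_left _ e5
    have e7 : Nat.clog 2 C ≤ Nat.clog 2 C * ((x + 1) * (y + 1)) :=
      Nat.le_mul_of_pos_right _ (by positivity)
    have e8 : k * x ≤ k * ((x + 1) * (y + 1)) := Nat.mul_le_mul_left _ (by nlinarith)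
    have e9 : l * (y + 1) ≤ l * ((x + 1) * (y + 1)) :=
      Nat.mul_le_mul_left _ (Nat.le_mul_of_pos_left _ (by omega))
    rw [hD, add_mul, add_mul]
    omega
  have h2 : Nat.clog 2 (x + 1) ≤ x := by
    refine Nat.clog_le_of_le_pow ?_
    exact Nat.lt_two_pow_self
  have h3 := clog_succ_le y
  have h4 := clog_mul_le D ((x + 1) * (y + 1))
  have h5 := clog_mul_le (x + 1) (y + 1)
  have h6 : Nat.clog 2 (Nat.clog 2 (C * a ^ k * (n + 1) ^ l)) ≤
      Nat.clog 2 (D * ((x + 1) * (y + 1))) := Nat.clog_mono_right 2 h1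
  have h7 : Nat.clog 2 (Nat.clog 2 (C * a ^ k * (n + 1) ^ l)) ≤
      Nat.clog 2 D + x + Nat.clog 2 y + 1 := by omega
  refine h7.trans ?_
  unfold gp
  rw [← hx, ← hy]
  have : Nat.clog 2 D ≤ Nat.clog 2 D * (x + Nat.clog 2 y + 1) :=
    Nat.le_mul_of_pos_right _ (by omega)
  rw [add_mul]
  omega

theorem LLog.congr {F G : ℕ → ℕ → ℕ} (hF : LLog F) (h : ∀ n a, 1 ≤ a → G n a ≤ F n a) :
    LLog G := Lin.mono hF fun n a ha => Nat.clog_mono_right 2 (h n a ha)

end Pool.Agent.H.MP_cba12a_lc
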