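import Pool.Agent.H.MP_cba12a_lc.Bfs8

/-!
The greedy cover with a relative acceptance test.
-/

namespace Pool.Agent.H.MP_cba12a_lc

open Finset

variable {n m : ℕ}

/-- the negative points which are covered -/
def fpE (f : (Fin n → Bool) → Bool) (h : List (List Lit)) (x : Fin n → Bool) : Bool :=
  !(f x) && satD (List.ofFn x) h

section greedy

variable {A B R : ℕ} {τ : ℝ} {f : (Fin n → Bool) → Bool} {ω : Fin m → Fin n → Bool}

/-- consequences of acceptance -/
theorem acc8_spec {h : List (List Lit)} {C : List Lit} (hm : 0 < m) (hA : 0 < A) (hB : 0 < B)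
    (hτ : 0 < τ) (hrep : Rep f ω R τ) (hr : h.length ≤ R) (hh : ∀ D ∈ h, ∀ l ∈ D, l.1 < n)
    (hC : ∀ l ∈ C, l.1 < n) (hacc : acc8 A B (smp f ω) h C = true) :
    mu (ev f false C h) ≤ 1 / A * mu (ev f true C h) + 2 * τ ∧
      1 / B - τ ≤ mu (ev f true C h) := by
  have hm' : (0 : ℝ) < m := by exact_mod_cast hm
  have hA' : (1 : ℝ) ≤ A := by exact_mod_cast hA
  have hB' : (0 : ℝ) < B := by exact_mod_cast hB
  unfold acc8 at hacc
  rw [Bool.and_eq_true, decide_eq_true_iff, decide_eq_true_iff, cnt_smp, cnt_smp,
    length_smp] at hacc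
  obtain ⟨h1, h2⟩ := hacc
  have h0 := abs_lt.1 (hrep true C h hC hr hh)
  constructor
  · have h3 := (abs_lt.1 (hrep false C h hC hr hh)).1
    have h4 : em ω (ev f false C h) ≤ 1 / A * em ω (ev f true C h) := by
      unfold em
      rw [one_div_mul_eq_div, le_div_iff₀ (by linarith), div_mul_eq_mul_div,
        div_le_div_iff_of_pos_right hm']
      exact_mod_cast h1
    have h5 : 1 / (A : ℝ) * em ω (ev f true C h) ≤ 1 / A * mu (ev f true C h) + τ := by
      have h6 : 1 / (A : ℝ) ≤ 1 := by
        rw [div_le_one (by linarith)]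
        exact hA'
      have h7 : 1 / (A : ℝ) * em ω (ev f true C h) ≤ 1 / A * (mu (ev f true C h) + τ) :=
        mul_le_mul_of_nonneg_left (by linarith) (by positivity)
      have h8 : 1 / (A : ℝ) * τ ≤ 1 * τ := mul_le_mul_of_nonneg_right h6 hτ.le
      linarith
    linarith
  · have h4 : 1 / B ≤ em ω (ev f true C h) := by
      unfold em
      rw [div_le_div_iff₀ hB' hm', one_mul]
      exact_mod_cast h2
    linarith

/-- consequences of rejection -/
theorem not_acc8_spec {h : List (List Lit)} {C : List Lit} (hm : 0 < m) (hB : 0 < B)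
    (hτ : 0 < τ) (hrep : Rep f ω R τ) (hr : h.length ≤ R) (hh : ∀ D ∈ h, ∀ l ∈ D, l.1 < n)
    (hC : ∀ l ∈ C, l.1 < n) (hacc : acc8 A B (smp f ω) h C = false) :
    mu (ev f true C h) ≤ 1 / B + A * (mu (ev f false C h) + τ) + τ := by
  have hm' : (0 : ℝ) < m := by exact_mod_cast hm
  have hB' : (0 : ℝ) < B := by exact_mod_cast hB
  have h0 := abs_lt.1 (hrep true C h hC hr hh)
  have h3 := (abs_lt.1 (hrep false C h hC hr hh)).2
  have h4 := mu_nonneg (ev f false C h)
  unfold acc8 at hacc
  rw [Bool.and_eq_false_iff, decide_eq_false_iff_not, decide_eq_false_iff_not, cnt_smp, cnt_smp,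
    length_smp, not_le, not_le] at hacc
  rcases hacc with h1 | h1
  · have h2 : em ω (ev f true C h) ≤ A * em ω (ev f false C h) := by
      unfold em
      rw [mul_div_assoc', div_le_div_iff_of_pos_right hm']
      have := h1.le
      rw [mul_comm] at this
      exact_mod_cast this
    have h5 : (A : ℝ) * em ω (ev f false C h) ≤ A * (mu (ev f false C h) + τ) :=
      mul_le_mul_of_nonneg_left (by linarith) (by positivity)
    have h6 : 0 < 1 / (B : ℝ) := by positivity
    linarith
  · have h2 : em ω (ev f true C h) ≤ 1 / B := by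
      unfold em
      rw [div_le_div_iff₀ hm' hB', one_mul]
      exact_mod_cast h1.le
    have h5 : 0 ≤ (A : ℝ) * (mu (ev f false C h) + τ) := by positivity
    linarith

/-- **The greedy cover.** -/
theorem greedy8_spec {Ls : List (List Lit)} (hm : 0 < m) (hA : 0 < A) (hB : 0 < B)
    (hτ : 0 < τ) (hrep : Rep f ω R τ) (hR : 1 < R * (1 / B - τ))
    (hLs : ∀ C ∈ Ls, ∀ l ∈ C, l.1 < n) :
    ∃ H, greedy8 A B R (smp f ω) Ls = H ∧ H.length ≤ R ∧ (∀ C ∈ H, C ∈ Ls) ∧
      mu (fpE f H) ≤ 1 / A + R * (2 * τ) ∧
      ∀ C ∈ Ls, mu (ev f true C H) ≤ 1 / B + A * (mu (ev f false C H) + τ) + τ := by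
  have hA' : (1 : ℝ) ≤ A := by exact_mod_cast hA
  set H : ℕ → List (List Lit) := fun j => (pick8 A B (smp f ω) Ls)^[j] [] with hH
  have hsucc : ∀ j, H (j + 1) = pick8 A B (smp f ω) Ls (H j) := by
    intro j
    simp only [hH]
    rw [Function.iterate_succ_apply']
  have hbd : ∀ j, (H j).length ≤ j ∧ ∀ C ∈ H j, C ∈ Ls := fun j =>
    bd_greedy8 A B (smp f ω) Ls j
  have hlits : ∀ j, ∀ D ∈ H j, ∀ l ∈ D, l.1 < n := fun j D hD => hLs D ((hbd j).2 D hD)
  have hgain : ∀ j, j ≤ R → mu (fpE f (H j)) ≤
      1 / A * (1 - mu (ev f true [] (H j))) + j * (2 * τ) ∧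
      ((∀ i < j, (Ls.filter fun C => acc8 A B (smp f ω) (H i) C) ≠ []) →
      mu (ev f true [] (H j)) ≤ 1 - j * (1 / B - τ)) := by
    intro j
    induction j with
    | zero =>
      intro _
      have h1 := mu_le_one (ev f true [] (H 0))
      constructor
      · have h2 : mu (fpE f (H 0)) = 0 := by
          unfold mu ct
          rw [filter_false_of_mem]
          · simp
          · intro x _ hx
            unfold fpE at hx
            simp [hH, satD] at hx
        rw [h2]
        have h3 : 0 ≤ 1 / (A : ℝ) * (1 - mu (ev f true [] (H 0))) :=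
          mul_nonneg (by positivity) (by linarith)
        simpa using h3
      · intro _
        simpa using h1
    | succ j ih =>
      intro hj
      obtain ⟨ih1, ih2⟩ := ih (by omega)
      cases hgl : (Ls.filter fun C => acc8 A B (smp f ω) (H j) C) with
      | nil =>
        have h3 : H (j + 1) = H j := by
          rw [hsucc]
          unfold pick8
          rw [hgl]
          simp
        rw [h3]
        constructor
        · push_cast
          linarith
        · intro hg
          exact absurd hgl (hg j (by omega))
      | cons C rest =>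
        have hC : C ∈ Ls ∧ acc8 A B (smp f ω) (H j) C = true := by
          have : C ∈ (Ls.filter fun C => acc8 A B (smp f ω) (H j) C) := by rw [hgl]; simp
          exact List.mem_filter.1 this
        have h3 : H (j + 1) = C :: H j := by
          rw [hsucc]
          unfold pick8
          rw [hgl]
          simp
        have h4 := acc8_spec hm hA hB hτ hrep ((hbd j).1.trans (by omega)) (hlits j)
          (hLs C hC.1) hC.2
        have h5 := ev_nil_cons (f := f) (h := H j) (C := C)
        rw [h3]
        constructor
        · have h6 : mu (fpE f (C :: H j)) ≤ mu (ev f false C (H j)) + mu (fpE f (H j)) := by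
            refine mu_le_add ?_
            intro x hx
            unfold fpE at hx ⊢
            rw [Bool.and_eq_true, Bool.not_eq_true'] at hx
            obtain ⟨hx1, hx2⟩ := hx
            by_cases hs : satD (List.ofFn x) (H j) = true
            · right
              rw [hx1, hs]
              rfl
            · left
              rw [Bool.not_eq_true] at hs
              rw [ev_iff]
              refine ⟨hx1, ?_, hs⟩
              unfold satD at hx2 hs
              rw [List.any_cons, hs, Bool.or_false] at hx2
              exact hx2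
          have h7 : 1 / (A : ℝ) * (1 - mu (ev f true [] (C :: H j))) =
              1 / A * (1 - mu (ev f true [] (H j))) + 1 / A * mu (ev f true C (H j)) := by
            rw [h5]; ring
          rw [h7]
          push_cast
          linarith [h4.1]
        · intro hg
          have h8 := ih2 (fun i hi => hg i (by omega))
          push_cast
          linarith [h4.2]
  have hfix : ∃ i < R, (Ls.filter fun C => acc8 A B (smp f ω) (H i) C) = [] := by
    by_contra hcon
    push Not at hcon
    have h1 := (hgain R le_rfl).2 (fun i hi => hcon i hi)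
    have h2 := mu_nonneg (ev f true [] (H R))
    linarith
  obtain ⟨i, hi, hgi⟩ := hfix
  have hstay : ∀ d, H (i + d) = H i := by
    intro d
    induction d with
    | zero => rfl
    | succ d ih =>
      rw [← add_assoc, hsucc, ih]
      unfold pick8
      rw [hgi]
      simp
  have hfinal : greedy8 A B R (smp f ω) Ls = H i := by
    have := hstay (R - i)
    rw [show i + (R - i) = R by omega] at this
    exact this
  refine ⟨H i, hfinal, (hbd i).1.trans hi.le, (hbd i).2, ?_, ?_⟩
  · refine (hgain i hi.le).1.trans ?_
    have h1 := mu_nonneg (ev f true [] (H i))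
    have h2 : 1 / (A : ℝ) * (1 - mu (ev f true [] (H i))) ≤ 1 / A * 1 :=
      mul_le_mul_of_nonneg_left (by linarith) (by positivity)
    have h3 : (i : ℝ) * (2 * τ) ≤ R * (2 * τ) := by
      have : (i : ℝ) ≤ R := by exact_mod_cast hi.le
      exact mul_le_mul_of_nonneg_right this (by positivity)
    linarith
  · intro C hC
    refine not_acc8_spec hm hB hτ hrep ((hbd i).1.trans hi.le) (hlits i) (hLs C hC) ?_
    cases h : acc8 A B (smp f ω) (H i) C with
    | false => rfl
    | true =>
      have : C ∈ (Ls.filter fun C => acc8 A B (smp f ω) (H i) C) := List.mem_filter.2 ⟨hC, h⟩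
      rw [hgi] at this
      simp at this

end greedy

end Pool.Agent.H.MP_cba12a_lc
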