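import Pool.Agent.H.MP_cba12a_lc.Fam6

/-!
Correlation of down-sets, a relative isoperimetric inequality, and the structure of the points
which are covered by terms with few chances to be the only satisfied one.
-/

namespace Pool.Agent.H.MP_cba12a_lc

open Finset

variable {n : ℕ}

/-! ### Densities of events -/

open Classical in
/-- density of an event -/
noncomputable def pr (P : (Fin n → Bool) → Prop) : ℝ := mu fun x => decide (P x)

theorem pr_def (P : (Fin n → Bool) → Prop) [DecidablePred P] :
    pr P = mu fun x => decide (P x) := by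
  unfold pr
  refine mu_congr fun x => ?_
  constructor <;> intro h <;> simpa using h

theorem mu_eq_pr (E : (Fin n → Bool) → Bool) : mu E = pr fun x => E x = true := by
  classical
  unfold pr
  refine mu_congr fun x => ?_
  simp

theorem pr_mono {P Q : (Fin n → Bool) → Prop} (h : ∀ x, P x → Q x) : pr P ≤ pr Q := by
  classical
  unfold pr
  refine mu_mono fun x hx => ?_
  rw [decide_eq_true_iff] at *
  exact h x hx

theorem pr_congr {P Q : (Fin n → Bool) → Prop} (h : ∀ x, P x ↔ Q x) : pr P = pr Q :=
  le_antisymm (pr_mono fun x => (h x).1) (pr_mono fun x => (h x).2)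

theorem pr_nonneg (P : (Fin n → Bool) → Prop) : 0 ≤ pr P := mu_nonneg _

theorem pr_le_one (P : (Fin n → Bool) → Prop) : pr P ≤ 1 := mu_le_one _

theorem pr_le_sum {ι : Type} [DecidableEq ι] (L : Finset ι) (P : (Fin n → Bool) → Prop)
    (Q : ι → (Fin n → Bool) → Prop) (h : ∀ x, P x → ∃ i ∈ L, Q i x) :
    pr P ≤ ∑ i ∈ L, pr (Q i) := by
  classical
  unfold pr
  refine mu_finset_le L _ (fun i x => decide (Q i x)) fun x hx => ?_
  rw [decide_eq_true_iff] at hx
  obtain ⟨i, hi, hq⟩ := h x hx
  exact ⟨i, hi, decide_eq_true hq⟩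

theorem pr_le_add {P Q R : (Fin n → Bool) → Prop} (h : ∀ x, P x → Q x ∨ R x) :
    pr P ≤ pr Q + pr R := by
  classical
  unfold pr
  refine mu_le_add fun x hx => ?_
  rw [decide_eq_true_iff] at hx
  rcases h x hx with h | h
  · exact Or.inl (decide_eq_true h)
  · exact Or.inr (decide_eq_true h)

theorem sum_bR (P : (Fin n → Bool) → Prop) (c : (Fin n → Bool) → Bool)
    (h : ∀ x, c x = true ↔ P x) : ∑ x, bR (c x) = pr P * 2 ^ n := by
  classical
  have e : pr P = mu c := by
    rw [mu_eq_pr]
    exact pr_congr fun x => (h x).symm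
  rw [e]
  unfold mu
  rw [Fintype.card_fun, Fintype.card_fin, Fintype.card_bool, ct_eq_sum]
  push_cast
  rw [div_mul_cancel₀ _ (by positivity)]
  rfl

/-! ### Switching a set of variables on -/

/-- all variables of `A` have the value given by `o` -/
def On (o : Fin n → Bool) (A : Finset (Fin n)) (x : Fin n → Bool) : Prop := ∀ i ∈ A, x i = o i

/-- give the variables of `A` the value given by `o` -/
def sOn (o : Fin n → Bool) (A : Finset (Fin n)) (x : Fin n → Bool) : Fin n → Bool :=
  fun i => if i ∈ A then o i else x i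

theorem sOn_mem {o : Fin n → Bool} {A : Finset (Fin n)} {x : Fin n → Bool} {i : Fin n}
    (h : i ∈ A) : sOn o A x i = o i := by simp [sOn, h]

theorem sOn_not_mem {o : Fin n → Bool} {A : Finset (Fin n)} {x : Fin n → Bool} {i : Fin n}
    (h : i ∉ A) : sOn o A x i = x i := by simp [sOn, h]

theorem on_sOn (o : Fin n → Bool) (A : Finset (Fin n)) (x : Fin n → Bool) :
    On o A (sOn o A x) := fun _ hi => sOn_mem hi

theorem sOn_eq {o : Fin n → Bool} {A : Finset (Fin n)} {x : Fin n → Bool} (h : On o A x) :
    sOn o A x = x := by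
  funext i
  by_cases hi : i ∈ A
  · rw [sOn_mem hi, h i hi]
  · rw [sOn_not_mem hi]

theorem sOn_update_mem {o : Fin n → Bool} {A : Finset (Fin n)} {x : Fin n → Bool} {i : Fin n}
    (h : i ∈ A) (v : Bool) : sOn o A (Function.update x i v) = sOn o A x := by
  funext j
  by_cases hj : j ∈ A
  · rw [sOn_mem hj, sOn_mem hj]
  · have : j ≠ i := fun hc => hj (hc ▸ h)
    rw [sOn_not_mem hj, sOn_not_mem hj, Function.update_of_ne this]

theorem sOn_update {o : Fin n → Bool} {A : Finset (Fin n)} {x : Fin n → Bool} {i : Fin n}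
    (h : i ∉ A) (v : Bool) :
    sOn o A (Function.update x i v) = Function.update (sOn o A x) i v := by
  funext j
  by_cases hji : j = i
  · subst hji
    rw [sOn_not_mem h, Function.update_self, Function.update_self]
  · rw [Function.update_of_ne hji]
    by_cases hj : j ∈ A
    · rw [sOn_mem hj, sOn_mem hj]
    · rw [sOn_not_mem hj, sOn_not_mem hj, Function.update_of_ne hji]

theorem On.mono {o : Fin n → Bool} {A B : Finset (Fin n)} (h : A ⊆ B) {x : Fin n → Bool}
    (hB : On o B x) : On o A x := fun i hi => hB i (h hi)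

theorem pr_on (o : Fin n → Bool) (A : Finset (Fin n)) (Q : (Fin n → Bool) → Prop) :
    pr (fun x => On o A x ∧ Q x) = (1 / 2) ^ A.card * pr (fun x => Q (sOn o A x)) := by
  classical
  have h := mu_satT_eq (A := pt A o) (by rw [vs_pt, pt_card]) (fun x => Q (sOn o A x)) (by
    intro i hi x
    rw [vs_pt] at hi
    unfold flp
    rw [sOn_update_mem hi])
  unfold wF at h
  rw [pt_card] at h
  rw [pr_def (fun x => Q (sOn o A x)), ← h, pr_def]
  refine mu_congr fun x => ?_
  rw [decide_eq_true_iff, decide_eq_true_iff, satT_pt]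
  refine and_congr_right fun hx => ?_
  rw [sOn_eq hx]

/-! ### Down-sets -/

/-- a property which is kept when a coordinate moves away from `o` -/
def DnP (o : Fin n → Bool) (P : (Fin n → Bool) → Prop) : Prop :=
  ∀ i x, P (Function.update x i (o i)) → P (Function.update x i (!(o i)))

theorem DnP.and {o : Fin n → Bool} {P Q : (Fin n → Bool) → Prop} (hP : DnP o P) (hQ : DnP o Q) :
    DnP o (fun x => P x ∧ Q x) := fun i x h => ⟨hP i x h.1, hQ i x h.2⟩

theorem dnP_not_on (o : Fin n → Bool) (A : Finset (Fin n)) : DnP o (fun x => ¬ On o A x) := by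
  intro i x h hc
  apply h
  intro j hj
  by_cases hji : j = i
  · subst hji
    rw [Function.update_self]
  · have := hc j hj
    rw [Function.update_of_ne hji] at this ⊢
    exact this

theorem dnP_false {o : Fin n → Bool} {g : (Fin n → Bool) → Bool} (hg : Up o g) :
    DnP o (fun x => g x = false) := by
  intro i x h
  by_contra hc
  rw [Bool.not_eq_false] at hc
  have := hg i x hc
  rw [h] at this
  exact Bool.noConfusion this

theorem harris_aux : ∀ (n : ℕ) (o : Fin n → Bool) (c d : (Fin n → Bool) → Bool),
    Dn o c → Dn o d → sC c * sC d ≤ 2 ^ n * sC (fun x => c x && d x) := by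
  intro n
  induction n with
  | zero =>
    intro o c d _ _
    unfold sC
    rw [Fintype.sum_unique, Fintype.sum_unique, Fintype.sum_unique]
    have : ∀ u w : Bool, bR u * bR w ≤ 2 ^ 0 * bR (u && w) := by
      intro u w
      cases u <;> cases w <;> simp [bR]
    exact this _ _
  | succ n ih =>
    intro o c d hc hd
    have iH := ih (fun i => o i.succ) (fun y => c (Fin.cons (o 0) y))
      (fun y => d (Fin.cons (o 0) y))
      (fun i x h => by
        have := hc i.succ (Fin.cons (o 0) x) (by rw [upd_succ]; exact h)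
        rwa [upd_succ] at this)
      (fun i x h => by
        have := hd i.succ (Fin.cons (o 0) x) (by rw [upd_succ]; exact h)
        rwa [upd_succ] at this)
    have iL := ih (fun i => o i.succ) (fun y => c (Fin.cons (!(o 0)) y))
      (fun y => d (Fin.cons (!(o 0)) y))
      (fun i x h => by
        have := hc i.succ (Fin.cons (!(o 0)) x) (by rw [upd_succ]; exact h)
        rwa [upd_succ] at this)
      (fun i x h => by
        have := hd i.succ (Fin.cons (!(o 0)) x) (by rw [upd_succ]; exact h)
        rwa [upd_succ] at this)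
    have key : ∀ e : (Fin (n + 1) → Bool) → Bool, Dn o e →
        sC (fun y => e (Fin.cons (o 0) y)) ≤ sC (fun y => e (Fin.cons (!(o 0)) y)) := by
      intro e he
      unfold sC
      refine sum_le_sum fun y _ => bool_ineq2 _ _ ?_
      intro h
      have := he 0 (Fin.cons (o 0) y) (by rw [upd_zero]; exact h)
      rwa [upd_zero] at this
    have hc' := key c hc
    have hd' := key d hd
    have split : ∀ e : (Fin (n + 1) → Bool) → Bool,
        sC e = sC (fun y => e (Fin.cons (o 0) y)) + sC (fun y => e (Fin.cons (!(o 0)) y)) := by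
      intro e
      unfold sC
      rw [sum_cons _ (o 0)]
    rw [split c, split d, split (fun x => c x && d x), pow_succ]
    generalize sC (fun y => c (Fin.cons (o 0) y)) = cH at *
    generalize sC (fun y => c (Fin.cons (!(o 0)) y)) = cL at *
    generalize sC (fun y => d (Fin.cons (o 0) y)) = dH at *
    generalize sC (fun y => d (Fin.cons (!(o 0)) y)) = dL at *
    have h := mul_nonneg (sub_nonneg.2 hc') (sub_nonneg.2 hd')
    nlinarith

theorem harris {o : Fin n → Bool} {P Q : (Fin n → Bool) → Prop} (hP : DnP o P) (hQ : DnP o Q) :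
    pr P * pr Q ≤ pr (fun x => P x ∧ Q x) := by
  classical
  have h := harris_aux n o (fun x => decide (P x)) (fun x => decide (Q x))
    (fun i x h => by
      rw [decide_eq_true_iff] at *
      exact hP i x h)
    (fun i x h => by
      rw [decide_eq_true_iff] at *
      exact hQ i x h)
  have e1 : sC (fun x : Fin n → Bool => decide (P x)) = pr P * 2 ^ n :=
    sum_bR P _ fun x => decide_eq_true_iff
  have e2 : sC (fun x : Fin n → Bool => decide (Q x)) = pr Q * 2 ^ n :=
    sum_bR Q _ fun x => decide_eq_true_iff
  have e3 : sC (fun x : Fin n → Bool => decide (P x) && decide (Q x)) =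
      pr (fun x => P x ∧ Q x) * 2 ^ n := sum_bR _ _ fun x => by simp
  rw [e1, e2, e3] at h
  have hp : (0 : ℝ) < 2 ^ n * 2 ^ n := by positivity
  refine le_of_mul_le_mul_right ?_ hp
  calc pr P * pr Q * (2 ^ n * 2 ^ n) = pr P * 2 ^ n * (pr Q * 2 ^ n) := by ring
    _ ≤ _ := h
    _ = _ := by ring

end Pool.Agent.H.MP_cba12a_lc
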