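import Mathlib

/-!
Uniform convergence for finitely many events under the uniform distribution on a finite set,
by exponential moments of finite sums.
-/

namespace Pool.Agent.H.MP_cba12a_lc

open Finset

variable {Ω : Type} [Fintype Ω]

/-- number of points of an event -/
def ct (E : Ω → Bool) : ℕ := (univ.filter fun x => E x = true).card

/-- density of an event -/
noncomputable def mu (E : Ω → Bool) : ℝ := (ct E : ℝ) / (Fintype.card Ω : ℝ)

/-- number of samples in an event -/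
def ec {m : ℕ} (ω : Fin m → Ω) (E : Ω → Bool) : ℕ := (univ.filter fun i => E (ω i) = true).card

/-- empirical density of an event -/
noncomputable def em {m : ℕ} (ω : Fin m → Ω) (E : Ω → Bool) : ℝ := (ec ω E : ℝ) / (m : ℝ)

theorem ct_eq_sum (E : Ω → Bool) : (ct E : ℝ) = ∑ x, if E x = true then (1 : ℝ) else 0 := by
  simp [ct, Finset.sum_boole]

theorem ec_eq_sum {m : ℕ} (ω : Fin m → Ω) (E : Ω → Bool) :
    (ec ω E : ℝ) = ∑ i, if E (ω i) = true then (1 : ℝ) else 0 := by
  simp [ec, Finset.sum_boole]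

theorem mu_nonneg (E : Ω → Bool) : 0 ≤ mu E := by unfold mu; positivity

theorem ct_le (E : Ω → Bool) : ct E ≤ Fintype.card Ω := by
  unfold ct
  exact (card_filter_le _ _).trans (by simp)

theorem mu_le_one (E : Ω → Bool) : mu E ≤ 1 := by
  unfold mu
  have h := ct_le E
  rcases Nat.eq_zero_or_pos (Fintype.card Ω) with h0 | h0
  · rw [h0]; simp
  · rw [div_le_one (by exact_mod_cast h0)]
    exact_mod_cast h

/-- one-sided exponential bound -/
theorem tail_bound {m : ℕ} (Y : Ω → ℝ) (h1 : ∀ x, |Y x| ≤ 1) (h0 : ∑ x, Y x = 0)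
    (τ : ℝ) (hτ : 0 < τ) (hτ1 : τ ≤ 1) :
    ((univ.filter fun ω : Fin m → Ω => (m : ℝ) * τ ≤ ∑ i, Y (ω i)).card : ℝ) ≤
      Real.exp (-(m * τ ^ 2 / 4)) * (Fintype.card Ω : ℝ) ^ m := by
  set K : ℝ := (Fintype.card Ω : ℝ) with hK
  set l : ℝ := τ / 2 with hl
  have hl0 : 0 < l := by positivity
  have hl1 : l ≤ 1 := by rw [hl]; linarith
  have hmom : ∑ x, Real.exp (l * Y x) ≤ K * Real.exp (l ^ 2) := by
    have hpt : ∀ x, Real.exp (l * Y x) ≤ 1 + l * Y x + l ^ 2 := by
      intro x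
      have hy := h1 x
      have hly : |l * Y x| ≤ 1 := by
        rw [abs_mul, abs_of_pos hl0]
        nlinarith [abs_nonneg (Y x)]
      have h := Real.abs_exp_sub_one_sub_id_le hly
      have h2 := (abs_le.1 h).2
      have h3 : (l * Y x) ^ 2 ≤ l ^ 2 := by
        rw [mul_pow]
        have : (Y x) ^ 2 ≤ 1 := by
          rw [← sq_abs]
          nlinarith [abs_nonneg (Y x)]
        nlinarith [sq_nonneg l]
      linarith
    calc ∑ x, Real.exp (l * Y x) ≤ ∑ x, (1 + l * Y x + l ^ 2) := sum_le_sum fun x _ => hpt x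
      _ = K * (1 + l ^ 2) := by
        rw [sum_add_distrib, sum_add_distrib, ← mul_sum, h0]
        simp only [sum_const, card_univ, nsmul_eq_mul, hK]
        ring
      _ ≤ K * Real.exp (l ^ 2) := by
        refine mul_le_mul_of_nonneg_left ?_ (by rw [hK]; positivity)
        have := Real.add_one_le_exp (l ^ 2)
        linarith
  have hprod : ∑ ω : Fin m → Ω, Real.exp (l * ∑ i, Y (ω i)) = (∑ x, Real.exp (l * Y x)) ^ m := by
    rw [Fintype.sum_pow]
    refine sum_congr rfl fun ω _ => ?_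
    rw [mul_sum, Real.exp_sum]
  have hnn : 0 ≤ ∑ x, Real.exp (l * Y x) := sum_nonneg fun x _ => (Real.exp_pos _).le
  have hle : ((univ.filter fun ω : Fin m → Ω => (m : ℝ) * τ ≤ ∑ i, Y (ω i)).card : ℝ) *
      Real.exp (l * (m * τ)) ≤ ∑ ω : Fin m → Ω, Real.exp (l * ∑ i, Y (ω i)) := by
    rw [← nsmul_eq_mul, ← sum_const]
    calc ∑ _ω ∈ univ.filter (fun ω : Fin m → Ω => (m : ℝ) * τ ≤ ∑ i, Y (ω i)),
          Real.exp (l * (m * τ)) ≤
        ∑ ω ∈ univ.filter (fun ω : Fin m → Ω => (m : ℝ) * τ ≤ ∑ i, Y (ω i)),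
          Real.exp (l * ∑ i, Y (ω i)) := by
          refine sum_le_sum fun ω hω => ?_
          rw [mem_filter] at hω
          exact Real.exp_le_exp.2 (mul_le_mul_of_nonneg_left hω.2 hl0.le)
      _ ≤ _ := sum_le_sum_of_subset_of_nonneg (filter_subset _ _)
          fun ω _ _ => (Real.exp_pos _).le
  have hpow : (∑ x, Real.exp (l * Y x)) ^ m ≤ K ^ m * Real.exp (m * l ^ 2) := by
    calc (∑ x, Real.exp (l * Y x)) ^ m ≤ (K * Real.exp (l ^ 2)) ^ m :=
          pow_le_pow_left₀ hnn hmom m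
      _ = _ := by rw [mul_pow, ← Real.exp_nat_mul]
  rw [hprod] at hle
  have hfin := hle.trans hpow
  have hpos := Real.exp_pos (l * (m * τ))
  rw [← le_div_iff₀ hpos] at hfin
  refine hfin.trans (le_of_eq ?_)
  rw [mul_div_assoc, ← Real.exp_sub, mul_comm]
  congr 2
  rw [hl]
  ring

/-- Deviation of one event. -/
theorem dev_bound {m : ℕ} (hm : 0 < m) (E : Ω → Bool) (hΩ : 0 < Fintype.card Ω)
    (τ : ℝ) (hτ : 0 < τ) (hτ1 : τ ≤ 1) :
    ((univ.filter fun ω : Fin m → Ω => ¬ |em ω E - mu E| < τ).card : ℝ) ≤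
      2 * Real.exp (-(m * τ ^ 2 / 4)) * (Fintype.card Ω : ℝ) ^ m := by
  classical
  have hK : (0 : ℝ) < Fintype.card Ω := by exact_mod_cast hΩ
  have hm' : (0 : ℝ) < m := by exact_mod_cast hm
  set Y : Ω → ℝ := fun x => (if E x = true then (1 : ℝ) else 0) - mu E with hY
  have hmu0 := mu_nonneg E
  have hmu1 := mu_le_one E
  have h1 : ∀ x, |Y x| ≤ 1 := by
    intro x
    simp only [hY]
    rw [abs_le]
    split_ifs <;> constructor <;> linarith
  have h0 : ∑ x, Y x = 0 := by
    simp only [hY]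
    rw [sum_sub_distrib, ← ct_eq_sum]
    simp only [sum_const, card_univ, nsmul_eq_mul, mu]
    field_simp
    ring
  have hsum : ∀ ω : Fin m → Ω, ∑ i, Y (ω i) = m * (em ω E - mu E) := by
    intro ω
    simp only [hY]
    rw [sum_sub_distrib, ← ec_eq_sum]
    simp only [sum_const, card_univ, nsmul_eq_mul, em, Fintype.card_fin]
    field_simp
  have hA := tail_bound (m := m) Y h1 h0 τ hτ hτ1
  have hB := tail_bound (m := m) (fun x => - Y x) (fun x => by rw [abs_neg]; exact h1 x)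
    (by rw [sum_neg_distrib, h0, neg_zero]) τ hτ hτ1
  have hsub : (univ.filter fun ω : Fin m → Ω => ¬ |em ω E - mu E| < τ) ⊆
      (univ.filter fun ω : Fin m → Ω => (m : ℝ) * τ ≤ ∑ i, Y (ω i)) ∪
      (univ.filter fun ω : Fin m → Ω => (m : ℝ) * τ ≤ ∑ i, - Y (ω i)) := by
    intro ω hω
    rw [mem_filter] at hω
    rw [mem_union, mem_filter, mem_filter, sum_neg_distrib, hsum]
    have h2 := not_lt.1 hω.2
    rcases le_abs.1 h2 with h | h
    · left
      exact ⟨mem_univ _, by nlinarith⟩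
    · right
      exact ⟨mem_univ _, by nlinarith⟩
  have hcard := (card_le_card hsub).trans (card_union_le _ _)
  have hcard' : ((univ.filter fun ω : Fin m → Ω => ¬ |em ω E - mu E| < τ).card : ℝ) ≤
      ((univ.filter fun ω : Fin m → Ω => (m : ℝ) * τ ≤ ∑ i, Y (ω i)).card : ℝ) +
      ((univ.filter fun ω : Fin m → Ω => (m : ℝ) * τ ≤ ∑ i, - Y (ω i)).card : ℝ) := by
    exact_mod_cast hcard
  linarith

/-- Uniform convergence: if `m τ² ≥ 4 (D + 1 + clog₂ b)`, then for at least a `1 - 1/b` fraction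
of the sample sequences all the `2^D` events have empirical density within `τ` of the truth. -/
theorem uniform_conv {ι : Type} [Fintype ι] (E : ι → Ω → Bool) {m D b : ℕ} (hb : 0 < b)
    (hΩ : 0 < Fintype.card Ω) (hι : Fintype.card ι ≤ 2 ^ D)
    (τ : ℝ) (hτ : 0 < τ) (hτ1 : τ ≤ 1) (hm : (4 : ℝ) * (D + 1 + Nat.clog 2 b) ≤ m * τ ^ 2) :
    (1 - 1 / (b : ℝ)) * (Fintype.card Ω : ℝ) ^ m ≤
      ((univ.filter fun ω : Fin m → Ω => ∀ i, |em ω (E i) - mu (E i)| < τ).card : ℝ) := by
  classical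
  have hm0 : 0 < m := by
    rcases Nat.eq_zero_or_pos m with h | h
    · subst h
      exfalso
      have : (0 : ℝ) ≤ D := by positivity
      have : (0 : ℝ) ≤ Nat.clog 2 b := by positivity
      simp at hm
      linarith
    · exact h
  have hK : (0 : ℝ) < Fintype.card Ω := by exact_mod_cast hΩ
  have hb' : (0 : ℝ) < b := by exact_mod_cast hb
  -- the bad set
  have hbad : ((univ.filter fun ω : Fin m → Ω => ¬ ∀ i, |em ω (E i) - mu (E i)| < τ).card : ℝ) ≤
      (Fintype.card ι : ℝ) * (2 * Real.exp (-(m * τ ^ 2 / 4)) * (Fintype.card Ω : ℝ) ^ m) := by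
    have hsub : (univ.filter fun ω : Fin m → Ω => ¬ ∀ i, |em ω (E i) - mu (E i)| < τ) ⊆
        univ.biUnion fun i => univ.filter fun ω : Fin m → Ω => ¬ |em ω (E i) - mu (E i)| < τ := by
      intro ω hω
      rw [mem_filter] at hω
      rw [mem_biUnion]
      obtain ⟨i, hi⟩ := not_forall.1 hω.2
      exact ⟨i, mem_univ _, by rw [mem_filter]; exact ⟨mem_univ _, hi⟩⟩
    have h1 := (card_le_card hsub).trans card_biUnion_le
    have h2 : ((univ.filter fun ω : Fin m → Ω => ¬ ∀ i, |em ω (E i) - mu (E i)| < τ).card : ℝ) ≤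
        ∑ i : ι, ((univ.filter fun ω : Fin m → Ω =>
          ¬ |em ω (E i) - mu (E i)| < τ).card : ℝ) := by
      exact_mod_cast h1
    refine h2.trans ?_
    calc ∑ i : ι, ((univ.filter fun ω : Fin m → Ω => ¬ |em ω (E i) - mu (E i)| < τ).card : ℝ)
        ≤ ∑ _i : ι, (2 * Real.exp (-(m * τ ^ 2 / 4)) * (Fintype.card Ω : ℝ) ^ m) :=
          sum_le_sum fun i _ => dev_bound hm0 (E i) hΩ τ hτ hτ1
      _ = _ := by simp
  have hexp : (Fintype.card ι : ℝ) * (2 * Real.exp (-(m * τ ^ 2 / 4))) ≤ 1 / b := by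
    have h1 : (Fintype.card ι : ℝ) ≤ 2 ^ D := by exact_mod_cast hι
    have h2 : (b : ℝ) ≤ 2 ^ (Nat.clog 2 b) := by exact_mod_cast Nat.le_pow_clog (by norm_num) b
    have h3 : (2 : ℝ) ^ (D + 1 + Nat.clog 2 b) ≤ Real.exp (m * τ ^ 2 / 4) := by
      calc (2 : ℝ) ^ (D + 1 + Nat.clog 2 b) ≤ (Real.exp 1) ^ (D + 1 + Nat.clog 2 b) := by
            refine pow_le_pow_left₀ (by norm_num) ?_ _
            have := Real.add_one_le_exp (1 : ℝ)
            linarith
        _ = Real.exp ((D + 1 + Nat.clog 2 b : ℕ) : ℝ) := by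
            rw [← Real.exp_nat_mul, mul_one]
        _ ≤ _ := by
            refine Real.exp_le_exp.2 ?_
            push_cast
            linarith
    have h4 : Real.exp (-(m * τ ^ 2 / 4)) ≤ 1 / 2 ^ (D + 1 + Nat.clog 2 b) := by
      rw [Real.exp_neg, ← one_div]
      exact one_div_le_one_div_of_le (by positivity) h3
    calc (Fintype.card ι : ℝ) * (2 * Real.exp (-(m * τ ^ 2 / 4))) ≤
        2 ^ D * (2 * (1 / 2 ^ (D + 1 + Nat.clog 2 b))) := by
          refine mul_le_mul h1 ?_ (by positivity) (by positivity)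
          exact mul_le_mul_of_nonneg_left h4 (by norm_num)
      _ = 1 / 2 ^ (Nat.clog 2 b) := by
          rw [pow_add, pow_add]
          field_simp
      _ ≤ 1 / b := one_div_le_one_div_of_le hb' h2
  have htot : ((univ.filter fun ω : Fin m → Ω => ∀ i, |em ω (E i) - mu (E i)| < τ).card : ℝ) +
      ((univ.filter fun ω : Fin m → Ω => ¬ ∀ i, |em ω (E i) - mu (E i)| < τ).card : ℝ) =
      (Fintype.card Ω : ℝ) ^ m := by
    have := card_filter_add_card_filter_not (s := (univ : Finset (Fin m → Ω)))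
      (fun ω => ∀ i, |em ω (E i) - mu (E i)| < τ)
    rw [card_univ, Fintype.card_fun, Fintype.card_fin] at this
    exact_mod_cast this
  have hfin : ((univ.filter fun ω : Fin m → Ω => ¬ ∀ i, |em ω (E i) - mu (E i)| < τ).card : ℝ) ≤
      1 / b * (Fintype.card Ω : ℝ) ^ m := by
    refine hbad.trans ?_
    rw [← mul_assoc]
    exact mul_le_mul_of_nonneg_right hexp (by positivity)
  linarith

end Pool.Agent.H.MP_cba12a_lc
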