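import Pool.Agent.H.MP_cba12a_lc.Flip

/-!
Families of long terms in which every variable occurs rarely: the local lemma, closed
neighbourhoods, and isolation of a term.
-/

namespace Pool.Agent.H.MP_cba12a_lc

open Finset

variable {n : ℕ}

/-- all literals of `T` hold at `x` -/
def SatT (T : Finset (Fin n × Bool)) (x : Fin n → Bool) : Prop := ∀ l ∈ T, x l.1 = l.2

instance (T : Finset (Fin n × Bool)) : DecidablePred (SatT T) := fun x => by
  unfold SatT; infer_instance

/-- variables of a term -/
def vs (T : Finset (Fin n × Bool)) : Finset (Fin n) := T.image Prod.fst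

theorem mem_vs {T : Finset (Fin n × Bool)} {i : Fin n} : i ∈ vs T ↔ ∃ l ∈ T, l.1 = i := by
  unfold vs; rw [mem_image]

theorem vs_card_le (T : Finset (Fin n × Bool)) : (vs T).card ≤ T.card := card_image_le

/-- number of points at which no term of the family holds -/
def nu (B : Finset (Finset (Fin n × Bool))) : ℕ :=
  (univ.filter fun x : Fin n → Bool => ∀ A ∈ B, ¬ SatT A x).card

theorem satT_flp {A : Finset (Fin n × Bool)} {i : Fin n} (hi : i ∉ vs A) (x : Fin n → Bool) :
    SatT A (flp i x) ↔ SatT A x := by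
  unfold SatT
  have : ∀ l ∈ A, flp i x l.1 = x l.1 := by
    intro l hl
    exact flp_ne (fun hc => hi (mem_vs.2 ⟨l, hl, hc⟩)) x
  exact ⟨fun h l hl => by rw [← this l hl]; exact h l hl,
    fun h l hl => by rw [this l hl]; exact h l hl⟩

theorem satT_insert {A : Finset (Fin n × Bool)} {l : Fin n × Bool} {x : Fin n → Bool} :
    SatT (insert l A) x ↔ x l.1 = l.2 ∧ SatT A x := by
  unfold SatT
  simp [mem_insert]

/-- independence, upper bound -/
theorem indep_le (A : Finset (Fin n × Bool)) (Q : (Fin n → Bool) → Prop) [DecidablePred Q]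
    (hQ : ∀ i ∈ vs A, ∀ x, Q (flp i x) ↔ Q x) :
    (univ.filter fun x => SatT A x ∧ Q x).card * 2 ^ A.card ≤ (univ.filter Q).card := by
  classical
  induction A using Finset.induction_on with
  | empty =>
    simp only [card_empty, pow_zero, mul_one]
    refine card_le_card ?_
    intro x hx
    rw [mem_filter] at hx ⊢
    exact ⟨hx.1, hx.2.2⟩
  | insert l A hl ih =>
    have ih' := ih (fun i hi x => hQ i (by
      rw [mem_vs] at hi ⊢
      obtain ⟨l', hl', h⟩ := hi
      exact ⟨l', mem_insert_of_mem hl', h⟩) x)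
    have hl1 : l.1 ∈ vs (insert l A) := mem_vs.2 ⟨l, mem_insert_self _ _, rfl⟩
    rw [card_insert_of_notMem hl, pow_succ]
    have key : 2 * (univ.filter fun x => SatT (insert l A) x ∧ Q x).card ≤
        (univ.filter fun x => SatT A x ∧ Q x).card := by
      by_cases hc : (l.1, !l.2) ∈ A
      · have : (univ.filter fun x => SatT (insert l A) x ∧ Q x) = ∅ := by
          rw [filter_eq_empty_iff]
          rintro x _ ⟨h, -⟩
          rw [satT_insert] at h
          have h2 := h.2 _ hc
          simp only at h2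
          rw [h.1] at h2
          cases h3 : l.2 <;> simp [h3] at h2
        rw [this]
        simp
      · set B := univ.filter fun x => SatT (insert l A) x ∧ Q x with hB
        have hdis : Disjoint B (B.image (flp l.1)) := by
          rw [disjoint_left]
          intro x hx hx'
          obtain ⟨y, hy, rfl⟩ := mem_image.1 hx'
          rw [hB, mem_filter, satT_insert] at hx hy
          have h1 := hx.2.1.1
          rw [flp_same, hy.2.1.1] at h1
          cases h3 : l.2 <;> simp [h3] at h1
        have hcard : (B.image (flp l.1)).card = B.card :=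
          card_image_of_injective _ (flpE l.1).injective
        have hsub : B ∪ B.image (flp l.1) ⊆ univ.filter fun x => SatT A x ∧ Q x := by
          intro x hx
          rw [mem_filter]
          refine ⟨mem_univ _, ?_⟩
          rcases mem_union.1 hx with hx | hx
          · rw [hB, mem_filter, satT_insert] at hx
            exact ⟨hx.2.1.2, hx.2.2⟩
          · obtain ⟨y, hy, rfl⟩ := mem_image.1 hx
            rw [hB, mem_filter, satT_insert] at hy
            refine ⟨?_, (hQ _ hl1 _).2 hy.2.2⟩
            intro l' hl'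
            have hne : l'.1 ≠ l.1 := by
              intro he
              rcases Bool.eq_or_eq_not l'.2 l.2 with h | h
              · exact hl (by rwa [← Prod.ext he h])
              · exact hc (by rwa [← Prod.ext (y := (l.1, !l.2)) he h])
            rw [flp_ne hne]
            exact hy.2.1.2 l' hl'
        have := card_le_card hsub
        rw [card_union_of_disjoint hdis, hcard] at this
        omega
    calc (univ.filter fun x => SatT (insert l A) x ∧ Q x).card * (2 ^ A.card * 2) =
        (2 * (univ.filter fun x => SatT (insert l A) x ∧ Q x).card) * 2 ^ A.card := by ring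
      _ ≤ (univ.filter fun x => SatT A x ∧ Q x).card * 2 ^ A.card :=
          Nat.mul_le_mul_right _ key
      _ ≤ _ := ih'

/-- independence, lower bound for terms with distinct variables -/
theorem indep_ge (A : Finset (Fin n × Bool)) (hA : (vs A).card = A.card)
    (Q : (Fin n → Bool) → Prop) [DecidablePred Q]
    (hQ : ∀ i ∈ vs A, ∀ x, Q (flp i x) ↔ Q x) :
    (univ.filter Q).card ≤ (univ.filter fun x => SatT A x ∧ Q x).card * 2 ^ A.card := by
  classical
  have hinj : Set.InjOn Prod.fst (A : Set (Fin n × Bool)) := card_image_iff.1 hA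
  clear hA
  induction A using Finset.induction_on with
  | empty =>
    simp only [card_empty, pow_zero, mul_one]
    refine card_le_card ?_
    intro x hx
    rw [mem_filter] at hx ⊢
    exact ⟨hx.1, fun l hl => absurd hl (notMem_empty _), hx.2⟩
  | insert l A hl ih =>
    have hlA : l.1 ∉ vs A := by
      intro hc
      obtain ⟨l', hl', he⟩ := mem_vs.1 hc
      have := hinj (by simp [hl']) (by simp) he
      exact hl (this ▸ hl')
    have ih' := ih (fun i hi x => hQ i (by
      rw [mem_vs] at hi ⊢
      obtain ⟨l', hl', h⟩ := hi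
      exact ⟨l', mem_insert_of_mem hl', h⟩) x)
      (hinj.mono (by intro x hx; simp at hx ⊢; exact Or.inr hx))
    have hl1 : l.1 ∈ vs (insert l A) := mem_vs.2 ⟨l, mem_insert_self _ _, rfl⟩
    rw [card_insert_of_notMem hl, pow_succ]
    have key : (univ.filter fun x => SatT A x ∧ Q x).card ≤
        2 * (univ.filter fun x => SatT (insert l A) x ∧ Q x).card := by
      set B := univ.filter fun x => SatT (insert l A) x ∧ Q x with hB
      have hcard : (B.image (flp l.1)).card = B.card :=
        card_image_of_injective _ (flpE l.1).injective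
      have hsub : (univ.filter fun x => SatT A x ∧ Q x) ⊆ B ∪ B.image (flp l.1) := by
        intro x hx
        rw [mem_filter] at hx
        rw [mem_union]
        rcases Bool.eq_or_eq_not (x l.1) l.2 with h | h
        · left
          rw [hB, mem_filter, satT_insert]
          exact ⟨mem_univ _, ⟨h, hx.2.1⟩, hx.2.2⟩
        · right
          rw [mem_image]
          refine ⟨flp l.1 x, ?_, flp_flp _ _⟩
          rw [hB, mem_filter, satT_insert, flp_same, h, Bool.not_not, satT_flp hlA]
          exact ⟨mem_univ _, ⟨rfl, hx.2.1⟩, (hQ _ hl1 _).2 hx.2.2⟩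
      have h1 := (card_le_card hsub).trans (card_union_le _ _)
      rw [hcard] at h1
      omega
    calc (univ.filter Q).card ≤ (univ.filter fun x => SatT A x ∧ Q x).card * 2 ^ A.card := ih'
      _ ≤ (2 * (univ.filter fun x => SatT (insert l A) x ∧ Q x).card) * 2 ^ A.card :=
          Nat.mul_le_mul_right _ key
      _ = _ := by ring

theorem nu_insert (B : Finset (Fin n × Bool)) (C : Finset (Finset (Fin n × Bool))) :
    nu C = nu (insert B C) +
      (univ.filter fun x : Fin n → Bool => SatT B x ∧ ∀ A ∈ C, ¬ SatT A x).card := by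
  classical
  unfold nu
  rw [← card_union_of_disjoint]
  · congr 1
    ext x
    rw [mem_union, mem_filter, mem_filter, mem_filter]
    constructor
    · rintro ⟨_, h⟩
      by_cases hB : SatT B x
      · exact Or.inr ⟨mem_univ _, hB, h⟩
      · refine Or.inl ⟨mem_univ _, fun A hA => ?_⟩
        rcases mem_insert.1 hA with rfl | hA
        · exact hB
        · exact h A hA
    · rintro (⟨_, h⟩ | ⟨_, _, h⟩)
      · exact ⟨mem_univ _, fun A hA => h A (mem_insert_of_mem hA)⟩
      · exact ⟨mem_univ _, h⟩
  · rw [disjoint_left]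
    intro x hx hx'
    rw [mem_filter] at hx hx'
    exact hx.2 B (mem_insert_self _ _) hx'.2.1

theorem bern {k lam : ℕ} (h : (3 : ℝ) * k * (3 / 4) ^ lam ≤ 1) (j : ℕ) :
    (2 / 3 : ℝ) ^ j ≤ (1 - (3 / 4) ^ lam) ^ (k * j) := by
  rw [pow_mul]
  refine pow_le_pow_left₀ (by norm_num) ?_ j
  have h1 : (3 / 4 : ℝ) ^ lam ≤ 1 := pow_le_one₀ (by norm_num) (by norm_num)
  have h2 := one_add_mul_le_pow (a := -(3 / 4 : ℝ) ^ lam) (by linarith) k
  have e : (1 : ℝ) + -(3 / 4) ^ lam = 1 - (3 / 4) ^ lam := by ring
  rw [e] at h2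
  linarith

theorem card_touch_le {k : ℕ} {F : Finset (Finset (Fin n × Bool))} (X : Finset (Fin n))
    (hread : ∀ i, (F.filter fun A => i ∈ vs A).card ≤ k) :
    (F.filter fun A => ∃ i ∈ X, i ∈ vs A).card ≤ k * X.card := by
  classical
  calc (F.filter fun A => ∃ i ∈ X, i ∈ vs A).card ≤
      (X.biUnion fun i => F.filter fun A => i ∈ vs A).card := by
        refine card_le_card ?_
        intro A hA
        rw [mem_filter] at hA
        obtain ⟨hA, i, hi, hiA⟩ := hA
        rw [mem_biUnion]
        exact ⟨i, hi, mem_filter.2 ⟨hA, hiA⟩⟩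
    _ ≤ ∑ i ∈ X, (F.filter fun A => i ∈ vs A).card := card_biUnion_le
    _ ≤ ∑ _i ∈ X, k := sum_le_sum fun i _ => hread i
    _ = k * X.card := by rw [sum_const, smul_eq_mul, mul_comm]

/-- **Local lemma.** -/
theorem lll {k lam : ℕ} {F : Finset (Finset (Fin n × Bool))}
    (hlen : ∀ A ∈ F, lam ≤ A.card) (hread : ∀ i, (F.filter fun A => i ∈ vs A).card ≤ k)
    (hlam : (3 : ℝ) * k * (3 / 4) ^ lam ≤ 1) : ∀ (N : ℕ) (B : Finset (Finset (Fin n × Bool))),
    B.card ≤ N → B ⊆ F → ∀ A ∈ F, A ∉ B →
    ((univ.filter fun x : Fin n → Bool => SatT A x ∧ ∀ C ∈ B, ¬ SatT C x).card : ℝ) ≤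
      (3 / 4) ^ A.card * nu B := by
  classical
  intro N
  induction N using Nat.strong_induction_on with
  | _ N ih =>
    intro B hBN hBF A hA hAB
    set B1 := B.filter (fun C => ∃ i ∈ vs A, i ∈ vs C) with hB1
    set B2 := B.filter (fun C => ¬ ∃ i ∈ vs A, i ∈ vs C) with hB2
    -- upper bound with the independent part
    have h1 : (univ.filter fun x : Fin n → Bool => SatT A x ∧ ∀ C ∈ B, ¬ SatT C x).card *
        2 ^ A.card ≤ nu B2 := by
      calc (univ.filter fun x : Fin n → Bool => SatT A x ∧ ∀ C ∈ B, ¬ SatT C x).card *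
          2 ^ A.card ≤ (univ.filter fun x : Fin n → Bool => SatT A x ∧
            ∀ C ∈ B2, ¬ SatT C x).card * 2 ^ A.card := by
            refine Nat.mul_le_mul_right _ (card_le_card ?_)
            intro x hx
            rw [mem_filter] at hx ⊢
            exact ⟨hx.1, hx.2.1, fun C hC => hx.2.2 C (mem_filter.1 hC).1⟩
        _ ≤ nu B2 := by
            refine indep_le A _ ?_
            intro i hi x
            have : ∀ C ∈ B2, (SatT C (flp i x) ↔ SatT C x) := by
              intro C hC
              rw [hB2, mem_filter] at hC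
              exact satT_flp (fun hc => hC.2 ⟨i, hi, hc⟩) x
            exact ⟨fun h C hC => fun hs => h C hC ((this C hC).2 hs),
              fun h C hC => fun hs => h C hC ((this C hC).1 hs)⟩
    -- lower bound for nu B
    have hsub : ∀ C ⊆ B1, (1 - (3 / 4 : ℝ) ^ lam) ^ C.card * nu B2 ≤ nu (B2 ∪ C) := by
      intro C
      induction C using Finset.induction_on with
      | empty => intro _; simp
      | insert D C hD ihC =>
        intro hC
        have hCB : C ⊆ B1 := fun x hx => hC (mem_insert_of_mem hx)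
        have hDB1 : D ∈ B1 := hC (mem_insert_self _ _)
        have ihC' := ihC hCB
        have hDB : D ∈ B := (mem_filter.1 hDB1).1
        have hDnot : D ∉ B2 ∪ C := by
          rw [mem_union]
          rintro (h | h)
          · exact (mem_filter.1 h).2 (mem_filter.1 hDB1).2
          · exact hD h
        have hss : B2 ∪ C ⊆ B.erase D := by
          intro E hE
          rw [mem_erase]
          refine ⟨fun hc => hDnot (hc ▸ hE), ?_⟩
          rcases mem_union.1 hE with h | h
          · exact (mem_filter.1 h).1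
          · exact (mem_filter.1 (hCB h)).1
        have hcard : (B2 ∪ C).card < N := by
          have h2 := card_le_card hss
          rw [card_erase_of_mem hDB] at h2
          have h3 : 0 < B.card := card_pos.2 ⟨D, hDB⟩
          omega
        have h4 := ih _ hcard (B2 ∪ C) le_rfl
          (fun E hE => hBF (mem_of_mem_erase (hss hE))) D (hBF hDB) hDnot
        have h5 := nu_insert D (B2 ∪ C)
        have h5' : (nu (B2 ∪ C) : ℝ) = nu (insert D (B2 ∪ C)) +
            ((univ.filter fun x : Fin n → Bool => SatT D x ∧ ∀ A ∈ B2 ∪ C, ¬ SatT A x).card : ℝ) := by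
          exact_mod_cast h5
        have h6 : (3 / 4 : ℝ) ^ D.card ≤ (3 / 4) ^ lam :=
          pow_le_pow_of_le_one (by norm_num) (by norm_num) (hlen D (hBF hDB))
        have h7 : (0 : ℝ) ≤ nu (B2 ∪ C) := by positivity
        have h8 : (1 - (3 / 4 : ℝ) ^ lam) * nu (B2 ∪ C) ≤ nu (insert D (B2 ∪ C)) := by
          nlinarith [mul_le_mul_of_nonneg_right h6 h7]
        have h9 : (0 : ℝ) ≤ 1 - (3 / 4) ^ lam := by
          have : (3 / 4 : ℝ) ^ lam ≤ 1 := pow_le_one₀ (by norm_num) (by norm_num)
          linarith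
        rw [card_insert_of_notMem hD, pow_succ, union_insert]
        calc (1 - (3 / 4 : ℝ) ^ lam) ^ C.card * (1 - (3 / 4) ^ lam) * nu B2 =
            (1 - (3 / 4 : ℝ) ^ lam) * ((1 - (3 / 4 : ℝ) ^ lam) ^ C.card * nu B2) := by ring
          _ ≤ (1 - (3 / 4 : ℝ) ^ lam) * nu (B2 ∪ C) := mul_le_mul_of_nonneg_left ihC' h9
          _ ≤ _ := h8
    have hBeq : B2 ∪ B1 = B := by
      rw [hB1, hB2, union_comm]
      exact filter_union_filter_not_eq _ _
    have h2 := hsub B1 (subset_refl _)
    rw [hBeq] at h2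
    have h3 : B1.card ≤ k * (vs A).card := by
      refine le_trans (card_le_card ?_) (card_touch_le (vs A) hread)
      intro C hC
      rw [hB1, mem_filter] at hC
      rw [mem_filter]
      exact ⟨hBF hC.1, hC.2⟩
    have h3' : B1.card ≤ k * A.card := h3.trans (Nat.mul_le_mul_left _ (vs_card_le A))
    have h9 : (0 : ℝ) ≤ 1 - (3 / 4) ^ lam := by
      have : (3 / 4 : ℝ) ^ lam ≤ 1 := pow_le_one₀ (by norm_num) (by norm_num)
      linarith
    have h4 : (2 / 3 : ℝ) ^ A.card ≤ (1 - (3 / 4) ^ lam) ^ B1.card := by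
      refine (bern hlam A.card).trans ?_
      refine pow_le_pow_of_le_one h9 ?_ h3'
      have : (0 : ℝ) ≤ (3 / 4) ^ lam := by positivity
      linarith
    have h5 : (2 / 3 : ℝ) ^ A.card * nu B2 ≤ nu B :=
      (mul_le_mul_of_nonneg_right h4 (by positivity)).trans h2
    have h1' : ((univ.filter fun x : Fin n → Bool => SatT A x ∧ ∀ C ∈ B, ¬ SatT C x).card : ℝ) *
        2 ^ A.card ≤ nu B2 := by exact_mod_cast h1
    have e : (3 / 4 : ℝ) ^ A.card = (1 / 2) ^ A.card * (3 / 2) ^ A.card := by
      rw [← mul_pow]; norm_num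
    have e2 : (3 / 2 : ℝ) ^ A.card * (2 / 3) ^ A.card = 1 := by
      rw [← mul_pow]; norm_num
    have e3 : (1 / 2 : ℝ) ^ A.card * 2 ^ A.card = 1 := by
      rw [← mul_pow]; norm_num
    have h6 : (nu B2 : ℝ) ≤ (3 / 2) ^ A.card * nu B := by
      calc (nu B2 : ℝ) = (3 / 2 : ℝ) ^ A.card * (2 / 3) ^ A.card * nu B2 := by rw [e2, one_mul]
        _ = (3 / 2 : ℝ) ^ A.card * ((2 / 3) ^ A.card * nu B2) := by ring
        _ ≤ _ := mul_le_mul_of_nonneg_left h5 (by positivity)
    calc ((univ.filter fun x : Fin n → Bool => SatT A x ∧ ∀ C ∈ B, ¬ SatT C x).card : ℝ) =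
        (1 / 2 : ℝ) ^ A.card * (((univ.filter fun x : Fin n → Bool => SatT A x ∧
          ∀ C ∈ B, ¬ SatT C x).card : ℝ) * 2 ^ A.card) := by
          rw [mul_comm, mul_assoc, mul_comm ((2 : ℝ) ^ A.card), e3, mul_one]
      _ ≤ (1 / 2 : ℝ) ^ A.card * nu B2 := mul_le_mul_of_nonneg_left h1' (by positivity)
      _ ≤ (1 / 2 : ℝ) ^ A.card * ((3 / 2) ^ A.card * nu B) :=
          mul_le_mul_of_nonneg_left h6 (by positivity)
      _ = _ := by rw [e]; ring

/-- Adding few terms to a family does not decrease `nu` much. -/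
theorem nu_union_ge {k lam : ℕ} {F : Finset (Finset (Fin n × Bool))}
    (hlen : ∀ A ∈ F, lam ≤ A.card) (hread : ∀ i, (F.filter fun A => i ∈ vs A).card ≤ k)
    (hlam : (3 : ℝ) * k * (3 / 4) ^ lam ≤ 1) (O : Finset (Finset (Fin n × Bool))) (hO : O ⊆ F) :
    ∀ C ⊆ F \ O, (1 - (3 / 4 : ℝ) ^ lam) ^ C.card * nu O ≤ nu (O ∪ C) := by
  classical
  intro C
  induction C using Finset.induction_on with
  | empty => intro _; simp
  | insert D C hD ihC =>
    intro hC
    have hCF : C ⊆ F \ O := fun x hx => hC (mem_insert_of_mem hx)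
    have hDF := mem_sdiff.1 (hC (mem_insert_self _ _))
    have ihC' := ihC hCF
    have hDnot : D ∉ O ∪ C := by
      rw [mem_union]
      rintro (h | h)
      · exact hDF.2 h
      · exact hD h
    have h4 := lll hlen hread hlam (O ∪ C).card (O ∪ C) le_rfl
      (union_subset hO fun x hx => (mem_sdiff.1 (hCF hx)).1) D hDF.1 hDnot
    have h5 := nu_insert D (O ∪ C)
    have h5' : (nu (O ∪ C) : ℝ) = nu (insert D (O ∪ C)) +
        ((univ.filter fun x : Fin n → Bool => SatT D x ∧ ∀ A ∈ O ∪ C, ¬ SatT A x).card : ℝ) := by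
      exact_mod_cast h5
    have h6 : (3 / 4 : ℝ) ^ D.card ≤ (3 / 4) ^ lam :=
      pow_le_pow_of_le_one (by norm_num) (by norm_num) (hlen D hDF.1)
    have h7 : (0 : ℝ) ≤ nu (O ∪ C) := by positivity
    have h8 : (1 - (3 / 4 : ℝ) ^ lam) * nu (O ∪ C) ≤ nu (insert D (O ∪ C)) := by
      nlinarith [mul_le_mul_of_nonneg_right h6 h7]
    have h9 : (0 : ℝ) ≤ 1 - (3 / 4) ^ lam := by
      have : (3 / 4 : ℝ) ^ lam ≤ 1 := pow_le_one₀ (by norm_num) (by norm_num)
      linarith
    rw [card_insert_of_notMem hD, pow_succ, union_insert]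
    calc (1 - (3 / 4 : ℝ) ^ lam) ^ C.card * (1 - (3 / 4) ^ lam) * nu O =
        (1 - (3 / 4 : ℝ) ^ lam) * ((1 - (3 / 4 : ℝ) ^ lam) ^ C.card * nu O) := by ring
      _ ≤ (1 - (3 / 4 : ℝ) ^ lam) * nu (O ∪ C) := mul_le_mul_of_nonneg_left ihC' h9
      _ ≤ _ := h8

end Pool.Agent.H.MP_cba12a_lc
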