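import Pool.Agent.H.MP_cba12a_lc.Detect5

/-!
What the learner outputs at a leaf of the tree.
-/

namespace Pool.Agent.H.MP_cba12a_lc

open Finset

variable {n m : ℕ}

/-- the terms of `F` compatible with `B`, restricted to the variables outside `B` -/
def restr (B : Finset (Fin n × Bool)) (F : Finset (Finset (Fin n × Bool))) :
    Finset (Finset (Fin n × Bool)) :=
  (F.filter fun T => (vs T).card = T.card ∧ ∀ l ∈ T, l.1 ∈ vs B → l ∈ B).image (outs (vs B))

theorem restr_spec {B : Finset (Fin n × Bool)} {F : Finset (Finset (Fin n × Bool))}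
    {x : Fin n → Bool} (hx : SatT B x) :
    (∃ T ∈ F, SatT T x) ↔ ∃ C ∈ restr B F, SatT C x := by
  constructor
  · rintro ⟨T, hT, hs⟩
    refine ⟨outs (vs B) T, ?_, fun l hl => hs l (outs_sub _ _ hl)⟩
    unfold restr
    rw [mem_image]
    refine ⟨T, ?_, rfl⟩
    rw [mem_filter]
    refine ⟨hT, ?_, ?_⟩
    · unfold vs
      rw [card_image_iff]
      intro l hl l' hl' h
      have h1 := hs l (by simpa using hl)
      have h2 := hs l' (by simpa using hl')
      refine Prod.ext h ?_
      rw [← h1, ← h2, h]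
    · intro l hl hlB
      obtain ⟨l', hl', h⟩ := mem_vs.1 hlB
      have h1 := hs l hl
      have h2 := hx l' hl'
      have : l = l' := Prod.ext h.symm (by rw [← h1, ← h2, h])
      rw [this]
      exact hl'
  · rintro ⟨C, hC, hs⟩
    unfold restr at hC
    obtain ⟨T, hT, rfl⟩ := mem_image.1 hC
    rw [mem_filter] at hT
    refine ⟨T, hT.1, ?_⟩
    intro l hl
    by_cases hlB : l.1 ∈ vs B
    · exact hx l (hT.2.2 l hl hlB)
    · exact hs l (mem_filter.2 ⟨hl, hlB⟩)

theorem restr_cons {B : Finset (Fin n × Bool)} {F : Finset (Finset (Fin n × Bool))}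
    {C : Finset (Fin n × Bool)} (hC : C ∈ restr B F) :
    (vs C).card = C.card ∧ Disjoint (vs C) (vs B) := by
  unfold restr at hC
  obtain ⟨T, hT, rfl⟩ := mem_image.1 hC
  rw [mem_filter] at hT
  constructor
  · have hinj : Set.InjOn Prod.fst (T : Set (Fin n × Bool)) := card_image_iff.1 hT.2.1
    unfold vs
    rw [card_image_iff]
    exact hinj.mono (by exact_mod_cast outs_sub _ _)
  · rw [vs_outs]
    exact sdiff_disjoint

theorem restr_read {B : Finset (Fin n × Bool)} {F : Finset (Finset (Fin n × Bool))} {k : ℕ}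
    (hread : ∀ j, (F.filter fun T => j ∈ vs T).card ≤ k) (j : Fin n) :
    ((restr B F).filter fun C => j ∈ vs C).card ≤ k := by
  calc ((restr B F).filter fun C => j ∈ vs C).card ≤
      ((F.filter fun T => j ∈ vs T).image (outs (vs B))).card := by
        refine card_le_card ?_
        intro C hC
        rw [mem_filter] at hC
        obtain ⟨hC, hj⟩ := hC
        unfold restr at hC
        obtain ⟨T, hT, rfl⟩ := mem_image.1 hC
        rw [mem_filter] at hT
        exact mem_image.2 ⟨T, mem_filter.2 ⟨hT.1, vs_mono (outs_sub _ _) hj⟩, rfl⟩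
    _ ≤ _ := card_image_le
    _ ≤ k := hread j

theorem restr_card (B : Finset (Fin n × Bool)) (F : Finset (Finset (Fin n × Bool))) :
    (restr B F).card ≤ F.card := card_image_le.trans (card_filter_le _ _)

theorem card_le_of_read {F : Finset (Finset (Fin n × Bool))} {k : ℕ}
    (hread : ∀ j, (F.filter fun T => j ∈ vs T).card ≤ k) : F.card ≤ k * n + 1 := by
  classical
  have h1 : F ⊆ insert ∅ (F.filter fun A => ∃ i ∈ (univ : Finset (Fin n)), i ∈ vs A) := by
    intro T hT
    rcases T.eq_empty_or_nonempty with rfl | ⟨l, hl⟩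
    · exact mem_insert_self _ _
    · refine mem_insert_of_mem (mem_filter.2 ⟨hT, l.1, mem_univ _, mem_vs.2 ⟨l, hl, rfl⟩⟩)
  have h2 := card_touch_le (univ : Finset (Fin n)) hread
  rw [card_univ, Fintype.card_fin] at h2
  have h3 := (card_le_card h1).trans (card_insert_le _ _)
  omega

theorem exists_irred (R : Finset (Finset (Fin n × Bool))) :
    ∃ G ⊆ R, (∀ x, (∃ C ∈ R, SatT C x) ↔ ∃ C ∈ G, SatT C x) ∧
      ∀ T ∈ G, ∃ z, SatT T z ∧ ∀ C ∈ G, C ≠ T → ¬ SatT C z := by
  classical
  obtain ⟨G, hG, hmin⟩ := exists_min_image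
    (R.powerset.filter fun G => ∀ x, (∃ C ∈ R, SatT C x) ↔ ∃ C ∈ G, SatT C x) card
    ⟨R, mem_filter.2 ⟨mem_powerset.2 (subset_refl _), fun x => Iff.rfl⟩⟩
  rw [mem_filter, mem_powerset] at hG
  refine ⟨G, hG.1, hG.2, ?_⟩
  intro T hT
  by_contra hcon
  push Not at hcon
  have h1 : G.erase T ∈ R.powerset.filter fun G => ∀ x, (∃ C ∈ R, SatT C x) ↔
      ∃ C ∈ G, SatT C x := by
    rw [mem_filter, mem_powerset]
    refine ⟨(erase_subset _ _).trans hG.1, fun x => ?_⟩
    rw [hG.2 x]
    constructor
    · rintro ⟨C, hC, hs⟩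
      by_cases hCT : C = T
      · rw [hCT] at hs
        obtain ⟨C', hC', hne, hs'⟩ := hcon x hs
        exact ⟨C', mem_erase.2 ⟨hne, hC'⟩, hs'⟩
      · exact ⟨C, mem_erase.2 ⟨hCT, hC⟩, hs⟩
    · rintro ⟨C, hC, hs⟩
      exact ⟨C, mem_of_mem_erase hC, hs⟩
  have h2 := hmin _ h1
  rw [card_erase_of_mem hT] at h2
  have h3 : 0 < G.card := card_pos.2 ⟨T, hT⟩
  omega

/-- true implicants pass the test -/
theorem tst_of_implicant {A : ℕ} {ω : Fin m → Fin n → Bool} {f g : (Fin n → Bool) → Bool}
    {τ : ℝ} {C : List Lit} (hm : 0 < m) (hfg : dst f g ≤ τ) (hrep : Rep f ω 0 τ)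
    (hA : 2 * τ * A ≤ 1) (hC : ∀ l ∈ C, l.1 < n)
    (h : ∀ x : Fin n → Bool, sat (List.ofFn x) C = true → g x = true) :
    tst A (smp f ω) C = true := by
  have hm' : (0 : ℝ) < m := by exact_mod_cast hm
  unfold tst
  rw [decide_eq_true_iff, cnt_smp, length_smp]
  have h1 : mu (ev f false C []) ≤ τ := by
    have h2 := mu_ev_sub_le f g false C []
    have h3 : mu (ev g false C []) = 0 := by
      unfold mu ct
      rw [filter_false_of_mem]
      · simp
      · intro x _ hx
        rw [ev_iff] at hx
        rw [h x hx.2.1] at hx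
        exact Bool.noConfusion hx.1
    linarith
  have h2 := (abs_lt.1 (hrep false C [] hC (by simp) (by simp))).2
  have h3 : em ω (ev f false C []) ≤ 2 * τ := by linarith
  unfold em at h3
  rw [div_le_iff₀ hm'] at h3
  have h4 : (ec ω (ev f false C []) : ℝ) * A ≤ m := by
    calc (ec ω (ev f false C []) : ℝ) * A ≤ (2 * τ * m) * A :=
          mul_le_mul_of_nonneg_right h3 (by positivity)
      _ = (2 * τ * A) * m := by ring
      _ ≤ 1 * m := mul_le_mul_of_nonneg_right hA hm'.le
      _ = m := one_mul _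
  exact_mod_cast h4

/-- density of a leaf -/
theorem mu_leaf {f : (Fin n → Bool) → Bool} {α : List Lit} (hαd : (α.map Prod.fst).Nodup)
    (hαn : ∀ l ∈ α, l.1 < n) : mu (ev f false α []) + mu (ev f true α []) = wt α := by
  have h1 : mu (ev f false α []) + mu (ev f true α []) =
      mu (fun x : Fin n → Bool => sat (List.ofFn x) α) := by
    symm
    refine mu_eq_add ?_ ?_
    · intro x
      rw [ev_iff, ev_iff]
      cases hf : f x
      · constructor
        · intro h; exact Or.inl ⟨rfl, h, rfl⟩
        · rintro (⟨_, h, _⟩ | ⟨h, _⟩)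
          · exact h
          · exact Bool.noConfusion h
      · constructor
        · intro h; exact Or.inr ⟨rfl, h, rfl⟩
        · rintro (⟨h, _⟩ | ⟨_, h, _⟩)
          · exact Bool.noConfusion h
          · exact h
    · rintro x ⟨h2, h3⟩
      rw [ev_iff] at h2 h3
      rw [h2.1] at h3
      exact Bool.noConfusion h3.1
  rw [h1, mu_eq_div]
  have hcard : (toF n α).card = α.length := toF_card_of_nodup (nodup_of_map hαd) hαn
  have h2 := indep_le (toF n α) (fun _ : Fin n → Bool => True) (fun _ _ _ => Iff.rfl)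
  have h3 := indep_ge (toF n α) (by rw [vs_toF_card hαd hαn, hcard])
    (fun _ : Fin n → Bool => True) (fun _ _ _ => Iff.rfl)
  have e : (univ.filter fun x : Fin n → Bool => SatT (toF n α) x ∧ True) =
      (univ.filter fun x : Fin n → Bool => sat (List.ofFn x) α = true) := by
    ext x
    rw [mem_filter, mem_filter, satT_toF hαn]
    simp
  have e2 : (univ.filter fun _ : Fin n → Bool => True).card = 2 ^ n := by
    rw [filter_true_of_mem (fun _ _ => trivial), card_univ, Fintype.card_fun, Fintype.card_fin,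
      Fintype.card_bool]
  rw [e, hcard, e2] at h2 h3
  have h4 := le_antisymm h2 h3
  have h5 : ((univ.filter fun x : Fin n → Bool => sat (List.ofFn x) α = true).card : ℝ) *
      2 ^ α.length = 2 ^ n := by exact_mod_cast h4
  unfold wt
  rw [div_eq_iff (by positivity), ← h5, one_div_pow]
  field_simp

/-- **The output at a finished leaf covers the positive points of the leaf**, except for those
which satisfy only very long terms. -/
theorem leaf5 {a A N k ℓ : ℕ} {ω : Fin m → Fin n → Bool} {f g : (Fin n → Bool) → Bool}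
    {α : List Lit} {F : Finset (Finset (Fin n × Bool))} {τ ρ : ℝ} (hm : 0 < m) (ha : 1 ≤ a)
    (hk : 1 ≤ k) (hτ : 0 < τ) (hρτ : 256 * τ ≤ ρ)
    (hlam : (3 : ℝ) * k * (3 / 4) ^ (4 * k) ≤ 1)
    (hαd : (α.map Prod.fst).Nodup) (hαn : ∀ l ∈ α, l.1 < n)
    (hgF : ∀ x, g x = true ↔ ∃ T ∈ F, SatT T x)
    (hread : ∀ j, (F.filter fun T => j ∈ vs T).card ≤ k)
    (hfin : fin A N (8 * k ^ 2) (allLits n) (smp f ω) α = true)
    (hfg : dst f g ≤ τ) (hrep : Rep f ω 0 τ)
    (hρ : ρ * (64 * a * (2 * n + 1) ^ k * 2 ^ α.length * 9 ^ ℓ) ≤ 1)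
    (hN1 : (2 * n + 1) ^ (8 * k ^ 2) ≤ N) (hN2 : (1 / ρ) ^ 10 ≤ (N : ℝ))
    (hA : 2 * τ * A ≤ 1) (x : Fin n → Bool) (hx : sat (List.ofFn x) α = true)
    (hgx : g x = true) :
    (∃ D ∈ leafOut a A N (8 * k ^ 2) (allLits n) (smp f ω) α, sat (List.ofFn x) D = true) ∨
      ∃ C ∈ restr (toF n α) F, ℓ < C.card ∧ SatT C x := by
  classical
  have hm' : (0 : ℝ) < m := by exact_mod_cast hm
  have ha' : (1 : ℝ) ≤ a := by exact_mod_cast ha
  have hρ0 : 0 < ρ := by linarith
  by_cases hcase : (tst A (smp f ω) α || maj a (smp f ω) α) = true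
  · left
    refine ⟨α, ?_, hx⟩
    unfold leafOut
    rw [if_pos hcase]
    simp
  · rw [Bool.or_eq_true, not_or, Bool.not_eq_true, Bool.not_eq_true] at hcase
    obtain ⟨htst, hmaj⟩ := hcase
    have hout : leafOut a A N (8 * k ^ 2) (allLits n) (smp f ω) α =
        good5 A N (8 * k ^ 2) (allLits n) (smp f ω) α := by
      unfold leafOut
      rw [htst, hmaj]
      simp
    have hempty : shorts A N (8 * k ^ 2) (allLits n) (smp f ω) α = [] := by
      unfold fin at hfin
      rw [htst, Bool.false_or, List.isEmpty_iff] at hfin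
      exact hfin
    have hxα := (satT_toF hαn).1 hx
    obtain ⟨G, hGR, hGeq, hGirr⟩ := exists_irred (restr (toF n α) F)
    have hgG : ∀ y, SatT (toF n α) y → (g y = true ↔ ∃ B ∈ G, SatT B y) := by
      intro y hy
      rw [hgF y, restr_spec hy, hGeq y]
    have hGX : ∀ B ∈ G, Disjoint (vs B) (vs (toF n α)) := fun B hB => (restr_cons (hGR hB)).2
    have hcons : ∀ B ∈ G, (vs B).card = B.card := fun B hB => (restr_cons (hGR hB)).1
    have hreadG : ∀ j, (G.filter fun B => j ∈ vs B).card ≤ k := fun j =>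
      (card_le_card (filter_subset_filter _ hGR)).trans (restr_read hread j)
    obtain ⟨T, hT, hTx⟩ := (hgG x hxα).1 hgx
    by_cases hTl : ℓ < T.card
    · exact Or.inr ⟨T, hGR hT, hTl, hTx⟩
    left
    have hTl := not_lt.1 hTl
    -- all terms are long
    have hlen : ∀ B ∈ G, 2 * k * (4 * k) ≤ B.card := by
      intro B hB
      by_contra hcon
      have hcon := not_le.1 hcon
      have hBl : B.card ≤ 8 * k ^ 2 := by
        have : 2 * k * (4 * k) = 8 * k ^ 2 := by ring
        omega
      have hmem : lits B ∈ shorts A N (8 * k ^ 2) (allLits n) (smp f ω) α := by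
        unfold shorts
        rw [List.mem_filter, Bool.and_eq_true]
        refine ⟨mem_seeds (by rw [length_allLits]; exact hN1) (by rw [length_lits]; exact hBl)
          (fun l hl => mem_allLits.2 (lits_lt hl)), ?_, ?_⟩
        · rw [dist_iff, List.map_append, List.nodup_append]
          refine ⟨nodup_lits (hcons B hB), hαd, ?_⟩
          intro j hj j' hj' hjj
          subst hjj
          obtain ⟨l, hl, rfl⟩ := List.mem_map.1 hj
          obtain ⟨l', hl', rfl⟩ := mem_lits.1 hl
          exact disjoint_left.1 (hGX B hB) (mem_vs.2 ⟨l', hl', rfl⟩) (mem_vs_toF.2 hj')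
        · refine tst_of_implicant (g := g) hm hfg hrep hA ?_ ?_
          · intro l hl
            rcases List.mem_append.1 hl with hl | hl
            · exact lits_lt hl
            · exact hαn l hl
          · intro y hy
            rw [sat_append, sat_lits] at hy
            rw [hgG y ((satT_toF hαn).1 hy.2)]
            exact ⟨B, hB, hy.1⟩
      rw [hempty] at hmem
      simp at hmem
    -- the false fraction
    have hwt : wt α * 2 ^ α.length = 1 := by
      unfold wt
      rw [← mul_pow]
      norm_num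
    have hwt0 : 0 < wt α := by unfold wt; positivity
    have hsmall : 3 * τ ≤ wt α / (16 * a) := by
      have h9 : (1 : ℝ) ≤ (2 * n + 1) ^ k * 9 ^ ℓ := by
        have h1 : (1 : ℝ) ≤ (2 * n + 1) ^ k := one_le_pow₀ (by
          have : (0 : ℝ) ≤ n := by positivity
          linarith)
        have h2 : (1 : ℝ) ≤ 9 ^ ℓ := one_le_pow₀ (by norm_num)
        nlinarith
      have h1 : ρ * (64 * a * 2 ^ α.length) ≤ 1 := by
        refine le_trans ?_ hρ
        have h2 : 64 * a * (2 * n + 1) ^ k * 2 ^ α.length * 9 ^ ℓ =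
          (64 * (a : ℝ) * 2 ^ α.length) * ((2 * n + 1) ^ k * 9 ^ ℓ) := by ring
        rw [h2]
        refine mul_le_mul_of_nonneg_left ?_ hρ0.le
        exact le_mul_of_one_le_right (by positivity) h9
      have h3 : ρ * (64 * a) ≤ wt α := by
        calc ρ * (64 * a) = (ρ * (64 * a * 2 ^ α.length)) * wt α := by
              calc ρ * (64 * a) = ρ * (64 * a) * (wt α * 2 ^ α.length) := by rw [hwt, mul_one]
                _ = _ := by ring
          _ ≤ 1 * wt α := mul_le_mul_of_nonneg_right h1 hwt0.le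
          _ = wt α := one_mul _
      rw [le_div_iff₀ (by positivity)]
      have h4 : τ * a ≤ ρ * a := mul_le_mul_of_nonneg_right (by linarith) (by positivity)
      have h5 : 256 * τ * a ≤ ρ * a := mul_le_mul_of_nonneg_right hρτ (by positivity)
      nlinarith [mul_nonneg hρ0.le (show (0 : ℝ) ≤ a by positivity)]
    have hfalse : wt α / (16 * a) ≤ mu (ev g false α []) := by
      have h1 := (abs_lt.1 (hrep false α [] hαn (by simp) (by simp))).2
      have h2 := (abs_lt.1 (hrep true α [] hαn (by simp) (by simp))).1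
      have h2' := (abs_lt.1 (hrep false α [] hαn (by simp) (by simp))).1
      have h3 := mu_leaf (f := f) hαd hαn
      have h4 : em ω (ev f false α []) + em ω (ev f true α []) ≤
          em ω (ev f false α []) * (8 * a) := by
        unfold maj at hmaj
        rw [decide_eq_false_iff_not, cnt_smp, cnt_smp] at hmaj
        have h5 := (not_le.1 hmaj).le
        unfold em
        rw [← add_div, div_mul_eq_mul_div, div_le_div_iff_of_pos_right hm']
        exact_mod_cast h5
      have h6 := mu_ev_sub_le f g false α []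
      have h7 : wt α - 2 * τ ≤ (mu (ev g false α []) + 2 * τ) * (8 * a) := by
        have h8 : em ω (ev f false α []) ≤ mu (ev g false α []) + 2 * τ := by linarith
        have h9 := mul_le_mul_of_nonneg_right h8 (show (0 : ℝ) ≤ 8 * a by positivity)
        linarith
      have h10 : wt α ≤ mu (ev g false α []) * (8 * a) + 24 * (τ * a) := by
        have : τ ≤ τ * a := le_mul_of_one_le_right hτ.le ha'
        nlinarith
      rw [le_div_iff₀ (by positivity)] at hsmall
      rw [div_le_iff₀ (by positivity)]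
      nlinarith
    have hnu : (1 : ℝ) / (16 * a) ≤ (nu G : ℝ) / 2 ^ n := by
      have hcard : (toF n α).card = α.length := toF_card_of_nodup (nodup_of_map hαd) hαn
      have h1 := indep_le (toF n α) (fun y : Fin n → Bool => ∀ B ∈ G, ¬ SatT B y) (by
        intro j hj y
        have : ∀ B ∈ G, (SatT B (flp j y) ↔ SatT B y) := by
          intro B hB
          exact satT_flp (fun h => disjoint_left.1 (hGX B hB) h hj) y
        exact ⟨fun h C hC => fun hs => h C hC ((this C hC).2 hs),
          fun h C hC => fun hs => h C hC ((this C hC).1 hs)⟩)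
      rw [hcard] at h1
      have h2 : (univ.filter fun y => ev g false α [] y = true).card ≤
          (univ.filter fun y : Fin n → Bool => SatT (toF n α) y ∧ ∀ B ∈ G, ¬ SatT B y).card := by
        refine card_le_card ?_
        intro y hy
        rw [mem_filter, ev_iff] at hy
        have hy' := (satT_toF hαn).1 hy.2.2.1
        rw [mem_filter]
        refine ⟨mem_univ _, hy', ?_⟩
        intro B hB hs
        have := (hgG y hy').2 ⟨B, hB, hs⟩
        rw [this] at hy
        exact Bool.noConfusion hy.2.1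
      have h3 : ((univ.filter fun y => ev g false α [] y = true).card : ℝ) * 2 ^ α.length ≤
          nu G := by
        have h4 : (univ.filter fun y => ev g false α [] y = true).card * 2 ^ α.length ≤ nu G :=
          (Nat.mul_le_mul_right _ h2).trans h1
        exact_mod_cast h4
      rw [mu_eq_div] at hfalse
      rw [le_div_iff₀ (by positivity)] at hfalse ⊢
      refine le_trans ?_ h3
      calc 1 / (16 * (a : ℝ)) * 2 ^ n = (wt α / (16 * a) * 2 ^ n) * 2 ^ α.length := by
            calc 1 / (16 * (a : ℝ)) * 2 ^ n = (wt α * 2 ^ α.length) / (16 * a) * 2 ^ n := by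
                  rw [hwt]
              _ = _ := by ring
        _ ≤ _ := mul_le_mul_of_nonneg_right hfalse (by positivity)
    obtain ⟨z, hz, hz'⟩ := hGirr T hT
    obtain ⟨i, hi, hiso⟩ := isolation (lam := 4 * k) hk (by omega) hlam hcons hlen hreadG hT hz hz'
    have hIsoMu : ρ * (2 * (2 * n + 1) ^ k * 2 ^ (α.length + 1)) ≤
        mu (fun y => decide (Iso G T i y)) := by
      rw [mu_eq_div]
      simp only [decide_eq_true_eq]
      have h1 : (nu G : ℝ) ≤ 9 ^ ℓ * ((univ.filter (Iso G T i)).card : ℝ) := by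
        refine hiso.trans ?_
        exact mul_le_mul_of_nonneg_right (pow_le_pow_right₀ (by norm_num) hTl) (by positivity)
      rw [le_div_iff₀ (by positivity)] at hnu ⊢
      have h2 : 1 / (16 * (a : ℝ)) * 2 ^ n ≤ 9 ^ ℓ * ((univ.filter (Iso G T i)).card : ℝ) :=
        hnu.trans h1
      have h3 : (2 : ℝ) ^ n ≤ 16 * a * (9 ^ ℓ * ((univ.filter (Iso G T i)).card : ℝ)) := by
        calc (2 : ℝ) ^ n = 16 * a * (1 / (16 * (a : ℝ)) * 2 ^ n) := by field_simp
          _ ≤ _ := mul_le_mul_of_nonneg_left h2 (by positivity)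
      calc ρ * (2 * (2 * n + 1) ^ k * 2 ^ (α.length + 1)) * 2 ^ n ≤
          ρ * (2 * (2 * n + 1) ^ k * 2 ^ (α.length + 1)) *
            (16 * a * (9 ^ ℓ * ((univ.filter (Iso G T i)).card : ℝ))) :=
            mul_le_mul_of_nonneg_left h3 (by positivity)
        _ = (ρ * (64 * a * (2 * n + 1) ^ k * 2 ^ α.length * 9 ^ ℓ)) *
            ((univ.filter (Iso G T i)).card : ℝ) := by rw [pow_succ]; ring
        _ ≤ 1 * ((univ.filter (Iso G T i)).card : ℝ) :=
            mul_le_mul_of_nonneg_right hρ (by positivity)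
        _ = _ := one_mul _
    obtain ⟨D, hD, hDx⟩ := detect5 (kk := 8 * k ^ 2) hm hτ hρτ hαd hαn hGX hgG hcons hreadG hT hi
      hIsoMu hfg hrep (by nlinarith) hN1 hN2 hA
    rw [hout]
    exact ⟨D, hD, (hDx x).2 ⟨hx, hTx⟩⟩

end Pool.Agent.H.MP_cba12a_lc
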