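import Pool.Agent.H.MP_cba12a_lc.Detect6
import Pool.Agent.H.MP_cba12a_lc.Greedy6

/-!
The family of terms at a leaf of the tree, and the candidates at a leaf.
-/

namespace Pool.Agent.H.MP_cba12a_lc

open Finset

variable {n m : ℕ}

/-- `rt` fails: many negative points -/
theorem rt_false_spec {K : ℕ} {τ : ℝ} {f : (Fin n → Bool) → Bool} {ω : Fin m → Fin n → Bool}
    {α : List Lit} (hm : 0 < m) (hrep : Rep f ω 0 τ)
    (hαd : (α.map Prod.fst).Nodup) (hαn : ∀ l ∈ α, l.1 < n)
    (h : rt K (smp f ω) α = false) :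
    wt α - 2 * τ ≤ K * (mu (ev f false α []) + τ) := by
  have hm' : (0 : ℝ) < m := by exact_mod_cast hm
  have h1 := (abs_lt.1 (hrep false α [] hαn (by simp) (by simp)))
  have h2 := (abs_lt.1 (hrep true α [] hαn (by simp) (by simp)))
  have h3 := mu_leaf (f := f) hαd hαn
  have h4 : em ω (ev f false α []) + em ω (ev f true α []) ≤
      em ω (ev f false α []) * K := by
    unfold rt at h
    rw [decide_eq_false_iff_not, cnt_smp, cnt_smp] at h
    have h5 := (not_le.1 h).le
    unfold em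
    rw [← add_div, div_mul_eq_mul_div, div_le_div_iff_of_pos_right hm']
    exact_mod_cast h5
  have h5 : em ω (ev f false α []) * K ≤ (mu (ev f false α []) + τ) * K :=
    mul_le_mul_of_nonneg_right (by linarith) (by positivity)
  linarith

/-- `rt` holds: few negative points -/
theorem rt_spec {K : ℕ} {τ : ℝ} {f : (Fin n → Bool) → Bool} {ω : Fin m → Fin n → Bool}
    {α : List Lit} (hm : 0 < m) (hK : 2 ≤ K) (hτ : 0 < τ) (hrep : Rep f ω 0 τ)
    (hαd : (α.map Prod.fst).Nodup) (hαn : ∀ l ∈ α, l.1 < n)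
    (h : rt K (smp f ω) α = true) :
    mu (ev f false α []) ≤ wt α * (1 / K) + 2 * τ := by
  have hm' : (0 : ℝ) < m := by exact_mod_cast hm
  have hK' : (2 : ℝ) ≤ K := by exact_mod_cast hK
  have h1 := (abs_lt.1 (hrep false α [] hαn (by simp) (by simp)))
  have h2 := (abs_lt.1 (hrep true α [] hαn (by simp) (by simp)))
  have h3 := mu_leaf (f := f) hαd hαn
  have h4 : em ω (ev f false α []) * K ≤
      em ω (ev f false α []) + em ω (ev f true α []) := by
    unfold rt at h
    rw [decide_eq_true_iff, cnt_smp, cnt_smp] at h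
    unfold em
    rw [← add_div, div_mul_eq_mul_div, div_le_div_iff_of_pos_right hm']
    exact_mod_cast h
  have h5 : em ω (ev f false α []) * K ≤ wt α + 2 * τ := by linarith [h1.2, h2.2]
  have h6 : em ω (ev f false α []) ≤ (wt α + 2 * τ) * (1 / K) := by
    rw [mul_one_div, le_div_iff₀ (by linarith)]
    exact h5
  have h7 : (1 : ℝ) / K ≤ 1 / 2 := one_div_le_one_div_of_le (by norm_num) hK'
  have h8 : 2 * τ * (1 / (K : ℝ)) ≤ 2 * τ * (1 / 2) :=
    mul_le_mul_of_nonneg_left h7 (by positivity)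
  nlinarith [h1.1]

theorem restr_share {B : Finset (Fin n × Bool)} {F : Finset (Finset (Fin n × Bool))} {t : ℕ}
    (h : ∀ T ∈ F, ∀ T' ∈ F, T ≠ T' → (vs T ∩ vs T').card ≤ t) :
    ∀ T ∈ restr B F, ∀ T' ∈ restr B F, T ≠ T' → (vs T ∩ vs T').card ≤ t := by
  intro T hT T' hT' hne
  unfold restr at hT hT'
  obtain ⟨T0, hT0, rfl⟩ := mem_image.1 hT
  obtain ⟨T0', hT0', rfl⟩ := mem_image.1 hT'
  refine le_trans (card_le_card ?_) (h T0 (mem_filter.1 hT0).1 T0' (mem_filter.1 hT0').1
    fun hc => hne (by rw [hc]))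
  exact inter_subset_inter (vs_mono (outs_sub _ _)) (vs_mono (outs_sub _ _))

/-- the family at a leaf -/
theorem leaf_fam {K N t L : ℕ} {τ : ℝ} {f g : (Fin n → Bool) → Bool} {ω : Fin m → Fin n → Bool}
    {α : List Lit} {F : Finset (Finset (Fin n × Bool))} (hm : 0 < m) (hτ : 0 < τ)
    (hαd : (α.map Prod.fst).Nodup) (hαn : ∀ l ∈ α, l.1 < n)
    (hgF : ∀ x, g x = true ↔ ∃ T ∈ F, SatT T x)
    (hlen : ∀ T ∈ F, T.card ≤ L)
    (hshare : ∀ T ∈ F, ∀ T' ∈ F, T ≠ T' → (vs T ∩ vs T').card ≤ t)
    (hfin : fin6 K N (t + 1) (allLits n) (smp f ω) α = true)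
    (hrt : rt K (smp f ω) α = false)
    (hfg : dst f g ≤ τ) (hrep : Rep f ω 0 τ) (hN : (2 * n + 1) ^ (t + 1) ≤ N)
    (hK : 1 ≤ K) (hL : 1 ≤ L) (hτK : 8 * K * 2 ^ (t + 1) * τ ≤ wt α) :
    Fam t L (1 / (2 * K)) (vs (toF n α)) (restr (toF n α) F) := by
  classical
  have hK' : (1 : ℝ) ≤ K := by exact_mod_cast hK
  have hwt0 : 0 < wt α := by unfold wt; positivity
  have hempty : shorts6 K N (t + 1) (allLits n) (smp f ω) α = [] := by
    unfold fin6 at hfin
    rw [hrt, Bool.false_or, List.isEmpty_iff] at hfin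
    exact hfin
  refine ⟨fun T hT => (restr_cons hT).1, fun T hT => (restr_cons hT).2, ?_, restr_share hshare,
    ?_, by positivity, ?_, hL⟩
  · intro T hT
    unfold restr at hT
    obtain ⟨T0, hT0, rfl⟩ := mem_image.1 hT
    exact (card_le_card (outs_sub _ _)).trans (hlen T0 (mem_filter.1 hT0).1)
  · intro C hCc hCX hCt
    have hCαd : ((lits C ++ α).map Prod.fst).Nodup := by
      rw [List.map_append, List.nodup_append]
      refine ⟨nodup_lits hCc, hαd, ?_⟩
      intro j hj j' hj' hjj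
      subst hjj
      obtain ⟨l, hl, rfl⟩ := List.mem_map.1 hj
      obtain ⟨l', hl', rfl⟩ := mem_lits.1 hl
      exact disjoint_left.1 hCX (mem_vs.2 ⟨l', hl', rfl⟩) (mem_vs_toF.2 hj')
    have hCαn : ∀ l ∈ lits C ++ α, l.1 < n := by
      intro l hl
      rcases List.mem_append.1 hl with hl | hl
      · exact lits_lt hl
      · exact hαn l hl
    have hrtC : rt K (smp f ω) (lits C ++ α) = false := by
      by_contra hcon
      rw [Bool.not_eq_false] at hcon
      have hmem : lits C ∈ shorts6 K N (t + 1) (allLits n) (smp f ω) α := by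
        unfold shorts6
        rw [List.mem_filter, Bool.and_eq_true]
        exact ⟨mem_seeds (by rw [length_allLits]; exact hN) (by rw [length_lits]; exact hCt)
          (fun l hl => mem_allLits.2 (lits_lt hl)), dist_iff.2 hCαd, hcon⟩
      rw [hempty] at hmem
      simp at hmem
    have h1 := rt_false_spec hm hrep hCαd hCαn hrtC
    have h2 := mu_ev_sub_le f g false (lits C ++ α) []
    have h3 : mu (ev g false (lits C ++ α) []) ≤ wt α * nn (restr (toF n α) F) C := by
      unfold nn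
      rw [← mu_leaf_and hαd hαn (fun x => SatT C x ∧ ∀ A ∈ restr (toF n α) F, ¬ SatT A x) (by
        intro i hi x
        refine and_congr (satT_flp (fun hc => disjoint_left.1 hCX hc hi) x) ?_
        refine forall₂_congr fun A hA => ?_
        exact not_congr (satT_flp (fun hc => disjoint_left.1 (restr_cons hA).2 hc hi) x))]
      refine mu_mono fun x hx => ?_
      rw [ev_iff, sat_append, sat_lits] at hx
      rw [decide_eq_true_iff]
      refine ⟨hx.2.1.2, hx.2.1.1, ?_⟩
      intro A hA hs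
      have h4 : g x = true := by
        rw [hgF, restr_spec ((satT_toF hαn).1 hx.2.1.2)]
        exact ⟨A, hA, hs⟩
      rw [h4] at hx
      exact Bool.noConfusion hx.1
    have h4 : wt (lits C ++ α) = wF C * wt α := by
      unfold wt wF
      rw [List.length_append, length_lits, pow_add]
    rw [h4] at h1
    have h5 : (1 / 2 : ℝ) ^ (t + 1) ≤ wF C := by
      unfold wF
      exact pow_le_pow_of_le_one (by norm_num) (by norm_num) hCt
    have h6 : 8 * K * τ ≤ wF C * wt α := by
      have e : (1 / 2 : ℝ) ^ (t + 1) * 2 ^ (t + 1) = 1 := by rw [← mul_pow]; norm_num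
      calc 8 * K * τ = (1 / 2 : ℝ) ^ (t + 1) * (8 * K * 2 ^ (t + 1) * τ) := by
            rw [show (1 / 2 : ℝ) ^ (t + 1) * (8 * K * 2 ^ (t + 1) * τ) =
              ((1 / 2 : ℝ) ^ (t + 1) * 2 ^ (t + 1)) * (8 * K * τ) by ring, e, one_mul]
        _ ≤ (1 / 2 : ℝ) ^ (t + 1) * wt α := mul_le_mul_of_nonneg_left hτK (by positivity)
        _ ≤ wF C * wt α := mul_le_mul_of_nonneg_right h5 hwt0.le
    have h7 : (K : ℝ) * (mu (ev f false (lits C ++ α) []) + τ) ≤
        K * (wt α * nn (restr (toF n α) F) C + 2 * τ) :=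
      mul_le_mul_of_nonneg_left (by linarith) (by positivity)
    have h8 : wF C * wt α ≤ (wt α * nn (restr (toF n α) F) C) * (2 * K) := by
      have h9 : τ ≤ K * τ := le_mul_of_one_le_left hτ.le hK'
      nlinarith
    have h9 : wF C ≤ nn (restr (toF n α) F) C * (2 * K) := by
      by_contra hcon
      have h10 := mul_lt_mul_of_pos_right (not_le.1 hcon) hwt0
      nlinarith
    rw [one_div_mul_eq_div, div_le_iff₀ (by positivity)]
    exact h9
  · rw [div_le_one (by positivity)]
    linarith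

end Pool.Agent.H.MP_cba12a_lc
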