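import Mathlib

/-!
DNF formulas in which the variables that a term shares with any one other term have different
colours, for some colouring of the variables of the term with few colours.
-/

namespace Pool.Agent.H.MP_cba12a_lc

/-- `g` is computed by a DNF formula, with any number of terms, such that the variables can be
coloured with `p` colours, differently for every term `T`, so that two different variables which
both occur in `T` and in one and the same other term always have different colours. For `p = 1`
this says that any two terms have at most one variable in common. The literal `(i, v)` holds at `x`
when `x i = v`. -/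
def LinearDNF {n : ℕ} (p : ℕ) (g : (Fin n → Bool) → Bool) : Prop :=
  ∃ F : Finset (Finset (Fin n × Bool)), (∀ x, g x = true ↔ ∃ T ∈ F, ∀ l ∈ T, x l.1 = l.2) ∧
    ∀ T ∈ F, ∃ col : Fin n → Fin p, ∀ T' ∈ F, T' ≠ T →
      ∀ i ∈ T.image Prod.fst ∩ T'.image Prod.fst, ∀ j ∈ T.image Prod.fst ∩ T'.image Prod.fst,
        col i = col j → i = j

end Pool.Agent.H.MP_cba12a_lc
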