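import Mathlib

/-!
Numerical inequalities for the choice of the parameters.
-/

namespace Pool.Agent.H.MP_cba12a_lc

theorem num6_RM {k a W V : ℕ} (ha : 1 ≤ a) (hW : 1 ≤ W) (hV : 1 ≤ V) :
    2 * (16 * a * W * V) + 2 ≤ 2 ^ (k + 30) * a ^ 3 * W * V := by
  have h1 : 64 ≤ 2 ^ (k + 30) := by
    calc 64 = 2 ^ 6 := by norm_num
      _ ≤ _ := Nat.pow_le_pow_right (by norm_num) (by omega)
  have h2 : a ≤ a ^ 3 := Nat.le_self_pow (by norm_num) a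
  have h3 : 1 ≤ a * W * V := Nat.succ_le_of_lt (by positivity)
  have e : 2 * (16 * a * W * V) = 32 * (a * W * V) := by ring
  calc 2 * (16 * a * W * V) + 2 ≤ 64 * (a * W * V) := by omega
    _ ≤ 2 ^ (k + 30) * (a ^ 3 * W * V) := by gcongr
    _ = _ := by ring

theorem num6_L {k a W V : ℕ} (ha : 1 ≤ a) (hW : 1 ≤ W) (hV : 1 ≤ V) :
    2 ^ (k + 30) ≤ 2 * (2 ^ (k + 30) * a ^ 3 * W * V) * V := by
  have h1 : 1 ≤ a ^ 3 * W * V := Nat.succ_le_of_lt (by positivity)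
  calc 2 ^ (k + 30) ≤ 2 ^ (k + 30) * (a ^ 3 * W * V) := Nat.le_mul_of_pos_right _ h1
    _ ≤ 2 ^ (k + 30) * (a ^ 3 * W * V) * (2 * V) := Nat.le_mul_of_pos_right _ (by omega)
    _ = _ := by ring

/-- the number of samples suffices -/
theorem num6_m {M B nn cc m : ℝ} (hM : 0 < M) (hRM : 2 * B + 2 ≤ M) (hB : 0 ≤ B)
    (hn : 0 ≤ nn) (hc : 0 ≤ cc) (hm : 4 * M ^ 3 * (2 * nn + 2 + cc) ≤ m) :
    4 * ((2 * nn + 1) * (2 * B + 1) + 1 + cc) ≤ m * (1 / M) ^ 2 := by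
  have h1 : 4 * M ^ 3 * (2 * nn + 2 + cc) * (1 / M) ^ 2 = 4 * (M * (2 * nn + 2 + cc)) := by
    field_simp
  have h2 := mul_le_mul_of_nonneg_right hm (show (0 : ℝ) ≤ (1 / M) ^ 2 by positivity)
  rw [h1] at h2
  refine le_trans ?_ h2
  have h5 : (2 * B + 2) * (2 * nn + 2 + cc) ≤ M * (2 * nn + 2 + cc) :=
    mul_le_mul_of_nonneg_right hRM (by positivity)
  nlinarith [mul_nonneg hB hn, mul_nonneg hB hc]

section

variable {a W V : ℝ} {k : ℕ}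

theorem num6_rounds (ha : 1 ≤ a) (hW : 1 ≤ W) (hV : 1 ≤ V) :
    1 < 2 * (16 * a * W * V) * (1 / (16 * a * W * V) - 1 / (2 ^ (k + 30) * a ^ 3 * W * V)) := by
  have h1 : (64 : ℝ) ≤ 2 ^ (k + 30) := by
    calc (64 : ℝ) = 2 ^ 6 := by norm_num
      _ ≤ _ := pow_le_pow_right₀ (by norm_num) (by omega)
  have e : 2 * (16 * a * W * V) * (1 / (16 * a * W * V) - 1 / (2 ^ (k + 30) * a ^ 3 * W * V)) =
      2 - 32 / (2 ^ (k + 30) * a ^ 2) := by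
    field_simp
    ring
  rw [e]
  have h2 : 32 / (2 ^ (k + 30) * a ^ 2) ≤ 1 / 2 := by
    rw [div_le_div_iff₀ (by positivity) (by norm_num)]
    have : (1 : ℝ) ≤ a ^ 2 := one_le_pow₀ ha
    nlinarith
  linarith

theorem num6_D {Λ K P t7 t1 L : ℝ} (ha : 1 ≤ a) (hΛ : 1 ≤ Λ) (hK : 1 ≤ K) (hP : 1 ≤ P)
    (ht1 : 1 ≤ t1) (ht7 : t7 = t1 * 64) (hL : 1 ≤ L) :
    t1 * L * (1 / (Λ * (2 ^ 16 * a ^ 2 * K * P * t7 * L))) ≤ 1 / (64 * a) := by
  rw [ht7, mul_one_div, div_le_div_iff₀ (by positivity) (by positivity), one_mul]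
  have h1 : a ≤ Λ * (2 ^ 16 * a ^ 2 * K * P) := by
    have h2 : a ≤ a ^ 2 := by nlinarith
    calc a ≤ 1 * (1 * a ^ 2 * 1 * 1) := by linarith
      _ ≤ _ := by gcongr; norm_num
  calc t1 * L * (64 * a) = (t1 * 64 * L) * a := by ring
    _ ≤ (t1 * 64 * L) * (Λ * (2 ^ 16 * a ^ 2 * K * P)) := by gcongr
    _ = _ := by ring

theorem num6_nu {Λ K P t7 L : ℝ} (ha : 1 ≤ a) (hΛ : 1 ≤ Λ) (hK : 1 ≤ K) (hP : 1 ≤ P)
    (ht7 : 1 ≤ t7) (hL : 1 ≤ L) :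
    K * (P * (1 / (Λ * (2 ^ 16 * a ^ 2 * K * P * t7 * L)) / (1 / Λ))) ≤
      1 / (2 ^ 16 * a ^ 2) := by
  have e2 : K * (P * (1 / (Λ * (2 ^ 16 * a ^ 2 * K * P * t7 * L)) / (1 / Λ))) =
      1 / (2 ^ 16 * a ^ 2 * (t7 * L)) := by
    field_simp
  rw [e2]
  refine one_div_le_one_div_of_le (by positivity) ?_
  have h3 : (1 : ℝ) ≤ t7 * L := by nlinarith
  exact le_mul_of_one_le_right (by positivity) h3

theorem num6_tau {p1 : ℝ} (ha : 1 ≤ a) (hW : 1 ≤ W) (hV : 1 ≤ V)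
    (hp1 : p1 ≤ 32 * a * V) :
    8 * (256 * a) * (2 ^ k * (2 * (1 / (2 ^ (k + 30) * a ^ 3 * W * V)))) * (W * p1) ≤
      1 / (32 * a) := by
  have e1 : 8 * (256 * a) * (2 ^ k * (2 * (1 / (2 ^ (k + 30) * a ^ 3 * W * V)))) * (W * p1) =
      (2 ^ 12 * p1) / (2 ^ 30 * a ^ 2 * V) := by
    rw [pow_add]
    field_simp
    ring
  rw [e1, div_le_div_iff₀ (by positivity) (by positivity), one_mul]
  calc 2 ^ 12 * p1 * (32 * a) ≤ 2 ^ 12 * (32 * a * V) * (32 * a) := by gcongr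
    _ = 2 ^ 22 * (a ^ 2 * V) := by ring
    _ ≤ 2 ^ 30 * (a ^ 2 * V) := by gcongr <;> norm_num
    _ = _ := by ring

theorem num6_K {p1 : ℝ} (ha : 1 ≤ a) (hW : 1 ≤ W) (hV : 1 ≤ V)
    (hp1 : p1 ≤ 2 * 2 ^ k) :
    128 * a * p1 * (1 / (2 ^ (k + 30) * a ^ 3 * W * V)) * W ≤ 1 := by
  have e1 : 128 * a * p1 * (1 / (2 ^ (k + 30) * a ^ 3 * W * V)) * W =
      (128 * p1) / (2 ^ (k + 30) * a ^ 2 * V) := by
    field_simp
  rw [e1, div_le_one (by positivity), pow_add]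
  have h2 : (1 : ℝ) ≤ a ^ 2 := one_le_pow₀ ha
  calc 128 * p1 ≤ 128 * (2 * 2 ^ k) := by gcongr
    _ = 2 ^ k * 2 ^ 8 * 1 * 1 := by ring
    _ ≤ 2 ^ k * 2 ^ 30 * a ^ 2 * V := by gcongr <;> norm_num

theorem num6_err {nt τ : ℝ} (ha : 1 ≤ a) (hW : 1 ≤ W) (hV : 1 ≤ V)
    (hntV : nt ≤ V) (hτ : τ = 1 / (2 ^ (k + 30) * a ^ 3 * W * V)) :
    τ + W * (2 * τ) + 2 * (16 * a * W * V) * (2 * τ) +
      W * (nt * (1 / (16 * a * W * V) + 16 * a * (2 * τ) + τ)) ≤ 1 / (8 * a) := by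
  have hτ0 : 0 < τ := by rw [hτ]; positivity
  have h1 : W * (nt * (1 / (16 * a * W * V))) ≤ 1 / (16 * a) := by
    rw [mul_one_div, mul_div_assoc', div_le_div_iff₀ (by positivity) (by positivity), one_mul]
    calc W * nt * (16 * a) ≤ W * V * (16 * a) := by gcongr
      _ = _ := by ring
  have h2 : τ * (128 * a * W * V) ≤ 1 / (16 * a) := by
    rw [hτ, one_div_mul_eq_div, div_le_div_iff₀ (by positivity) (by positivity), one_mul,
      pow_add]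
    have h3 : a ^ 2 ≤ a ^ 3 := pow_le_pow_right₀ ha (by norm_num)
    have h4 : (1 : ℝ) ≤ 2 ^ k := one_le_pow₀ (by norm_num)
    calc 128 * a * W * V * (16 * a) = 1 * 2 ^ 11 * a ^ 2 * W * V := by ring
      _ ≤ 2 ^ k * 2 ^ 30 * a ^ 3 * W * V := by gcongr <;> norm_num
  have hX : (1 : ℝ) ≤ a * W * V := by
    calc (1 : ℝ) = 1 * 1 * 1 := by norm_num
      _ ≤ a * W * V := by gcongr
  have hX1 : W ≤ a * W * V := by
    calc W = 1 * W * 1 := by ring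
      _ ≤ a * W * V := by gcongr
  have hX2 : W * nt ≤ a * W * V := by
    calc W * nt ≤ W * V := by gcongr
      _ = 1 * W * V := by ring
      _ ≤ a * W * V := by gcongr
  have hX3 : W * nt * a ≤ a * W * V := by
    calc W * nt * a ≤ W * V * a := by gcongr
      _ = a * W * V := by ring
  have h3 : τ * (1 + 2 * W + 64 * (a * W * V) + 32 * (W * nt * a) + W * nt) ≤
      τ * (128 * a * W * V) := by
    refine mul_le_mul_of_nonneg_left ?_ hτ0.le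
    have e2 : 128 * a * W * V = 128 * (a * W * V) := by ring
    rw [e2]
    linarith
  have e3 : 1 / (8 * a) = 1 / (16 * a) + 1 / (16 * a) := by
    field_simp
    norm_num
  have e4 : τ + W * (2 * τ) + 2 * (16 * a * W * V) * (2 * τ) +
      W * (nt * (1 / (16 * a * W * V) + 16 * a * (2 * τ) + τ)) =
      W * (nt * (1 / (16 * a * W * V))) +
      τ * (1 + 2 * W + 64 * (a * W * V) + 32 * (W * nt * a) + W * nt) := by ring
  rw [e3, e4]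
  linarith

end

theorem num6_k {t k a K P L Λ : ℕ} (hk : k = t * (t + 1) + 1) (ha : 1 ≤ a) (hK : 1 ≤ K)
    (hP : P = 2 ^ (t * (t + 2) * (t + 3))) (hL : 1 ≤ L) (hΛ : 1 ≤ Λ) :
    2 ^ k ≤ Λ * (2 ^ 16 * a ^ 2 * K * P * 2 ^ (t + 7) * L) := by
  have h3 : k ≤ t * (t + 2) * (t + 3) + (t + 7) := by
    rw [hk]
    nlinarith [Nat.zero_le (t * t * t), Nat.zero_le (t * t)]
  calc 2 ^ k ≤ 2 ^ (t * (t + 2) * (t + 3) + (t + 7)) :=
        Nat.pow_le_pow_right (by norm_num) h3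
    _ = 1 * (1 * 1 * 1 * P * 2 ^ (t + 7) * 1) := by
        rw [pow_add, hP]; ring
    _ ≤ _ := by
        have h4 : 1 ≤ a ^ 2 := Nat.one_le_pow _ _ (by omega)
        gcongr
        norm_num

end Pool.Agent.H.MP_cba12a_lc
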