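import Mathlib

/-!
Numerical inequalities for the choice of the parameters (unate formulas).
-/

namespace Pool.Agent.H.MP_cba12a_lc

theorem num7_sh {a W V E NS q τ B Θ Z : ℝ} {k : ℕ} (ha : 1 ≤ a) (hW : 1 ≤ W) (hV : 1 ≤ V)
    (hE : 1 ≤ E) (hNS : 1 ≤ NS) (hq : q ≤ E) (hZ : Z = 2 ^ 10 * E * NS)
    (hτ : τ = 1 / (2 ^ (k + 30) * a ^ 3 * W * (V * Z))) (hB : B = 16 * a * W * (V * Z))
    (hΘ : Θ = a ^ 2 * W * Z) :
    W * (NS * (1 / B + 16 * a * (q * (1 / Θ + 4 * τ) + 2 * τ) + τ)) ≤ 1 / (8 * a) := by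
  have hZ0 : 0 < Z := by rw [hZ]; positivity
  have hτ0 : 0 < τ := by rw [hτ]; positivity
  have hΘ0 : 0 < Θ := by rw [hΘ]; positivity
  have hWN : 0 ≤ W * NS := by positivity
  have p1 : W * NS * (1 / B) ≤ 1 / (64 * a) := by
    rw [hB, hZ, mul_one_div, div_le_div_iff₀ (by positivity) (by positivity), one_mul]
    calc W * NS * (64 * a) = 64 * (a * W * NS * (1 * 1)) := by ring
      _ ≤ 16 * 2 ^ 10 * (a * W * NS * (V * E)) := by
          have h1 : a * W * NS * (1 * 1) ≤ a * W * NS * (V * E) := by gcongr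
          have h2 : 0 ≤ a * W * NS * (V * E) := by positivity
          nlinarith
      _ = _ := by ring
  have p2 : W * NS * (16 * a * (E * (1 / Θ))) ≤ 1 / (64 * a) := by
    rw [hΘ, hZ]
    refine le_of_eq ?_
    field_simp
    norm_num
  have p3 : W * NS * (97 * a * E * τ) ≤ 1 / (64 * a) := by
    rw [hτ, hZ]
    have e : W * NS * (97 * a * E * (1 / (2 ^ (k + 30) * a ^ 3 * W * (V * (2 ^ 10 * E * NS))))) =
        97 / (2 ^ 40 * 2 ^ k * a ^ 2 * V) := by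
      rw [pow_add]
      field_simp
    rw [e, div_le_div_iff₀ (by positivity) (by positivity), one_mul]
    have h1 : (1 : ℝ) ≤ 2 ^ k := one_le_pow₀ (by norm_num)
    calc 97 * (64 * a) ≤ 2 ^ 40 * 1 * (a * a) * 1 := by nlinarith
      _ ≤ 2 ^ 40 * 2 ^ k * (a * a) * V := by gcongr
      _ = _ := by ring
  have h1 : q * (1 / Θ + 4 * τ) ≤ E * (1 / Θ + 4 * τ) :=
    mul_le_mul_of_nonneg_right hq (by positivity)
  have h2 : 1 / B + 16 * a * (q * (1 / Θ + 4 * τ) + 2 * τ) + τ ≤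
      1 / B + 16 * a * (E * (1 / Θ)) + 97 * a * E * τ := by
    have h3 : 16 * a * (q * (1 / Θ + 4 * τ) + 2 * τ) ≤
        16 * a * (E * (1 / Θ + 4 * τ) + 2 * τ) :=
      mul_le_mul_of_nonneg_left (by linarith) (by positivity)
    have haE : 1 ≤ a * E := by nlinarith
    have h4 : a * τ ≤ a * E * τ := by nlinarith [mul_nonneg (by linarith : (0:ℝ) ≤ a) hτ0.le]
    have h5 : τ ≤ a * E * τ := by nlinarith
    have e1 : 16 * a * (E * (1 / Θ + 4 * τ) + 2 * τ) =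
        16 * a * (E * (1 / Θ)) + 64 * (a * E * τ) + 32 * (a * τ) := by ring
    have e2 : 97 * a * E * τ = 97 * (a * E * τ) := by ring
    rw [e2]
    linarith
  have h3 : W * (NS * (1 / B + 16 * a * (q * (1 / Θ + 4 * τ) + 2 * τ) + τ)) ≤
      W * NS * (1 / B + 16 * a * (E * (1 / Θ)) + 97 * a * E * τ) := by
    rw [← mul_assoc]
    exact mul_le_mul_of_nonneg_left h2 hWN
  have e3 : W * NS * (1 / B + 16 * a * (E * (1 / Θ)) + 97 * a * E * τ) =
      W * NS * (1 / B) + W * NS * (16 * a * (E * (1 / Θ))) + W * NS * (97 * a * E * τ) := by ring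
  have e4 : (1 : ℝ) / (8 * a) = 8 * (1 / (64 * a)) := by field_simp; norm_num
  have h4 : (0 : ℝ) < 1 / (64 * a) := by positivity
  rw [e4]
  linarith

theorem num7_Th {a W V Z : ℝ} {k : ℕ} (ha : 1 ≤ a) (hW : 1 ≤ W) (hV : 1 ≤ V) (hZ : 1 ≤ Z) :
    4 * (a ^ 2 * W * Z) * (1 / (2 ^ (k + 30) * a ^ 3 * W * (V * Z))) ≤ 1 := by
  have e : 4 * (a ^ 2 * W * Z) * (1 / (2 ^ (k + 30) * a ^ 3 * W * (V * Z))) =
      4 / (2 ^ 30 * 2 ^ k * a * V) := by
    rw [pow_add]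
    field_simp
  rw [e, div_le_one (by positivity)]
  have h1 : (1 : ℝ) ≤ 2 ^ k := one_le_pow₀ (by norm_num)
  calc (4 : ℝ) ≤ 2 ^ 30 * 1 * 1 * 1 := by norm_num
    _ ≤ 2 ^ 30 * 2 ^ k * a * V := by gcongr

theorem num7_rich {a L : ℝ} {t : ℕ} (ha : 1 ≤ a) (hL : 1 ≤ L) :
    1 / (96 * a * L) ^ ((t + 2) * (t + 1) + 1) * (L * (96 * a * L) ^ (t + 1)) ^ (t + 1) ≤
      1 / (16 * a) := by
  have hY : (1 : ℝ) ≤ 96 * a * L := by nlinarith
  have ha0 : 0 < a := by linarith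
  have hL0 : 0 < L := by linarith
  have h1 : (L * (96 * a * L) ^ (t + 1)) ^ (t + 1) ≤ (96 * a * L) ^ ((t + 2) * (t + 1)) := by
    calc (L * (96 * a * L) ^ (t + 1)) ^ (t + 1) ≤
        ((96 * a * L) * (96 * a * L) ^ (t + 1)) ^ (t + 1) := by
          refine pow_le_pow_left₀ (by positivity) ?_ _
          refine mul_le_mul_of_nonneg_right ?_ (by positivity)
          nlinarith
      _ = _ := by rw [← pow_succ', ← pow_mul]
  have h2 : 0 < (96 * a * L) ^ ((t + 2) * (t + 1) + 1) := by positivity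
  have h3 : 0 < 16 * a := by positivity
  rw [one_div_mul_eq_div, div_le_div_iff₀ h2 h3, one_mul, pow_succ (96 * a * L) ((t + 2) * (t + 1))]
  refine mul_le_mul h1 ?_ (by positivity) (by positivity)
  nlinarith

end Pool.Agent.H.MP_cba12a_lc
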