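import Mathlib

/-!
DNF formulas of which any two terms have few variables in common.
-/

namespace Pool.Agent.H.MP_cba12a_lc

/-- `g` is computed by a DNF formula, with any number of terms, in which any two different terms
have at most `t` variables in common and no term has a number of literals strictly between `r`
and `ℓ`. The literal `(i, v)` holds at `x` when `x i = v`. -/
def ShareDNF {n : ℕ} (t r ℓ : ℕ) (g : (Fin n → Bool) → Bool) : Prop :=
  ∃ F : Finset (Finset (Fin n × Bool)), (∀ x, g x = true ↔ ∃ T ∈ F, ∀ l ∈ T, x l.1 = l.2) ∧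
    (∀ T ∈ F, ∀ T' ∈ F, T ≠ T' → (T.image Prod.fst ∩ T'.image Prod.fst).card ≤ t) ∧
    ∀ T ∈ F, T.card ≤ r ∨ ℓ ≤ T.card

end Pool.Agent.H.MP_cba12a_lc
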