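import Pool.Agent.H.MP_cba12a_lc.Final6
import Pool.Agent.H.MP_cba12a_lc.Gap6
import Pool.Agent.H.MP_cba12a_lc.ShareDefs

/-!
Choice of the parameters.
-/

namespace Pool.Agent.H.MP_cba12a_lc

open Finset

/-- number of differentiated variables -/
def kk (t : ℕ) : ℕ := t * (t + 1) + 1

/-- bound for the number of leaves and the inverse weight of a leaf -/
def WW (t a : ℕ) : ℕ := (32 * a) ^ ((t + 1) * 2 ^ (t + 1))

/-- inverse of the precision -/
def MM (t n a : ℕ) : ℕ := 2 ^ (kk t + 30) * a ^ 3 * WW t a * (n + 1) ^ (t + 1)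

/-- inverse of the least gain in the greedy cover -/
def BB (t n a : ℕ) : ℕ := 16 * a * WW t a * (n + 1) ^ (t + 1)

/-- number of rounds of the tree -/
def JJ6 (t a : ℕ) : ℕ := 2 ^ (t + 1) * Nat.clog 2 (16 * a)

/-- greatest length of a term -/
def LL6 (t n a : ℕ) : ℕ := Nat.clog 2 (2 * MM t n a * (n + 1) ^ (t + 1))

/-- inverse of the richness parameter -/
def Lam (t n a : ℕ) : ℕ :=
  16 * a * (LL6 t n a * (96 * a * LL6 t n a) ^ (t + 1)) ^ (t + 1)

/-- inverse of the degree parameter -/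
def Del (t n a : ℕ) : ℕ :=
  Lam t n a * (2 ^ 16 * a ^ 2 * kk t ^ (t + 2) * 2 ^ (t * (t + 2) * (t + 3)) * 2 ^ (t + 7) *
    LL6 t n a)

/-- terms of at least this length are long -/
def ell0 (t n a : ℕ) : ℕ := Nat.clog 2 (Lam t n a * Del t n a ^ (t + 1))

theorem lin_J (t : ℕ) : Lin fun _ a => JJ6 t a := by
  unfold JJ6
  exact Lin.smul _ (LLog.mul (LLog.const 16) LLog.A)

theorem llog_LL6 (t : ℕ) : LLog fun n a => LL6 t n a := by
  refine (LLog.clogPoly (2 * 2 ^ (kk t + 30) * 32 ^ ((t + 1) * 2 ^ (t + 1)))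
    (3 + (t + 1) * 2 ^ (t + 1)) (t + 1 + (t + 1))).congr fun n a _ => ?_
  unfold LL6 MM WW
  refine le_of_eq (congrArg (Nat.clog 2) ?_)
  rw [mul_pow, pow_add a, pow_add (n + 1)]
  ring

theorem llog_Lam (t : ℕ) : LLog fun n a => Lam t n a := by
  unfold Lam
  exact ((LLog.const 16).mul LLog.A).mul (((llog_LL6 t).mul
    ((((LLog.const 96).mul LLog.A).mul (llog_LL6 t)).pow _)).pow _)

theorem llog_Del (t : ℕ) : LLog fun n a => Del t n a := by
  unfold Del
  exact (llog_Lam t).mul ((((((LLog.const _).mul (LLog.A.pow 2)).mul (LLog.const _)).mul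
    (LLog.const _)).mul (LLog.const _)).mul (llog_LL6 t))

/-- the gap condition -/
theorem gap6 (t : ℕ) : ∃ c : ℕ, ∀ n a : ℕ, 1 ≤ a → ell0 t n a + (t + 1) * JJ6 t a ≤
    c * (Nat.clog 2 a + Nat.clog 2 (Nat.clog 2 n) + 1) := by
  have h : Lin fun n a => ell0 t n a + (t + 1) * JJ6 t a :=
    Lin.add ((llog_Lam t).mul ((llog_Del t).pow _)) (Lin.smul _ (lin_J t))
  exact h

theorem WW_mono {t a a' : ℕ} (ha : a ≤ a') : WW t a ≤ WW t a' := by
  unfold WW
  gcongr

theorem MM_mono {t n a n' a' : ℕ} (hn : n ≤ n') (ha : a ≤ a') : MM t n a ≤ MM t n' a' := by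
  unfold MM
  have := WW_mono (t := t) ha
  gcongr

theorem BB_mono {t n a n' a' : ℕ} (hn : n ≤ n') (ha : a ≤ a') : BB t n a ≤ BB t n' a' := by
  unfold BB
  have := WW_mono (t := t) ha
  gcongr

end Pool.Agent.H.MP_cba12a_lc
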