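import Pool.Agent.H.MP_cba12a_lc.Final7
import Pool.Agent.H.MP_cba12a_lc.Par6
import Pool.Agent.H.MP_cba12a_lc.Infl

/-!
Choice of the parameters for unate formulas.
-/

namespace Pool.Agent.H.MP_cba12a_lc

open Finset

/-- inverse of the richness parameter -/
def Lam7 (t a L : ℕ) : ℕ := (96 * a * L) ^ ((t + 2) * (t + 1) + 1)

/-- inverse of the degree parameter -/
def Del7 (t a L : ℕ) : ℕ :=
  Lam7 t a L * (2 ^ 16 * a ^ 2 * kk t ^ (t + 2) * 2 ^ (t * (t + 2) * (t + 3)) * 2 ^ (t + 7) * L)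

/-- bound for two to the length of a short term -/
def E7 (t a L : ℕ) : ℕ := 2 * (Lam7 t a L * Del7 t a L ^ (t + 1))

/-- bound for the number of short terms at a leaf -/
def NS7 (t a L : ℕ) : ℕ := E7 t a L * (96 * a * L) ^ (t + 1)

/-- auxiliary factor -/
def Z7 (t a L : ℕ) : ℕ := 2 ^ 10 * E7 t a L * NS7 t a L

/-- inverse of the precision -/
def M7 (t n a L : ℕ) : ℕ := 2 ^ (kk t + 30) * a ^ 3 * WW t a * ((n + 1) ^ (t + 1) * Z7 t a L)

/-- inverse of the least gain in the greedy cover -/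
def B7 (t n a L : ℕ) : ℕ := 16 * a * WW t a * ((n + 1) ^ (t + 1) * Z7 t a L)

/-- inverse of the threshold for degree-one correlations -/
def Th7 (t a L : ℕ) : ℕ := a ^ 2 * WW t a * Z7 t a L

/-- terms of at least this length are long -/
def ell7 (t a L : ℕ) : ℕ := Nat.clog 2 (Lam7 t a L * Del7 t a L ^ (t + 1))

/-- degree of `E7` in `L` -/
def ee1 (t : ℕ) : ℕ := ((t + 2) * (t + 1) + 1) + ((t + 2) * (t + 1) + 2) * (t + 1)

/-- degree of `Z7` in `L` -/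
def ee (t : ℕ) : ℕ := ee1 t + (ee1 t + (t + 1))

/-- greatest length of a term -/
def L7 (t n a : ℕ) : ℕ :=
  2 * ee t * Nat.clog 2 (2 * M7 t n a 1 * (n + 1) ^ (t + 1) * (2 * ee t) ^ ee t)

theorem Lam7_eq (t a L : ℕ) : Lam7 t a L = Lam7 t a 1 * L ^ ((t + 2) * (t + 1) + 1) := by
  unfold Lam7
  rw [mul_one, mul_pow]

theorem Del7_eq (t a L : ℕ) : Del7 t a L = Del7 t a 1 * L ^ ((t + 2) * (t + 1) + 2) := by
  unfold Del7
  rw [Lam7_eq t a L, pow_succ L ((t + 2) * (t + 1) + 1)]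
  ring

theorem E7_eq (t a L : ℕ) : E7 t a L = E7 t a 1 * L ^ ee1 t := by
  unfold E7 ee1
  rw [Lam7_eq t a L, Del7_eq t a L, mul_pow, ← pow_mul, pow_add]
  ring

theorem Z7_eq (t a L : ℕ) : Z7 t a L = Z7 t a 1 * L ^ ee t := by
  unfold Z7 NS7 ee
  rw [E7_eq t a L, mul_pow (96 * a) L, mul_pow (96 * a) 1, one_pow, pow_add L (ee1 t),
    pow_add L (ee1 t)]
  ring

theorem M7_eq (t n a L : ℕ) : M7 t n a L = M7 t n a 1 * L ^ ee t := by
  unfold M7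
  rw [Z7_eq t a L]
  ring

theorem one_le_ee (t : ℕ) : 1 ≤ ee t := by
  unfold ee
  omega

theorem L7_spec (t n a : ℕ) : 2 * M7 t n a (L7 t n a) * (n + 1) ^ (t + 1) ≤ 2 ^ L7 t n a := by
  obtain ⟨u, hu⟩ : ∃ u, u = Nat.clog 2 (2 * M7 t n a 1 * (n + 1) ^ (t + 1) *
    (2 * ee t) ^ ee t) := ⟨_, rfl⟩
  have hL : L7 t n a = 2 * ee t * u := by rw [hu]; rfl
  have h1 : 2 * M7 t n a 1 * (n + 1) ^ (t + 1) * (2 * ee t) ^ ee t ≤ 2 ^ u := by
    rw [hu]; exact Nat.le_pow_clog (by norm_num) _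
  have h2 : u ^ ee t ≤ (2 ^ u) ^ ee t := Nat.pow_le_pow_left Nat.lt_two_pow_self.le _
  rw [M7_eq, hL]
  calc 2 * (M7 t n a 1 * (2 * ee t * u) ^ ee t) * (n + 1) ^ (t + 1) =
      (2 * M7 t n a 1 * (n + 1) ^ (t + 1) * (2 * ee t) ^ ee t) * u ^ ee t := by
        rw [mul_pow (2 * ee t) u]
        ring
    _ ≤ 2 ^ u * (2 ^ u) ^ ee t := Nat.mul_le_mul h1 h2
    _ = 2 ^ (u + u * ee t) := by rw [← pow_mul, ← pow_add]
    _ ≤ 2 ^ (2 * ee t * u) := by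
        refine Nat.pow_le_pow_right (by norm_num) ?_
        have := one_le_ee t
        nlinarith

/-! ### Monotonicity -/

theorem Lam7_mono {t a L a' L' : ℕ} (ha : a ≤ a') (hL : L ≤ L') : Lam7 t a L ≤ Lam7 t a' L' := by
  unfold Lam7
  gcongr

theorem Del7_mono {t a L a' L' : ℕ} (ha : a ≤ a') (hL : L ≤ L') : Del7 t a L ≤ Del7 t a' L' := by
  unfold Del7
  have := Lam7_mono (t := t) ha hL
  gcongr

theorem E7_mono {t a L a' L' : ℕ} (ha : a ≤ a') (hL : L ≤ L') : E7 t a L ≤ E7 t a' L' := by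
  unfold E7
  have := Lam7_mono (t := t) ha hL
  have := Del7_mono (t := t) ha hL
  gcongr

theorem Z7_mono {t a L a' L' : ℕ} (ha : a ≤ a') (hL : L ≤ L') : Z7 t a L ≤ Z7 t a' L' := by
  unfold Z7 NS7
  have := E7_mono (t := t) ha hL
  gcongr

theorem M7_mono {t n a L n' a' L' : ℕ} (hn : n ≤ n') (ha : a ≤ a') (hL : L ≤ L') :
    M7 t n a L ≤ M7 t n' a' L' := by
  unfold M7
  have := Z7_mono (t := t) ha hL
  have := WW_mono (t := t) ha
  gcongr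

/-- crude bound for `L7` -/
def LB7 (t x : ℕ) : ℕ := 2 * ee t * (2 * M7 t x x 1 * (x + 1) ^ (t + 1) * (2 * ee t) ^ ee t)

theorem L7_le {t n a x : ℕ} (hn : n ≤ x) (ha : a ≤ x) : L7 t n a ≤ LB7 t x := by
  unfold L7 LB7
  refine Nat.mul_le_mul_left _ ((clog_le_self _).trans ?_)
  have := M7_mono (t := t) (L := 1) (L' := 1) hn ha le_rfl
  gcongr

/-! ### Logarithms -/

theorem Lam7_a (t a : ℕ) : Lam7 t a 1 = Lam7 t 1 1 * a ^ ((t + 2) * (t + 1) + 1) := by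
  unfold Lam7
  rw [mul_one, mul_one, mul_one, mul_pow]

theorem Del7_a (t a : ℕ) : Del7 t a 1 = Del7 t 1 1 * a ^ ((t + 2) * (t + 1) + 3) := by
  unfold Del7
  rw [Lam7_a t a, pow_add a ((t + 2) * (t + 1)) 3, pow_add a ((t + 2) * (t + 1)) 1]
  ring

/-- degree of `E7` in `a` -/
def ea (t : ℕ) : ℕ := ((t + 2) * (t + 1) + 1) + ((t + 2) * (t + 1) + 3) * (t + 1)

theorem E7_a (t a : ℕ) : E7 t a 1 = E7 t 1 1 * a ^ ea t := by
  unfold E7 ea
  rw [Lam7_a t a, Del7_a t a, mul_pow, ← pow_mul, pow_add]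
  ring

theorem Z7_a (t a : ℕ) : Z7 t a 1 = Z7 t 1 1 * a ^ (ea t + (ea t + (t + 1))) := by
  unfold Z7 NS7
  rw [E7_a t a, mul_one, mul_one, mul_one, mul_pow 96 a, pow_add a (ea t), pow_add a (ea t)]
  ring

theorem llog_L7 (t : ℕ) : LLog fun n a => L7 t n a := by
  unfold L7
  refine (LLog.const (2 * ee t)).mul ?_
  refine (LLog.clogPoly (2 * (2 ^ (kk t + 30) * (32 ^ ((t + 1) * 2 ^ (t + 1)) *
      Z7 t 1 1)) * (2 * ee t) ^ ee t)
    (3 + ((t + 1) * 2 ^ (t + 1) + (ea t + (ea t + (t + 1)))))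
    (t + 1 + (t + 1))).congr fun n a _ => ?_
  refine le_of_eq (congrArg (Nat.clog 2) ?_)
  unfold M7 WW
  rw [Z7_a t a, mul_pow 32 a, pow_add a 3, pow_add a ((t + 1) * 2 ^ (t + 1)), pow_add (n + 1)]
  ring

theorem llog_Lam7 (t : ℕ) : LLog fun n a => Lam7 t a (L7 t n a) := by
  unfold Lam7
  exact (((LLog.const 96).mul LLog.A).mul (llog_L7 t)).pow _

theorem llog_Del7 (t : ℕ) : LLog fun n a => Del7 t a (L7 t n a) := by
  unfold Del7
  exact (llog_Lam7 t).mul ((((((LLog.const _).mul (LLog.A.pow 2)).mul (LLog.const _)).mul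
    (LLog.const _)).mul (LLog.const _)).mul (llog_L7 t))

theorem llog_E7 (t : ℕ) : LLog fun n a => E7 t a (L7 t n a) := by
  unfold E7
  exact (LLog.const 2).mul ((llog_Lam7 t).mul ((llog_Del7 t).pow _))

theorem llog_Z7 (t : ℕ) : LLog fun n a => Z7 t a (L7 t n a) := by
  unfold Z7 NS7
  exact ((LLog.const _).mul (llog_E7 t)).mul ((llog_E7 t).mul
    ((((LLog.const 96).mul LLog.A).mul (llog_L7 t)).pow _))

theorem llog_Th7 (t : ℕ) : LLog fun n a => Th7 t a (L7 t n a) := by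
  unfold Th7 WW
  exact ((LLog.A.pow 2).mul (((LLog.const 32).mul LLog.A).pow _)).mul (llog_Z7 t)

theorem lin_ell7 (t : ℕ) : Lin fun n a => ell7 t a (L7 t n a) :=
  (llog_Lam7 t).mul ((llog_Del7 t).pow _)

theorem sq_clog_clog_le (n : ℕ) :
    Nat.clog 2 (Nat.clog 2 n) * Nat.clog 2 (Nat.clog 2 n) ≤ 3 * Nat.clog 2 n := by
  rcases Nat.eq_zero_or_pos (Nat.clog 2 (Nat.clog 2 n)) with h | h
  · rw [h]; omega
  · have h1 : 1 < Nat.clog 2 n := by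
      by_contra hc
      have h2 : Nat.clog 2 (Nat.clog 2 n) = 0 := Nat.clog_of_right_le_one (not_lt.1 hc) 2
      omega
    have h2 := Nat.pow_pred_clog_lt_self (b := 2) (by norm_num) h1
    have h3 := sq_le_three_mul (Nat.clog 2 (Nat.clog 2 n) - 1)
    rw [Nat.sub_add_cancel h] at h3
    rw [Nat.pred_eq_sub_one] at h2
    omega

/-- `X ^ h` is polynomial in `n` and `a ^ log a` -/
theorem pow_poly7 {X h : ℕ → ℕ → ℕ} (hX : LLog X) (hh : Lin h) : ∃ c : ℕ, ∀ n a : ℕ, 1 ≤ a →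
    X n a ^ h n a ≤ (c * (n + 1) * a * a ^ Nat.clog 2 a) ^ c := by
  obtain ⟨c1, hc1⟩ := hX
  obtain ⟨c2, hc2⟩ := hh
  refine ⟨2 ^ 15 + 9 * (c1 * c2), fun n a ha => ?_⟩
  obtain ⟨x, hx⟩ : ∃ x, x = Nat.clog 2 a := ⟨_, rfl⟩
  obtain ⟨y, hy⟩ : ∃ y, y = Nat.clog 2 (Nat.clog 2 n) := ⟨_, rfl⟩
  have hgp : gp n a = x + y + 1 := by rw [hx, hy]; rfl
  have hx2 : 2 ^ x ≤ 2 * a := by rw [hx]; exact two_pow_clog_le a ha
  have hn2 : 2 ^ Nat.clog 2 n ≤ 2 * (n + 1) := by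
    rcases Nat.eq_zero_or_pos n with h0 | h0
    · rw [h0]; simp
    · exact (two_pow_clog_le n h0).trans (by omega)
  have hy2 : y * y ≤ 3 * Nat.clog 2 n := by rw [hy]; exact sq_clog_clog_le n
  have h1 : X n a ≤ 2 ^ (c1 * gp n a) := by
    refine (Nat.le_pow_clog (b := 2) (by norm_num) (X n a)).trans ?_
    exact Nat.pow_le_pow_right (by norm_num) (hc1 n a ha)
  have hbase : 1 ≤ (n + 1) * a * a ^ x := Nat.succ_le_of_lt (by positivity)
  have h2 : 2 ^ (gp n a * gp n a) ≤ (2 ^ 15 * ((n + 1) * a * a ^ x)) ^ 9 := by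
    have e1 : gp n a * gp n a ≤ 3 * (x * x) + 3 * (y * y) + 3 := by
      rw [hgp]
      nlinarith [sq_nonneg ((x : ℤ) - y), sq_nonneg ((x : ℤ) - 1), sq_nonneg ((y : ℤ) - 1),
        Nat.zero_le x, Nat.zero_le y, two_mul_le_add_sq x y, two_mul_le_add_sq x 1,
        two_mul_le_add_sq y 1]
    have e2 : 2 ^ (x * x) ≤ 2 * a * a ^ x := by
      calc 2 ^ (x * x) = (2 ^ x) ^ x := pow_mul _ _ _
        _ ≤ (2 * a) ^ x := Nat.pow_le_pow_left hx2 x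
        _ = 2 ^ x * a ^ x := mul_pow _ _ _
        _ ≤ 2 * a * a ^ x := Nat.mul_le_mul_right _ hx2
    have e3 : 2 ^ (y * y) ≤ (2 * (n + 1)) ^ 3 := by
      calc 2 ^ (y * y) ≤ 2 ^ (3 * Nat.clog 2 n) := Nat.pow_le_pow_right (by norm_num) hy2
        _ = (2 ^ Nat.clog 2 n) ^ 3 := by rw [← pow_mul, mul_comm]
        _ ≤ _ := Nat.pow_le_pow_left hn2 3
    calc 2 ^ (gp n a * gp n a) ≤ 2 ^ (3 * (x * x) + 3 * (y * y) + 3) :=
          Nat.pow_le_pow_right (by norm_num) e1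
      _ = (2 ^ (x * x)) ^ 3 * (2 ^ (y * y)) ^ 3 * 2 ^ 3 := by
          rw [pow_add, pow_add, mul_comm 3 (x * x), mul_comm 3 (y * y), pow_mul 2 (x * x) 3,
            pow_mul 2 (y * y) 3]
      _ ≤ (2 * a * a ^ x) ^ 3 * ((2 * (n + 1)) ^ 3) ^ 3 * 2 ^ 3 := by gcongr
      _ = 2 ^ 15 * ((n + 1) ^ 9 * (a * a ^ x) ^ 3) := by ring
      _ ≤ (2 ^ 15) ^ 9 * ((n + 1) ^ 9 * (a * a ^ x) ^ 9) := by
          refine Nat.mul_le_mul (Nat.le_self_pow (by norm_num) _) (Nat.mul_le_mul_left _ ?_)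
          exact Nat.pow_le_pow_right (Nat.succ_le_of_lt (by positivity)) (by norm_num)
      _ = _ := by ring
  calc X n a ^ h n a ≤ (2 ^ (c1 * gp n a)) ^ (c2 * gp n a) :=
        (Nat.pow_le_pow_left h1 _).trans
          (Nat.pow_le_pow_right Nat.one_le_two_pow (hc2 n a ha))
    _ = (2 ^ (gp n a * gp n a)) ^ (c1 * c2) := by
        rw [← pow_mul, ← pow_mul]
        congr 1
        ring
    _ ≤ ((2 ^ 15 * ((n + 1) * a * a ^ x)) ^ 9) ^ (c1 * c2) := Nat.pow_le_pow_left h2 _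
    _ = (2 ^ 15 * ((n + 1) * a * a ^ x)) ^ (9 * (c1 * c2)) := by rw [← pow_mul]
    _ ≤ ((2 ^ 15 + 9 * (c1 * c2)) * ((n + 1) * a * a ^ x)) ^ (9 * (c1 * c2)) := by
        refine Nat.pow_le_pow_left (Nat.mul_le_mul_right _ (Nat.le_add_right _ _)) _
    _ ≤ ((2 ^ 15 + 9 * (c1 * c2)) * ((n + 1) * a * a ^ x)) ^ (2 ^ 15 + 9 * (c1 * c2)) := by
        refine Nat.pow_le_pow_right ?_ (Nat.le_add_left _ _)
        refine Nat.mul_pos ?_ hbase
        omega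
    _ = _ := by
        rw [hx]
        congr 1
        ring

theorem pow_short7 (t : ℕ) : ∃ c : ℕ, ∀ n a : ℕ, 1 ≤ a →
    (8 * Th7 t a (L7 t n a) ^ 2 + 1) ^ ell7 t a (L7 t n a) ≤
      (c * (n + 1) * a * a ^ Nat.clog 2 a) ^ c := by
  refine pow_poly7 (X := fun n a => 8 * Th7 t a (L7 t n a) ^ 2 + 1) ?_ (lin_ell7 t)
  have h1 : LLog fun n a => 8 * Th7 t a (L7 t n a) ^ 2 := (LLog.const 8).mul ((llog_Th7 t).pow 2)
  obtain ⟨c, hc⟩ := h1
  refine ⟨c + 1, fun n a ha => ?_⟩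
  refine (clog_succ_le _).trans ?_
  have h2 : Nat.clog 2 (8 * Th7 t a (L7 t n a) ^ 2) ≤ c * gp n a := hc n a ha
  have h3 : 1 ≤ gp n a := by unfold gp; omega
  calc _ ≤ c * gp n a + gp n a := by omega
    _ = _ := by ring

end Pool.Agent.H.MP_cba12a_lc
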