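import Pool.Agent.H.MP_cba12a_lc.Har8

/-!
A relative isoperimetric inequality.
-/

namespace Pool.Agent.H.MP_cba12a_lc

open Finset

variable {n : ℕ}

/-- the variables of `I` are on, `g = 1`, the point is not covered, and every variable of `I` is
pivotal -/
def Pv (o : Fin n → Bool) (g : (Fin n → Bool) → Bool) (U : (Fin n → Bool) → Prop)
    (I : Finset (Fin n)) (x : Fin n → Bool) : Prop :=
  On o I x ∧ (g x = true ∧ U x ∧ ∀ i ∈ I, g (flp i x) = false)

theorem flp_sOn {o : Fin n → Bool} {I : Finset (Fin n)} {x : Fin n → Bool} {j : Fin n}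
    (h : j ∈ I) : flp j (sOn o I x) = Function.update (sOn o I x) j (!(o j)) := by
  unfold flp
  rw [sOn_mem h]

/-- **Relative isoperimetry.** -/
theorem rel_iso {o : Fin n → Bool} {g : (Fin n → Bool) → Bool} (hg : Up o g)
    {U : (Fin n → Bool) → Prop} (hU : DnP o U) (I : Finset (Fin n)) :
    2 * pr (Pv o g U I) * pr (fun x => On o I x ∧ (g x = false ∧ U x)) ≤
      ∑ i ∈ univ \ I, pr (Pv o g U (insert i I)) := by
  classical
  obtain ⟨c, hc⟩ : ∃ c : (Fin n → Bool) → Bool, ∀ x, c x = true ↔
      (g (sOn o I x) = false ∧ U (sOn o I x)) :=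
    ⟨fun x => decide (g (sOn o I x) = false ∧ U (sOn o I x)), fun x => decide_eq_true_iff⟩
  obtain ⟨z, hz⟩ : ∃ z : (Fin n → Bool) → Bool, ∀ x, z x = true ↔
      (U (sOn o I x) ∧ ∀ j ∈ I, g (flp j (sOn o I x)) = false) :=
    ⟨fun x => decide (U (sOn o I x) ∧ ∀ j ∈ I, g (flp j (sOn o I x)) = false),
      fun x => decide_eq_true_iff⟩
  have hDc : Dn o c := by
    intro i x h
    rw [hc] at *
    by_cases hi : i ∈ I
    · rw [sOn_update_mem hi] at *
      exact h
    · rw [sOn_update hi] at *
      exact ⟨dnP_false hg i _ h.1, hU i _ h.2⟩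
  have hDz : Dn o z := by
    intro i x h
    rw [hz] at *
    by_cases hi : i ∈ I
    · rw [sOn_update_mem hi] at *
      exact h
    · rw [sOn_update hi] at *
      refine ⟨hU i _ h.1, fun j hj => ?_⟩
      have hji : j ≠ i := fun hc => hi (hc ▸ hj)
      have e : ∀ v, flp j (Function.update (sOn o I x) i v) =
          Function.update (flp j (sOn o I x)) i v := by
        intro v
        unfold flp
        rw [Function.update_of_ne hji, Function.update_comm hji]
      have h2 := h.2 j hj
      rw [e] at h2 ⊢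
      exact dnP_false hg i _ h2
  have hcz : ∀ x, c x = true → z x = true := by
    intro x h
    rw [hc] at h
    rw [hz]
    refine ⟨h.2, fun j hj => ?_⟩
    rw [flp_sOn hj]
    refine dnP_false hg j _ ?_
    rw [upd_self (sOn_mem hj)]
    exact h.1
  have hiso := iso_aux n o c z hDc hDz hcz
  set w : ℝ := (1 / 2) ^ I.card with hw
  have hw0 : 0 < w := by rw [hw]; positivity
  have hw1 : w ≤ 1 := by rw [hw]; exact pow_le_one₀ (by norm_num) (by norm_num)
  have hp : (0 : ℝ) < 2 ^ n := by positivity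
  -- the three quantities
  have e1 : w * sA c z = pr (Pv o g U I) * 2 ^ n := by
    have h1 := pr_on o I (fun x => g x = true ∧ U x ∧ ∀ i ∈ I, g (flp i x) = false)
    have h2 : pr (Pv o g U I) = w * pr (fun x => g (sOn o I x) = true ∧ U (sOn o I x) ∧
        ∀ i ∈ I, g (flp i (sOn o I x)) = false) := h1
    rw [h2, mul_assoc]
    congr 1
    unfold sA
    refine sum_bR _ _ fun x => ?_
    rw [Bool.and_eq_true, Bool.not_eq_true', hz, ← Bool.not_eq_true, hc]
    constructor
    · rintro ⟨⟨h3, h4⟩, h5⟩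
      refine ⟨?_, h3, h4⟩
      by_contra h6
      rw [Bool.not_eq_true] at h6
      exact h5 ⟨h6, h3⟩
    · rintro ⟨h3, h4, h5⟩
      refine ⟨⟨h4, h5⟩, ?_⟩
      rintro ⟨h6, _⟩
      rw [h3] at h6
      exact Bool.noConfusion h6
  have e2 : w * sC c = pr (fun x => On o I x ∧ (g x = false ∧ U x)) * 2 ^ n := by
    rw [pr_on o I (fun x => g x = false ∧ U x), mul_assoc]
    congr 1
    unfold sC
    exact sum_bR _ _ fun x => hc x
  have e3 : ∀ i, w * sB1 o c z i ≤ if i ∈ univ \ I then pr (Pv o g U (insert i I)) * 2 ^ n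
      else 0 := by
    intro i
    by_cases hi : i ∈ I
    · rw [if_neg (by simp [hi])]
      have : sB1 o c z i = 0 := by
        unfold sB1
        refine sum_eq_zero fun x _ => ?_
        have h1 : c (Function.update x i (!(o i))) = c x := by
          rw [Bool.eq_iff_iff, hc, hc, sOn_update_mem hi]
        rw [h1]
        cases decide (x i = o i) <;> cases z x <;> cases c x <;> simp [bR]
      rw [this, mul_zero]
    · rw [if_pos (by simp [hi])]
      have h1 := pr_on o I (fun x => x i = o i ∧ g x = true ∧ U x ∧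
        ∀ j ∈ insert i I, g (flp j x) = false)
      have h2 : pr (Pv o g U (insert i I)) = w * pr (fun x => sOn o I x i = o i ∧
          g (sOn o I x) = true ∧ U (sOn o I x) ∧
            ∀ j ∈ insert i I, g (flp j (sOn o I x)) = false) := by
        rw [← h1]
        refine pr_congr fun x => ?_
        unfold Pv
        constructor
        · rintro ⟨h3, h4⟩
          exact ⟨h3.mono (subset_insert _ _), h3 i (mem_insert_self _ _), h4⟩
        · rintro ⟨h3, h4, h5⟩
          refine ⟨fun j hj => ?_, h5⟩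
          rcases mem_insert.1 hj with rfl | hj
          · exact h4
          · exact h3 j hj
      rw [h2, mul_assoc, ← sum_bR _ (fun x => decide (sOn o I x i = o i ∧
          g (sOn o I x) = true ∧ U (sOn o I x) ∧
            ∀ j ∈ insert i I, g (flp j (sOn o I x)) = false)) fun x => decide_eq_true_iff]
      refine mul_le_mul_of_nonneg_left ?_ hw0.le
      unfold sB1
      refine sum_le_sum fun x _ => bool_ineq2 _ _ ?_
      intro h
      rw [Bool.and_eq_true, Bool.and_eq_true, Bool.and_eq_true, decide_eq_true_iff,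
        Bool.not_eq_true', ← Bool.not_eq_true, hz, hc, hc, sOn_update hi] at h
      obtain ⟨h3, ⟨h4, h5⟩, h6, h7, _⟩ := h
      rw [decide_eq_true_iff, sOn_not_mem hi]
      refine ⟨h3, ?_, h4, fun j hj => ?_⟩
      · by_contra h9
        rw [Bool.not_eq_true] at h9
        exact h6 ⟨h9, h4⟩
      · rcases mem_insert.1 hj with rfl | hj
        · have : flp j (sOn o I x) = Function.update (sOn o I x) j (!(o j)) := by
            unfold flp
            rw [sOn_not_mem hi, h3]
          rw [this]
          exact h7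
        · exact h5 j hj
  have e4 : w * ∑ i, sB1 o c z i ≤ (∑ i ∈ univ \ I, pr (Pv o g U (insert i I))) * 2 ^ n := by
    rw [mul_sum, sum_mul]
    refine (sum_le_sum fun i _ => e3 i).trans (le_of_eq ?_)
    rw [← sum_filter]
    refine sum_congr ?_ fun _ _ => rfl
    ext i
    simp
  have hA0 := pr_nonneg (Pv o g U I)
  have hC0 := pr_nonneg (fun x => On o I x ∧ (g x = false ∧ U x))
  generalize pr (Pv o g U I) = P1 at *
  generalize pr (fun x => On o I x ∧ (g x = false ∧ U x)) = P2 at *
  generalize (∑ i ∈ univ \ I, pr (Pv o g U (insert i I))) = P3 at *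
  have h5 : 2 * P1 * P2 * (2 ^ n * 2 ^ n) ≤ w * (P3 * (2 ^ n * 2 ^ n)) := by
    calc 2 * P1 * P2 * (2 ^ n * 2 ^ n) = 2 * (P1 * 2 ^ n) * (P2 * 2 ^ n) := by ring
      _ = 2 * (w * sA c z) * (w * sC c) := by rw [e1, e2]
      _ = w * (w * (2 * sA c z * sC c)) := by ring
      _ ≤ w * (w * (2 ^ n * ∑ i, sB1 o c z i)) := by
          refine mul_le_mul_of_nonneg_left ?_ hw0.le
          exact mul_le_mul_of_nonneg_left hiso hw0.le
      _ = w * (2 ^ n * (w * ∑ i, sB1 o c z i)) := by ring
      _ ≤ w * (2 ^ n * (P3 * 2 ^ n)) := by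
          refine mul_le_mul_of_nonneg_left ?_ hw0.le
          exact mul_le_mul_of_nonneg_left e4 hp.le
      _ = _ := by ring
  have hP3 : 0 ≤ P3 := by
    have h6 : 0 ≤ 2 * P1 * P2 * (2 ^ n * 2 ^ n) := by positivity
    have h7 := h6.trans h5
    by_contra hcon
    push Not at hcon
    have h8 : P3 * (2 ^ n * 2 ^ n) < 0 := mul_neg_of_neg_of_pos hcon (by positivity)
    have h9 : w * (P3 * (2 ^ n * 2 ^ n)) < 0 := mul_neg_of_pos_of_neg hw0 h8
    linarith
  have h6 : w * (P3 * (2 ^ n * 2 ^ n)) ≤ P3 * (2 ^ n * 2 ^ n) := by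
    have h7 : 0 ≤ P3 * (2 ^ n * 2 ^ n) := by positivity
    nlinarith
  exact le_of_mul_le_mul_right (h5.trans h6) (by positivity)

end Pool.Agent.H.MP_cba12a_lc
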