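import Pool.Agent.H.MP_cba12a_lc.Str8

/-!
Fourier coefficients: odd coefficients on parts of a term are at least the chance that the term is
the only satisfied one, and there are few large coefficients.
-/

namespace Pool.Agent.H.MP_cba12a_lc

open Finset

variable {n : ℕ}

/-- sign of a coordinate -/
def sg1 (o : Fin n → Bool) (i : Fin n) (x : Fin n → Bool) : ℝ := if x i = o i then 1 else -1

/-- character -/
noncomputable def chi (o : Fin n → Bool) (R : Finset (Fin n)) (x : Fin n → Bool) : ℝ :=
  ∏ i ∈ R, sg1 o i x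

/-- coefficient of `g` at `R` -/
noncomputable def co (o : Fin n → Bool) (g : (Fin n → Bool) → Bool) (R : Finset (Fin n)) : ℝ :=
  (∑ x, bR (g x) * chi o R x) / 2 ^ n

theorem sg1_flp_same (o : Fin n → Bool) (i : Fin n) (x : Fin n → Bool) :
    sg1 o i (flp i x) = - sg1 o i x := by
  unfold sg1
  rw [flp_same]
  cases x i <;> cases o i <;> simp

theorem sg1_flp_ne (o : Fin n → Bool) {i j : Fin n} (h : j ≠ i) (x : Fin n → Bool) :
    sg1 o j (flp i x) = sg1 o j x := by
  unfold sg1
  rw [flp_ne h]

theorem sg1_sq (o : Fin n → Bool) (i : Fin n) (x : Fin n → Bool) : sg1 o i x ^ 2 = 1 := by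
  unfold sg1
  split_ifs <;> norm_num

theorem chi_flp_not_mem (o : Fin n → Bool) {R : Finset (Fin n)} {i : Fin n} (h : i ∉ R)
    (x : Fin n → Bool) : chi o R (flp i x) = chi o R x := by
  unfold chi
  refine prod_congr rfl fun j hj => ?_
  refine sg1_flp_ne o ?_ x
  intro hc
  exact h (hc ▸ hj)

theorem chi_flp_mem (o : Fin n → Bool) {R : Finset (Fin n)} {i : Fin n} (h : i ∈ R)
    (x : Fin n → Bool) : chi o R (flp i x) = - chi o R x := by
  classical
  unfold chi
  rw [← mul_prod_erase R _ h, ← mul_prod_erase R (fun i => sg1 o i x) h, sg1_flp_same, neg_mul]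
  congr 2
  refine prod_congr rfl fun j hj => ?_
  exact sg1_flp_ne o (mem_erase.1 hj).1 x

theorem chi_sq (o : Fin n → Bool) (R : Finset (Fin n)) (x : Fin n → Bool) :
    chi o R x ^ 2 = 1 := by
  unfold chi
  rw [← prod_pow]
  exact prod_eq_one fun i _ => sg1_sq o i x

theorem chi_on {o : Fin n → Bool} {R : Finset (Fin n)} {x : Fin n → Bool} (h : On o R x) :
    chi o R x = 1 := by
  unfold chi
  refine prod_eq_one fun i hi => ?_
  unfold sg1
  rw [if_pos (h i hi)]

theorem sum_eq_zero_of_flp (i : Fin n) (F : (Fin n → Bool) → ℝ) (h : ∀ x, F (flp i x) = - F x) :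
    ∑ x, F x = 0 := by
  have h1 := sum_flp i F
  simp only [h] at h1
  rw [sum_neg_distrib] at h1
  linarith

theorem sum_chi {o : Fin n → Bool} {R : Finset (Fin n)} (h : R.Nonempty) :
    ∑ x, chi o R x = 0 := by
  obtain ⟨i, hi⟩ := h
  exact sum_eq_zero_of_flp i _ fun x => chi_flp_mem o hi x

theorem sum_chi_mul {o : Fin n → Bool} {R R' : Finset (Fin n)} (h : R ≠ R') :
    ∑ x, chi o R x * chi o R' x = 0 := by
  classical
  obtain ⟨i, hi⟩ : ∃ i, ¬ (i ∈ R ↔ i ∈ R') := by
    by_contra hcon
    push Not at hcon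
    exact h (Finset.ext hcon)
  refine sum_eq_zero_of_flp i _ fun x => ?_
  by_cases h1 : i ∈ R
  · have h2 : i ∉ R' := fun h2 => hi ⟨fun _ => h2, fun _ => h1⟩
    rw [chi_flp_mem o h1, chi_flp_not_mem o h2, neg_mul]
  · have h2 : i ∈ R' := by
      by_contra h2
      exact hi ⟨fun h => absurd h h1, fun h => absurd h h2⟩
    rw [chi_flp_not_mem o h1, chi_flp_mem o h2, mul_neg]

/-- **Bessel's inequality.** -/
theorem bessel (o : Fin n → Bool) (g : (Fin n → Bool) → Bool) (𝓡 : Finset (Finset (Fin n))) :
    ∑ R ∈ 𝓡, co o g R ^ 2 ≤ 1 := by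
  classical
  have hp : (0 : ℝ) < 2 ^ n := by positivity
  have hco : ∀ R, ∑ x, bR (g x) * chi o R x = co o g R * 2 ^ n := by
    intro R
    unfold co
    rw [div_mul_cancel₀ _ hp.ne']
  have h0 : 0 ≤ ∑ x : Fin n → Bool, (bR (g x) - ∑ R ∈ 𝓡, co o g R * chi o R x) ^ 2 :=
    sum_nonneg fun x _ => sq_nonneg _
  have h1 : ∑ x : Fin n → Bool, (bR (g x) - ∑ R ∈ 𝓡, co o g R * chi o R x) ^ 2 =
      ∑ x : Fin n → Bool, bR (g x) ^ 2 - 2 ^ n * ∑ R ∈ 𝓡, co o g R ^ 2 := by
    have e1 : ∀ x : Fin n → Bool, (bR (g x) - ∑ R ∈ 𝓡, co o g R * chi o R x) ^ 2 =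
        bR (g x) ^ 2 - 2 * (∑ R ∈ 𝓡, co o g R * (bR (g x) * chi o R x)) +
          ∑ R ∈ 𝓡, ∑ R' ∈ 𝓡, co o g R * co o g R' * (chi o R x * chi o R' x) := by
      intro x
      have e2 : (∑ R ∈ 𝓡, co o g R * chi o R x) ^ 2 =
          ∑ R ∈ 𝓡, ∑ R' ∈ 𝓡, co o g R * co o g R' * (chi o R x * chi o R' x) := by
        rw [sq, sum_mul_sum]
        refine sum_congr rfl fun R _ => sum_congr rfl fun R' _ => ?_
        ring
      have e3 : bR (g x) * (∑ R ∈ 𝓡, co o g R * chi o R x) =
          ∑ R ∈ 𝓡, co o g R * (bR (g x) * chi o R x) := by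
        rw [mul_sum]
        refine sum_congr rfl fun R _ => ?_
        ring
      rw [← e2, ← e3]
      ring
    rw [sum_congr rfl fun x _ => e1 x, sum_add_distrib, sum_sub_distrib, ← mul_sum, sum_comm]
    have e4 : ∑ R ∈ 𝓡, ∑ x : Fin n → Bool, co o g R * (bR (g x) * chi o R x) =
        2 ^ n * ∑ R ∈ 𝓡, co o g R ^ 2 := by
      rw [mul_sum]
      refine sum_congr rfl fun R _ => ?_
      rw [← mul_sum, hco]
      ring
    have e5 : ∑ x : Fin n → Bool, ∑ R ∈ 𝓡, ∑ R' ∈ 𝓡,
        co o g R * co o g R' * (chi o R x * chi o R' x) = 2 ^ n * ∑ R ∈ 𝓡, co o g R ^ 2 := by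
      rw [sum_comm, mul_sum]
      refine sum_congr rfl fun R hR => ?_
      rw [sum_comm]
      rw [sum_eq_single R]
      · rw [← mul_sum]
        have e6 : ∑ x : Fin n → Bool, chi o R x * chi o R x = 2 ^ n := by
          have : ∀ x : Fin n → Bool, chi o R x * chi o R x = 1 := by
            intro x
            rw [← sq, chi_sq]
          rw [sum_congr rfl fun x _ => this x, sum_const, card_univ, Fintype.card_fun,
            Fintype.card_fin, Fintype.card_bool]
          simp
        rw [e6]
        ring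
      · intro R' _ hne
        rw [← mul_sum, sum_chi_mul (Ne.symm hne), mul_zero]
      · intro h
        exact absurd hR h
    rw [e4, e5]
    ring
  rw [h1] at h0
  have h2 : ∑ x : Fin n → Bool, bR (g x) ^ 2 ≤ 2 ^ n := by
    calc ∑ x : Fin n → Bool, bR (g x) ^ 2 ≤ ∑ _x : Fin n → Bool, (1 : ℝ) := by
          refine sum_le_sum fun x _ => ?_
          cases g x <;> simp [bR]
      _ = 2 ^ n := by simp
  have h3 : 2 ^ n * ∑ R ∈ 𝓡, co o g R ^ 2 ≤ 2 ^ n * 1 := by linarith
  exact le_of_mul_le_mul_left h3 hp

theorem card_large_le {o : Fin n → Bool} {g : (Fin n → Bool) → Bool}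
    {𝓡 : Finset (Finset (Fin n))} {θ : ℝ} (hθ : 0 < θ) (h : ∀ R ∈ 𝓡, θ ≤ co o g R) :
    (𝓡.card : ℝ) * θ ^ 2 ≤ 1 := by
  calc (𝓡.card : ℝ) * θ ^ 2 = ∑ _R ∈ 𝓡, θ ^ 2 := by rw [sum_const, nsmul_eq_mul]
    _ ≤ ∑ R ∈ 𝓡, co o g R ^ 2 := sum_le_sum fun R hR => pow_le_pow_left₀ hθ.le (h R hR) 2
    _ ≤ 1 := bessel o g 𝓡

/-! ### The sign lemma -/

open Classical in
/-- indicator -/
noncomputable def ind (P : Prop) : ℝ := if P then 1 else 0

theorem ind_nonneg (P : Prop) : 0 ≤ ind P := by
  unfold ind; split_ifs <;> norm_num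

theorem ind_true {P : Prop} (h : P) : ind P = 1 := by unfold ind; rw [if_pos h]

theorem ind_false {P : Prop} (h : ¬ P) : ind P = 0 := by unfold ind; rw [if_neg h]

theorem ind_congr {P Q : Prop} (h : P ↔ Q) : ind P = ind Q := by
  by_cases hP : P
  · rw [ind_true hP, ind_true (h.1 hP)]
  · rw [ind_false hP, ind_false (fun hQ => hP (h.2 hQ))]

/-- **The sign lemma.** -/
theorem sign_lemma (o : Fin n → Bool) (G : Finset (Finset (Fin n))) (R : Finset (Fin n)) :
    (∀ A ∈ G, (A ∩ R).card ≤ 1) → ∀ w : (Fin n → Bool) → ℝ, (∀ x, 0 ≤ w x) →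
      (∀ i ∈ R, ∀ x, w (flp i x) = w x) →
      0 ≤ (-1) ^ R.card * ∑ x, w x * (ind (∀ A ∈ G, ¬ On o A x) * chi o R x) := by
  classical
  induction R using Finset.induction_on with
  | empty =>
    intro _ w hw _
    rw [card_empty, pow_zero, one_mul]
    refine sum_nonneg fun x _ => ?_
    unfold chi
    rw [prod_empty, mul_one]
    exact mul_nonneg (hw x) (ind_nonneg _)
  | insert j R hj ih =>
    intro hG w hw hwf
    have hG' : ∀ A ∈ G, (A ∩ R).card ≤ 1 := fun A hA =>
      (card_le_card (inter_subset_inter_left (subset_insert j R))).trans (hG A hA)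
    -- the points at which switching `j` on satisfies a term
    set cv : (Fin n → Bool) → Prop := fun x => ∃ A ∈ G, j ∈ A ∧ On o (A.erase j) x with hcv
    have hcvf : ∀ i ∈ insert j R, ∀ x, cv (flp i x) ↔ cv x := by
      intro i hi x
      have key : ∀ A ∈ G, j ∈ A → (On o (A.erase j) (flp i x) ↔ On o (A.erase j) x) := by
        intro A hA hjA
        refine on_flp_of_not_mem ?_
        intro hiA
        rw [mem_erase] at hiA
        have h1 : ({i, j} : Finset (Fin n)) ⊆ A ∩ insert j R := by
          intro k hk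
          rw [mem_insert, mem_singleton] at hk
          rcases hk with rfl | rfl
          · exact mem_inter.2 ⟨hiA.2, hi⟩
          · exact mem_inter.2 ⟨hjA, mem_insert_self _ _⟩
        have h2 := card_le_card h1
        rw [card_pair hiA.1] at h2
        have := hG A hA
        omega
      constructor
      · rintro ⟨A, hA, hjA, h⟩
        exact ⟨A, hA, hjA, (key A hA hjA).1 h⟩
      · rintro ⟨A, hA, hjA, h⟩
        exact ⟨A, hA, hjA, (key A hA hjA).2 h⟩
    set Φ : (Fin n → Bool) → ℝ := fun x => w x * (ind (∀ A ∈ G, ¬ On o A x) *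
      chi o (insert j R) x) with hΦ
    set w' : (Fin n → Bool) → ℝ := fun x => w x * ind (x j = !(o j)) * ind (cv x) with hw'
    have hsplit : ∑ x, Φ x = - ∑ x, w' x * (ind (∀ A ∈ G, ¬ On o A x) * chi o R x) := by
      have h1 : ∑ x, Φ x = ∑ x, ind (x j = o j) * Φ x + ∑ x, ind (x j = !(o j)) * Φ x := by
        rw [← sum_add_distrib]
        refine sum_congr rfl fun x _ => ?_
        rcases Bool.eq_or_eq_not (x j) (o j) with h | h
        · rw [ind_true h, ind_false (by rw [h]; cases o j <;> simp)]
          ring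
        · rw [ind_true h, ind_false (by rw [h]; cases o j <;> simp)]
          ring
      have h2 : ∑ x, ind (x j = o j) * Φ x = ∑ x, ind (x j = !(o j)) * Φ (flp j x) := by
        rw [← sum_flp j]
        refine sum_congr rfl fun x _ => ?_
        congr 1
        refine ind_congr ?_
        rw [flp_same]
        cases x j <;> cases o j <;> simp
      rw [h1, h2, ← sum_add_distrib, ← sum_neg_distrib]
      refine sum_congr rfl fun x _ => ?_
      by_cases hx : x j = !(o j)
      · simp only [hΦ, hw']
        rw [ind_true hx, one_mul, one_mul, mul_one, hwf j (mem_insert_self _ _),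
          chi_flp_mem o (mem_insert_self j R)]
        have e1 : chi o (insert j R) x = - chi o R x := by
          unfold chi
          rw [prod_insert hj]
          have : sg1 o j x = -1 := by
            unfold sg1
            rw [if_neg (by rw [hx]; cases o j <;> simp)]
          rw [this]
          ring
        rw [e1]
        have e2 : ind (∀ A ∈ G, ¬ On o A (flp j x)) - ind (∀ A ∈ G, ¬ On o A x) =
            - (ind (cv x) * ind (∀ A ∈ G, ¬ On o A x)) := by
          by_cases h3 : ∀ A ∈ G, ¬ On o A x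
          · rw [ind_true h3, mul_one]
            by_cases h4 : cv x
            · rw [ind_true h4, ind_false]
              · ring
              · obtain ⟨A, hA, hjA, h5⟩ := h4
                intro hc
                refine hc A hA ?_
                intro i hi
                by_cases hij : i = j
                · subst hij
                  rw [flp_same, hx, Bool.not_not]
                · rw [flp_ne hij]
                  exact h5 i (mem_erase.2 ⟨hij, hi⟩)
            · rw [ind_false h4, ind_true]
              · ring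
              · intro A hA hon
                by_cases hjA : j ∈ A
                · refine h4 ⟨A, hA, hjA, fun i hi => ?_⟩
                  have := hon i (mem_erase.1 hi).2
                  rwa [flp_ne (mem_erase.1 hi).1] at this
                · exact h3 A hA ((on_flp_of_not_mem hjA).1 hon)
          · rw [ind_false h3, ind_false]
            · ring
            · intro hc
              apply h3
              intro A hA hon
              refine hc A hA ?_
              have hjA : j ∉ A := by
                intro hjA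
                have := hon j hjA
                rw [hx] at this
                cases o j <;> simp at this
              exact (on_flp_of_not_mem hjA).2 hon
        calc w x * (ind (∀ A ∈ G, ¬ On o A (flp j x)) * - -chi o R x) +
            w x * (ind (∀ A ∈ G, ¬ On o A x) * -chi o R x) =
            w x * chi o R x * (ind (∀ A ∈ G, ¬ On o A (flp j x)) -
              ind (∀ A ∈ G, ¬ On o A x)) := by ring
          _ = _ := by rw [e2]; ring
      · simp only [hw']
        rw [ind_false hx]
        ring
    have hind := ih hG' w' (fun x => mul_nonneg (mul_nonneg (hw x) (ind_nonneg _)) (ind_nonneg _))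
      (by
        intro i hi x
        have hij : j ≠ i := fun hc => hj (hc ▸ hi)
        simp only [hw']
        rw [hwf i (mem_insert_of_mem hi), flp_ne hij, ind_congr (hcvf i (mem_insert_of_mem hi) x)])
    have hfin : ∑ x, w x * (ind (∀ A ∈ G, ¬ On o A x) * chi o (insert j R) x) = ∑ x, Φ x := rfl
    rw [hfin, hsplit, card_insert_of_notMem hj, pow_succ]
    calc (0 : ℝ) ≤ _ := hind
      _ = _ := by ring

/-- **A coefficient on an odd part of a term is at least the chance that the term is the only
satisfied one.** -/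
theorem uq_le_co {o : Fin n → Bool} {g : (Fin n → Bool) → Bool} {F : Finset (Finset (Fin n))}
    (hgF : ∀ x, g x = true ↔ ∃ A ∈ F, On o A x) {T R : Finset (Fin n)} (hT : T ∈ F)
    (hRT : R ⊆ T) (hodd : Odd R.card) (hR : ∀ A ∈ F, A ≠ T → (A ∩ R).card ≤ 1) :
    pr (Uq o F T) ≤ co o g R := by
  classical
  have hp : (0 : ℝ) < 2 ^ n := by positivity
  have h1 := sign_lemma o (F.erase T) R (fun A hA => hR A (mem_erase.1 hA).2 (mem_erase.1 hA).1)
    (fun _ => 1) (fun _ => zero_le_one) (fun _ _ _ => rfl)
  rw [hodd.neg_one_pow] at h1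
  have hne : R.Nonempty := by
    rw [nonempty_iff_ne_empty]
    rintro rfl
    simp at hodd
  have e1 : ∀ x, bR (g x) * chi o R x = chi o R x -
      1 * (ind (∀ A ∈ F.erase T, ¬ On o A x) * chi o R x) + ind (Uq o F T x) := by
    intro x
    have hiff : Uq o F T x ↔ On o T x ∧ ∀ A ∈ F.erase T, ¬ On o A x := by
      unfold Uq
      refine and_congr_right fun _ => ?_
      constructor
      · intro h A hA
        exact h A (mem_erase.1 hA).2 (mem_erase.1 hA).1
      · intro h A hA hAT
        exact h A (mem_erase.2 ⟨hAT, hA⟩)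
    by_cases h2 : ∀ A ∈ F.erase T, ¬ On o A x
    · by_cases h3 : On o T x
      · rw [ind_true h2, ind_true (hiff.2 ⟨h3, h2⟩), chi_on (h3.mono hRT),
          (hgF x).2 ⟨T, hT, h3⟩]
        simp [bR]
      · have hg0 : g x = false := by
          by_contra hc
          rw [Bool.not_eq_false] at hc
          obtain ⟨A, hA, hon⟩ := (hgF x).1 hc
          by_cases hAT : A = T
          · exact h3 (hAT ▸ hon)
          · exact h2 A (mem_erase.2 ⟨hAT, hA⟩) hon
        rw [ind_true h2, ind_false (fun h => h3 (hiff.1 h).1), hg0]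
        simp [bR]
    · rw [ind_false h2, ind_false (fun h => h2 (hiff.1 h).2)]
      push Not at h2
      obtain ⟨A, hA, hon⟩ := h2
      rw [(hgF x).2 ⟨A, (mem_erase.1 hA).2, hon⟩]
      simp [bR]
  have e2 : ∑ x, ind (Uq o F T x) = pr (Uq o F T) * 2 ^ n := by
    rw [← sum_bR (Uq o F T) (fun x => decide (Uq o F T x)) fun x => decide_eq_true_iff]
    refine sum_congr rfl fun x _ => ?_
    unfold ind bR
    by_cases h : Uq o F T x <;> simp [h]
  unfold co
  rw [le_div_iff₀ hp, ← e2, sum_congr rfl fun x _ => e1 x, sum_add_distrib, sum_sub_distrib,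
    sum_chi hne]
  linarith

end Pool.Agent.H.MP_cba12a_lc
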