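import Pool.Agent.H.MP_cba12a_lc.Algo8
import Pool.Agent.H.MP_cba12a_lc.Sign8

/-!
Representative samples, including parity events.
-/

namespace Pool.Agent.H.MP_cba12a_lc

open Finset

variable {n m : ℕ}

/-- parity event -/
def evx (f : (Fin n → Bool) → Bool) (v : Bool) (R : List Lit) (x : Fin n → Bool) : Bool :=
  (f x == true) && (par (List.ofFn x) R == v)

theorem evx_iff {f : (Fin n → Bool) → Bool} {v : Bool} {R : List Lit} {x : Fin n → Bool} :
    evx f v R x = true ↔ f x = true ∧ par (List.ofFn x) R = v := by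
  unfold evx
  simp

theorem cntx_smp (f : (Fin n → Bool) → Bool) (ω : Fin m → Fin n → Bool) (v : Bool)
    (R : List Lit) : cntx (smp f ω) v R = ec ω (evx f v R) := by
  unfold cntx smp
  rw [length_filter_ofFn]
  rfl

theorem foldl_xor (xs : List Bool) (R : List Lit) : ∀ b : Bool,
    R.foldl (fun b l => xor b (!(xs[l.1]? == some l.2))) b = xor b (par xs R) := by
  unfold par
  induction R with
  | nil => intro b; simp
  | cons l R ih =>
    intro b
    rw [List.foldl_cons, List.foldl_cons, ih, ih (xor false _)]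
    generalize List.foldl (fun b l => xor b (!(xs[l.1]? == some l.2))) false R = u
    generalize (!(xs[l.1]? == some l.2)) = w
    cases b <;> cases u <;> cases w <;> rfl

theorem par_nil (xs : List Bool) : par xs [] = false := rfl

theorem par_cons (xs : List Bool) (l : Lit) (R : List Lit) :
    par xs (l :: R) = xor (!(xs[l.1]? == some l.2)) (par xs R) := by
  have : par xs (l :: R) = R.foldl (fun b l => xor b (!(xs[l.1]? == some l.2)))
      (xor false (!(xs[l.1]? == some l.2))) := rfl
  rw [this, foldl_xor]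
  simp

/-- number of failing literals -/
def nf (A : Finset (Fin n × Bool)) (x : Fin n → Bool) : ℕ := (A.filter fun l => x l.1 ≠ l.2).card

theorem toF_cons {l : Lit} {C : List Lit} (hl : l.1 < n) :
    toF n (l :: C) = insert ((⟨l.1, hl⟩ : Fin n), l.2) (toF n C) := by
  ext q
  rw [mem_insert, mem_toF, mem_toF, List.mem_cons]
  refine or_congr_left ?_
  constructor
  · intro h
    have h1 : (q.1 : ℕ) = l.1 := congrArg Prod.fst h
    have h2 : q.2 = l.2 := congrArg Prod.snd h
    exact Prod.ext (Fin.ext h1) h2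
  · rintro rfl
    rfl

theorem par_eq_nf (x : Fin n → Bool) : ∀ R : List Lit, R.Nodup → (∀ l ∈ R, l.1 < n) →
    par (List.ofFn x) R = decide (nf (toF n R) x % 2 = 1) := by
  intro R
  induction R with
  | nil =>
    intro _ _
    rw [par_nil]
    have : toF n ([] : List Lit) = ∅ := by
      ext q
      simp [mem_toF]
    rw [this]
    simp [nf]
  | cons l R ih =>
    intro hnd hn
    rw [List.nodup_cons] at hnd
    have hl := hn l (by simp)
    rw [par_cons, ih hnd.2 (fun l' hl' => hn l' (by simp [hl'])), toF_cons hl]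
    have hnot : ((⟨l.1, hl⟩ : Fin n), l.2) ∉ toF n R := by
      rw [mem_toF]
      exact hnd.1
    have hx : ((List.ofFn x)[l.1]? == some l.2) = (x ⟨l.1, hl⟩ == l.2) := by
      rw [Bool.eq_iff_iff, beq_iff_eq, beq_iff_eq, getElem?_ofFn]
      exact ⟨fun ⟨_, h⟩ => h, fun h => ⟨hl, h⟩⟩
    rw [hx]
    unfold nf
    rw [filter_insert]
    by_cases h : x ⟨l.1, hl⟩ = l.2
    · rw [if_neg (by simpa using h)]
      have : (x ⟨l.1, hl⟩ == l.2) = true := by simpa using h
      rw [this]
      simp
    · rw [if_pos (by simpa using h), card_insert_of_notMem (fun hc => hnot (mem_filter.1 hc).1)]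
      have : (x ⟨l.1, hl⟩ == l.2) = false := by simpa using h
      rw [this]
      simp only [Bool.not_false, Bool.true_xor]
      rw [Bool.eq_iff_iff, Bool.not_eq_true', decide_eq_false_iff_not, decide_eq_true_iff]
      omega

/-- event of an index -/
def evJ (f : (Fin n → Bool) → Bool) (i : Finset (Fin n × Bool) × Bool) (x : Fin n → Bool) :
    Bool := (f x == true) && (decide (nf i.1 x % 2 = 1) == i.2)

theorem evx_eq_evJ (f : (Fin n → Bool) → Bool) (v : Bool) {R : List Lit} (hnd : R.Nodup)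
    (hn : ∀ l ∈ R, l.1 < n) : evx f v R = evJ f (toF n R, v) := by
  funext x
  unfold evx evJ
  rw [par_eq_nf x R hnd hn]

/-- the sample is representative for parity events -/
def RepX (f : (Fin n → Bool) → Bool) (ω : Fin m → Fin n → Bool) (τ : ℝ) : Prop :=
  ∀ (v : Bool) (R : List Lit), R.Nodup → (∀ l ∈ R, l.1 < n) →
    |em ω (evx f v R) - mu (evx f v R)| < τ

/-- Most samples are representative. -/
theorem rep8_of_large (f : (Fin n → Bool) → Bool) (r b : ℕ) (hb : 0 < b)
    (τ : ℝ) (hτ : 0 < τ) (hτ1 : τ ≤ 1)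
    (hm : (4 : ℝ) * ((2 * n + 1) * (r + 1) + 2 + Nat.clog 2 b) ≤ m * τ ^ 2)
    (P : (Fin m → Fin n → Bool) → Prop) [DecidablePred P]
    (hP : ∀ ω, Rep f ω r τ → RepX f ω τ → P ω) :
    (1 - 1 / (b : ℝ)) * ((2 : ℝ) ^ n) ^ m ≤
      ((univ.filter fun ω : Fin m → Fin n → Bool => P ω).card : ℝ) := by
  classical
  have hcard : Fintype.card (Ix n r ⊕ (Finset (Fin n × Bool) × Bool)) ≤
      2 ^ ((2 * n + 1) * (r + 1) + 1) := by
    have h0 : Fintype.card (Finset (Fin n × Bool) × Bool) = 2 ^ (n * 2) * 2 := by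
      rw [Fintype.card_prod, Fintype.card_finset, Fintype.card_prod, Fintype.card_bool,
        Fintype.card_fin]
    rw [Fintype.card_sum, h0]
    have h1 := card_Ix n r
    have h2 : 2 ^ (n * 2) * 2 ≤ 2 ^ ((2 * n + 1) * (r + 1)) := by
      rw [← pow_succ]
      refine Nat.pow_le_pow_right (by norm_num) ?_
      have : n * 2 + 1 = (2 * n + 1) * 1 := by ring
      rw [this]
      exact Nat.mul_le_mul_left _ (by omega)
    rw [pow_succ]
    omega
  have h := uniform_conv (Ω := Fin n → Bool) (ι := Ix n r ⊕ (Finset (Fin n × Bool) × Bool))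
    (fun i => Sum.elim (evI f) (evJ f) i) (m := m)
    (D := (2 * n + 1) * (r + 1) + 1) hb (by simp) hcard τ hτ hτ1 (by
      push_cast
      linarith)
  rw [Fintype.card_fun, Fintype.card_fin, Fintype.card_bool] at h
  push_cast at h
  refine h.trans ?_
  have hsub : (univ.filter fun ω : Fin m → Fin n → Bool =>
      ∀ i : Ix n r ⊕ (Finset (Fin n × Bool) × Bool),
        |em ω (Sum.elim (evI f) (evJ f) i) - mu (Sum.elim (evI f) (evJ f) i)| < τ) ⊆
      (univ.filter fun ω : Fin m → Fin n → Bool => P ω) := by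
    intro ω hω
    rw [mem_filter] at hω ⊢
    refine ⟨mem_univ _, hP ω ?_ ?_⟩
    · intro v C h hC hr hh
      rw [ev_eq_evI f v C h hC hr hh]
      exact hω.2 (Sum.inl _)
    · intro v R hnd hn
      rw [evx_eq_evJ f v hnd hn]
      exact hω.2 (Sum.inr _)
  exact_mod_cast card_le_card hsub

/-! ### Coefficients -/

/-- variables of a list of literals -/
def fs (n : ℕ) (R : List Lit) : Finset (Fin n) := univ.filter fun i => (i : ℕ) ∈ R.map Prod.fst

theorem mem_fs {R : List Lit} {i : Fin n} : i ∈ fs n R ↔ (i : ℕ) ∈ R.map Prod.fst := by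
  unfold fs; simp

theorem fs_cons {i : Fin n} {v : Bool} {R : List Lit} :
    fs n (((i : ℕ), v) :: R) = insert i (fs n R) := by
  ext j
  rw [mem_insert, mem_fs, mem_fs, List.map_cons, List.mem_cons]
  refine or_congr_left ?_
  exact ⟨fun h => Fin.ext h, fun h => by rw [h]⟩

theorem fs_nil : fs n [] = ∅ := by
  ext j
  simp [mem_fs]

theorem chi_par {o : Fin n → Bool} (x : Fin n → Bool) : ∀ R : List Lit,
    (∀ l ∈ R, ∃ i : Fin n, l = ((i : ℕ), o i)) → (R.map Prod.fst).Nodup →
    chi o (fs n R) x = if par (List.ofFn x) R = true then -1 else 1 := by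
  intro R
  induction R with
  | nil =>
    intro _ _
    rw [fs_nil]
    simp [chi, par_nil]
  | cons l R ih =>
    intro hR hnd
    obtain ⟨i, rfl⟩ := hR l (by simp)
    rw [List.map_cons, List.nodup_cons] at hnd
    have hi : i ∉ fs n R := by
      rw [mem_fs]
      exact hnd.1
    have ih' := ih (fun l hl => hR l (by simp [hl])) hnd.2
    have hx : ((List.ofFn x)[((i : ℕ), o i).1]? == some ((i : ℕ), o i).2) = (x i == o i) := by
      rw [Bool.eq_iff_iff, beq_iff_eq, beq_iff_eq, getElem?_ofFn]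
      exact ⟨fun ⟨_, h⟩ => h, fun h => ⟨i.2, h⟩⟩
    rw [fs_cons, par_cons, hx]
    unfold chi at ih' ⊢
    rw [prod_insert hi, ih']
    unfold sg1
    generalize par (List.ofFn x) R = u
    generalize x i = a
    generalize o i = b
    cases a <;> cases b <;> cases u <;> simp

theorem co_eq {o : Fin n → Bool} (g : (Fin n → Bool) → Bool) {R : List Lit}
    (hR : ∀ l ∈ R, ∃ i : Fin n, l = ((i : ℕ), o i)) (hnd : (R.map Prod.fst).Nodup) :
    co o g (fs n R) = mu (evx g false R) - mu (evx g true R) := by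
  have hp : (0 : ℝ) < 2 ^ n := by positivity
  have h1 : ∀ v, mu (evx g v R) = (∑ x, bR (evx g v R x)) / 2 ^ n := by
    intro v
    rw [mu_eq_pr, sum_bR (fun x => evx g v R x = true) (evx g v R) (fun _ => Iff.rfl),
      mul_div_cancel_right₀ _ hp.ne']
  rw [h1, h1, ← sub_div, ← sum_sub_distrib]
  unfold co
  congr 1
  refine sum_congr rfl fun x _ => ?_
  rw [chi_par x R hR hnd]
  unfold evx bR
  generalize par (List.ofFn x) R = u
  generalize g x = w
  cases u <;> cases w <;> simp

theorem mu_evx_sub_le (f g : (Fin n → Bool) → Bool) (v : Bool) (R : List Lit) :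
    mu (evx f v R) ≤ mu (evx g v R) + dst f g := by
  have e : dst f g = mu (fun x => !(f x == g x)) := by
    unfold dst mu ct
    rw [Fintype.card_fun, Fintype.card_fin, Fintype.card_bool]
    push_cast
    congr 2
    refine congrArg card ?_
    ext x
    simp
  rw [e]
  refine mu_le_add ?_
  intro x hx
  rw [evx_iff] at hx
  by_cases hfg : f x = g x
  · left
    rw [evx_iff, ← hfg]
    exact hx
  · right
    simp [hfg]

theorem heavy_iff {Θ : ℕ} (hΘ : 0 < Θ) (hm : 0 < m) {f : (Fin n → Bool) → Bool}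
    {ω : Fin m → Fin n → Bool} {R : List Lit} : heavy Θ (smp f ω) R = true ↔
      1 / (Θ : ℝ) ≤ em ω (evx f false R) - em ω (evx f true R) := by
  have hm' : (0 : ℝ) < m := by exact_mod_cast hm
  have hΘ' : (0 : ℝ) < Θ := by exact_mod_cast hΘ
  unfold heavy
  rw [decide_eq_true_iff, cntx_smp, cntx_smp, length_smp]
  unfold em
  rw [← sub_div, div_le_div_iff₀ hΘ' hm', one_mul]
  constructor
  · intro h
    have h' : (ec ω (evx f true R) : ℝ) * Θ + m ≤ ec ω (evx f false R) * Θ := by exact_mod_cast h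
    linarith
  · intro h
    have h' : (ec ω (evx f true R) : ℝ) * Θ + m ≤ ec ω (evx f false R) * Θ := by linarith
    exact_mod_cast h'

/-- the test for large coefficients -/
theorem heavy_spec {Θ : ℕ} (hΘ : 0 < Θ) (hm : 0 < m) {f g : (Fin n → Bool) → Bool}
    {o : Fin n → Bool} {ω : Fin m → Fin n → Bool} {τ : ℝ} (hrep : RepX f ω τ)
    (hfg : dst f g ≤ τ) (hτ : 8 * τ ≤ 1 / Θ) {R : List Lit}
    (hR : ∀ l ∈ R, ∃ i : Fin n, l = ((i : ℕ), o i)) (hnd : (R.map Prod.fst).Nodup) :
    (heavy Θ (smp f ω) R = true → 1 / (2 * Θ) ≤ co o g (fs n R)) ∧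
      (2 / Θ ≤ co o g (fs n R) → heavy Θ (smp f ω) R = true) := by
  have hΘ' : (0 : ℝ) < Θ := by exact_mod_cast hΘ
  have hn : ∀ l ∈ R, l.1 < n := by
    intro l hl
    obtain ⟨i, rfl⟩ := hR l hl
    exact i.2
  have hnd' : R.Nodup := List.Nodup.of_map _ hnd
  rw [heavy_iff hΘ hm, co_eq g hR hnd]
  have h1 := abs_lt.1 (hrep false R hnd' hn)
  have h2 := abs_lt.1 (hrep true R hnd' hn)
  have h3 := mu_evx_sub_le f g false R
  have h4 := mu_evx_sub_le g f false R
  have h5 := mu_evx_sub_le f g true R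
  have h6 := mu_evx_sub_le g f true R
  rw [dst_comm g f] at h4 h6
  have e1 : (1 : ℝ) / (2 * Θ) = 1 / 2 * (1 / Θ) := by field_simp
  have e2 : (2 : ℝ) / Θ = 2 * (1 / Θ) := by ring
  rw [e1, e2]
  generalize (1 : ℝ) / Θ = q at *
  constructor
  · intro h
    linarith
  · intro h
    linarith

end Pool.Agent.H.MP_cba12a_lc
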