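import Pool.Agent.H.MP_cba12a_lc.Algo6
import Pool.Agent.H.MP_cba12a_lc.Cov6

/-!
Signed sums over the sign patterns of a list of literals (mixed derivatives).
-/

namespace Pool.Agent.H.MP_cba12a_lc

open Finset

variable {n : ℕ}

/-- signed sum over the sign patterns -/
noncomputable def Sg (ν : List Lit → ℝ) (k : ℕ) (R : List Lit) : ℝ :=
  ((pats k R).map fun p => (if p.2 then (-1 : ℝ) else 1) * ν p.1).sum

theorem pats_cons (k : ℕ) (l : Lit) (R : List Lit) : pats (k + 1) (l :: R) =
    (pats k R).flatMap fun p => [(l :: p.1, p.2), (neg l :: p.1, !p.2)] := by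
  simp [pats]

theorem pats_nil (k : ℕ) : pats (k + 1) [] = [] := by
  simp [pats]

theorem length_pats (k : ℕ) : ∀ R : List Lit, (pats k R).length ≤ 2 ^ k := by
  induction k with
  | zero => intro R; simp [pats]
  | succ k ih =>
    intro R
    cases R with
    | nil => rw [pats_nil]; simp
    | cons l R =>
      rw [pats_cons]
      refine (length_flatMap_le _ _ 2 (fun p _ => by simp)).trans ?_
      rw [pow_succ]
      exact Nat.mul_le_mul_right 2 (ih R)

theorem mem_pats (k : ℕ) : ∀ (R : List Lit) (p : List Lit × Bool), p ∈ pats k R →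
    ∀ l ∈ p.1, ∃ l' ∈ R, l.1 = l'.1 := by
  induction k with
  | zero => intro R p hp; simp [pats] at hp; subst hp; simp
  | succ k ih =>
    intro R p hp
    cases R with
    | nil => rw [pats_nil] at hp; simp at hp
    | cons l0 R =>
      rw [pats_cons, List.mem_flatMap] at hp
      obtain ⟨p', hp', hp⟩ := hp
      simp only [List.mem_cons, List.not_mem_nil, or_false] at hp
      intro l hl
      rcases hp with rfl | rfl
      · rcases List.mem_cons.1 hl with rfl | hl
        · exact ⟨l, by simp, rfl⟩
        · obtain ⟨l', h1, h2⟩ := ih R p' hp' l hl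
          exact ⟨l', by simp [h1], h2⟩
      · rcases List.mem_cons.1 hl with rfl | hl
        · exact ⟨l0, by simp, rfl⟩
        · obtain ⟨l', h1, h2⟩ := ih R p' hp' l hl
          exact ⟨l', by simp [h1], h2⟩

theorem sum_pairs (L : List (List Lit × Bool)) (l : Lit) (ν : List Lit → ℝ) :
    ((L.flatMap fun p => [(l :: p.1, p.2), (neg l :: p.1, !p.2)]).map
      fun p => (if p.2 then (-1 : ℝ) else 1) * ν p.1).sum =
    (L.map fun p => (if p.2 then (-1 : ℝ) else 1) * ν (l :: p.1)).sum -
      (L.map fun p => (if p.2 then (-1 : ℝ) else 1) * ν (neg l :: p.1)).sum := by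
  induction L with
  | nil => simp
  | cons p L ih =>
    rw [List.flatMap_cons, List.map_append, List.sum_append, ih]
    simp only [List.map_cons, List.map_nil, List.sum_cons, List.sum_nil]
    cases p.2 <;> simp <;> ring

theorem Sg_cons (ν : List Lit → ℝ) (k : ℕ) (l : Lit) (R : List Lit) :
    Sg ν (k + 1) (l :: R) = Sg (fun C => ν (l :: C)) k R - Sg (fun C => ν (neg l :: C)) k R := by
  unfold Sg
  rw [pats_cons, sum_pairs]

theorem Sg_nil (ν : List Lit → ℝ) (k : ℕ) : Sg ν (k + 1) [] = 0 := by
  unfold Sg
  rw [pats_nil]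
  simp

theorem Sg_zero (ν : List Lit → ℝ) (R : List Lit) : Sg ν 0 R = ν [] := by
  unfold Sg
  simp [pats]

theorem Sg_congr {ν ν' : List Lit → ℝ} {k : ℕ} {R : List Lit}
    (h : ∀ C : List Lit, (∀ l ∈ C, ∃ l' ∈ R, l.1 = l'.1) → ν C = ν' C) :
    Sg ν k R = Sg ν' k R := by
  unfold Sg
  congr 1
  refine List.map_congr_left fun p hp => ?_
  rw [h p.1 (mem_pats k R p hp)]

theorem Sg_add (ν ν' : List Lit → ℝ) (k : ℕ) (R : List Lit) :
    Sg (fun C => ν C + ν' C) k R = Sg ν k R + Sg ν' k R := by
  unfold Sg
  rw [← List.sum_map_add]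
  congr 1
  refine List.map_congr_left fun p _ => ?_
  ring

theorem Sg_sub_le {ν ν' : List Lit → ℝ} {k : ℕ} {R : List Lit} {e : ℝ} (he : 0 ≤ e)
    (h : ∀ C : List Lit, (∀ l ∈ C, ∃ l' ∈ R, l.1 = l'.1) → |ν C - ν' C| ≤ e) :
    |Sg ν k R - Sg ν' k R| ≤ 2 ^ k * e := by
  have key : ∀ L : List (List Lit × Bool), (∀ p ∈ L, |ν p.1 - ν' p.1| ≤ e) →
      |(L.map fun p => (if p.2 then (-1 : ℝ) else 1) * ν p.1).sum -
        (L.map fun p => (if p.2 then (-1 : ℝ) else 1) * ν' p.1).sum| ≤ L.length * e := by
    intro L
    induction L with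
    | nil => intro _; simp
    | cons p L ih =>
      intro hL
      have h1 := abs_le.1 (ih fun q hq => hL q (by simp [hq]))
      have h2 := abs_le.1 (hL p (by simp))
      simp only [List.map_cons, List.sum_cons, List.length_cons]
      push_cast
      rw [abs_le]
      have hs : (if p.2 = true then (-1 : ℝ) else 1) = 1 ∨
          (if p.2 = true then (-1 : ℝ) else 1) = -1 := by
        cases p.2
        · left; rfl
        · right; rfl
      rcases hs with hs | hs <;> rw [hs] <;> constructor <;> linarith [h1.1, h1.2, h2.1, h2.2]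
  refine (key (pats k R) fun p hp => h p.1 (mem_pats k R p hp)).trans ?_
  refine mul_le_mul_of_nonneg_right ?_ he
  exact_mod_cast length_pats k R

/-- the measure of `E` and a conjunction -/
noncomputable def nuE (E : (Fin n → Bool) → Bool) (C : List Lit) : ℝ :=
  mu (fun x => E x && sat (List.ofFn x) C)

/-- adding a literal to an event -/
def andL (E : (Fin n → Bool) → Bool) (l : Lit) (x : Fin n → Bool) : Bool :=
  E x && sat (List.ofFn x) [l]

theorem nuE_cons (E : (Fin n → Bool) → Bool) (l : Lit) (C : List Lit) :
    nuE E (l :: C) = nuE (andL E l) C := by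
  unfold nuE andL
  refine mu_congr fun x => ?_
  rw [Bool.and_eq_true, Bool.and_eq_true, Bool.and_eq_true, sat_cons, sat_cons]
  simp only [sat_nil, and_true]
  tauto

theorem nuE_nil (E : (Fin n → Bool) → Bool) : nuE E [] = mu E := by
  unfold nuE
  refine mu_congr fun x => ?_
  simp [sat_nil]

theorem mu_andL_add_le (E : (Fin n → Bool) → Bool) (l : Lit) :
    mu (andL E l) + mu (andL E (neg l)) ≤ mu E := by
  have h : mu (fun x => andL E l x || andL E (neg l) x) = mu (andL E l) + mu (andL E (neg l)) := by
    refine mu_eq_add (fun x => by simp) ?_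
    rintro x ⟨h1, h2⟩
    unfold andL at h1 h2
    rw [Bool.and_eq_true, sat_cons] at h1 h2
    have h3 := h1.2.1
    have h4 := h2.2.1
    unfold neg at h4
    rw [h3] at h4
    simp at h4
  rw [← h]
  refine mu_mono fun x hx => ?_
  rw [Bool.or_eq_true] at hx
  unfold andL at hx
  rw [Bool.and_eq_true, Bool.and_eq_true] at hx
  rcases hx with hx | hx
  · exact hx.1
  · exact hx.1

theorem abs_Sg_le (k : ℕ) : ∀ (R : List Lit) (E : (Fin n → Bool) → Bool),
    |Sg (nuE E) k R| ≤ mu E := by
  induction k with
  | zero =>
    intro R E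
    rw [Sg_zero, nuE_nil, abs_of_nonneg (mu_nonneg _)]
  | succ k ih =>
    intro R E
    cases R with
    | nil => rw [Sg_nil, abs_zero]; exact mu_nonneg _
    | cons l R =>
      rw [Sg_cons]
      have e1 : (fun C => nuE E (l :: C)) = nuE (andL E l) := funext fun C => nuE_cons E l C
      have e2 : (fun C => nuE E (neg l :: C)) = nuE (andL E (neg l)) :=
        funext fun C => nuE_cons E (neg l) C
      rw [e1, e2]
      have h1 := abs_le.1 (ih R (andL E l))
      have h2 := abs_le.1 (ih R (andL E (neg l)))
      have h3 := mu_andL_add_le E l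
      rw [abs_le]
      constructor <;> linarith

theorem Sg_eq_zero (j : Fin n) : ∀ (R : List Lit) (E : (Fin n → Bool) → Bool),
    (R.map Prod.fst).Nodup → (j : ℕ) ∈ R.map Prod.fst → (∀ x, E (flp j x) = E x) →
    Sg (nuE E) R.length R = 0 := by
  intro R
  induction R with
  | nil => intro E _ h; simp at h
  | cons l R ih =>
    intro E hnd hj hE
    rw [List.map_cons, List.nodup_cons] at hnd
    rw [List.length_cons, Sg_cons]
    have e1 : (fun C => nuE E (l :: C)) = nuE (andL E l) := funext fun C => nuE_cons E l C
    have e2 : (fun C => nuE E (neg l :: C)) = nuE (andL E (neg l)) :=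
      funext fun C => nuE_cons E (neg l) C
    rw [e1, e2]
    by_cases hl : l.1 = j
    · rw [sub_eq_zero]
      refine Sg_congr fun C hC => ?_
      have hCj : ∀ l' ∈ C, l'.1 ≠ j := by
        intro l' hl' hc
        obtain ⟨l'', h1, h2⟩ := hC l' hl'
        refine hnd.1 ?_
        rw [hl, ← hc, h2]
        exact List.mem_map.2 ⟨l'', h1, rfl⟩
      unfold nuE
      rw [← mu_flp j]
      refine mu_congr fun x => ?_
      unfold andL
      have h3 : sat (List.ofFn (flp j x)) C = sat (List.ofFn x) C := sat_flp hCj
      rw [hE, h3]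
      have h4 : sat (List.ofFn (flp j x)) [l] = sat (List.ofFn x) [neg l] := by
        rw [Bool.eq_iff_iff, sat_cons, sat_cons]
        simp only [sat_nil, and_true]
        unfold neg
        rw [getElem?_ofFn, getElem?_ofFn]
        simp only [hl]
        constructor
        · rintro ⟨h5, h6⟩
          refine ⟨h5, ?_⟩
          have : (⟨(j : ℕ), h5⟩ : Fin n) = j := rfl
          rw [this, flp_same] at h6
          rw [this, ← h6, Bool.not_not]
        · rintro ⟨h5, h6⟩
          refine ⟨h5, ?_⟩
          have : (⟨(j : ℕ), h5⟩ : Fin n) = j := rfl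
          rw [this] at h6
          rw [this, flp_same, h6, Bool.not_not]
      rw [h4]
    · have hj' : (j : ℕ) ∈ R.map Prod.fst := by
        rw [List.map_cons] at hj
        rcases List.mem_cons.1 hj with h | h
        · exact absurd h.symm hl
        · exact h
      have key : ∀ l' : Lit, l'.1 = l.1 → ∀ x, andL E l' (flp j x) = andL E l' x := by
        intro l' hl' x
        unfold andL
        rw [hE, sat_flp]
        intro l'' hl''
        rw [List.mem_singleton] at hl''
        rw [hl'', hl']
        exact hl
      rw [ih (andL E l) hnd.2 hj' (key l rfl), ih (andL E (neg l)) hnd.2 hj' (key (neg l) rfl),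
        sub_zero]

theorem Sg_plus : ∀ (R : List Lit) (E : (Fin n → Bool) → Bool),
    (∀ x, E x = true → sat (List.ofFn x) R = true) → Sg (nuE E) R.length R = mu E := by
  intro R
  induction R with
  | nil => intro E _; rw [List.length_nil, Sg_zero, nuE_nil]
  | cons l R ih =>
    intro E hE
    rw [List.length_cons, Sg_cons]
    have e1 : (fun C => nuE E (l :: C)) = nuE (andL E l) := funext fun C => nuE_cons E l C
    have e2 : (fun C => nuE E (neg l :: C)) = nuE (andL E (neg l)) :=
      funext fun C => nuE_cons E (neg l) C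
    rw [e1, e2]
    have h1 : mu (andL E l) = mu E := by
      refine mu_congr fun x => ?_
      unfold andL
      rw [Bool.and_eq_true]
      refine ⟨fun h => h.1, fun h => ⟨h, ?_⟩⟩
      have := hE x h
      rw [sat_cons] at this ⊢
      exact ⟨this.1, rfl⟩
    have h2 : mu (andL E (neg l)) = 0 := by
      have := mu_andL_add_le E l
      have h3 := mu_nonneg (andL E (neg l))
      linarith
    have h3 : Sg (nuE (andL E (neg l))) R.length R = 0 := by
      have := abs_Sg_le R.length R (andL E (neg l))
      rw [h2] at this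
      exact abs_eq_zero.1 (le_antisymm this (abs_nonneg _))
    rw [h3, sub_zero, ih (andL E l), h1]
    intro x hx
    unfold andL at hx
    rw [Bool.and_eq_true] at hx
    have := hE x hx.1
    rw [sat_cons] at this
    exact this.2

theorem Sg_split (E : (Fin n → Bool) → Bool) (c : (Fin n → Bool) → Bool) (k : ℕ)
    (R : List Lit) : Sg (nuE E) k R = Sg (nuE fun x => E x && c x) k R +
      Sg (nuE fun x => E x && !(c x)) k R := by
  rw [← Sg_add]
  refine Sg_congr fun C _ => ?_
  unfold nuE
  refine mu_eq_add ?_ ?_
  · intro x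
    dsimp only
    generalize E x = a
    generalize c x = b
    generalize sat (List.ofFn x) C = d
    cases a <;> cases b <;> cases d <;> simp
  · intro x
    dsimp only
    generalize E x = a
    generalize c x = b
    generalize sat (List.ofFn x) C = d
    cases a <;> cases b <;> cases d <;> simp

theorem Sg_noise {R : List Lit} {E : (Fin n → Bool) → Bool}
    (hR : (R.map Prod.fst).Nodup) (c : Fin n → (Fin n → Bool) → Bool) (Y : Finset (Fin n))
    (hY : ∀ j ∈ Y, (j : ℕ) ∈ R.map Prod.fst)
    (hc : ∀ j ∈ Y, ∀ i ∈ Y, ∀ x, c i (flp j x) = c i x)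
    (hE : ∀ j ∈ Y, ∀ x, c j x = false → E (flp j x) = E x) :
    |Sg (nuE E) R.length R| ≤ mu (fun x => E x && decide (∀ j ∈ Y, c j x = true)) := by
  have key : ∀ J : List (Fin n), (∀ j ∈ J, j ∈ Y) →
      Sg (nuE E) R.length R = Sg (nuE fun x => E x && J.all fun j => c j x) R.length R := by
    intro J
    induction J with
    | nil =>
      intro _
      congr 1
      funext C
      unfold nuE
      simp
    | cons j J ih =>
      intro hJ
      rw [ih fun i hi => hJ i (by simp [hi]),
        Sg_split (fun x => E x && J.all fun j => c j x) (c j)]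
      have hj := hJ j (by simp)
      have h0 : Sg (nuE fun x => (E x && J.all fun j => c j x) && !(c j x)) R.length R = 0 := by
        refine Sg_eq_zero j R _ hR (hY j hj) ?_
        intro x
        have h1 : (J.all fun i => c i (flp j x)) = J.all fun i => c i x := by
          rw [Bool.eq_iff_iff, List.all_eq_true, List.all_eq_true]
          refine forall₂_congr fun i hi => ?_
          rw [hc j hj i (hJ i (by simp [hi]))]
        rw [h1, hc j hj j hj]
        cases hcx : c j x
        · rw [hE j hj x hcx]
        · simp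
      rw [h0, add_zero]
      congr 2
      funext x
      rw [List.all_cons, Bool.and_assoc, Bool.and_comm (J.all _)]
  rw [key Y.toList (fun j hj => mem_toList.1 hj)]
  refine (abs_Sg_le _ _ _).trans (le_of_eq ?_)
  refine mu_congr fun x => ?_
  rw [Bool.and_eq_true, Bool.and_eq_true, List.all_eq_true, decide_eq_true_iff]
  simp

end Pool.Agent.H.MP_cba12a_lc
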