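import Pool.Agent.H.MP_cba12a_lc.Final6
import Pool.Agent.H.MP_cba12a_lc.Sign8

/-!
Short terms of unate formulas: literals with a small degree-one correlation can be dropped.
-/

namespace Pool.Agent.H.MP_cba12a_lc

open Finset Pool.Agent.H.MP_5be563_lc.PT

/-- literals with a large degree-one correlation at the leaf `α` -/
def infl7 (Θ n : ℕ) (S : Samples) (α : List Lit) : List Lit :=
  (allLits n).filter fun l =>
    decide (Θ * cnt S true (neg l :: α) [] + S.length ≤ Θ * cnt S true (l :: α) [])

@[fun_prop]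
theorem poly_infl7 {β : Type} [Enc β] {Θ n : β → ℕ} {S : β → Samples} {α : β → List Lit}
    (hΘ : Poly Θ) (hn : Poly n) (hS : Poly S) (hα : Poly α) :
    Poly (fun p => infl7 (Θ p) (n p) (S p) (α p)) := by
  unfold infl7
  fun_prop

variable {n m : ℕ}

theorem mem_infl7 {Θ : ℕ} (hΘ : 0 < Θ) (hm : 0 < m) {f : (Fin n → Bool) → Bool}
    {ω : Fin m → Fin n → Bool} {α : List Lit} {l : Lit} :
    l ∈ infl7 Θ n (smp f ω) α ↔ l.1 < n ∧
      1 / (Θ : ℝ) ≤ em ω (ev f true (l :: α) []) - em ω (ev f true (neg l :: α) []) := by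
  unfold infl7
  rw [List.mem_filter, mem_allLits, decide_eq_true_iff, cnt_smp, cnt_smp, length_smp]
  refine and_congr_right fun _ => ?_
  have hm' : (0 : ℝ) < m := by exact_mod_cast hm
  have hΘ' : (0 : ℝ) < Θ := by exact_mod_cast hΘ
  unfold em
  rw [← sub_div, div_le_div_iff₀ hΘ' hm', one_mul]
  set c1 := ec ω (ev f true (l :: α) [])
  set c0 := ec ω (ev f true (neg l :: α) [])
  have e : (Θ * c0 + m ≤ Θ * c1) ↔ ((Θ : ℝ) * c0 + m ≤ Θ * c1) := by exact_mod_cast Iff.rfl
  rw [e]
  constructor
  · intro h; nlinarith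
  · intro h; nlinarith

/-- few literals have a large correlation -/
theorem length_infl7_le {Θ : ℕ} {τ : ℝ} (hΘ : 0 < Θ) (hm : 0 < m) {f : (Fin n → Bool) → Bool}
    {ω : Fin m → Fin n → Bool} {α : List Lit} (hαn : ∀ l ∈ α, l.1 < n) (hrep : Rep f ω 0 τ)
    (hτΘ : 4 * Θ * τ ≤ 1) : (infl7 Θ n (smp f ω) α).length ≤ 8 * Θ ^ 2 := by
  classical
  have hΘ' : (0 : ℝ) < Θ := by exact_mod_cast hΘ
  set V := infl7 Θ n (smp f ω) α with hV
  have hVn : ∀ l ∈ V, l.1 < n := fun l hl => ((mem_infl7 hΘ hm).1 hl).1
  have hcard : (toF n V).card = V.length := toF_card_of_nodup ((nodup_allLits n).filter _) hVn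
  set o : Fin n → Bool := fun i => decide (((i : ℕ), true) ∈ V) with ho
  set I : Finset (Fin n) := univ.filter fun i => ((i : ℕ), o i) ∈ V with hI
  have hsub : toF n V ⊆ I ×ˢ (univ : Finset Bool) := by
    intro l hl
    rw [mem_toF] at hl
    rw [mem_product]
    refine ⟨?_, mem_univ _⟩
    rw [hI, mem_filter]
    refine ⟨mem_univ _, ?_⟩
    by_cases h : (((l.1 : Fin n) : ℕ), true) ∈ V
    · have : o l.1 = true := by simp only [ho]; exact decide_eq_true h
      rw [this]; exact h
    · have h1 : o l.1 = false := by simp only [ho]; exact decide_eq_false h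
      rw [h1]
      cases hl2 : l.2 with
      | true => rw [hl2] at hl; exact absurd hl h
      | false => rw [hl2] at hl; exact hl
  set g : (Fin n → Bool) → Bool := fun x => f x && sat (List.ofFn x) α with hg
  have hev : ∀ (i : Fin n) (v : Bool), mu (ev f true (((i : ℕ), v) :: α) []) =
      (∑ x, bR (g x) * bR (x i == v)) / 2 ^ n := by
    intro i v
    rw [mu_eq_div]
    congr 1
    rw [← Finset.sum_boole]
    refine sum_congr rfl fun x _ => ?_
    have h1 : (ev f true (((i : ℕ), v) :: α) [] x = true) ↔
        (g x && (x i == v)) = true := by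
      rw [ev_iff, sat_cons, getElem?_ofFn]
      simp only [hg, Bool.and_eq_true, beq_iff_eq]
      constructor
      · rintro ⟨a, ⟨⟨_, b⟩, c⟩, _⟩
        exact ⟨⟨a, c⟩, b⟩
      · rintro ⟨⟨a, c⟩, b⟩
        exact ⟨a, ⟨⟨i.2, b⟩, c⟩, rfl⟩
    by_cases h2 : (g x && (x i == v)) = true
    · rw [if_pos (h1.2 h2)]
      rw [Bool.and_eq_true] at h2
      rw [h2.1, h2.2]
      simp [bR]
    · rw [if_neg (fun h => h2 (h1.1 h))]
      rw [Bool.and_eq_true, not_and_or, Bool.not_eq_true, Bool.not_eq_true] at h2
      rcases h2 with h2 | h2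
      · rw [h2]; simp [bR]
      · rw [h2]; simp [bR]
  have hco : ∀ i, co o g {i} = mu (ev f true (((i : ℕ), o i) :: α) []) -
      mu (ev f true (neg ((i : ℕ), o i) :: α) []) := by
    intro i
    have e : neg ((i : ℕ), o i) = ((i : ℕ), !(o i)) := rfl
    rw [e, hev, hev, ← sub_div, ← sum_sub_distrib]
    unfold co
    congr 1
    refine sum_congr rfl fun x _ => ?_
    rw [← mul_sub]
    congr 1
    unfold chi sg1 bR
    rw [prod_singleton]
    cases x i <;> cases o i <;> simp
  have h1 := card_large_le (o := o) (g := g) (𝓡 := I.image fun i => ({i} : Finset (Fin n)))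
    (θ := 1 / (2 * Θ)) (by positivity) (by
      intro R hR
      obtain ⟨i, hi, rfl⟩ := mem_image.1 hR
      rw [hI, mem_filter, hV, mem_infl7 hΘ hm] at hi
      obtain ⟨_, _, hi⟩ := hi
      rw [hco]
      have h2 := abs_lt.1 (hrep true (((i : ℕ), o i) :: α) [] (by
        intro l hl
        rcases List.mem_cons.1 hl with rfl | hl
        · exact i.2
        · exact hαn l hl) (by simp) (by simp))
      have h3 := abs_lt.1 (hrep true (neg ((i : ℕ), o i) :: α) [] (by
        intro l hl
        rcases List.mem_cons.1 hl with rfl | hl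
        · exact i.2
        · exact hαn l hl) (by simp) (by simp))
      have h4 : 2 * τ ≤ 1 / (2 * Θ) := by
        rw [le_div_iff₀ (by positivity)]
        linarith
      have h5 : (1 : ℝ) / Θ = 1 / (2 * Θ) + 1 / (2 * Θ) := by field_simp; norm_num
      linarith)
  rw [card_image_of_injective _ singleton_injective] at h1
  have h2 : I.card ≤ 4 * Θ ^ 2 := by
    have h3 : (I.card : ℝ) ≤ 4 * Θ ^ 2 := by
      have e : (I.card : ℝ) * (1 / (2 * Θ)) ^ 2 = I.card / (4 * Θ ^ 2) := by
        field_simp
        norm_num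
      rw [e, div_le_one (by positivity)] at h1
      exact h1
    exact_mod_cast h3
  rw [← hcard]
  refine (card_le_card hsub).trans ?_
  rw [card_product, card_univ, Fintype.card_bool]
  omega

/-! ### Filling in literals -/

/-- make all literals of `D` true -/
def fill : List (Fin n × Bool) → (Fin n → Bool) → (Fin n → Bool)
  | [], x => x
  | l :: D, x => fill D (Function.update x l.1 l.2)

theorem fill_not_mem : ∀ (D : List (Fin n × Bool)) (x : Fin n → Bool) {j : Fin n},
    j ∉ D.map Prod.fst → fill D x j = x j := by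
  intro D
  induction D with
  | nil => intro x j _; rfl
  | cons l D ih =>
    intro x j hj
    rw [List.map_cons, List.mem_cons, not_or] at hj
    show fill D (Function.update x l.1 l.2) j = x j
    rw [ih _ hj.2, Function.update_of_ne hj.1]

theorem fill_mem : ∀ (D : List (Fin n × Bool)) (x : Fin n → Bool),
    (D.map Prod.fst).Nodup → ∀ l ∈ D, fill D x l.1 = l.2 := by
  intro D
  induction D with
  | nil => intro x _ l hl; simp at hl
  | cons l0 D ih =>
    intro x hD l hl
    rw [List.map_cons, List.nodup_cons] at hD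
    show fill D (Function.update x l0.1 l0.2) l.1 = l.2
    rcases List.mem_cons.1 hl with rfl | hl
    · rw [fill_not_mem D _ hD.1, Function.update_self]
    · exact ih _ hD.2 l hl

theorem mu_update_le (i : Fin n) (v : Bool) (P : (Fin n → Bool) → Bool) :
    mu (fun x => P (Function.update x i v)) ≤ 2 * mu P := by
  have h1 : mu (fun x => P (Function.update x i v)) ≤ mu P + mu (fun x => P (flp i x)) := by
    refine mu_le_add fun x hx => ?_
    rcases Bool.eq_or_eq_not (x i) v with h | h
    · left
      rwa [upd_self h] at hx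
    · right
      have : flp i x = Function.update x i v := by
        unfold flp
        rw [h, Bool.not_not]
      rw [this]; exact hx
  rw [mu_flp] at h1
  linarith

/-- Filling in literals rarely makes the target true when each of them is rarely pivotal. -/
theorem mu_fill_le {g : (Fin n → Bool) → Bool} {α : List Lit} {η : ℝ} :
    ∀ D : List (Fin n × Bool), (∀ l ∈ D, ∀ l' ∈ α, l'.1 ≠ (l.1 : ℕ)) →
      (∀ l ∈ D, mu (fun x : Fin n → Bool => sat (List.ofFn x) α && (!(g x) &&
        g (Function.update x l.1 l.2))) ≤ η) →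
      mu (fun x : Fin n → Bool => sat (List.ofFn x) α && (!(g x) && g (fill D x))) ≤
        (2 ^ D.length - 1) * η := by
  intro D
  induction D with
  | nil =>
    intro _ _
    have : mu (fun x : Fin n → Bool => sat (List.ofFn x) α && (!(g x) && g (fill [] x))) = 0 := by
      unfold mu ct
      rw [filter_false_of_mem]
      · simp
      · intro x _ hx
        have hx' : (sat (List.ofFn x) α && (!(g x) && g x)) = true := hx
        revert hx'
        cases g x <;> simp
    rw [this]
    simp
  | cons l D ih =>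
    intro hα hη
    have ih' := ih (fun l' hl' => hα l' (List.mem_cons_of_mem _ hl'))
      (fun l' hl' => hη l' (List.mem_cons_of_mem _ hl'))
    have h0 := hη l List.mem_cons_self
    set E : (Fin n → Bool) → Bool := fun x => sat (List.ofFn x) α && (!(g x) && g (fill D x))
      with hE
    have h1 : mu (fun x : Fin n → Bool => sat (List.ofFn x) α && (!(g x) &&
        g (fill (l :: D) x))) ≤ mu (fun x : Fin n → Bool => sat (List.ofFn x) α && (!(g x) &&
        g (Function.update x l.1 l.2))) + mu (fun x => E (Function.update x l.1 l.2)) := by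
      refine mu_le_add fun x hx => ?_
      have hsat : sat (List.ofFn (Function.update x l.1 l.2)) α = sat (List.ofFn x) α := by
        rcases Bool.eq_or_eq_not (x l.1) l.2 with h | h
        · rw [upd_self h]
        · have e : Function.update x l.1 l.2 = flp l.1 x := by
            unfold flp
            rw [h, Bool.not_not]
          rw [e]
          exact sat_flp (fun l' hl' => hα l List.mem_cons_self l' hl')
      have e : fill (l :: D) x = fill D (Function.update x l.1 l.2) := rfl
      rw [e, Bool.and_eq_true, Bool.and_eq_true] at hx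
      cases hg : g (Function.update x l.1 l.2) with
      | true =>
        left
        rw [Bool.and_eq_true, Bool.and_eq_true]
        exact ⟨hx.1, hx.2.1, rfl⟩
      | false =>
        right
        simp only [hE]
        rw [Bool.and_eq_true, Bool.and_eq_true, hsat, hg]
        exact ⟨hx.1, rfl, hx.2.2⟩
    have h2 := mu_update_le l.1 l.2 E
    rw [List.length_cons, pow_succ]
    have h3 : mu E ≤ (2 ^ D.length - 1) * η := ih'
    linarith

/-- **A literal outside `infl7` is rarely pivotal.** -/
theorem pivot7 {Θ : ℕ} {τ : ℝ} (hΘ : 0 < Θ) (hm : 0 < m) {f g : (Fin n → Bool) → Bool}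
    {ω : Fin m → Fin n → Bool} {α : List Lit} (hαn : ∀ l ∈ α, l.1 < n) (hrep : Rep f ω 0 τ)
    (hfg : dst f g ≤ τ) {o : Fin n → Bool} (hg : Up o g) {l : Fin n × Bool}
    (hl : ((l.1 : ℕ), l.2) ∉ infl7 Θ n (smp f ω) α) (hα : ∀ l' ∈ α, l'.1 ≠ (l.1 : ℕ)) :
    mu (fun x : Fin n → Bool => sat (List.ofFn x) α && (!(g x) &&
        g (Function.update x l.1 l.2))) ≤ 1 / Θ + 4 * τ := by
  classical
  obtain ⟨i, v⟩ := l
  have hτ0 : 0 ≤ τ := (dst_nonneg f g).trans hfg
  rcases Bool.eq_or_eq_not v (o i) with hv | hv
  · have hno : ∀ x : Fin n → Bool, x i = !v → sat (List.ofFn x) α = true → g x = true →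
        g (flp i x) = true := by
      intro x hx _ hgx
      exact up_flp hg (by rw [hx, hv]) hgx
    have h1 := pivot_identity5 (q := g) (i := i) (v := v) (Z := α) hα hno
    have h2 : mu (fun x : Fin n → Bool => sat (List.ofFn x) α && (!(g x) &&
        g (Function.update x i v))) ≤ mu (fun x => pv g [] i v α (flp i x)) := by
      refine mu_mono fun x hx => ?_
      rw [Bool.and_eq_true, Bool.and_eq_true, Bool.not_eq_true'] at hx
      have hxi : x i = !v := by
        rcases Bool.eq_or_eq_not (x i) v with h | h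
        · rw [upd_self h, hx.2.1] at hx
          exact absurd hx.2.2 (by simp)
        · exact h
      have e : Function.update x i v = flp i x := by
        unfold flp
        rw [hxi, Bool.not_not]
      rw [pv_iff, flp_flp, flp_same, sat_flp hα]
      refine ⟨by rw [hxi, Bool.not_not], ?_, rfl, hx.2.1, hx.1⟩
      rw [← e]
      exact hx.2.2
    rw [mu_flp, ← h1] at h2
    have h3 : ¬ (1 / (Θ : ℝ) ≤ em ω (ev f true (((i : ℕ), v) :: α) []) -
        em ω (ev f true (neg ((i : ℕ), v) :: α) [])) := by
      intro hc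
      exact hl ((mem_infl7 hΘ hm).2 ⟨i.2, hc⟩)
    rw [not_le] at h3
    have hb : ∀ l ∈ ((i : ℕ), v) :: α, l.1 < n := by
      intro l hl
      rcases List.mem_cons.1 hl with rfl | hl
      · exact i.2
      · exact hαn l hl
    have hb' : ∀ l ∈ neg ((i : ℕ), v) :: α, l.1 < n := by
      intro l hl
      rcases List.mem_cons.1 hl with rfl | hl
      · exact i.2
      · exact hαn l hl
    have h4 := abs_lt.1 (hrep true (((i : ℕ), v) :: α) [] hb (by simp) (by simp))
    have h5 := abs_lt.1 (hrep true (neg ((i : ℕ), v) :: α) [] hb' (by simp) (by simp))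
    have h6 := mu_ev_sub_le g f true (((i : ℕ), v) :: α) []
    have h7 := mu_ev_sub_le f g true (neg ((i : ℕ), v) :: α) []
    rw [dst_comm] at h6
    linarith
  · have h0 : mu (fun x : Fin n → Bool => sat (List.ofFn x) α && (!(g x) &&
        g (Function.update x i v))) = 0 := by
      unfold mu ct
      rw [filter_false_of_mem]
      · simp
      · intro x _ hx
        rw [Bool.and_eq_true, Bool.and_eq_true, Bool.not_eq_true'] at hx
        rcases Bool.eq_or_eq_not (x i) v with h | h
        · rw [upd_self h, hx.2.1] at hx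
          exact absurd hx.2.2 (by simp)
        · have e : Function.update x i v = flp i x := by
            unfold flp
            rw [h, Bool.not_not]
          rw [e] at hx
          have h1 := up_flp hg (i := i) (x := flp i x) (by rw [flp_same, h, Bool.not_not, hv])
            hx.2.2
          rw [flp_flp, hx.2.1] at h1
          exact Bool.noConfusion h1
    rw [h0]
    positivity

/-- **The candidate of a short term almost implies the target.** -/
theorem short7 {Θ : ℕ} {τ : ℝ} (hΘ : 0 < Θ) (hm : 0 < m) {f g : (Fin n → Bool) → Bool}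
    {ω : Fin m → Fin n → Bool} {α : List Lit} (hαn : ∀ l ∈ α, l.1 < n) (hrep : Rep f ω 0 τ)
    (hfg : dst f g ≤ τ) {o : Fin n → Bool} (hg : Up o g)
    {F : Finset (Finset (Fin n × Bool))} (hgF : ∀ x, g x = true ↔ ∃ T ∈ F, SatT T x)
    {T : Finset (Fin n × Bool)} (hT : T ∈ restr (toF n α) F) :
    mu (ev g false (((lits T).filter fun l => decide (l ∈ infl7 Θ n (smp f ω) α)) ++ α) []) ≤
      2 ^ T.card * (1 / Θ + 4 * τ) := by
  classical
  have hτ0 : 0 ≤ τ := (dst_nonneg f g).trans hfg
  set V := infl7 Θ n (smp f ω) α with hV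
  set D : List (Fin n × Bool) := (T.filter fun l => ((l.1 : ℕ), l.2) ∉ V).toList with hD
  have hTc := (restr_cons hT).1
  have hTd := (restr_cons hT).2
  have hDT : ∀ l ∈ D, l ∈ T ∧ ((l.1 : ℕ), l.2) ∉ V := by
    intro l hl
    rw [hD, mem_toList, mem_filter] at hl
    exact hl
  have hDn : (D.map Prod.fst).Nodup := by
    refine (List.nodup_map_iff_inj_on (nodup_toList _)).2 ?_
    intro l hl l' hl' h
    exact inj_of_card hTc (hDT l hl).1 (hDT l' hl').1 h
  have hDα : ∀ l ∈ D, ∀ l' ∈ α, l'.1 ≠ (l.1 : ℕ) := by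
    intro l hl l' hl' h
    refine disjoint_left.1 hTd (mem_image.2 ⟨l, (hDT l hl).1, rfl⟩) ?_
    rw [mem_vs_toF]
    exact List.mem_map.2 ⟨l', hl', h⟩
  have h1 := mu_fill_le (g := g) (α := α) (η := 1 / Θ + 4 * τ) D hDα
    (fun l hl => pivot7 hΘ hm hαn hrep hfg hg (hDT l hl).2 (hDα l hl))
  have h2 : mu (ev g false (((lits T).filter fun l => decide (l ∈ V)) ++ α) []) ≤
      mu (fun x : Fin n → Bool => sat (List.ofFn x) α && (!(g x) && g (fill D x))) := by
    refine mu_mono fun x hx => ?_
    rw [ev_iff, sat_append] at hx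
    obtain ⟨hgx, ⟨hsC, hsα⟩, _⟩ := hx
    rw [Bool.and_eq_true, Bool.and_eq_true]
    refine ⟨hsα, by rw [hgx]; rfl, ?_⟩
    have hfα : SatT (toF n α) (fill D x) := by
      intro l hl
      have h3 : (l.1 : Fin n) ∉ D.map Prod.fst := by
        intro hc
        obtain ⟨l', hl', he⟩ := List.mem_map.1 hc
        refine hDα l' hl' _ (mem_toF.1 hl) ?_
        rw [he]
      rw [fill_not_mem D x h3]
      exact (satT_toF hαn).1 hsα l hl
    rw [hgF, restr_spec hfα]
    refine ⟨T, hT, ?_⟩
    intro l hl
    by_cases hlD : l ∈ D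
    · exact fill_mem D x hDn l hlD
    · have hlV : ((l.1 : ℕ), l.2) ∈ V := by
        by_contra hc
        exact hlD (by rw [hD, mem_toList, mem_filter]; exact ⟨hl, hc⟩)
      have h3 : (l.1 : Fin n) ∉ D.map Prod.fst := by
        intro hc
        obtain ⟨l', hl', he⟩ := List.mem_map.1 hc
        have := inj_of_card hTc (hDT l' hl').1 hl he
        rw [this] at hl'
        exact hlD hl'
      rw [fill_not_mem D x h3]
      have h4 : ((l.1 : ℕ), l.2) ∈ (lits T).filter fun l => decide (l ∈ V) := by
        rw [List.mem_filter]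
        exact ⟨mem_lits.2 ⟨l, hl, rfl⟩, decide_eq_true hlV⟩
      have h5 : sat (List.ofFn x) [((l.1 : ℕ), l.2)] = true :=
        sat_mono (fun l' hl' => by rw [List.mem_singleton.1 hl']; exact h4) hsC
      rw [sat_cons, getElem?_ofFn] at h5
      obtain ⟨⟨_, h6⟩, _⟩ := h5
      exact h6
  refine h2.trans (h1.trans ?_)
  have h3 : D.length ≤ T.card := by
    rw [hD, length_toList]
    exact card_filter_le _ _
  have h4 : (2 : ℝ) ^ D.length - 1 ≤ 2 ^ T.card := by
    have : (2 : ℝ) ^ D.length ≤ 2 ^ T.card := pow_le_pow_right₀ (by norm_num) h3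
    linarith
  exact mul_le_mul_of_nonneg_right h4 (by positivity)

end Pool.Agent.H.MP_cba12a_lc
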