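import Pool.Agent.H.MP_cba12a_lc.Rel8

/-!
If no small set of variables is acceptable, and every term which has a chance to be the only
satisfied one is covered, then almost everything is covered.
-/

namespace Pool.Agent.H.MP_cba12a_lc

open Finset

variable {n : ℕ}

/-- the term `T` is the only term of `F` which holds -/
def Uq (o : Fin n → Bool) (F : Finset (Finset (Fin n))) (T : Finset (Fin n))
    (x : Fin n → Bool) : Prop := On o T x ∧ ∀ A ∈ F, A ≠ T → ¬ On o A x

theorem on_of_sdiff {o : Fin n → Bool} {A T : Finset (Fin n)} {x : Fin n → Bool}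
    (h : On o (A \ T) x) (hT : On o T x) : On o A x := by
  intro i hi
  by_cases h' : i ∈ T
  · exact hT i h'
  · exact h i (mem_sdiff.2 ⟨hi, h'⟩)

theorem on_flp_of_not_mem {o : Fin n → Bool} {A : Finset (Fin n)} {x : Fin n → Bool} {i : Fin n}
    (hi : i ∉ A) : On o A (flp i x) ↔ On o A x := by
  unfold On
  have key : ∀ j ∈ A, flp i x j = x j := by
    intro j hj
    refine flp_ne ?_ x
    intro hc
    exact hi (hc ▸ hj)
  constructor
  · intro h j hj
    rw [← key j hj]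
    exact h j hj
  · intro h j hj
    rw [key j hj]
    exact h j hj

theorem on_sOn_disj {o : Fin n → Bool} {A T : Finset (Fin n)} (x : Fin n → Bool) :
    On o (A \ T) (sOn o T x) ↔ On o (A \ T) x := by
  unfold On
  constructor
  · intro h j hj
    have := h j hj
    rwa [sOn_not_mem (mem_sdiff.1 hj).2] at this
  · intro h j hj
    rw [sOn_not_mem (mem_sdiff.1 hj).2]
    exact h j hj

section

variable {o : Fin n → Bool} {g : (Fin n → Bool) → Bool} {U : (Fin n → Bool) → Prop}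
  {F : Finset (Finset (Fin n))} {t : ℕ}

/-- few terms contain a given set of `t` variables -/
theorem card_above_le (hshare : ∀ A ∈ F, ∀ B ∈ F, A ≠ B → (A ∩ B).card ≤ t)
    {I : Finset (Fin n)} (hI : I.card = t) : (F.filter fun T => I ⊆ T).card ≤ n + 1 := by
  classical
  have key : ∀ T : Finset (Fin n), ∃ y : Option (Fin n), T ∈ F.filter (fun T => I ⊆ T) →
      ((y = none ∧ T = I) ∨ ∃ j, y = some j ∧ j ∈ T ∧ j ∉ I) := by
    intro T
    by_cases hT : T ∈ F.filter (fun T => I ⊆ T)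
    · by_cases h : T = I
      · exact ⟨none, fun _ => Or.inl ⟨rfl, h⟩⟩
      · have hne : ∃ j ∈ T, j ∉ I := by
          by_contra hcon
          push Not at hcon
          exact h (subset_antisymm hcon (mem_filter.1 hT).2)
        obtain ⟨j, hj, hjI⟩ := hne
        exact ⟨some j, fun _ => Or.inr ⟨j, rfl, hj, hjI⟩⟩
    · exact ⟨none, fun h => absurd h hT⟩
  choose φ hφ using key
  have hinj : Set.InjOn φ (F.filter (fun T => I ⊆ T) : Set (Finset (Fin n))) := by
    intro A hA B hB hAB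
    have hA' := mem_coe.1 hA
    have hB' := mem_coe.1 hB
    rcases hφ A hA' with ⟨h1, h2⟩ | ⟨j, h1, h2, h3⟩
    · rcases hφ B hB' with ⟨h4, h5⟩ | ⟨k, h4, _, _⟩
      · rw [h2, h5]
      · rw [hAB, h4] at h1
        exact absurd h1 (by simp)
    · rcases hφ B hB' with ⟨h4, _⟩ | ⟨k, h4, h5, _⟩
      · rw [hAB, h4] at h1
        exact absurd h1 (by simp)
      · rw [hAB, h4] at h1
        simp only [Option.some.injEq] at h1
        subst h1
        by_contra hne
        have h6 := hshare A (mem_filter.1 hA').1 B (mem_filter.1 hB').1 hne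
        have h7 : insert k I ⊆ A ∩ B := by
          intro i hi
          rcases mem_insert.1 hi with rfl | hi
          · exact mem_inter.2 ⟨h2, h5⟩
          · exact mem_inter.2 ⟨(mem_filter.1 hA').2 hi, (mem_filter.1 hB').2 hi⟩
        have h8 := card_le_card h7
        rw [card_insert_of_notMem h3] at h8
        omega
  calc (F.filter fun T => I ⊆ T).card ≤ (univ : Finset (Option (Fin n))).card :=
        card_le_card_of_injOn φ (fun _ _ => mem_coe.2 (mem_univ _)) hinj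
    _ = n + 1 := by simp

/-- The measure of the points at which all satisfied terms contain `I`, for a term above `I`. -/
theorem above_le (hgF : ∀ x, g x = true ↔ ∃ A ∈ F, On o A x)
    (hshare : ∀ A ∈ F, ∀ B ∈ F, A ≠ B → (A ∩ B).card ≤ t)
    {I T : Finset (Fin n)} (hI : I.card = t) (hT : T ∈ F) (hIT : I ⊆ T) :
    pr (fun x => On o T x ∧ ∀ A ∈ F, ¬ I ⊆ A → ¬ On o (A \ T) x) *
      pr (fun x => On o I x ∧ g x = false) ≤ pr (Uq o F T) := by
  have h1 : pr (fun x => On o I x ∧ g x = false) ≤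
      pr (fun x => ∀ A ∈ F, A ≠ T → I ⊆ A → ¬ On o (A \ T) x) := by
    refine pr_mono ?_
    rintro x ⟨h2, h3⟩ A hA hAT hIA hon
    have h4 : A ∩ T = I := by
      symm
      refine eq_of_subset_of_card_le (subset_inter hIA hIT) ?_
      rw [hI]
      exact hshare A hA T hT hAT
    have h5 : On o A x := by
      intro i hi
      by_cases hiT : i ∈ T
      · have : i ∈ I := by rw [← h4]; exact mem_inter.2 ⟨hi, hiT⟩
        exact h2 i this
      · exact hon i (mem_sdiff.2 ⟨hi, hiT⟩)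
    have h6 := (hgF x).2 ⟨A, hA, h5⟩
    rw [h3] at h6
    exact Bool.noConfusion h6
  have hD1 : DnP o (fun x => ∀ A ∈ F, ¬ I ⊆ A → ¬ On o (A \ T) x) :=
    fun i x h A hA hI => dnP_not_on o (A \ T) i x (h A hA hI)
  have hD2 : DnP o (fun x => ∀ A ∈ F, A ≠ T → I ⊆ A → ¬ On o (A \ T) x) :=
    fun i x h A hA h1 h2 => dnP_not_on o (A \ T) i x (h A hA h1 h2)
  have h2 := harris hD1 hD2
  have h3 := pr_on o T (fun x => ∀ A ∈ F, ¬ I ⊆ A → ¬ On o (A \ T) x)
  have h4 := pr_on o T (fun x => (∀ A ∈ F, ¬ I ⊆ A → ¬ On o (A \ T) x) ∧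
    ∀ A ∈ F, A ≠ T → I ⊆ A → ¬ On o (A \ T) x)
  simp only [on_sOn_disj] at h3 h4
  rw [h3]
  have h5 : pr (fun x => On o T x ∧ ((∀ A ∈ F, ¬ I ⊆ A → ¬ On o (A \ T) x) ∧
      ∀ A ∈ F, A ≠ T → I ⊆ A → ¬ On o (A \ T) x)) ≤ pr (Uq o F T) := by
    refine pr_mono ?_
    rintro x ⟨h6, h7, h8⟩
    refine ⟨h6, fun A hA hAT hon => ?_⟩
    by_cases hIA : I ⊆ A
    · exact h8 A hA hAT hIA (hon.mono sdiff_subset)
    · exact h7 A hA hIA (hon.mono sdiff_subset)
  rw [h4] at h5
  refine le_trans ?_ h5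
  rw [mul_assoc]
  refine mul_le_mul_of_nonneg_left ?_ (by positivity)
  refine le_trans ?_ h2
  exact mul_le_mul_of_nonneg_left h1 (pr_nonneg _)

/-- The top level. -/
theorem top_level (hgF : ∀ x, g x = true ↔ ∃ A ∈ F, On o A x)
    (hshare : ∀ A ∈ F, ∀ B ∈ F, A ≠ B → (A ∩ B).card ≤ t)
    {I : Finset (Fin n)} (hI : I.card = t) {κ σ θ : ℝ} (hκ : 0 < κ) (hσ : 0 ≤ σ) (hθ : 0 ≤ θ)
    (hneg : κ ≤ pr (fun x => On o I x ∧ g x = false))
    (hT : ∀ T ∈ F, pr (fun x => On o T x ∧ U x) ≤ σ ∨ pr (Uq o F T) ≤ θ) :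
    pr (Pv o g U I) ≤ (n + 1) * (σ + θ / κ) := by
  classical
  have h1 := pr_le_sum (F.filter fun T => I ⊆ T) (Pv o g U I)
    (fun T x => On o T x ∧ (∀ A ∈ F, ¬ I ⊆ A → ¬ On o (A \ T) x) ∧ U x) (by
      rintro x ⟨_, hgx, hUx, hpiv⟩
      obtain ⟨T, hTF, hTx⟩ := (hgF x).1 hgx
      have hmem : ∀ A ∈ F, On o A x → I ⊆ A := by
        intro A hA hAx i hi
        by_contra hiA
        have h2 := (hgF (flp i x)).2 ⟨A, hA, (on_flp_of_not_mem hiA).2 hAx⟩
        rw [hpiv i hi] at h2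
        exact Bool.noConfusion h2
      refine ⟨T, mem_filter.2 ⟨hTF, hmem T hTF hTx⟩, hTx, ?_, hUx⟩
      intro A hA hIA hon
      exact hIA (hmem A hA (on_of_sdiff hon hTx)))
  refine h1.trans ?_
  have h2 : ∀ T ∈ F.filter (fun T => I ⊆ T),
      pr (fun x => On o T x ∧ (∀ A ∈ F, ¬ I ⊆ A → ¬ On o (A \ T) x) ∧ U x) ≤ σ + θ / κ := by
    intro T hT'
    rw [mem_filter] at hT'
    have hθκ : 0 ≤ θ / κ := by positivity
    rcases hT T hT'.1 with h3 | h3
    · have h4 : pr (fun x => On o T x ∧ (∀ A ∈ F, ¬ I ⊆ A → ¬ On o (A \ T) x) ∧ U x) ≤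
          pr (fun x => On o T x ∧ U x) := pr_mono fun x h => ⟨h.1, h.2.2⟩
      linarith
    · have h4 : pr (fun x => On o T x ∧ (∀ A ∈ F, ¬ I ⊆ A → ¬ On o (A \ T) x) ∧ U x) ≤
          pr (fun x => On o T x ∧ ∀ A ∈ F, ¬ I ⊆ A → ¬ On o (A \ T) x) :=
        pr_mono fun x h => ⟨h.1, h.2.1⟩
      have h5 := above_le hgF hshare hI hT'.1 hT'.2
      have h6 : pr (fun x => On o T x ∧ ∀ A ∈ F, ¬ I ⊆ A → ¬ On o (A \ T) x) ≤ θ / κ := by
        rw [le_div_iff₀ hκ]
        refine le_trans ?_ (h5.trans h3)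
        exact mul_le_mul_of_nonneg_left hneg (pr_nonneg _)
      linarith
  calc ∑ T ∈ F.filter (fun T => I ⊆ T),
        pr (fun x => On o T x ∧ (∀ A ∈ F, ¬ I ⊆ A → ¬ On o (A \ T) x) ∧ U x) ≤
      ∑ _T ∈ F.filter (fun T => I ⊆ T), (σ + θ / κ) := sum_le_sum h2
    _ = ((F.filter (fun T => I ⊆ T)).card : ℝ) * (σ + θ / κ) := by
        rw [sum_const, nsmul_eq_mul]
    _ ≤ (n + 1) * (σ + θ / κ) := by
        refine mul_le_mul_of_nonneg_right ?_ (by positivity)
        have := card_above_le hshare hI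
        exact_mod_cast this

/-- **The structure theorem.** -/
theorem levels (hg : Up o g) (hU : DnP o U) (hgF : ∀ x, g x = true ↔ ∃ A ∈ F, On o A x)
    (hshare : ∀ A ∈ F, ∀ B ∈ F, A ≠ B → (A ∩ B).card ≤ t)
    {κ : ℕ → ℝ} {K σ : ℝ} (hK : 1 ≤ K) (hκ : ∀ s, 0 < κ s) (hκ1 : ∀ s, κ s ≤ 1)
    (hκs : ∀ s, ((n : ℝ) + 1) * κ (s + 1) ≤ κ s ^ 2) (hσ : 0 ≤ σ) (hσκ : σ ≤ κ (t + 1))
    (hrej : ∀ I : Finset (Fin n), I.card ≤ t → pr (Pv o g U I) ≤
      K * pr (fun x => On o I x ∧ (g x = false ∧ U x)) + σ)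
    (hT : ∀ T ∈ F, pr (fun x => On o T x ∧ U x) ≤ σ ∨ pr (Uq o F T) ≤ κ (t + 1)) :
    ∀ j ≤ t, ∀ I : Finset (Fin n), I.card = t - j → pr (Pv o g U I) ≤ 2 * K * κ (t - j) := by
  classical
  have hn : (0 : ℝ) ≤ n := by positivity
  have hmono : Antitone κ := by
    refine antitone_nat_of_succ_le fun s => ?_
    have h1 := hκs s
    have h2 := hκ1 s
    have h3 := hκ s
    have h4 := hκ (s + 1)
    nlinarith [mul_nonneg hn h4.le]
  have hsmall : ∀ s ≤ t, ∀ I : Finset (Fin n), I.card = s →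
      pr (fun x => On o I x ∧ (g x = false ∧ U x)) < κ s → pr (Pv o g U I) ≤ 2 * K * κ s := by
    intro s hs I hI h
    have h1 := hrej I (by omega)
    have h2 := hmono (show s ≤ t + 1 by omega)
    have h3 := hκ s
    have h4 : K * pr (fun x => On o I x ∧ (g x = false ∧ U x)) ≤ K * κ s :=
      mul_le_mul_of_nonneg_left h.le (by linarith)
    nlinarith
  intro j
  induction j with
  | zero =>
    intro _ I hI
    simp only [Nat.sub_zero] at hI ⊢
    rcases lt_or_ge (pr (fun x => On o I x ∧ (g x = false ∧ U x))) (κ t) with h | h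
    · exact hsmall t le_rfl I hI h
    · have h1 : κ t ≤ pr (fun x => On o I x ∧ g x = false) :=
        h.trans (pr_mono fun x hx => ⟨hx.1, hx.2.1⟩)
      have h2 := top_level hgF hshare hI (hκ t) hσ (hκ (t + 1)).le h1 hT
      refine h2.trans ?_
      have h3 := hκs t
      have h4 := hκ t
      have h5 := hκ1 t
      have h6 : ((n : ℝ) + 1) * (κ (t + 1) / κ t) ≤ κ t := by
        rw [← mul_div_assoc, div_le_iff₀ h4]
        linarith [sq (κ t)]
      have h7 : ((n : ℝ) + 1) * σ ≤ κ t := by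
        have h8 : ((n : ℝ) + 1) * σ ≤ (n + 1) * κ (t + 1) :=
          mul_le_mul_of_nonneg_left hσκ (by positivity)
        nlinarith
      nlinarith
  | succ j ih =>
    intro hj I hI
    rcases lt_or_ge (pr (fun x => On o I x ∧ (g x = false ∧ U x))) (κ (t - (j + 1))) with h | h
    · exact hsmall _ (Nat.sub_le _ _) I hI h
    · have h1 := rel_iso hg hU I
      have hs : t - j = t - (j + 1) + 1 := by omega
      have h2 : ∑ i ∈ univ \ I, pr (Pv o g U (insert i I)) ≤ n * (2 * K * κ (t - j)) := by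
        calc ∑ i ∈ univ \ I, pr (Pv o g U (insert i I)) ≤
            ∑ _i ∈ univ \ I, (2 * K * κ (t - j)) := by
              refine sum_le_sum fun i hi => ih (by omega) (insert i I) ?_
              rw [card_insert_of_notMem (mem_sdiff.1 hi).2, hI]
              omega
          _ = ((univ \ I).card : ℝ) * (2 * K * κ (t - j)) := by
              rw [sum_const, nsmul_eq_mul]
          _ ≤ n * (2 * K * κ (t - j)) := by
              refine mul_le_mul_of_nonneg_right ?_ ?_
              · have := card_le_univ (univ \ I)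
                rw [Fintype.card_fin] at this
                exact_mod_cast this
              · have := hκ (t - j)
                positivity
      rw [hs] at h2
      have h3 := hκs (t - (j + 1))
      have h4 := hκ (t - (j + 1))
      have h5 := hκ (t - (j + 1) + 1)
      have h6 := pr_nonneg (Pv o g U I)
      generalize pr (Pv o g U I) = P at *
      generalize κ (t - (j + 1)) = k1 at *
      generalize κ (t - (j + 1) + 1) = k2 at *
      generalize pr (fun x => On o I x ∧ (g x = false ∧ U x)) = N at *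
      have h7 : 2 * P * k1 ≤ 2 * P * N := mul_le_mul_of_nonneg_left h (by positivity)
      have h8 : 2 * K * (n * k2) ≤ 2 * K * k1 ^ 2 := by
        refine mul_le_mul_of_nonneg_left ?_ (by positivity)
        nlinarith
      have h9 : 2 * P * k1 ≤ 2 * K * k1 * k1 := by nlinarith
      have h10 : 2 * P ≤ 2 * K * k1 := le_of_mul_le_mul_right h9 h4
      linarith

/-- What remains uncovered. -/
theorem uncovered_le (hg : Up o g) (hU : DnP o U) (hgF : ∀ x, g x = true ↔ ∃ A ∈ F, On o A x)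
    (hshare : ∀ A ∈ F, ∀ B ∈ F, A ≠ B → (A ∩ B).card ≤ t)
    {κ : ℕ → ℝ} {K σ : ℝ} (hK : 1 ≤ K) (hκ : ∀ s, 0 < κ s) (hκ1 : ∀ s, κ s ≤ 1)
    (hκs : ∀ s, ((n : ℝ) + 1) * κ (s + 1) ≤ κ s ^ 2) (hσ : 0 ≤ σ) (hσκ : σ ≤ κ (t + 1))
    (hrej : ∀ I : Finset (Fin n), I.card ≤ t → pr (Pv o g U I) ≤
      K * pr (fun x => On o I x ∧ (g x = false ∧ U x)) + σ)
    (hT : ∀ T ∈ F, pr (fun x => On o T x ∧ U x) ≤ σ ∨ pr (Uq o F T) ≤ κ (t + 1)) :
    pr (fun x => g x = true ∧ U x) ≤ 2 * K * κ 0 := by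
  have h := levels hg hU hgF hshare hK hκ hκ1 hκs hσ hσκ hrej hT t le_rfl ∅ (by simp)
  rw [Nat.sub_self] at h
  refine le_trans (pr_mono ?_) h
  rintro x ⟨h1, h2⟩
  exact ⟨fun i hi => absurd hi (notMem_empty i), h1, h2, fun i hi => absurd hi (notMem_empty i)⟩

end

end Pool.Agent.H.MP_cba12a_lc
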